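import Mathlib

/-!
# Weighted sums over the elements
-/

set_option autoImplicit false

namespace Pool.Agent.Lib.MP_16c009_coR

open Finset

variable {V : Type*} [Fintype V] {z : V → ℝ}

open Classical in
/-- the value of a condition -/
noncomputable def ch (p : Prop) : ℝ := if p then 1 else 0

theorem ch_true {p : Prop} (h : p) : ch p = 1 := by simp [ch, h]

theorem ch_false {p : Prop} (h : ¬ p) : ch p = 0 := by simp [ch, h]

theorem ch_cases (p : Prop) : ch p = 0 ∨ ch p = 1 := by
  by_cases h : p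
  · exact Or.inr (ch_true h)
  · exact Or.inl (ch_false h)

theorem ch_nonneg (p : Prop) : 0 ≤ ch p := by
  rcases ch_cases p with h | h <;> rw [h]
  exact zero_le_one

theorem ch_le_one (p : Prop) : ch p ≤ 1 := by
  rcases ch_cases p with h | h <;> rw [h]
  exact zero_le_one

theorem ch_and (p q : Prop) : ch (p ∧ q) = ch p * ch q := by
  by_cases h : p <;> by_cases h' : q <;> simp [ch, h, h']

theorem ch_not (p : Prop) : ch (¬ p) = 1 - ch p := by
  by_cases h : p <;> simp [ch, h]

theorem ch_mono {p q : Prop} (h : p → q) : ch p ≤ ch q := by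
  by_cases h1 : p
  · rw [ch_true h1, ch_true (h h1)]
  · rw [ch_false h1]
    exact ch_nonneg q

theorem ch_congr {p q : Prop} (h : p ↔ q) : ch p = ch q := by
  rw [propext h]

theorem ch_sq (p : Prop) : ch p * ch p = ch p := by
  rw [← ch_and]
  exact ch_congr (and_self_iff)

/-- weighted sum over the elements -/
noncomputable def I (z : V → ℝ) (F : V → ℝ) : ℝ := ∑ a, z a * F a

theorem I_congr {F G : V → ℝ} (h : ∀ a, F a = G a) : I z F = I z G := by
  have : F = G := funext h
  rw [this]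

theorem I_add (F G : V → ℝ) : I z (fun a => F a + G a) = I z F + I z G := by
  simp only [I, mul_add, Finset.sum_add_distrib]

theorem I_sub (F G : V → ℝ) : I z (fun a => F a - G a) = I z F - I z G := by
  simp only [I, mul_sub, Finset.sum_sub_distrib]

theorem I_neg (F : V → ℝ) : I z (fun a => - F a) = - I z F := by
  simp only [I, mul_neg, Finset.sum_neg_distrib]

theorem I_zero : I z (fun _ => 0) = 0 := by
  simp [I]

theorem mul_I (c : ℝ) (F : V → ℝ) : c * I z F = I z (fun a => c * F a) := by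
  simp only [I, Finset.mul_sum]
  exact Finset.sum_congr rfl fun a _ => by ring

theorem I_mul (c : ℝ) (F : V → ℝ) : I z F * c = I z (fun a => F a * c) := by
  simp only [I, Finset.sum_mul]
  exact Finset.sum_congr rfl fun a _ => by ring

theorem I_comm (F : V → V → ℝ) :
    I z (fun a => I z (fun b => F a b)) = I z (fun b => I z (fun a => F a b)) := by
  simp only [I, Finset.mul_sum]
  rw [Finset.sum_comm]
  exact Finset.sum_congr rfl fun a _ => Finset.sum_congr rfl fun b _ => by ring

theorem I_sum {ι : Type*} (s : Finset ι) (F : ι → V → ℝ) :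
    I z (fun a => ∑ i ∈ s, F i a) = ∑ i ∈ s, I z (F i) := by
  simp only [I, Finset.mul_sum]
  exact Finset.sum_comm

theorem I_nonneg (hz : ∀ a, 0 ≤ z a) {F : V → ℝ} (h : ∀ a, 0 ≤ F a) : 0 ≤ I z F :=
  Finset.sum_nonneg fun a _ => mul_nonneg (hz a) (h a)

theorem I_mono (hz : ∀ a, 0 ≤ z a) {F G : V → ℝ} (h : ∀ a, F a ≤ G a) : I z F ≤ I z G :=
  Finset.sum_le_sum fun a _ => mul_le_mul_of_nonneg_left (h a) (hz a)

/-- double, triple, … sums -/
noncomputable def J2 (z : V → ℝ) (F : V → V → ℝ) : ℝ := I z fun a => I z fun b => F a b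

noncomputable def J3 (z : V → ℝ) (F : V → V → V → ℝ) : ℝ := I z fun a => J2 z (F a)

noncomputable def J4 (z : V → ℝ) (F : V → V → V → V → ℝ) : ℝ := I z fun a => J3 z (F a)

noncomputable def J5 (z : V → ℝ) (F : V → V → V → V → V → ℝ) : ℝ := I z fun a => J4 z (F a)

noncomputable def J6 (z : V → ℝ) (F : V → V → V → V → V → V → ℝ) : ℝ := I z fun a => J5 z (F a)

noncomputable def J7 (z : V → ℝ) (F : V → V → V → V → V → V → V → ℝ) : ℝ := I z fun a => J6 z (F a)

theorem J2_congr {F G : V → V → ℝ} (h : ∀ a b, F a b = G a b) : J2 z F = J2 z G :=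
  I_congr fun a => I_congr fun b => h a b

theorem J3_congr {F G : V → V → V → ℝ} (h : ∀ a b c, F a b c = G a b c) : J3 z F = J3 z G :=
  I_congr fun a => J2_congr (h a)

theorem J4_congr {F G : V → V → V → V → ℝ} (h : ∀ a b c d, F a b c d = G a b c d) : J4 z F = J4 z G :=
  I_congr fun a => J3_congr (h a)

theorem J7_congr {F G : V → V → V → V → V → V → V → ℝ}
    (h : ∀ a b c d e f g, F a b c d e f g = G a b c d e f g) : J7 z F = J7 z G :=
  I_congr fun a => I_congr fun b => I_congr fun c => J4_congr (h a b c)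

theorem J2_mono (hz : ∀ a, 0 ≤ z a) {F G : V → V → ℝ} (h : ∀ a b, F a b ≤ G a b) : J2 z F ≤ J2 z G :=
  I_mono hz fun a => I_mono hz fun b => h a b

theorem J3_mono (hz : ∀ a, 0 ≤ z a) {F G : V → V → V → ℝ} (h : ∀ a b c, F a b c ≤ G a b c) :
    J3 z F ≤ J3 z G :=
  I_mono hz fun a => J2_mono hz (h a)

theorem J4_mono (hz : ∀ a, 0 ≤ z a) {F G : V → V → V → V → ℝ} (h : ∀ a b c d, F a b c d ≤ G a b c d) :
    J4 z F ≤ J4 z G :=
  I_mono hz fun a => J3_mono hz (h a)

theorem J2_nonneg (hz : ∀ a, 0 ≤ z a) {F : V → V → ℝ} (h : ∀ a b, 0 ≤ F a b) : 0 ≤ J2 z F :=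
  I_nonneg hz fun a => I_nonneg hz fun b => h a b

theorem J3_nonneg (hz : ∀ a, 0 ≤ z a) {F : V → V → V → ℝ} (h : ∀ a b c, 0 ≤ F a b c) : 0 ≤ J3 z F :=
  I_nonneg hz fun a => J2_nonneg hz (h a)

theorem J4_nonneg (hz : ∀ a, 0 ≤ z a) {F : V → V → V → V → ℝ} (h : ∀ a b c d, 0 ≤ F a b c d) :
    0 ≤ J4 z F :=
  I_nonneg hz fun a => J3_nonneg hz (h a)

theorem J2_add (F G : V → V → ℝ) : J2 z (fun a b => F a b + G a b) = J2 z F + J2 z G := by
  unfold J2
  rw [← I_add]
  exact I_congr fun a => I_add _ _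

theorem J3_add (F G : V → V → V → ℝ) :
    J3 z (fun a b c => F a b c + G a b c) = J3 z F + J3 z G := by
  unfold J3
  rw [← I_add]
  exact I_congr fun a => J2_add _ _

theorem J4_add (F G : V → V → V → V → ℝ) :
    J4 z (fun a b c d => F a b c d + G a b c d) = J4 z F + J4 z G := by
  unfold J4
  rw [← I_add]
  exact I_congr fun a => J3_add _ _

theorem mul_J2 (c : ℝ) (F : V → V → ℝ) : c * J2 z F = J2 z (fun a b => c * F a b) := by
  unfold J2
  rw [mul_I]
  exact I_congr fun a => mul_I c _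

theorem mul_J3 (c : ℝ) (F : V → V → V → ℝ) : c * J3 z F = J3 z (fun a b d => c * F a b d) := by
  unfold J3
  rw [mul_I]
  exact I_congr fun a => mul_J2 c _

theorem mul_J4 (c : ℝ) (F : V → V → V → V → ℝ) : c * J4 z F = J4 z (fun a b d e => c * F a b d e) := by
  unfold J4
  rw [mul_I]
  exact I_congr fun a => mul_J3 c _

theorem J2_mul (c : ℝ) (F : V → V → ℝ) : J2 z F * c = J2 z (fun a b => F a b * c) := by
  rw [mul_comm, mul_J2]
  exact J2_congr fun a b => mul_comm _ _

theorem J3_mul (c : ℝ) (F : V → V → V → ℝ) : J3 z F * c = J3 z (fun a b d => F a b d * c) := by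
  rw [mul_comm, mul_J3]
  exact J3_congr fun a b d => mul_comm _ _

theorem J4_mul (c : ℝ) (F : V → V → V → V → ℝ) : J4 z F * c = J4 z (fun a b d e => F a b d e * c) := by
  rw [mul_comm, mul_J4]
  exact J4_congr fun a b d e => mul_comm _ _

theorem J2_swap (F : V → V → ℝ) : J2 z (fun a b => F b a) = J2 z F := I_comm _

theorem J3_swap12 (F : V → V → V → ℝ) : J3 z (fun a b c => F b a c) = J3 z F := I_comm _

theorem J3_swap23 (F : V → V → V → ℝ) : J3 z (fun a b c => F a c b) = J3 z F :=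
  I_congr fun a => J2_swap _

theorem J4_swap12 (F : V → V → V → V → ℝ) : J4 z (fun a b c d => F b a c d) = J4 z F := I_comm _

theorem J4_swap23 (F : V → V → V → V → ℝ) : J4 z (fun a b c d => F a c b d) = J4 z F :=
  I_congr fun a => J3_swap12 _

theorem J4_swap34 (F : V → V → V → V → ℝ) : J4 z (fun a b c d => F a b d c) = J4 z F :=
  I_congr fun a => J3_swap23 _

end Pool.Agent.Lib.MP_16c009_coR
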