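import Mathlib

/-!
# The structure seen from one of the two elements
-/

set_option autoImplicit false

namespace Pool.Agent.Lib.MP_16c009_coR

variable {V K Λ : Type*} {pl : V → K}

/-- Three elements in three different planes. -/
def Tr (pl : V → K) (x y z : V) : Prop := pl x ≠ pl y ∧ pl x ≠ pl z ∧ pl y ≠ pl z

/-- The structure seen from one of the two elements: `q` says that two elements are in the same row, `ln x y` is
the line through the elements `x`, `y` of two different planes. -/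
structure Side (pl : V → K) (Λ : Type*) where
  ln : V → V → Λ
  q : V → V → Prop
  q_refl : ∀ x, q x x
  q_symm : ∀ x y, q x y → q y x
  q_trans : ∀ x y z, q x y → q y z → q x z
  q_pl : ∀ x y, q x y → pl x = pl y
  ln_symm : ∀ x y, ln x y = ln y x
  ln_row : ∀ x y t, pl x ≠ pl t → q x y → ln x t = ln y t
  row_ln : ∀ s t s' t', pl s ≠ pl t → pl s' ≠ pl t' → ln s t = ln s' t' → pl s = pl s' → q s s'
  ln_ln : ∀ s t s' t', pl s ≠ pl t → pl s' ≠ pl t' → ln s t = ln s' t' → pl s ≠ pl s' → ln s s' = ln s t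

variable (S : Side pl Λ)

/-- three elements on one line -/
def Side.q3 (x y z : V) : Prop := S.ln x y = S.ln x z ∧ S.ln x y = S.ln y z

/-- `x` is on the line through `s`, `t` -/
def Side.on (s t x : V) : Prop :=
  (pl s = pl x ∧ S.q s x) ∨ (pl s ≠ pl x ∧ pl t = pl x ∧ S.q t x) ∨ (pl s ≠ pl x ∧ pl t ≠ pl x ∧ S.q3 s t x)

/-- `s`, `u` are on one line with `y` -/
def Side.sq (y s u : V) : Prop := (pl s = pl u ∧ S.q s u) ∨ (pl s ≠ pl u ∧ S.q3 y s u)

theorem q3_12 {x y w : V} (h : S.q3 x y w) : S.q3 y x w := by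
  unfold Side.q3 at *
  rw [S.ln_symm y x]
  exact ⟨h.2, h.1⟩

theorem q3_23 {x y w : V} (h : S.q3 x y w) : S.q3 x w y := by
  unfold Side.q3 at *
  rw [S.ln_symm w y]
  exact ⟨h.1.symm, h.1.symm.trans h.2⟩

theorem q3_iff {x y w : V} (h : Tr pl x y w) : S.q3 x y w ↔ S.ln x y = S.ln x w := by
  refine ⟨fun h1 => h1.1, fun h1 => ⟨h1, ?_⟩⟩
  have h2 := S.ln_ln y x w x (fun e => h.1 e.symm) (fun e => h.2.1 e.symm)
    (by rw [S.ln_symm y x, S.ln_symm w x]; exact h1) h.2.2
  rw [h2, S.ln_symm]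

theorem Tr_swap12 {x y w : V} (h : Tr pl x y w) : Tr pl y x w :=
  ⟨fun e => h.1 e.symm, h.2.2, h.2.1⟩

theorem Tr_swap23 {x y w : V} (h : Tr pl x y w) : Tr pl x w y :=
  ⟨h.2.1, h.1, fun e => h.2.2 e.symm⟩

theorem q3_row {x y a b : V} (h : Tr pl x a b) (hq : S.q x y) (h3 : S.q3 x a b) : S.q3 y a b := by
  have e1 := S.ln_row x y a h.1 hq
  have e2 := S.ln_row x y b h.2.1 hq
  exact ⟨by rw [← e1, ← e2]; exact h3.1, by rw [← e1]; exact h3.2⟩

theorem row_q3 {x y a b : V} (h : Tr pl x a b) (hp : pl x = pl y) (h3 : S.q3 x a b) (h4 : S.q3 y a b) :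
    S.q x y :=
  S.row_ln x a y a h.1 (fun e => h.1 (hp.trans e)) (h3.2.trans h4.2.symm) hp

theorem q3_four {a b c d : V} (h1 : Tr pl a b c) (h2 : Tr pl a b d) (h3 : pl c ≠ pl d) (h4 : S.q3 a b c)
    (h5 : S.q3 a b d) : S.q3 a c d :=
  (q3_iff S ⟨h1.2.1, h2.2.1, h3⟩).2 (h4.1.symm.trans h5.1)

theorem sq_iff {y s u : V} (h1 : pl y ≠ pl s) (h2 : pl y ≠ pl u) : S.sq y s u ↔ S.ln y s = S.ln y u := by
  unfold Side.sq
  by_cases h : pl s = pl u
  · constructor
    · rintro (h3 | h3)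
      · rw [S.ln_symm y s, S.ln_symm y u]
        exact S.ln_row s u y (fun e => h1 e.symm) h3.2
      · exact absurd h h3.1
    · intro h3
      refine Or.inl ⟨h, S.row_ln s y u y (fun e => h1 e.symm) (fun e => h2 e.symm) ?_ h⟩
      rw [S.ln_symm s y, S.ln_symm u y]
      exact h3
  · constructor
    · rintro (h3 | h3)
      · exact absurd h3.1 h
      · exact h3.2.1
    · intro h3
      exact Or.inr ⟨h, (q3_iff S ⟨h1, h2, h⟩).2 h3⟩

/-- an element is on the line through `s`, `t` if the line is also the line through the element and some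
other element -/
theorem on_of_ln {s t x w : V} (h1 : pl s ≠ pl t) (h2 : pl x ≠ pl w) (h : S.ln s t = S.ln x w) : S.on s t x := by
  unfold Side.on
  by_cases e1 : pl s = pl x
  · exact Or.inl ⟨e1, S.row_ln s t x w h1 h2 h e1⟩
  · by_cases e2 : pl t = pl x
    · refine Or.inr (Or.inl ⟨e1, e2, S.row_ln t s x w (fun e => h1 e.symm) h2 ?_ e2⟩)
      rw [S.ln_symm t s]
      exact h
    · refine Or.inr (Or.inr ⟨e1, e2, ?_⟩)
      exact (q3_iff S ⟨h1, e1, e2⟩).2 (S.ln_ln s t x w h1 h2 h e1).symm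

theorem ln_of_on {s t x : V} (h1 : pl s ≠ pl t) (h : S.on s t x) (h2 : pl s ≠ pl x) : S.ln s x = S.ln s t := by
  rcases h with h | h | h
  · exact absurd h.1 h2
  · rw [S.ln_symm s x, S.ln_symm s t]
    exact (S.ln_row t x s (fun e => h1 e.symm) h.2.2).symm
  · exact h.2.2.1.symm

theorem ln_of_on' {s t x : V} (h1 : pl s ≠ pl t) (h : S.on s t x) (h2 : pl t ≠ pl x) : S.ln t x = S.ln s t := by
  rcases h with h | h | h
  · rw [S.ln_symm t x]
    exact (S.ln_row s x t h1 h.2).symm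
  · exact absurd h.2.1 h2
  · exact h.2.2.2.symm

theorem on_line {s t u v : V} (h1 : pl s ≠ pl t) (h2 : pl u ≠ pl v) :
    S.ln s t = S.ln u v ↔ S.on s t u ∧ S.on s t v := by
  constructor
  · intro h
    exact ⟨on_of_ln S h1 h2 h, on_of_ln S h1 (fun e => h2 e.symm) (h.trans (S.ln_symm u v))⟩
  · rintro ⟨hu, hv⟩
    by_cases e1 : pl s = pl u
    · -- then `v` is not in the plane of `s`
      have e2 : pl s ≠ pl v := fun e => h2 (e1.symm.trans e)
      have h3 := ln_of_on S h1 hv e2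
      rcases hu with hu | hu | hu
      · rw [← h3]
        exact S.ln_row s u v e2 hu.2
      · exact absurd e1 hu.1
      · exact absurd e1 hu.1
    · have h3 := ln_of_on S h1 hu e1
      -- `ln s u = ln s t`
      by_cases e2 : pl s = pl v
      · rcases hv with hv | hv | hv
        · rw [← h3, S.ln_symm u v]
          exact S.ln_row s v u e1 hv.2
        · exact absurd e2 hv.1
        · exact absurd e2 hv.1
      · have h4 := ln_of_on S h1 hv e2
        have h5 : S.q3 s u v := (q3_iff S ⟨e1, e2, h2⟩).2 (h3.trans h4.symm)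
        rw [← h3]
        exact h5.2

theorem on_congr {s t u v x : V} (h1 : pl s ≠ pl t) (h2 : pl u ≠ pl v) (h : S.ln s t = S.ln u v) :
    S.on s t x ↔ S.on u v x := by
  have key : ∀ {s t u v : V}, pl s ≠ pl t → pl u ≠ pl v → S.ln s t = S.ln u v → S.on s t x → S.on u v x := by
    intro s t u v h1 h2 h hx
    by_cases e1 : pl s = pl x
    · have e2 : pl t ≠ pl x := fun e => h1 (e1.trans e.symm)
      have h3 := ln_of_on' S h1 hx e2
      exact on_of_ln S h2 (w := t) (fun e => e2 e.symm) (by rw [← h, ← h3, S.ln_symm])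
    · have h3 := ln_of_on S h1 hx e1
      exact on_of_ln S h2 (w := s) (fun e => e1 e.symm) (by rw [← h, ← h3, S.ln_symm])
  exact ⟨key h1 h2 h, key h2 h1 h.symm⟩

end Pool.Agent.Lib.MP_16c009_coR
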