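import Pool.Agent.Lib.MP_16c009_coR.KB
import Pool.Agent.Lib.MP_16c009_coR.A2

/-!
# The codes of seven elements
-/

set_option autoImplicit false

namespace Pool.Agent.Lib.MP_16c009_coR

theorem tb_eq (c m : ℕ) : tb c m = c.testBit m := by
  have h : Nat.land (Nat.shiftRight c m) 1 = (c >>> m) % 2 := Nat.and_one_is_mod _
  unfold tb
  rw [h, Nat.testBit_eq_decide_div_mod_eq, Nat.shiftRight_eq_div_pow, Bool.eq_iff_iff, Nat.beq_eq,
    decide_eq_true_iff]

theorem sub_iff (c m : ℕ) : sub c m = true ↔ ∀ i, m.testBit i = true → c.testBit i = true := by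
  unfold sub
  rw [Nat.beq_eq]
  constructor
  · intro h i hi
    have h1 : (c &&& m).testBit i = m.testBit i := congrArg (fun x => Nat.testBit x i) h
    rw [Nat.testBit_and, hi, Bool.and_true] at h1
    exact h1
  · intro h
    show c &&& m = m
    refine Nat.eq_of_testBit_eq fun i => ?_
    rw [Nat.testBit_and]
    cases hm : m.testBit i with
    | false => exact Bool.and_false _
    | true => rw [h i hm, Bool.and_true]

theorem sub_lor (c a b : ℕ) : sub c (Nat.lor a b) = (sub c a && sub c b) := by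
  rw [Bool.eq_iff_iff, Bool.and_eq_true, sub_iff, sub_iff, sub_iff]
  constructor
  · intro h
    refine ⟨fun i hi => h i ?_, fun i hi => h i ?_⟩
    · show (a ||| b).testBit i = true
      rw [Nat.testBit_or, hi, Bool.true_or]
    · show (a ||| b).testBit i = true
      rw [Nat.testBit_or, hi, Bool.or_true]
  · rintro ⟨h1, h2⟩ i hi
    have h3 : (a ||| b).testBit i = true := hi
    rw [Nat.testBit_or, Bool.or_eq_true] at h3
    exact h3.elim (h1 i) (h2 i)

theorem sub_pow (c m : ℕ) : sub c (Nat.pow 2 m) = c.testBit m := by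
  rw [Bool.eq_iff_iff, sub_iff]
  constructor
  · intro h
    exact h m (by show (2 ^ m).testBit m = true; exact Nat.testBit_two_pow_self)
  · intro h i hi
    have h1 : (2 ^ m).testBit i = true := hi
    rw [Nat.testBit_two_pow] at h1
    rw [← of_decide_eq_true h1]
    exact h

theorem sub_zero (c : ℕ) : sub c 0 = true := by
  rw [sub_iff]
  intro i hi
  rw [Nat.zero_testBit] at hi
  exact absurd hi (by decide)

/-- the slots in the set number `m` -/
def bs (m : ℕ) : Finset (Fin 7) := Finset.univ.filter fun i => m.testBit i = true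

theorem mem_bs {m : ℕ} {i : Fin 7} : i ∈ bs m ↔ m.testBit i = true := by
  unfold bs
  rw [Finset.mem_filter]
  exact ⟨fun h => h.2, fun h => ⟨Finset.mem_univ _, h⟩⟩

theorem bs_m2 : ∀ i j : Fin 7, i ≠ j → bs (m2 i j) = {i, j} := by
  decide +kernel

theorem bs_m3 : ∀ i j k : Fin 7, i ≠ j → i ≠ k → j ≠ k → bs (m3 i j k) = {i, j, k} := by
  decide +kernel

theorem m2_lt : ∀ i j : Fin 7, i ≠ j → m2 i j < 128 := by
  decide +kernel

theorem m3_lt : ∀ i j k : Fin 7, i ≠ j → i ≠ k → j ≠ k → m3 i j k < 128 := by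
  decide +kernel

variable {V K Λ : Type*}

/-- the slots of `m` are two slots in one plane -/
def PB (pl : V → K) (p : Fin 7 → V) (m : ℕ) : Prop :=
  (bs m).card = 2 ∧ ∀ i ∈ bs m, ∀ j ∈ bs m, pl (p i) = pl (p j)

/-- the slots of `m` are two slots in one row or three slots on one line -/
def QB {pl : V → K} (S : Side pl Λ) (p : Fin 7 → V) (m : ℕ) : Prop :=
  ((bs m).card = 2 ∧ ∀ i ∈ bs m, ∀ j ∈ bs m, S.q (p i) (p j)) ∨
    ((bs m).card = 3 ∧ (∀ i ∈ bs m, ∀ j ∈ bs m, i ≠ j → pl (p i) ≠ pl (p j)) ∧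
      ∀ i ∈ bs m, ∀ j ∈ bs m, ∀ k ∈ bs m, i ≠ j → i ≠ k → j ≠ k → S.q3 (p i) (p j) (p k))

open Classical in
/-- the plane code -/
noncomputable def plc (pl : V → K) (p : Fin 7 → V) : ℕ := Nat.ofBits fun m : Fin 128 => decide (PB pl p m)

open Classical in
/-- the line code -/
noncomputable def qc {pl : V → K} (S : Side pl Λ) (p : Fin 7 → V) : ℕ :=
  Nat.ofBits fun m : Fin 128 => decide (QB S p m)

variable {pl : V → K} (S : Side pl Λ) (p : Fin 7 → V)

theorem plc_testBit {m : ℕ} : (plc pl p).testBit m = true ↔ m < 128 ∧ PB pl p m := by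
  classical
  unfold plc
  by_cases h : m < 128
  · rw [Nat.testBit_ofBits_lt _ _ h, decide_eq_true_iff]
    exact ⟨fun h1 => ⟨h, h1⟩, fun h1 => h1.2⟩
  · rw [Nat.testBit_ofBits_ge _ _ (not_lt.1 h)]
    exact ⟨fun h1 => absurd h1 (by decide), fun h1 => absurd h1.1 h⟩

theorem qc_testBit {m : ℕ} : (qc S p).testBit m = true ↔ m < 128 ∧ QB S p m := by
  classical
  unfold qc
  by_cases h : m < 128
  · rw [Nat.testBit_ofBits_lt _ _ h, decide_eq_true_iff]
    exact ⟨fun h1 => ⟨h, h1⟩, fun h1 => h1.2⟩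
  · rw [Nat.testBit_ofBits_ge _ _ (not_lt.1 h)]
    exact ⟨fun h1 => absurd h1 (by decide), fun h1 => absurd h1.1 h⟩

theorem sp_iff {i j : Fin 7} (h : i ≠ j) : sp (plc pl p) i j = true ↔ pl (p i) = pl (p j) := by
  unfold sp
  rw [tb_eq, plc_testBit]
  unfold PB
  rw [bs_m2 i j h]
  constructor
  · rintro ⟨-, -, h1⟩
    exact h1 i (by simp) j (by simp)
  · intro h1
    refine ⟨m2_lt i j h, Finset.card_pair h, ?_⟩
    intro a ha b hb
    simp only [Finset.mem_insert, Finset.mem_singleton] at ha hb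
    rcases ha with rfl | rfl <;> rcases hb with rfl | rfl <;> first | rfl | exact h1 | exact h1.symm

theorem tr_iff {i j k : Fin 7} (h : i ≠ j) (h' : i ≠ k) (h'' : j ≠ k) :
    tr (plc pl p) i j k = true ↔ Tr pl (p i) (p j) (p k) := by
  unfold tr Tr
  have e1 := sp_iff (pl := pl) p h
  have e2 := sp_iff (pl := pl) p h'
  have e3 := sp_iff (pl := pl) p h''
  rw [Bool.and_eq_true, Bool.and_eq_true, Bool.not_eq_true', Bool.not_eq_true', Bool.not_eq_true',
    ← Bool.not_eq_true, ← Bool.not_eq_true, ← Bool.not_eq_true, e1, e2, e3, and_assoc]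

theorem subq_f2 {i j : Fin 7} (h : i ≠ j) : sub (qc S p) (f2 i j) = true ↔ S.q (p i) (p j) := by
  unfold f2
  rw [sub_pow, qc_testBit]
  unfold QB
  rw [bs_m2 i j h, Finset.card_pair h]
  constructor
  · rintro ⟨-, h1 | h1⟩
    · exact h1.2 i (by simp) j (by simp)
    · exact absurd h1.1 (by decide)
  · intro h1
    refine ⟨m2_lt i j h, Or.inl ⟨rfl, ?_⟩⟩
    intro a ha b hb
    simp only [Finset.mem_insert, Finset.mem_singleton] at ha hb
    rcases ha with rfl | rfl <;> rcases hb with rfl | rfl <;>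
      first | exact S.q_refl _ | exact h1 | exact S.q_symm _ _ h1

theorem card3 {i j k : Fin 7} (h : i ≠ j) (h' : i ≠ k) (h'' : j ≠ k) : ({i, j, k} : Finset (Fin 7)).card = 3 := by
  rw [Finset.card_insert_of_notMem, Finset.card_pair h'']
  simp only [Finset.mem_insert, Finset.mem_singleton, not_or]
  exact ⟨h, h'⟩

theorem subq_f3 {i j k : Fin 7} (h : i ≠ j) (h' : i ≠ k) (h'' : j ≠ k) :
    sub (qc S p) (f3 i j k) = true ↔ Tr pl (p i) (p j) (p k) ∧ S.q3 (p i) (p j) (p k) := by
  unfold f3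
  rw [sub_pow, qc_testBit]
  unfold QB
  rw [bs_m3 i j k h h' h'', card3 h h' h'']
  constructor
  · rintro ⟨-, h1 | h1⟩
    · exact absurd h1.1 (by decide)
    · exact ⟨⟨h1.2.1 i (by simp) j (by simp) h, h1.2.1 i (by simp) k (by simp) h',
        h1.2.1 j (by simp) k (by simp) h''⟩, h1.2.2 i (by simp) j (by simp) k (by simp) h h' h''⟩
  · rintro ⟨⟨t1, t2, t3⟩, h1⟩
    have g1 := q3_12 S h1
    have g2 := q3_23 S h1
    refine ⟨m3_lt i j k h h' h'', Or.inr ⟨rfl, ?_, ?_⟩⟩
    · intro a ha b hb hab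
      simp only [Finset.mem_insert, Finset.mem_singleton] at ha hb
      rcases ha with rfl | rfl | rfl <;> rcases hb with rfl | rfl | rfl <;>
        first
        | exact absurd rfl hab | exact t1 | exact t2 | exact t3
        | exact fun e => t1 e.symm | exact fun e => t2 e.symm | exact fun e => t3 e.symm
    · intro a ha b hb c hc hab hac hbc
      simp only [Finset.mem_insert, Finset.mem_singleton] at ha hb hc
      rcases ha with rfl | rfl | rfl <;> rcases hb with rfl | rfl | rfl <;>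
        rcases hc with rfl | rfl | rfl <;>
        first
        | exact absurd rfl hab | exact absurd rfl hac | exact absurd rfl hbc
        | exact h1 | exact g1 | exact g2 | exact q3_23 S g1 | exact q3_12 S g2
        | exact q3_12 S (q3_23 S g1)

/-- The feature for three elements in two or three planes. -/
theorem sub_sqf {y s u : Fin 7} (h1 : y ≠ s) (h2 : y ≠ u) (h3 : s ≠ u) (hy : pl (p y) ≠ pl (p s))
    (hy' : pl (p y) ≠ pl (p u)) :
    sub (qc S p) (sqf (plc pl p) y s u) = true ↔ S.ln (p y) (p s) = S.ln (p y) (p u) := by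
  rw [← sq_iff S hy hy']
  unfold sqf Side.sq
  have e1 := sp_iff (pl := pl) p h3
  by_cases h : pl (p s) = pl (p u)
  · rw [e1.2 h, cond_true, subq_f2 S p h3]
    exact ⟨fun h4 => Or.inl ⟨h, h4⟩, fun h4 => h4.elim (fun h5 => h5.2) (fun h5 => absurd h h5.1)⟩
  · have h4 : sp (plc pl p) s u = false := by
      rw [← Bool.not_eq_true]
      exact fun h5 => h (e1.1 h5)
    rw [h4, cond_false, subq_f3 S p h1 h2 h3]
    exact ⟨fun h5 => Or.inr ⟨h, h5.2⟩,
      fun h5 => h5.elim (fun h6 => absurd h6.1 h) (fun h6 => ⟨⟨hy, hy', h⟩, h6.2⟩)⟩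

theorem sub_onf {s t x : Fin 7} (h1 : s ≠ t) (h2 : s ≠ x) (h3 : t ≠ x) (hst : pl (p s) ≠ pl (p t)) :
    sub (qc S p) (onf (plc pl p) s t x) = true ↔ S.on (p s) (p t) (p x) := by
  unfold onf Side.on
  have e1 := sp_iff (pl := pl) p h2
  have e2 := sp_iff (pl := pl) p h3
  by_cases h : pl (p s) = pl (p x)
  · rw [e1.2 h, cond_true, subq_f2 S p h2]
    refine ⟨fun h4 => Or.inl ⟨h, h4⟩, ?_⟩
    rintro (h4 | h4 | h4)
    · exact h4.2
    · exact absurd h h4.1
    · exact absurd h h4.1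
  · have h4 : sp (plc pl p) s x = false := by
      rw [← Bool.not_eq_true]
      exact fun h5 => h (e1.1 h5)
    rw [h4, cond_false]
    by_cases h' : pl (p t) = pl (p x)
    · rw [e2.2 h', cond_true, subq_f2 S p h3]
      refine ⟨fun h4 => Or.inr (Or.inl ⟨h, h', h4⟩), ?_⟩
      rintro (h4 | h4 | h4)
      · exact absurd h4.1 h
      · exact h4.2.2
      · exact absurd h' h4.2.1
    · have h5 : sp (plc pl p) t x = false := by
        rw [← Bool.not_eq_true]
        exact fun h6 => h' (e2.1 h6)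
      rw [h5, cond_false, subq_f3 S p h1 h2 h3]
      refine ⟨fun h4 => Or.inr (Or.inr ⟨h, h', h4.2⟩), ?_⟩
      rintro (h4 | h4 | h4)
      · exact absurd h4.1 h
      · exact absurd h4.2.1 h'
      · exact ⟨⟨hst, h, h'⟩, h4.2.2⟩

end Pool.Agent.Lib.MP_16c009_coR
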