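import Pool.Agent.Lib.MP_16c009_coR.KD
import Pool.Agent.Lib.MP_16c009_coR.A1
import Pool.Agent.Lib.MP_16c009_coR.A3

/-!
# The templates as functions of seven elements
-/

set_option autoImplicit false
set_option linter.unusedSectionVars false

namespace Pool.Agent.Lib.MP_16c009_coR

theorem A4_cond {b : Bool} {P : Prop} (h : b = true ↔ P) (l : List Kt) (q r : ℕ) (F : ℝ)
    (hF : P → (((l.map (evK q r)).sum : ℤ) : ℝ) = F) :
    ((((cond b l []).map (evK q r)).sum : ℤ) : ℝ) = ch P * F := by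
  cases b with
  | true =>
    have hP : P := h.1 rfl
    rw [ch_true hP, one_mul, cond_true]
    exact hF hP
  | false =>
    have hP : ¬ P := fun h1 => absurd (h.2 h1) (by decide)
    rw [ch_false hP, zero_mul, cond_false]
    simp

theorem A4_bi {c m : ℕ} {P : Prop} (h : sub c m = true ↔ P) : ((bi c m : ℤ) : ℝ) = ch P := by
  by_cases h1 : sub c m = true
  · rw [bi_true h1, ch_true (h.1 h1)]
    simp
  · rw [bi_false (by simpa using h1), ch_false (fun h2 => h1 (h.2 h2))]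
    simp

theorem A4_or (P Q : Prop) : ch (P ∨ Q) = ch P + ch Q - ch P * ch Q := by
  by_cases h : P <;> by_cases h' : Q <;> simp [ch, h, h']

variable {V K Λ Λ' : Type*} {pl : V → K}

/-- the inner product of the differences of the classes of the lines through `y` -/
noncomputable def Side.ip (S : Side pl Λ) (y s t u v : V) : ℝ :=
  ch (S.ln y s = S.ln y u) - ch (S.ln y s = S.ln y v) - ch (S.ln y t = S.ln y u) + ch (S.ln y t = S.ln y v)

/-- `s`, `t` are on one of the two lines through `a`, `b` -/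
noncomputable def okl (S : Side pl Λ) (R : Side pl Λ') (a b s t : V) : ℝ :=
  ch ((S.on a b s ∧ S.on a b t) ∨ (R.on a b s ∧ R.on a b t))

/-- the third kind of squares -/
noncomputable def GX (S : Side pl Λ) (y o a s t u v : V) : ℝ :=
  ch (¬ S.q y o) * (ch (S.on s t a) * ch (S.ln s t = S.ln u v)) * ch (¬ S.q3 s t o)

theorem A4_f2 (S : Side pl Λ) (p : Fin 7 → V) {i j : Fin 7} (h : i ≠ j) :
    ((bi (qc S p) (f2 i j) : ℤ) : ℝ) = ch (S.q (p i) (p j)) :=
  A4_bi (subq_f2 S p h)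

theorem A4_f3 (S : Side pl Λ) (p : Fin 7 → V) {i j k : Fin 7} (h : i ≠ j) (h' : i ≠ k) (h'' : j ≠ k)
    (hT : Tr pl (p i) (p j) (p k)) :
    ((bi (qc S p) (f3 i j k) : ℤ) : ℝ) = ch (S.q3 (p i) (p j) (p k)) := by
  refine A4_bi ((subq_f3 S p h h' h'').trans ?_)
  exact ⟨fun h1 => h1.2, fun h1 => ⟨hT, h1⟩⟩

theorem A4_sq (S : Side pl Λ) (p : Fin 7 → V) {y s u : Fin 7} (h1 : y ≠ s) (h2 : y ≠ u) (h3 : s ≠ u)
    (hy : pl (p y) ≠ pl (p s)) (hy' : pl (p y) ≠ pl (p u)) :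
    ((bi (qc S p) (sqf (plc pl p) y s u) : ℤ) : ℝ) = ch (S.ln (p y) (p s) = S.ln (p y) (p u)) :=
  A4_bi (sub_sqf S p h1 h2 h3 hy hy')

theorem A4_ok (S : Side pl Λ) (R : Side pl Λ') (p : Fin 7 → V) {a b s t : Fin 7} (hab : a ≠ b) (has : a ≠ s)
    (hat : a ≠ t) (hbs : b ≠ s) (hbt : b ≠ t) (hp : pl (p a) ≠ pl (p b)) :
    ((okM (qc S p) (qc R p) (Nat.lor (onf (plc pl p) a b s) (onf (plc pl p) a b t)) : ℤ) : ℝ) =
      okl S R (p a) (p b) (p s) (p t) := by
  have e1 : ((bi (qc S p) (Nat.lor (onf (plc pl p) a b s) (onf (plc pl p) a b t)) : ℤ) : ℝ) =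
      ch (S.on (p a) (p b) (p s) ∧ S.on (p a) (p b) (p t)) := by
    refine A4_bi ?_
    rw [sub_lor, Bool.and_eq_true, sub_onf S p hab has hbs hp, sub_onf S p hab hat hbt hp]
  have e2 : ((bi (qc R p) (Nat.lor (onf (plc pl p) a b s) (onf (plc pl p) a b t)) : ℤ) : ℝ) =
      ch (R.on (p a) (p b) (p s) ∧ R.on (p a) (p b) (p t)) := by
    refine A4_bi ?_
    rw [sub_lor, Bool.and_eq_true, sub_onf R p hab has hbs hp, sub_onf R p hab hat hbt hp]
  unfold okM okl
  rw [A4_or, ← e1, ← e2]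
  push_cast
  ring

theorem A4_ln (S : Side pl Λ) (p : Fin 7 → V) {s t a u v : Fin 7} (hst : s ≠ t) (hsa : s ≠ a) (hta : t ≠ a)
    (hsu : s ≠ u) (htu : t ≠ u) (hsv : s ≠ v) (htv : t ≠ v) (hp : pl (p s) ≠ pl (p t)) (hp' : pl (p u) ≠ pl (p v)) :
    ((bi (qc S p) (lnf (plc pl p) s t a u v) : ℤ) : ℝ) =
      ch (S.on (p s) (p t) (p a)) * ch (S.ln (p s) (p t) = S.ln (p u) (p v)) := by
  rw [← ch_and]
  refine A4_bi ?_
  unfold lnf
  rw [sub_lor, sub_lor, Bool.and_eq_true, Bool.and_eq_true, sub_onf S p hst hsa hta hp,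
    sub_onf S p hst hsu htu hp, sub_onf S p hst hsv htv hp, on_line S hp hp']

theorem A4_qd (S : Side pl Λ) (p : Fin 7 → V) {y s t u v : Fin 7} (hys : y ≠ s) (hyt : y ≠ t) (hyu : y ≠ u)
    (hyv : y ≠ v) (hsu : s ≠ u) (hsv : s ≠ v) (htu : t ≠ u) (htv : t ≠ v)
    (h1 : pl (p y) ≠ pl (p s)) (h2 : pl (p y) ≠ pl (p t)) (h3 : pl (p y) ≠ pl (p u)) (h4 : pl (p y) ≠ pl (p v)) :
    ((qd (qc S p) (sqf (plc pl p) y s u) (sqf (plc pl p) y s v) (sqf (plc pl p) y t u) (sqf (plc pl p) y t v) : ℤ) : ℝ) =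
      S.ip (p y) (p s) (p t) (p u) (p v) := by
  unfold qd Side.ip
  rw [← A4_sq S p hys hyu hsu h1 h3, ← A4_sq S p hys hyv hsv h1 h4, ← A4_sq S p hyt hyu htu h2 h3,
    ← A4_sq S p hyt hyv htv h2 h4]
  push_cast
  ring

variable (S : Side pl Λ) (R : Side pl Λ')

/-- The templates. -/
noncomputable def FF (j : ℕ) (a b c d e f g : V) : ℝ :=
  match j with
  | 0 => ch (Tr pl a b c ∧ pl d ≠ pl e ∧ pl f ≠ pl g) * (16 * ch (¬ S.q3 a b c) * ch (¬ R.q3 a b c))
  | 1 => ch (pl a = pl b ∧ pl a ≠ pl c ∧ pl d ≠ pl e ∧ pl f ≠ pl g) * (16 * ch (¬ S.q a b) * ch (¬ R.q a b))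
  | 2 => ch (Tr pl a b c ∧ pl d ≠ pl e ∧ pl f = pl g) *
      (16 * ch (¬ S.q3 a b c) * ch (¬ R.q f g) + 16 * ch (¬ S.q f g) * ch (¬ R.q3 a b c))
  | 3 => ch (pl a = pl b ∧ pl a ≠ pl c ∧ pl d ≠ pl e ∧ pl f = pl g) *
      (16 * ch (¬ S.q a b) * ch (¬ R.q f g) + 16 * ch (¬ S.q f g) * ch (¬ R.q a b))
  | 4 => ch (Tr pl a b c ∧ Tr pl d e f) * (-16 * ch (¬ S.q3 a b c) * ch (¬ R.q3 d e f))
  | 5 => ch (Tr pl a b c ∧ pl d = pl e ∧ pl d ≠ pl f) *
      (-16 * ch (¬ S.q3 a b c) * ch (¬ R.q d e) + -16 * ch (¬ S.q d e) * ch (¬ R.q3 a b c))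
  | 6 => ch (pl a = pl b ∧ pl a ≠ pl c ∧ pl d = pl e ∧ pl d ≠ pl f) * (-16 * ch (¬ S.q a b) * ch (¬ R.q d e))
  | 7 => ch (pl a = pl b ∧ pl a = pl c ∧ pl a = pl d ∧ pl a = pl e ∧ pl a ≠ pl f ∧ pl a ≠ pl g) *
      (-32 * ch (¬ S.q a b) * ch (¬ R.q c d))
  | 8 => ch (pl a = pl b ∧ pl a = pl c ∧ pl a = pl d ∧ pl a ≠ pl e ∧ pl a ≠ pl f ∧ pl a ≠ pl g ∧ pl f ≠ pl g) *
      (-32 * ch (¬ S.q a b) * ch (¬ R.q c d))
  | 9 => ch (pl a = pl b ∧ pl a = pl c ∧ pl a ≠ pl d ∧ pl a ≠ pl e ∧ pl d ≠ pl e ∧ pl a ≠ pl f ∧ pl a ≠ pl g ∧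
      pl f ≠ pl g) * (-16 * ch (¬ S.q a b) * ch (¬ R.q a b))
  | 10 => ch (pl b ≠ pl c ∧ pl a ≠ pl d ∧ pl a ≠ pl e ∧ pl a ≠ pl f ∧ pl a ≠ pl g ∧ pl d ≠ pl e ∧ pl f ≠ pl g) *
      (-4 * okl S R b c d e * okl S R b c f g * S.ip a d e f g * R.ip a d e f g)
  | 11 => ch (pl a = pl b ∧ pl a ≠ pl c ∧ pl a ≠ pl d ∧ pl a ≠ pl e ∧ pl a ≠ pl f ∧ pl a ≠ pl g ∧ pl d ≠ pl e ∧
      pl f ≠ pl g) * (-(GX S a b c d e f g) * S.ip a d e f g * R.ip a d e f g +
        -(GX R a b c d e f g) * S.ip a d e f g * R.ip a d e f g)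
  | _ => 0

variable (p : Fin 7 → V)

/-- The value of template `j` at the seven slots `x` (all different) is the value of the function at the seven
elements. -/
theorem tm_sound (j : ℕ) (x0 x1 x2 x3 x4 x5 x6 : Fin 7) (hx : [x0, x1, x2, x3, x4, x5, x6].Nodup) :
    ((((tm (plc pl p) j x0 x1 x2 x3 x4 x5 x6).map (evK (qc S p) (qc R p))).sum : ℤ) : ℝ) =
      FF S R j (p x0) (p x1) (p x2) (p x3) (p x4) (p x5) (p x6) := by
  simp only [List.nodup_cons, List.mem_cons, List.not_mem_nil, or_false, not_or, List.nodup_nil, and_true,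
    not_false_eq_true] at hx
  obtain ⟨⟨h01, h02, h03, h04, h05, h06⟩, ⟨h12, h13, h14, h15, h16⟩, ⟨h23, h24, h25, h26⟩, ⟨h34, h35, h36⟩,
    ⟨h45, h46⟩, h56⟩ := hx
  have S01 := sp_iff (pl := pl) p h01
  have S02 := sp_iff (pl := pl) p h02
  have S03 := sp_iff (pl := pl) p h03
  have S04 := sp_iff (pl := pl) p h04
  have S05 := sp_iff (pl := pl) p h05
  have S06 := sp_iff (pl := pl) p h06
  have S12 := sp_iff (pl := pl) p h12
  have S34 := sp_iff (pl := pl) p h34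
  have S35 := sp_iff (pl := pl) p h35
  have S56 := sp_iff (pl := pl) p h56
  have T012 := tr_iff (pl := pl) p h01 h02 h12
  have T345 := tr_iff (pl := pl) p h34 h35 h45
  match j with
  | 0 =>
    refine A4_cond ?_ _ _ _ _ ?_
    · simp only [Bool.and_eq_true, Bool.not_eq_true', ← Bool.not_eq_true, S34, S56, T012, and_assoc, ne_eq]
    · rintro ⟨hT, -, -⟩
      simp only [List.map_cons, List.map_nil, List.sum_cons, List.sum_nil, evK, add_zero]
      push_cast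
      rw [A4_f3 S p h01 h02 h12 hT, A4_f3 R p h01 h02 h12 hT, ch_not, ch_not]
  | 1 =>
    refine A4_cond ?_ _ _ _ _ ?_
    · simp only [Bool.and_eq_true, Bool.not_eq_true', ← Bool.not_eq_true, S01, S02, S34, S56, and_assoc, ne_eq]
    · rintro -
      simp only [List.map_cons, List.map_nil, List.sum_cons, List.sum_nil, evK, add_zero]
      push_cast
      rw [A4_f2 S p h01, A4_f2 R p h01, ch_not, ch_not]
  | 2 =>
    refine A4_cond ?_ _ _ _ _ ?_
    · simp only [Bool.and_eq_true, Bool.not_eq_true', ← Bool.not_eq_true, S34, S56, T012, and_assoc, ne_eq]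
    · rintro ⟨hT, -, -⟩
      simp only [List.map_cons, List.map_nil, List.sum_cons, List.sum_nil, evK, add_zero]
      push_cast
      rw [A4_f3 S p h01 h02 h12 hT, A4_f3 R p h01 h02 h12 hT, A4_f2 S p h56, A4_f2 R p h56]
      simp only [ch_not]
  | 3 =>
    refine A4_cond ?_ _ _ _ _ ?_
    · simp only [Bool.and_eq_true, Bool.not_eq_true', ← Bool.not_eq_true, S01, S02, S34, S56, and_assoc, ne_eq]
    · rintro -
      simp only [List.map_cons, List.map_nil, List.sum_cons, List.sum_nil, evK, add_zero]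
      push_cast
      rw [A4_f2 S p h01, A4_f2 R p h01, A4_f2 S p h56, A4_f2 R p h56]
      simp only [ch_not]
  | 4 =>
    refine A4_cond ?_ _ _ _ _ ?_
    · simp only [Bool.and_eq_true, T012, T345]
    · rintro ⟨hT, hT'⟩
      simp only [List.map_cons, List.map_nil, List.sum_cons, List.sum_nil, evK, add_zero]
      push_cast
      rw [A4_f3 S p h01 h02 h12 hT, A4_f3 R p h34 h35 h45 hT']
      simp only [ch_not]
  | 5 =>
    refine A4_cond ?_ _ _ _ _ ?_
    · simp only [Bool.and_eq_true, Bool.not_eq_true', ← Bool.not_eq_true, S34, S35, T012, and_assoc, ne_eq]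
    · rintro ⟨hT, -, -⟩
      simp only [List.map_cons, List.map_nil, List.sum_cons, List.sum_nil, evK, add_zero]
      push_cast
      rw [A4_f3 S p h01 h02 h12 hT, A4_f3 R p h01 h02 h12 hT, A4_f2 S p h34, A4_f2 R p h34]
      simp only [ch_not]
  | 6 =>
    refine A4_cond ?_ _ _ _ _ ?_
    · simp only [Bool.and_eq_true, Bool.not_eq_true', ← Bool.not_eq_true, S01, S02, S34, S35, and_assoc, ne_eq]
    · rintro -
      simp only [List.map_cons, List.map_nil, List.sum_cons, List.sum_nil, evK, add_zero]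
      push_cast
      rw [A4_f2 S p h01, A4_f2 R p h34]
      simp only [ch_not]
  | 7 =>
    refine A4_cond ?_ _ _ _ _ ?_
    · simp only [Bool.and_eq_true, Bool.not_eq_true', ← Bool.not_eq_true, S01, S02, S03, S04, S05, S06, and_assoc, ne_eq]
    · rintro -
      simp only [List.map_cons, List.map_nil, List.sum_cons, List.sum_nil, evK, add_zero]
      push_cast
      rw [A4_f2 S p h01, A4_f2 R p h23]
      simp only [ch_not]
  | 8 =>
    refine A4_cond ?_ _ _ _ _ ?_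
    · simp only [Bool.and_eq_true, Bool.not_eq_true', ← Bool.not_eq_true, S01, S02, S03, S04, S05, S06, S56, and_assoc, ne_eq]
    · rintro -
      simp only [List.map_cons, List.map_nil, List.sum_cons, List.sum_nil, evK, add_zero]
      push_cast
      rw [A4_f2 S p h01, A4_f2 R p h23]
      simp only [ch_not]
  | 9 =>
    refine A4_cond ?_ _ _ _ _ ?_
    · simp only [Bool.and_eq_true, Bool.not_eq_true', ← Bool.not_eq_true, S01, S02, S03, S04, S34, S05, S06, S56, and_assoc, ne_eq]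
    · rintro -
      simp only [List.map_cons, List.map_nil, List.sum_cons, List.sum_nil, evK, add_zero]
      push_cast
      rw [A4_f2 S p h01, A4_f2 R p h01]
      simp only [ch_not]
  | 10 =>
    refine A4_cond ?_ _ _ _ _ ?_
    · simp only [Bool.and_eq_true, Bool.not_eq_true', ← Bool.not_eq_true, S12, S03, S04, S34, S05, S06, S56, and_assoc, ne_eq]
    · rintro ⟨p12, p03, p04, p05, p06, p34, p56⟩
      simp only [List.map_cons, List.map_nil, List.sum_cons, List.sum_nil, evK, add_zero]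
      push_cast
      rw [A4_ok S R p h12 h13 h14 h23 h24 p12, A4_ok S R p h12 h15 h16 h25 h26 p12,
        A4_qd S p h03 h04 h05 h06 h35 h36 h45 h46 p03 p04 p05 p06,
        A4_qd R p h03 h04 h05 h06 h35 h36 h45 h46 p03 p04 p05 p06]
  | 11 =>
    refine A4_cond ?_ _ _ _ _ ?_
    · simp only [Bool.and_eq_true, Bool.not_eq_true', ← Bool.not_eq_true, S01, S02, S03, S04, S34, S05, S06, S56, and_assoc, ne_eq]
    · rintro ⟨p01, p02, p03, p04, p05, p06, p34, p56⟩
      have hT : Tr pl (p x3) (p x4) (p x1) :=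
        ⟨p34, fun e => p03 (p01.trans e.symm), fun e => p04 (p01.trans e.symm)⟩
      simp only [List.map_cons, List.map_nil, List.sum_cons, List.sum_nil, evK, add_zero]
      push_cast
      rw [A4_qd S p h03 h04 h05 h06 h35 h36 h45 h46 p03 p04 p05 p06,
        A4_qd R p h03 h04 h05 h06 h35 h36 h45 h46 p03 p04 p05 p06,
        A4_f2 S p h01, A4_f2 R p h01,
        A4_ln S p h34 (Ne.symm h23) (Ne.symm h24) h35 h45 h36 h46 p34 p56,
        A4_ln R p h34 (Ne.symm h23) (Ne.symm h24) h35 h45 h36 h46 p34 p56,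
        A4_f3 S p h34 (Ne.symm h13) (Ne.symm h14) hT, A4_f3 R p h34 (Ne.symm h13) (Ne.symm h14) hT]
      unfold GX
      simp only [ch_not]
  | n + 12 =>
    simp [tm, FF]

end Pool.Agent.Lib.MP_16c009_coR
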