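import Pool.Agent.Lib.MP_16c009_coR.A3

/-!
# Exchange of two slots
-/

set_option autoImplicit false

namespace Pool.Agent.Lib.MP_16c009_coR

/-- the number of the set with the slots `i`, `j` exchanged -/
def mv (i j : Fin 7) (m : ℕ) : ℕ :=
  cond (Nat.testBit m i == Nat.testBit m j) m (cond (Nat.testBit m i) (m + (2 ^ (j : ℕ) - 2 ^ (i : ℕ)))
    (m - (2 ^ (j : ℕ) - 2 ^ (i : ℕ))))

/-- The mask. -/
theorem mskA_testBit : ∀ i j : Fin 7, i < j → ∀ m : Fin 128,
    (mskA i j).testBit m = (Nat.testBit m i && !(Nat.testBit m j)) := by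
  decide +kernel

theorem mskA_lt : ∀ i j : Fin 7, mskA i j < 2 ^ 128 := by
  decide +kernel

theorem bs_mv : ∀ i j : Fin 7, i < j → ∀ m : Fin 128,
    mv i j m < 128 ∧ bs (mv i j m) = (bs m).map (Equiv.swap i j).toEmbedding := by
  decide +kernel

/-- The check for the exchange. -/
theorem A5_check : ∀ i j : Fin 7, i < j → ∀ m : Fin 128,
    ((mskA i j).testBit m = true → mv i j m = m + (2 ^ (j : ℕ) - 2 ^ (i : ℕ)) ∧
      ((2 ^ (j : ℕ) - 2 ^ (i : ℕ)) ≤ (m : ℕ) → (mskA i j).testBit (m - (2 ^ (j : ℕ) - 2 ^ (i : ℕ))) = false)) ∧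
    ((mskA i j).testBit m = false →
      ((2 ^ (j : ℕ) - 2 ^ (i : ℕ)) ≤ (m : ℕ) ∧ (mskA i j).testBit (m - (2 ^ (j : ℕ) - 2 ^ (i : ℕ))) = true ∧
        mv i j m = m - (2 ^ (j : ℕ) - 2 ^ (i : ℕ))) ∨
      (((2 ^ (j : ℕ) - 2 ^ (i : ℕ)) ≤ (m : ℕ) → (mskA i j).testBit (m - (2 ^ (j : ℕ) - 2 ^ (i : ℕ))) = false) ∧
        mv i j m = m)) := by
  decide +kernel

theorem A5_sw (c d A m : ℕ) :
    (sw (d, A) c).testBit m = (c.testBit m ^^ (((c.testBit (d + m) ^^ c.testBit m) && A.testBit m) ^^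
      (decide (m ≥ d) && ((c.testBit (d + (m - d)) ^^ c.testBit (m - d)) && A.testBit (m - d))))) := by
  have h : sw (d, A) c = c ^^^ ((((c >>> d) ^^^ c) &&& A) ^^^ ((((c >>> d) ^^^ c) &&& A) <<< d)) := rfl
  rw [h]
  simp only [Nat.testBit_xor, Nat.testBit_and, Nat.testBit_shiftLeft, Nat.testBit_shiftRight]

/-- The exchange is correct. -/
theorem sw_testBit {c : ℕ} (hc : c < 2 ^ 128) {i j : Fin 7} (h : i < j) (m : ℕ) :
    (sw (Nat.sub (Nat.pow 2 j) (Nat.pow 2 i), mskA i j) c).testBit m =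
      (decide (m < 128) && c.testBit (mv i j m)) := by
  have hd : Nat.sub (Nat.pow 2 j) (Nat.pow 2 i) = 2 ^ (j : ℕ) - 2 ^ (i : ℕ) := rfl
  rw [hd, A5_sw]
  generalize hdd : 2 ^ (j : ℕ) - 2 ^ (i : ℕ) = d
  by_cases hm : m < 128
  · have hk := A5_check i j h ⟨m, hm⟩
    simp only [hdd] at hk
    rw [decide_eq_true hm, Bool.true_and]
    cases hA : (mskA i j).testBit m with
    | true =>
      obtain ⟨h1, h2⟩ := hk.1 hA
      rw [h1, Bool.and_true]
      by_cases hmd : d ≤ m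
      · rw [h2 hmd, Bool.and_false, Bool.and_false, Bool.xor_false, add_comm d m, Bool.xor_comm (c.testBit (m + d)),
          ← Bool.xor_assoc, Bool.xor_self, Bool.false_xor]
      · have e : decide (m ≥ d) = false := decide_eq_false hmd
        rw [e, Bool.false_and, Bool.xor_false, add_comm d m, Bool.xor_comm (c.testBit (m + d)),
          ← Bool.xor_assoc, Bool.xor_self, Bool.false_xor]
    | false =>
      rw [Bool.and_false, Bool.false_xor]
      rcases hk.2 hA with ⟨h1, h2, h3⟩ | ⟨h1, h2⟩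
      · rw [h3, h2, Bool.and_true, decide_eq_true h1, Bool.true_and, Nat.add_sub_cancel' h1, ← Bool.xor_assoc,
          Bool.xor_self, Bool.false_xor]
      · rw [h2]
        by_cases hmd : d ≤ m
        · rw [h1 hmd, Bool.and_false, Bool.and_false, Bool.xor_false]
        · have e : decide (m ≥ d) = false := decide_eq_false hmd
          rw [e, Bool.false_and, Bool.xor_false]
  · have hge : 128 ≤ m := not_lt.1 hm
    have hpow : (2 : ℕ) ^ 128 ≤ 2 ^ m := Nat.pow_le_pow_right (by norm_num) hge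
    have hc0 : c.testBit m = false := Nat.testBit_lt_two_pow (lt_of_lt_of_le hc hpow)
    have hA0 : (mskA i j).testBit m = false := Nat.testBit_lt_two_pow (lt_of_lt_of_le (mskA_lt i j) hpow)
    have hAd : d ≤ m → (mskA i j).testBit (m - d) = false := by
      intro hmd
      by_contra hne
      have ht : (mskA i j).testBit (m - d) = true := by simpa using hne
      have hlt : m - d < 128 := by
        by_contra hge'
        have := Nat.testBit_lt_two_pow (lt_of_lt_of_le (mskA_lt i j)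
          (Nat.pow_le_pow_right (by norm_num) (not_lt.1 hge')) : mskA i j < 2 ^ (m - d))
        rw [this] at ht
        exact absurd ht (by decide)
      have hk := (A5_check i j h ⟨m - d, hlt⟩).1 ht
      have hb := (bs_mv i j h ⟨m - d, hlt⟩).1
      rw [hk.1] at hb
      simp only [hdd] at hb
      omega
    rw [hc0, hA0, Bool.and_false, decide_eq_false hm, Bool.false_and, Bool.false_xor, Bool.false_xor]
    by_cases hmd : d ≤ m
    · rw [hAd hmd, Bool.and_false, Bool.and_false]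
    · have e : decide (m ≥ d) = false := decide_eq_false hmd
      rw [e, Bool.false_and]

variable {V K Λ : Type*} {pl : V → K} (S : Side pl Λ) (p : Fin 7 → V)

theorem plc_lt : plc pl p < 2 ^ 128 := Nat.ofBits_lt_two_pow _

theorem qc_lt : qc S p < 2 ^ 128 := Nat.ofBits_lt_two_pow _

theorem A5_card {i j : Fin 7} (s : Finset (Fin 7)) : (s.map (Equiv.swap i j).toEmbedding).card = s.card :=
  Finset.card_map _

theorem A5_all {i j : Fin 7} (s : Finset (Fin 7)) (P : Fin 7 → Prop) :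
    (∀ a ∈ s.map (Equiv.swap i j).toEmbedding, P a) ↔ ∀ a ∈ s, P (Equiv.swap i j a) := by
  simp only [Finset.mem_map, Equiv.coe_toEmbedding, forall_exists_index, and_imp, forall_apply_eq_imp_iff₂]

theorem A5_PB {i j : Fin 7} (h : i < j) {m : ℕ} (hm : m < 128) :
    PB pl (p ∘ Equiv.swap i j) m ↔ PB pl p (mv i j m) := by
  unfold PB
  rw [(bs_mv i j h ⟨m, hm⟩).2, A5_card, A5_all]
  simp only [A5_all]
  exact Iff.rfl

theorem A5_QB {i j : Fin 7} (h : i < j) {m : ℕ} (hm : m < 128) :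
    QB S (p ∘ Equiv.swap i j) m ↔ QB S p (mv i j m) := by
  unfold QB
  rw [(bs_mv i j h ⟨m, hm⟩).2, A5_card]
  simp only [A5_all, (Equiv.swap i j).injective.ne_iff]
  exact Iff.rfl

theorem plc_swap {i j : Fin 7} (h : i < j) :
    plc pl (p ∘ Equiv.swap i j) = sw (Nat.sub (Nat.pow 2 j) (Nat.pow 2 i), mskA i j) (plc pl p) := by
  refine Nat.eq_of_testBit_eq fun m => ?_
  rw [sw_testBit (plc_lt p) h, Bool.eq_iff_iff, plc_testBit, Bool.and_eq_true, decide_eq_true_iff, plc_testBit]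
  constructor
  · rintro ⟨h1, h2⟩
    exact ⟨h1, (bs_mv i j h ⟨m, h1⟩).1, (A5_PB p h h1).1 h2⟩
  · rintro ⟨h1, -, h2⟩
    exact ⟨h1, (A5_PB p h h1).2 h2⟩

theorem qc_swap {i j : Fin 7} (h : i < j) :
    qc S (p ∘ Equiv.swap i j) = sw (Nat.sub (Nat.pow 2 j) (Nat.pow 2 i), mskA i j) (qc S p) := by
  refine Nat.eq_of_testBit_eq fun m => ?_
  rw [sw_testBit (qc_lt S p) h, Bool.eq_iff_iff, qc_testBit, Bool.and_eq_true, decide_eq_true_iff, qc_testBit]
  constructor
  · rintro ⟨h1, h2⟩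
    exact ⟨h1, (bs_mv i j h ⟨m, h1⟩).1, (A5_QB S p h h1).1 h2⟩
  · rintro ⟨h1, -, h2⟩
    exact ⟨h1, (A5_QB S p h h1).2 h2⟩

end Pool.Agent.Lib.MP_16c009_coR
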