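import Pool.Agent.Lib.MP_16c009_coR.KB

/-!
# The packed check
-/

set_option autoImplicit false

namespace Pool.Agent.Lib.MP_16c009_coR

/-- the two halves of a code, one over the other -/
def fo (c : ℕ) : ℕ := Nat.lor (Nat.land c 18446744073709551615) (Nat.shiftRight c 64)

/-- the packing of the codes -/
def pk : List ℕ → ℕ
  | [] => 0
  | a :: l => Nat.add (fo a) (Nat.shiftLeft (pk l) 64)

def pk1 : List ℕ → ℕ
  | [] => 0
  | _ :: l => Nat.add 1 (Nat.shiftLeft (pk1 l) 64)

/-- the indicator vector of the structures containing the bits `m` -/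
def vec (C ones m : ℕ) : ℕ :=
  cond (Nat.beq m 0) ones
    (Nat.land (Nat.shiftRight (Nat.add (Nat.land C (Nat.mul (fo m) ones)) (Nat.mul (Nat.sub 9223372036854775808 (fo m)) ones)) 63) ones)

/-- the last test -/
def fin (ones P N : ℕ) : Bool :=
  Nat.beq (Nat.land (Nat.sub (Nat.add P (Nat.mul 9223372036854775808 ones)) N) (Nat.mul 9223372036854775808 ones))
    (Nat.mul 9223372036854775808 ones)

def run (C ones : ℕ) : List Mo → ℕ → ℕ → ℕ → ℕ → Bool
  | [], P, N, a, b => Nat.blt a 9223372036854775808 && (Nat.blt b 9223372036854775808 && fin ones P N)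
  | m :: l, P, N, a, b =>
    run C ones l (cond (Nat.beq m.1 0) P (Nat.add P (Nat.mul m.1 (vec C ones m.2.2))))
      (cond (Nat.beq m.2.1 0) N (Nat.add N (Nat.mul m.2.1 (vec C ones m.2.2)))) (Nat.add a m.1) (Nat.add b m.2.1)

/-- the test for `q`; `K` is the list of terms -/
def okQ (K : List Kt) (q C ones : ℕ) : Bool := run C ones (K.flatMap (mo q)) 0 0 0 0

/-- all the features of a plane code -/
def phi (pl : ℕ) : ℕ := (feats pl).foldr Nat.lor 0

/-- the two halves of the set of the features are disjoint -/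
def phiOk (F : ℕ) : Bool :=
  Nat.blt (fo F) 9223372036854775808 && (Nat.blt F 340282366920938463463374607431768211456 &&
    Nat.beq (Nat.land (Nat.land F 18446744073709551615) (Nat.shiftRight F 64)) 0)

/-- all the masks of a term consist of features -/
def kOk (F : ℕ) : Kt → Bool
  | Kt.n _ _ _ B => sub F B
  | Kt.s S1 S2 S3 S4 M1 M2 => sub F S1 && (sub F S2 && (sub F S3 && (sub F S4 && (sub F M1 && sub F M2))))
  | Kt.x S1 S2 S3 S4 _ _ _ => sub F S1 && (sub F S2 && (sub F S3 && sub F S4))
  | Kt.y S1 S2 S3 S4 P L O =>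
      sub F S1 && (sub F S2 && (sub F S3 && (sub F S4 && (sub F P && (sub F L && sub F O)))))

/-- the list is `Q` -/
def eqL : List ℕ → List ℕ → Bool
  | [], [] => true
  | a :: l, b :: m => Nat.beq a b && eqL l m
  | _, _ => false

/-- the data of a plane code: packed codes, packed ones, list of the codes to be tested -/
def chkR (pl C O : ℕ) (Q : List ℕ) : Bool :=
  phiOk (phi pl) && ((RL pl).all (sub (phi pl)) &&
    (Nat.beq (pk (RL pl)) C && (Nat.beq (pk1 (RL pl)) O && eqL (QL pl) Q)))


/-- the packing of chunks of 190 codes -/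
def pkB : List ℕ → ℕ
  | [] => 0
  | a :: l => Nat.add a (Nat.shiftLeft (pkB l) 12160)

end Pool.Agent.Lib.MP_16c009_coR
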