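import Pool.Agent.Lib.MP_16c009_coR.A3
import Pool.Agent.Lib.MP_16c009_coR.KC

/-!
# The enumeration is complete
-/

set_option autoImplicit false

namespace Pool.Agent.Lib.MP_16c009_coR

theorem dfs_acc (L : List (ℕ × List ℕ)) (c : ℕ) (acc : List ℕ) {x : ℕ} (hx : x ∈ acc) : x ∈ dfs L c acc := by
  induction L generalizing c acc with
  | nil => exact List.mem_cons_of_mem _ hx
  | cons a rest ih =>
    obtain ⟨f, l⟩ := a
    rw [dfs]
    have h1 : x ∈ (cond (l.all (okc (Nat.lor c f))) (dfs rest (Nat.lor c f) acc) acc) := by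
      cases l.all (okc (Nat.lor c f)) with
      | true => exact ih _ _ hx
      | false => exact hx
    cases l.all (okc c) with
    | true => exact ih _ _ h1
    | false => exact h1

private theorem A6_two_pow {i m : ℕ} (h : (2 : ℕ) ^ i = 2 ^ m) : i = m :=
  Nat.pow_right_injective (le_refl 2) h

private theorem A6_okc {c x M : ℕ} (h : Nat.land c M = Nat.land x M) : okc c M = okc x M := by
  unfold okc
  rw [h]

private theorem A6_land {x d M : ℕ} (h : sub d M = true) : Nat.land (Nat.land x d) M = Nat.land x M := by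
  rw [sub_iff] at h
  show (x &&& d) &&& M = x &&& M
  refine Nat.eq_of_testBit_eq fun i => ?_
  rw [Nat.testBit_and, Nat.testBit_and, Nat.testBit_and]
  cases hM : M.testBit i with
  | false => rw [Bool.and_false, Bool.and_false]
  | true => rw [h i hM, Bool.and_true]

/-- The enumeration contains every code which satisfies the constraints inside the set of the features. -/
theorem dfs_plan (cs : List ℕ) (x : ℕ) (fs : List ℕ)
    (hfs : ∀ f ∈ fs, ∃ m, f = 2 ^ m) (dn : ℕ) (acc : List ℕ)
    (hcs : ∀ M ∈ cs, (∀ i, M.testBit i = true → dn.testBit i = true ∨ 2 ^ i ∈ fs) → okc x M = true)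
    (hx : ∀ i, x.testBit i = true → dn.testBit i = true ∨ 2 ^ i ∈ fs) :
    x ∈ dfs (plan cs dn fs) (Nat.land x dn) acc := by
  induction fs generalizing dn acc with
  | nil =>
    have h1 : Nat.land x dn = x := by
      show x &&& dn = x
      refine Nat.eq_of_testBit_eq fun i => ?_
      rw [Nat.testBit_and]
      cases hi : x.testBit i with
      | false => exact Bool.false_and _
      | true =>
        rcases hx i hi with h | h
        · rw [h, Bool.and_self]
        · exact absurd h (List.not_mem_nil)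
    rw [h1]
    exact List.mem_cons_self
  | cons f rest ih =>
    obtain ⟨m, hm⟩ := hfs f List.mem_cons_self
    have hstep : ∀ y : ℕ, (∀ i, y.testBit i = true → dn.testBit i = true ∨ 2 ^ i ∈ f :: rest) →
        ∀ i, y.testBit i = true → (Nat.lor dn f).testBit i = true ∨ 2 ^ i ∈ rest := by
      intro y hy i hi
      show (dn ||| f).testBit i = true ∨ 2 ^ i ∈ rest
      rw [Nat.testBit_or]
      rcases hy i hi with h | h
      · left
        rw [h, Bool.true_or]
      · rcases List.mem_cons.1 h with h | h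
        · left
          rw [← h, Nat.testBit_two_pow_self, Bool.or_true]
        · exact Or.inr h
    have hback : ∀ M : ℕ, (∀ i, M.testBit i = true → (Nat.lor dn f).testBit i = true ∨ 2 ^ i ∈ rest) →
        ∀ i, M.testBit i = true → dn.testBit i = true ∨ 2 ^ i ∈ f :: rest := by
      intro M hM i hi
      rcases hM i hi with h | h
      · have h2 : (dn ||| f).testBit i = true := h
        rw [Nat.testBit_or, Bool.or_eq_true] at h2
        rcases h2 with h2 | h2
        · exact Or.inl h2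
        · right
          rw [hm, Nat.testBit_two_pow] at h2
          rw [hm, of_decide_eq_true h2]
          exact List.mem_cons_self
      · exact Or.inr (List.mem_cons_of_mem _ h)
    have hIH : ∀ acc', x ∈ dfs (plan cs (Nat.lor dn f) rest) (Nat.land x (Nat.lor dn f)) acc' := by
      intro acc'
      refine ih (fun g hg => hfs g (List.mem_cons_of_mem _ hg)) _ _ ?_ (hstep x hx)
      intro M hM h
      exact hcs M hM (hback M h)
    have hl : ((cs.filter fun M => sub (Nat.lor dn f) M && !(sub dn M)).all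
        (okc (Nat.land x (Nat.lor dn f)))) = true := by
      rw [List.all_eq_true]
      intro M hM
      rw [List.mem_filter, Bool.and_eq_true] at hM
      rw [A6_okc (A6_land hM.2.1)]
      refine hcs M hM.1 fun i hi => ?_
      exact hback M (fun j hj => Or.inl ((sub_iff _ _).1 hM.2.1 j hj)) i hi
    have hplan : plan cs dn (f :: rest) =
        (f, cs.filter fun M => sub (Nat.lor dn f) M && !(sub dn M)) :: plan cs (Nat.lor dn f) rest := rfl
    rw [hplan, dfs]
    by_cases hxm : x.testBit m = true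
    · have e : Nat.lor (Nat.land x dn) f = Nat.land x (Nat.lor dn f) := by
        show (x &&& dn) ||| f = x &&& (dn ||| f)
        refine Nat.eq_of_testBit_eq fun i => ?_
        rw [hm, Nat.testBit_or, Nat.testBit_and, Nat.testBit_and, Nat.testBit_or, Nat.testBit_two_pow]
        by_cases h : m = i
        · rw [← h, hxm]
          simp
        · simp [h]
      rw [e, hl, cond_true]
      have h1 := hIH acc
      cases (cs.filter fun M => sub (Nat.lor dn f) M && !(sub dn M)).all (okc (Nat.land x dn)) with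
      | true => exact dfs_acc _ _ _ h1
      | false => exact h1
    · have e : Nat.land x dn = Nat.land x (Nat.lor dn f) := by
        show x &&& dn = x &&& (dn ||| f)
        refine Nat.eq_of_testBit_eq fun i => ?_
        rw [hm, Nat.testBit_and, Nat.testBit_and, Nat.testBit_or, Nat.testBit_two_pow]
        by_cases h : m = i
        · rw [← h, Bool.eq_false_of_not_eq_true hxm, Bool.false_and, Bool.false_and]
        · simp [h]
      rw [e, hl, cond_true]
      exact hIH _

private theorem A6_two : ∀ m : Fin 128, (bs m).card = 2 →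
    ∃ i j : Fin 7, i ≠ j ∧ (m : ℕ) = m2 i j ∧ ((i : ℕ), (j : ℕ)) ∈ prs := by
  decide +kernel

private theorem A6_three : ∀ m : Fin 128, (bs m).card = 3 →
    ∃ i j k : Fin 7, i ≠ j ∧ i ≠ k ∧ j ≠ k ∧ (m : ℕ) = m3 i j k ∧ ((i : ℕ), (j : ℕ), (k : ℕ)) ∈ trs := by
  decide +kernel

private theorem A6_prs : ∀ t ∈ prs, ∃ i j : Fin 7, i ≠ j ∧ t = ((i : ℕ), (j : ℕ)) := by
  decide +kernel

private theorem A6_trs : ∀ t ∈ trs, ∃ i j k : Fin 7, i ≠ j ∧ i ≠ k ∧ j ≠ k ∧ t = ((i : ℕ), (j : ℕ), (k : ℕ)) := by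
  decide +kernel

private theorem A6_qds : ∀ t ∈ qds, ∃ i j k l : Fin 7, i ≠ j ∧ i ≠ k ∧ i ≠ l ∧ j ≠ k ∧ j ≠ l ∧ k ≠ l ∧
    t = ((i : ℕ), (j : ℕ), (k : ℕ), (l : ℕ)) := by
  decide +kernel

variable {V K Λ : Type*} {pl : V → K} (S : Side pl Λ) (p : Fin 7 → V)

/-- The bits of the line code are features. -/
theorem qc_feats {m : ℕ} (h : (qc S p).testBit m = true) : 2 ^ m ∈ feats (plc pl p) := by
  rw [qc_testBit] at h
  obtain ⟨hm, h⟩ := h
  unfold feats
  rw [List.mem_append]
  rcases h with ⟨hc, h⟩ | ⟨hc, h, -⟩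
  · left
    obtain ⟨i, j, hij, e, hp⟩ := A6_two ⟨m, hm⟩ hc
    have e' : m = m2 i j := e
    rw [List.mem_map]
    refine ⟨((i : ℕ), (j : ℕ)), ?_, ?_⟩
    · rw [List.mem_filter]
      refine ⟨hp, ?_⟩
      show sp (plc pl p) i j = true
      rw [sp_iff p hij]
      refine S.q_pl _ _ (h i ?_ j ?_)
      · rw [e', bs_m2 i j hij]
        simp
      · rw [e', bs_m2 i j hij]
        simp
    · show f2 i j = 2 ^ m
      rw [e']
      rfl
  · right
    obtain ⟨i, j, k, hij, hik, hjk, e, hp⟩ := A6_three ⟨m, hm⟩ hc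
    have e' : m = m3 i j k := e
    have hi : i ∈ bs m := by
      rw [e', bs_m3 i j k hij hik hjk]
      simp
    have hj : j ∈ bs m := by
      rw [e', bs_m3 i j k hij hik hjk]
      simp
    have hk : k ∈ bs m := by
      rw [e', bs_m3 i j k hij hik hjk]
      simp
    rw [List.mem_map]
    refine ⟨((i : ℕ), (j : ℕ), (k : ℕ)), ?_, ?_⟩
    · rw [List.mem_filter]
      refine ⟨hp, ?_⟩
      show tr (plc pl p) i j k = true
      rw [tr_iff p hij hik hjk]
      exact ⟨h i hi j hj hij, h i hi k hk hik, h j hj k hk hjk⟩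
    · show f3 i j k = 2 ^ m
      rw [e']
      rfl

private theorem A6_foldr {L : List ℕ} {f i : ℕ} (hf : f ∈ L) (h : f.testBit i = true) :
    (L.foldr Nat.lor 0).testBit i = true := by
  induction L with
  | nil => exact absurd hf List.not_mem_nil
  | cons a l ih =>
    show (a ||| l.foldr Nat.lor 0).testBit i = true
    rw [Nat.testBit_or]
    rcases List.mem_cons.1 hf with h1 | h1
    · rw [← h1, h, Bool.true_or]
    · rw [ih h1, Bool.or_true]

theorem qc_phi : sub (phi (plc pl p)) (qc S p) = true := by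
  rw [sub_iff]
  intro i hi
  exact A6_foldr (qc_feats S p hi) Nat.testBit_two_pow_self

/-- At most one bit. -/
private theorem A6_sing {y a : ℕ} (h : ∀ i, y.testBit i = true → i = a) :
    Nat.beq (Nat.land y (Nat.sub y 1)) 0 = true := by
  rw [Nat.beq_eq]
  show y &&& (y - 1) = 0
  by_cases ha : y.testBit a = true
  · have e : y = 2 ^ a := by
      refine Nat.eq_of_testBit_eq fun i => ?_
      rw [Nat.testBit_two_pow]
      by_cases hi : a = i
      · rw [← hi, ha]
        simp
      · have h1 : y.testBit i = false := by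
          rw [← Bool.not_eq_true]
          exact fun h2 => hi (h i h2).symm
        rw [h1]
        simp [hi]
    rw [e]
    refine Nat.eq_of_testBit_eq fun i => ?_
    rw [Nat.testBit_and, Nat.testBit_two_pow, Nat.testBit_two_pow_sub_one, Nat.zero_testBit]
    by_cases hi : a = i
    · rw [← hi]
      simp
    · simp [hi]
  · have e : y = 0 := by
      refine Nat.eq_of_testBit_eq fun i => ?_
      rw [Nat.zero_testBit, ← Bool.not_eq_true]
      intro h2
      rw [h i h2] at h2
      exact ha h2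
    rw [e]
    rfl

/-- `okc` for a mask of three different bits: not exactly two of them. -/
theorem okc3 {c a b d : ℕ} (h1 : c.testBit a = true → c.testBit b = true → c.testBit d = true)
    (h2 : c.testBit a = true → c.testBit d = true → c.testBit b = true)
    (h3 : c.testBit b = true → c.testBit d = true → c.testBit a = true) :
    okc c (Nat.lor (Nat.pow 2 a) (Nat.lor (Nat.pow 2 b) (Nat.pow 2 d))) = true := by
  have hbit : ∀ i, (Nat.land c (Nat.lor (Nat.pow 2 a) (Nat.lor (Nat.pow 2 b) (Nat.pow 2 d)))).testBit i = true →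
      c.testBit i = true ∧ (a = i ∨ b = i ∨ d = i) := by
    intro i hi
    have h4 : (c &&& (2 ^ a ||| (2 ^ b ||| 2 ^ d))).testBit i = true := hi
    rw [Nat.testBit_and, Nat.testBit_or, Nat.testBit_or, Nat.testBit_two_pow, Nat.testBit_two_pow,
      Nat.testBit_two_pow, Bool.and_eq_true, Bool.or_eq_true, Bool.or_eq_true, decide_eq_true_iff,
      decide_eq_true_iff, decide_eq_true_iff] at h4
    exact h4
  unfold okc
  rw [Bool.or_eq_true]
  by_cases H : c.testBit a = true ∧ c.testBit b = true ∧ c.testBit d = true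
  · right
    show sub c _ = true
    rw [sub_lor, sub_lor, sub_pow, sub_pow, sub_pow, H.1, H.2.1, H.2.2]
    rfl
  · left
    by_cases ha : c.testBit a = true
    · refine A6_sing (a := a) fun i hi => ?_
      obtain ⟨g1, g2⟩ := hbit i hi
      rcases g2 with g2 | g2 | g2
      · exact g2.symm
      · rw [← g2] at g1
        exact absurd ⟨ha, g1, h1 ha g1⟩ H
      · rw [← g2] at g1
        exact absurd ⟨ha, h2 ha g1, g1⟩ H
    · by_cases hb : c.testBit b = true
      · refine A6_sing (a := b) fun i hi => ?_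
        obtain ⟨g1, g2⟩ := hbit i hi
        rcases g2 with g2 | g2 | g2
        · rw [← g2] at g1
          exact absurd g1 ha
        · exact g2.symm
        · rw [← g2] at g1
          exact absurd (h3 hb g1) ha
      · refine A6_sing (a := d) fun i hi => ?_
        obtain ⟨g1, g2⟩ := hbit i hi
        rcases g2 with g2 | g2 | g2
        · rw [← g2] at g1
          exact absurd g1 ha
        · rw [← g2] at g1
          exact absurd g1 hb
        · exact g2.symm

/-- `okc` for a mask of four bits: two of them imply the others. -/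
theorem okc4 {c : ℕ} {a : Fin 4 → ℕ} (h : ∀ i j k, i ≠ j → c.testBit (a i) = true → c.testBit (a j) = true →
      c.testBit (a k) = true) :
    okc c (Nat.lor (Nat.lor (Nat.pow 2 (a 0)) (Nat.pow 2 (a 1))) (Nat.lor (Nat.pow 2 (a 2)) (Nat.pow 2 (a 3)))) =
      true := by
  have hbit : ∀ i, (Nat.land c (Nat.lor (Nat.lor (Nat.pow 2 (a 0)) (Nat.pow 2 (a 1)))
      (Nat.lor (Nat.pow 2 (a 2)) (Nat.pow 2 (a 3))))).testBit i = true →
      c.testBit i = true ∧ ∃ j, a j = i := by
    intro i hi
    have h4 : (c &&& ((2 ^ a 0 ||| 2 ^ a 1) ||| (2 ^ a 2 ||| 2 ^ a 3))).testBit i = true := hi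
    rw [Nat.testBit_and, Nat.testBit_or, Nat.testBit_or, Nat.testBit_or, Nat.testBit_two_pow,
      Nat.testBit_two_pow, Nat.testBit_two_pow, Nat.testBit_two_pow, Bool.and_eq_true, Bool.or_eq_true,
      Bool.or_eq_true, Bool.or_eq_true, decide_eq_true_iff, decide_eq_true_iff, decide_eq_true_iff,
      decide_eq_true_iff] at h4
    refine ⟨h4.1, ?_⟩
    rcases h4.2 with (h5 | h5) | (h5 | h5)
    · exact ⟨0, h5⟩
    · exact ⟨1, h5⟩
    · exact ⟨2, h5⟩
    · exact ⟨3, h5⟩
  unfold okc
  rw [Bool.or_eq_true]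
  by_cases H : ∃ i j : Fin 4, i ≠ j ∧ c.testBit (a i) = true ∧ c.testBit (a j) = true
  · right
    obtain ⟨i, j, hij, hi, hj⟩ := H
    have hall : ∀ k, c.testBit (a k) = true := fun k => h i j k hij hi hj
    show sub c _ = true
    rw [sub_lor, sub_lor, sub_lor, sub_pow, sub_pow, sub_pow, sub_pow, hall, hall, hall, hall]
    rfl
  · left
    by_cases H2 : ∃ i : Fin 4, c.testBit (a i) = true
    · obtain ⟨i, hi⟩ := H2
      refine A6_sing (a := a i) fun t ht => ?_
      obtain ⟨g1, j, g2⟩ := hbit t ht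
      rw [← g2] at g1
      rw [← g2]
      by_contra hne
      exact H ⟨i, j, fun e => hne (by rw [e]), hi, g1⟩
    · refine A6_sing (a := 0) fun t ht => ?_
      obtain ⟨g1, j, g2⟩ := hbit t ht
      rw [← g2] at g1
      exact absurd ⟨j, g1⟩ H2

/-- The meaning of a feature with three slots. -/
private theorem A6_feats3 {i j k : Fin 7} (hij : i ≠ j) (hik : i ≠ k) (hjk : j ≠ k)
    (h : 2 ^ (m3 i j k) ∈ feats (plc pl p)) : Tr pl (p i) (p j) (p k) := by
  unfold feats at h
  rw [List.mem_append, List.mem_map, List.mem_map] at h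
  rcases h with ⟨t, ht, e⟩ | ⟨t, ht, e⟩
  · rw [List.mem_filter] at ht
    obtain ⟨a, b, hab, rfl⟩ := A6_prs t ht.1
    have e1 : m2 a b = m3 i j k := A6_two_pow e
    have e2 : bs (m2 a b) = bs (m3 i j k) := by rw [e1]
    rw [bs_m2 a b hab, bs_m3 i j k hij hik hjk] at e2
    have e3 := congrArg Finset.card e2
    rw [Finset.card_pair hab, card3 hij hik hjk] at e3
    exact absurd e3 (by decide)
  · rw [List.mem_filter] at ht
    obtain ⟨a, b, c, hab, hac, hbc, rfl⟩ := A6_trs t ht.1
    have e1 : m3 a b c = m3 i j k := A6_two_pow e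
    have e2 : bs (m3 i j k) = bs (m3 a b c) := by rw [e1]
    rw [bs_m3 a b c hab hac hbc, bs_m3 i j k hij hik hjk] at e2
    have ht2 : tr (plc pl p) a b c = true := ht.2
    rw [tr_iff p hab hac hbc] at ht2
    obtain ⟨t1, t2, t3⟩ := ht2
    have hd : ∀ x ∈ ({a, b, c} : Finset (Fin 7)), ∀ y ∈ ({a, b, c} : Finset (Fin 7)), x ≠ y →
        pl (p x) ≠ pl (p y) := by
      intro x hx y hy hxy
      simp only [Finset.mem_insert, Finset.mem_singleton] at hx hy
      rcases hx with rfl | rfl | rfl <;> rcases hy with rfl | rfl | rfl <;>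
        first
        | exact absurd rfl hxy | exact t1 | exact t2 | exact t3
        | exact fun e => t1 e.symm | exact fun e => t2 e.symm | exact fun e => t3 e.symm
    rw [← e2] at hd
    exact ⟨hd i (by simp) j (by simp) hij, hd i (by simp) k (by simp) hik, hd j (by simp) k (by simp) hjk⟩

private theorem A6_q2 {i j : Fin 7} (h : i ≠ j) :
    (qc S p).testBit (m2 i j) = true ↔ S.q (p i) (p j) := by
  rw [← subq_f2 S p h]
  unfold f2
  rw [sub_pow]

private theorem A6_q3 {i j k : Fin 7} (h : i ≠ j) (h' : i ≠ k) (h'' : j ≠ k) :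
    (qc S p).testBit (m3 i j k) = true ↔ Tr pl (p i) (p j) (p k) ∧ S.q3 (p i) (p j) (p k) := by
  rw [← subq_f3 S p h h' h'']
  unfold f3
  rw [sub_pow]

private theorem A6_sp_self (i : Fin 7) : sp (plc pl p) i i = false := by
  have h1 : ∀ i : Fin 7, (bs (m2 i i)).card ≠ 2 := by decide +kernel
  rw [← Bool.not_eq_true]
  intro h
  unfold sp at h
  rw [tb_eq, plc_testBit] at h
  exact h1 i h.2.1

/-- The structure axioms, for the constraints which consist of features. -/
theorem qc_cons {M : ℕ} (hM : M ∈ cons (plc pl p)) (hF : ∀ i, M.testBit i = true → 2 ^ i ∈ feats (plc pl p)) :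
    okc (qc S p) M = true := by
  unfold cons at hM
  rw [List.mem_append, List.mem_append] at hM
  rcases hM with (hM | hM) | hM
  · obtain ⟨t, ht, rfl⟩ := List.mem_map.1 hM
    rw [List.mem_filter] at ht
    obtain ⟨i, j, k, hij, hik, hjk, rfl⟩ := A6_trs t ht.1
    show okc (qc S p) (Nat.lor (Nat.pow 2 (m2 i j)) (Nat.lor (Nat.pow 2 (m2 i k)) (Nat.pow 2 (m2 j k)))) = true
    refine okc3 ?_ ?_ ?_
    · rw [A6_q2 S p hij, A6_q2 S p hik, A6_q2 S p hjk]
      exact fun h1 h2 => S.q_trans _ _ _ (S.q_symm _ _ h1) h2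
    · rw [A6_q2 S p hij, A6_q2 S p hik, A6_q2 S p hjk]
      exact fun h1 h2 => S.q_trans _ _ _ h1 h2
    · rw [A6_q2 S p hij, A6_q2 S p hik, A6_q2 S p hjk]
      exact fun h1 h2 => S.q_trans _ _ _ h1 (S.q_symm _ _ h2)
  · obtain ⟨t, ht, hM⟩ := List.mem_flatMap.1 hM
    obtain ⟨r, hr, rfl⟩ := List.mem_map.1 hM
    rw [List.mem_filter] at ht hr
    obtain ⟨i, j, hij, rfl⟩ := A6_prs t ht.1
    obtain ⟨k, l, hkl, rfl⟩ := A6_prs r hr.1
    have hsp : pl (p i) = pl (p j) := (sp_iff p hij).1 ht.2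
    have htr : (!(sp (plc pl p) i k) && !(sp (plc pl p) i l) && !(sp (plc pl p) k l)) = true := hr.2
    rw [Bool.and_eq_true, Bool.and_eq_true, Bool.not_eq_true', Bool.not_eq_true', Bool.not_eq_true'] at htr
    obtain ⟨⟨s1, s2⟩, s3⟩ := htr
    have hspb : sp (plc pl p) i j = true := ht.2
    have hjk : j ≠ k := by
      rintro rfl
      rw [hspb] at s1
      exact absurd s1 (by decide)
    have hjl : j ≠ l := by
      rintro rfl
      rw [hspb] at s2
      exact absurd s2 (by decide)
    have hlast : 2 ^ (m3 j k l) ∈ feats (plc pl p) := by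
      refine hF (m3 j k l) ?_
      show ((2 : ℕ) ^ (m2 i j) ||| (2 ^ (m3 i k l) ||| 2 ^ (m3 j k l))).testBit (m3 j k l) = true
      rw [Nat.testBit_or, Nat.testBit_or, Nat.testBit_two_pow_self, Bool.or_true, Bool.or_true]
    have hTj := A6_feats3 p hjk hjl hkl hlast
    have hik : i ≠ k := by
      rintro rfl
      exact hTj.1 hsp.symm
    have hil : i ≠ l := by
      rintro rfl
      exact hTj.2.1 hsp.symm
    have hTi : Tr pl (p i) (p k) (p l) := ⟨fun e => hTj.1 (hsp.symm.trans e), fun e => hTj.2.1 (hsp.symm.trans e), hTj.2.2⟩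
    show okc (qc S p) (Nat.lor (Nat.pow 2 (m2 i j)) (Nat.lor (Nat.pow 2 (m3 i k l)) (Nat.pow 2 (m3 j k l)))) = true
    refine okc3 ?_ ?_ ?_
    · rw [A6_q2 S p hij, A6_q3 S p hik hil hkl, A6_q3 S p hjk hjl hkl]
      exact fun h1 h2 => ⟨hTj, q3_row S hTi h1 h2.2⟩
    · rw [A6_q2 S p hij, A6_q3 S p hik hil hkl, A6_q3 S p hjk hjl hkl]
      exact fun h1 h2 => ⟨hTi, q3_row S hTj (S.q_symm _ _ h1) h2.2⟩
    · rw [A6_q2 S p hij, A6_q3 S p hik hil hkl, A6_q3 S p hjk hjl hkl]
      exact fun h1 h2 => row_q3 S hTi hsp h1.2 h2.2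
  · obtain ⟨t, ht, rfl⟩ := List.mem_map.1 hM
    rw [List.mem_filter] at ht
    obtain ⟨i, j, k, l, hij, hik, hil, hjk, hjl, hkl, rfl⟩ := A6_qds t ht.1
    have htr : (tr (plc pl p) i j k && !(sp (plc pl p) i l) && !(sp (plc pl p) j l) && !(sp (plc pl p) k l)) = true :=
      ht.2
    rw [Bool.and_eq_true, Bool.and_eq_true, Bool.and_eq_true, Bool.not_eq_true', Bool.not_eq_true',
      Bool.not_eq_true', tr_iff p hij hik hjk, ← Bool.not_eq_true, ← Bool.not_eq_true, ← Bool.not_eq_true,
      sp_iff p hil, sp_iff p hjl, sp_iff p hkl] at htr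
    obtain ⟨⟨⟨⟨t1, t2, t3⟩, t4⟩, t5⟩, t6⟩ := htr
    have T1 : Tr pl (p i) (p j) (p k) := ⟨t1, t2, t3⟩
    have T2 : Tr pl (p i) (p j) (p l) := ⟨t1, t4, t5⟩
    have T3 : Tr pl (p i) (p k) (p l) := ⟨t2, t4, t6⟩
    have T4 : Tr pl (p j) (p k) (p l) := ⟨t3, t5, t6⟩
    have key : ∀ u v : Fin 4, u ≠ v →
        ((![S.q3 (p i) (p j) (p k), S.q3 (p i) (p j) (p l), S.q3 (p i) (p k) (p l), S.q3 (p j) (p k) (p l)] : Fin 4 → Prop) u) →
        ((![S.q3 (p i) (p j) (p k), S.q3 (p i) (p j) (p l), S.q3 (p i) (p k) (p l), S.q3 (p j) (p k) (p l)] : Fin 4 → Prop) v) →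
        S.q3 (p i) (p j) (p k) ∧ S.q3 (p i) (p j) (p l) ∧ S.q3 (p i) (p k) (p l) ∧ S.q3 (p j) (p k) (p l) := by
      have c1 := S.ln_symm (p i) (p j)
      have c2 := S.ln_symm (p i) (p k)
      have c4 := S.ln_symm (p j) (p k)
      -- all six lines are equal as soon as two of the triples are collinear
      have base : S.ln (p i) (p j) = S.ln (p i) (p k) → S.ln (p i) (p j) = S.ln (p i) (p l) →
          S.q3 (p i) (p j) (p k) ∧ S.q3 (p i) (p j) (p l) ∧ S.q3 (p i) (p k) (p l) ∧ S.q3 (p j) (p k) (p l) := by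
        intro e1 e2
        have h1 := (q3_iff S T1).2 e1
        have h2 := (q3_iff S T2).2 e2
        have h3 := (q3_iff S T3).2 (e1.symm.trans e2)
        refine ⟨h1, h2, h3, ?_⟩
        exact ⟨h1.2.symm.trans h2.2, (h1.2.symm.trans e1).trans h3.2⟩
      have b03 : S.q3 (p i) (p j) (p k) → S.q3 (p j) (p k) (p l) → S.ln (p i) (p j) = S.ln (p i) (p l) := by
        intro hu hv
        have h : S.ln (p j) (p i) = S.ln (p j) (p l) := c1.symm.trans (hu.2.trans hv.1)
        exact (q3_12 S ((q3_iff S (Tr_swap12 T2)).2 h)).1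
      have b13 : S.q3 (p i) (p j) (p l) → S.q3 (p j) (p k) (p l) → S.ln (p i) (p j) = S.ln (p i) (p k) := by
        intro hu hv
        have h : S.ln (p j) (p i) = S.ln (p j) (p k) := c1.symm.trans (hu.2.trans hv.1.symm)
        exact (q3_12 S ((q3_iff S (Tr_swap12 T1)).2 h)).1
      have b23 : S.q3 (p i) (p k) (p l) → S.q3 (p j) (p k) (p l) → S.ln (p i) (p j) = S.ln (p i) (p k) := by
        intro hu hv
        have h : S.ln (p k) (p i) = S.ln (p k) (p j) := c2.symm.trans (hu.2.trans (hv.2.symm.trans c4))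
        have hT : Tr pl (p k) (p i) (p j) := ⟨fun e => t2 e.symm, fun e => t3 e.symm, t1⟩
        exact (q3_23 S (q3_12 S ((q3_iff S hT).2 h))).1
      intro u v huv hu hv
      fin_cases u <;> fin_cases v <;> first
        | exact absurd rfl huv
        | skip
      · exact base hu.1 hv.1
      · exact base hu.1 (hu.1.trans hv.1)
      · exact base hu.1 (b03 hu hv)
      · exact base hv.1 hu.1
      · exact base (hu.1.trans hv.1.symm) hu.1
      · exact base (b13 hu hv) hu.1
      · exact base hv.1 (hv.1.trans hu.1)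
      · exact base (hv.1.trans hu.1.symm) hv.1
      · exact base (b23 hu hv) ((b23 hu hv).trans hu.1)
      · exact base hv.1 (b03 hv hu)
      · exact base (b13 hv hu) hv.1
      · exact base (b23 hv hu) ((b23 hv hu).trans hv.1)
    show okc (qc S p) (Nat.lor (Nat.lor (Nat.pow 2 (m3 i j k)) (Nat.pow 2 (m3 i j l)))
      (Nat.lor (Nat.pow 2 (m3 i k l)) (Nat.pow 2 (m3 j k l)))) = true
    refine okc4 (a := ![m3 i j k, m3 i j l, m3 i k l, m3 j k l]) ?_
    have hb : ∀ u : Fin 4, (qc S p).testBit ((![m3 i j k, m3 i j l, m3 i k l, m3 j k l] : Fin 4 → ℕ) u) = true ↔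
        ((![S.q3 (p i) (p j) (p k), S.q3 (p i) (p j) (p l), S.q3 (p i) (p k) (p l), S.q3 (p j) (p k) (p l)] : Fin 4 → Prop) u) := by
      intro u
      fin_cases u
      · exact (A6_q3 S p hij hik hjk).trans ⟨fun h => h.2, fun h => ⟨T1, h⟩⟩
      · exact (A6_q3 S p hij hil hjl).trans ⟨fun h => h.2, fun h => ⟨T2, h⟩⟩
      · exact (A6_q3 S p hik hil hkl).trans ⟨fun h => h.2, fun h => ⟨T3, h⟩⟩
      · exact (A6_q3 S p hjk hjl hkl).trans ⟨fun h => h.2, fun h => ⟨T4, h⟩⟩
    intro u v w huv hu hv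
    rw [hb] at hu hv ⊢
    obtain ⟨k1, k2, k3, k4⟩ := key u v huv hu hv
    fin_cases w
    · exact k1
    · exact k2
    · exact k3
    · exact k4

private theorem A6_featpow : ∀ f ∈ feats (plc pl p), ∃ m, f = 2 ^ m := by
  intro f hf
  unfold feats at hf
  rw [List.mem_append, List.mem_map, List.mem_map] at hf
  rcases hf with ⟨t, -, rfl⟩ | ⟨t, -, rfl⟩
  · exact ⟨_, rfl⟩
  · exact ⟨_, rfl⟩

theorem qc_mem : qc S p ∈ RL (plc pl p) := by
  have h := dfs_plan (cons (plc pl p)) (qc S p) (feats (plc pl p)) (A6_featpow p) 0 []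
    (fun M hM h1 => qc_cons S p hM fun i hi => (h1 i hi).resolve_left (by
      rw [Nat.zero_testBit]
      decide))
    (fun i hi => Or.inr (qc_feats S p hi))
  have e : Nat.land (qc S p) 0 = 0 := Nat.and_zero _
  rw [e] at h
  exact h

/-- All plane codes are in the list `PA`. -/
theorem plc_mem : plc pl p ∈ PA := by
  have hp2 : ∀ {i j : Fin 7}, i ≠ j → ((plc pl p).testBit (m2 i j) = true ↔ pl (p i) = pl (p j)) := by
    intro i j hij
    rw [← sp_iff p hij]
    unfold sp
    rw [tb_eq]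
  have h := dfs_plan (trs.map fun t => Nat.lor (f2 t.1 t.2.1) (Nat.lor (f2 t.1 t.2.2) (f2 t.2.1 t.2.2)))
    (plc pl p) (prs.map fun p => f2 p.1 p.2) ?_ 0 [] ?_ ?_
  · have e : Nat.land (plc pl p) 0 = 0 := Nat.and_zero _
    rw [e] at h
    exact h
  · intro f hf
    obtain ⟨t, -, rfl⟩ := List.mem_map.1 hf
    exact ⟨_, rfl⟩
  · intro M hM _
    obtain ⟨t, ht, rfl⟩ := List.mem_map.1 hM
    obtain ⟨i, j, k, hij, hik, hjk, rfl⟩ := A6_trs t ht
    show okc (plc pl p) (Nat.lor (Nat.pow 2 (m2 i j)) (Nat.lor (Nat.pow 2 (m2 i k)) (Nat.pow 2 (m2 j k)))) = true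
    refine okc3 ?_ ?_ ?_
    · rw [hp2 hij, hp2 hik, hp2 hjk]
      exact fun h1 h2 => h1.symm.trans h2
    · rw [hp2 hij, hp2 hik, hp2 hjk]
      exact fun h1 h2 => h1.trans h2
    · rw [hp2 hij, hp2 hik, hp2 hjk]
      exact fun h1 h2 => h1.trans h2.symm
  · intro m hm
    right
    rw [plc_testBit] at hm
    obtain ⟨i, j, hij, e, hp⟩ := A6_two ⟨m, hm.1⟩ hm.2.1
    have e' : m = m2 i j := e
    rw [List.mem_map]
    refine ⟨((i : ℕ), (j : ℕ)), hp, ?_⟩
    show f2 i j = 2 ^ m
    rw [e']
    rfl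

end Pool.Agent.Lib.MP_16c009_coR
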