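import Pool.Agent.Lib.MP_16c009_coR.A5
import Pool.Agent.Lib.MP_16c009_coR.A6

/-!
# The canonical order of seven elements
-/

set_option autoImplicit false

namespace Pool.Agent.Lib.MP_16c009_coR

variable {V K Λ : Type*} {pl : V → K} (S : Side pl Λ)

theorem A7_prs : ∀ q ∈ prs, ∃ i j : Fin 7, i < j ∧ q = ((i : ℕ), (j : ℕ)) := by
  decide +kernel

theorem A7_sws {s : ℕ × ℕ} (hs : s ∈ sws) :
    ∃ i j : Fin 7, i < j ∧ s = (Nat.sub (Nat.pow 2 j) (Nat.pow 2 i), mskA i j) := by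
  obtain ⟨q, hq, rfl⟩ := List.mem_map.1 hs
  obtain ⟨i, j, hij, rfl⟩ := A7_prs q hq
  exact ⟨i, j, hij, rfl⟩

theorem A7_plc (σ : Equiv.Perm (Fin 7)) {s : ℕ × ℕ} (hs : s ∈ sws) :
    ∃ τ : Equiv.Perm (Fin 7), (∀ p : Fin 7 → V, plc pl (p ∘ τ) = sw s (plc pl (p ∘ σ))) ∧
      ∀ p : Fin 7 → V, qc S (p ∘ τ) = sw s (qc S (p ∘ σ)) := by
  obtain ⟨i, j, hij, rfl⟩ := A7_sws hs
  refine ⟨σ * Equiv.swap i j, fun p => ?_, fun p => ?_⟩
  · rw [Equiv.Perm.coe_mul, ← Function.comp_assoc, plc_swap _ hij]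
  · rw [Equiv.Perm.coe_mul, ← Function.comp_assoc, qc_swap S _ hij]

/-- PROOF. Choose `σ` for which `plc pl (p ∘ σ) * 2 ^ 128 + qc S (p ∘ σ)` is maximal (`Finite.exists_max`). For an exchange
`τ = Equiv.swap i j` with `i < j` (the elements of `sws` are exactly these, as `prs` is the list of the pairs `i < j`)
`(p ∘ σ) ∘ τ = p ∘ (σ * τ)`, so by `plc_swap`, `qc_swap`, `qc_lt`: `sw s pl₀ ≤ pl₀`, and `sw s q₀ ≤ q₀` if
`sw s pl₀ = pl₀`; the same for products of two exchanges. Then `List.mem_filter`, `plc_mem`, `qc_mem`. -/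
theorem exists_canon (p : Fin 7 → V) :
    ∃ σ : Equiv.Perm (Fin 7), plc pl (p ∘ σ) ∈ PL ∧ qc S (p ∘ σ) ∈ QL (plc pl (p ∘ σ)) := by
  obtain ⟨σ, hσ⟩ := Finite.exists_max
    (fun σ : Equiv.Perm (Fin 7) => plc pl (p ∘ σ) * 2 ^ 128 + qc S (p ∘ σ))
  have h1 : ∀ τ : Equiv.Perm (Fin 7), plc pl (p ∘ τ) ≤ plc pl (p ∘ σ) := by
    intro τ
    have h := hσ τ
    have h2 := qc_lt S (p ∘ σ)
    by_contra hlt
    have hlt' : plc pl (p ∘ σ) + 1 ≤ plc pl (p ∘ τ) := not_le.1 hlt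
    have h3 := Nat.mul_le_mul_right (2 ^ 128) hlt'
    rw [Nat.add_mul, Nat.one_mul] at h3
    omega
  have h2 : ∀ τ : Equiv.Perm (Fin 7), plc pl (p ∘ τ) = plc pl (p ∘ σ) → qc S (p ∘ τ) ≤ qc S (p ∘ σ) := by
    intro τ he
    have h := hσ τ
    rw [he] at h
    omega
  refine ⟨σ, List.mem_filter.2 ⟨plc_mem _, ?_⟩, List.mem_filter.2 ⟨qc_mem S _, ?_⟩⟩
  · unfold lmp
    rw [List.all_eq_true]
    intro s hs
    obtain ⟨τ, hτ, -⟩ := A7_plc S σ hs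
    rw [Bool.and_eq_true, Nat.ble_eq, List.all_eq_true]
    refine ⟨?_, fun t ht => ?_⟩
    · rw [← hτ]
      exact h1 τ
    · obtain ⟨τ', hτ', -⟩ := A7_plc S τ ht
      rw [Nat.ble_eq, ← hτ, ← hτ']
      exact h1 τ'
  · unfold lmx
    rw [Bool.and_eq_true, List.all_eq_true, List.all_eq_true]
    refine ⟨fun s hs => ?_, fun s hs => ?_⟩
    · obtain ⟨τ, hτ, hq⟩ := A7_plc S σ hs
      rw [Bool.or_eq_true, Bool.not_eq_true', Nat.ble_eq, ← hτ, ← hq]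
      by_cases he : plc pl (p ∘ τ) = plc pl (p ∘ σ)
      · exact Or.inr (h2 τ he)
      · left
        rw [← Bool.not_eq_true, Nat.beq_eq]
        exact he
    · rw [List.all_eq_true]
      intro t ht
      obtain ⟨τ, hτ, hq⟩ := A7_plc S σ hs
      obtain ⟨τ', hτ', hq'⟩ := A7_plc S τ ht
      rw [Bool.or_eq_true, Bool.not_eq_true', Nat.ble_eq, ← hτ, ← hτ', ← hq, ← hq']
      by_cases he : plc pl (p ∘ τ') = plc pl (p ∘ σ)
      · exact Or.inr (h2 τ' he)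
      · left
        rw [← Bool.not_eq_true, Nat.beq_eq]
        exact he

end Pool.Agent.Lib.MP_16c009_coR
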