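import Pool.Agent.Lib.MP_16c009_coR.Da0

/-!
# The lists of plane code 0
-/

set_option autoImplicit false
set_option maxRecDepth 100000

namespace Pool.Agent.Lib.MP_16c009_coR

theorem raw_0 : raw pl0 = K0 := by decide +kernel

theorem kok_0 : K0.all (kOk (phi pl0)) = true := by decide +kernel

theorem chkR_0 : chkR pl0 C0 O0 Q0 = true := by decide +kernel

end Pool.Agent.Lib.MP_16c009_coR
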