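import Pool.Agent.Lib.MP_16c009_coR.Da1

/-!
# The lists of plane code 1
-/

set_option autoImplicit false
set_option maxRecDepth 100000

namespace Pool.Agent.Lib.MP_16c009_coR

theorem raw_1 : raw pl1 = K1 := by decide +kernel

theorem kok_1 : K1.all (kOk (phi pl1)) = true := by decide +kernel

theorem chkR_1 : chkR pl1 C1 O1 Q1 = true := by decide +kernel

end Pool.Agent.Lib.MP_16c009_coR
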