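import Pool.Agent.Lib.MP_16c009_coR.Da10

/-!
# The lists of plane code 10
-/

set_option autoImplicit false
set_option maxRecDepth 100000

namespace Pool.Agent.Lib.MP_16c009_coR

theorem raw_10 : raw pl10 = K10 := by decide +kernel

theorem kok_10 : K10.all (kOk (phi pl10)) = true := by decide +kernel

theorem chkR_10 : chkR pl10 C10 O10 Q10 = true := by decide +kernel

end Pool.Agent.Lib.MP_16c009_coR
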