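import Pool.Agent.Lib.MP_16c009_coR.Da11

/-!
# The lists of plane code 11
-/

set_option autoImplicit false
set_option maxRecDepth 100000

namespace Pool.Agent.Lib.MP_16c009_coR

theorem raw_11 : raw pl11 = K11 := by decide +kernel

theorem kok_11 : K11.all (kOk (phi pl11)) = true := by decide +kernel

theorem chkR_11 : chkR pl11 C11 O11 Q11 = true := by decide +kernel

end Pool.Agent.Lib.MP_16c009_coR
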