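import Pool.Agent.Lib.MP_16c009_coR.Da12

/-!
# The lists of plane code 12
-/

set_option autoImplicit false
set_option maxRecDepth 100000

namespace Pool.Agent.Lib.MP_16c009_coR

theorem raw_12 : raw pl12 = K12 := by decide +kernel

theorem kok_12 : K12.all (kOk (phi pl12)) = true := by decide +kernel

theorem chkR_12 : chkR pl12 C12 O12 Q12 = true := by decide +kernel

end Pool.Agent.Lib.MP_16c009_coR
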