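import Pool.Agent.Lib.MP_16c009_coR.Da14

/-!
# The lists of plane code 14
-/

set_option autoImplicit false
set_option maxRecDepth 100000

namespace Pool.Agent.Lib.MP_16c009_coR

theorem raw_14 : raw pl14 = K14 := by decide +kernel

theorem kok_14 : K14.all (kOk (phi pl14)) = true := by decide +kernel

theorem chkR_14 : chkR pl14 C14 O14 Q14 = true := by decide +kernel

end Pool.Agent.Lib.MP_16c009_coR
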