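import Pool.Agent.Lib.MP_16c009_coR.Da15

/-!
# The lists of plane code 15
-/

set_option autoImplicit false
set_option maxRecDepth 100000

namespace Pool.Agent.Lib.MP_16c009_coR

theorem raw_15 : raw pl15 = K15 := by decide +kernel

theorem kok_15 : K15.all (kOk (phi pl15)) = true := by decide +kernel

theorem chkR_15 : chkR pl15 C15 O15 Q15 = true := by decide +kernel

end Pool.Agent.Lib.MP_16c009_coR
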