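import Pool.Agent.Lib.MP_16c009_coR.Da2

/-!
# The lists of plane code 2
-/

set_option autoImplicit false
set_option maxRecDepth 100000

namespace Pool.Agent.Lib.MP_16c009_coR

theorem raw_2 : raw pl2 = K2 := by decide +kernel

theorem kok_2 : K2.all (kOk (phi pl2)) = true := by decide +kernel

theorem chkR_2 : chkR pl2 C2 O2 Q2 = true := by decide +kernel

end Pool.Agent.Lib.MP_16c009_coR
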