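import Pool.Agent.Lib.MP_16c009_coR.Da3

/-!
# The lists of plane code 3
-/

set_option autoImplicit false
set_option maxRecDepth 100000

namespace Pool.Agent.Lib.MP_16c009_coR

theorem raw_3 : raw pl3 = K3 := by decide +kernel

theorem kok_3 : K3.all (kOk (phi pl3)) = true := by decide +kernel

theorem chkR_3 : chkR pl3 C3 O3 Q3 = true := by decide +kernel

end Pool.Agent.Lib.MP_16c009_coR
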