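import Pool.Agent.Lib.MP_16c009_coR.Da4

/-!
# The lists of plane code 4
-/

set_option autoImplicit false
set_option maxRecDepth 100000

namespace Pool.Agent.Lib.MP_16c009_coR

theorem raw_4 : raw pl4 = K4 := by decide +kernel

theorem kok_4 : K4.all (kOk (phi pl4)) = true := by decide +kernel

theorem chkR_4 : chkR pl4 C4 O4 Q4 = true := by decide +kernel

end Pool.Agent.Lib.MP_16c009_coR
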