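import Pool.Agent.Lib.MP_16c009_coR.Da5

/-!
# The lists of plane code 5
-/

set_option autoImplicit false
set_option maxRecDepth 100000

namespace Pool.Agent.Lib.MP_16c009_coR

theorem raw_5 : raw pl5 = K5 := by decide +kernel

theorem kok_5 : K5.all (kOk (phi pl5)) = true := by decide +kernel

theorem chkR_5 : chkR pl5 C5 O5 Q5 = true := by decide +kernel

end Pool.Agent.Lib.MP_16c009_coR
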