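import Pool.Agent.Lib.MP_16c009_coR.Da6

/-!
# The lists of plane code 6
-/

set_option autoImplicit false
set_option maxRecDepth 100000

namespace Pool.Agent.Lib.MP_16c009_coR

theorem raw_6 : raw pl6 = K6 := by decide +kernel

theorem kok_6 : K6.all (kOk (phi pl6)) = true := by decide +kernel

theorem chkR_6 : chkR pl6 C6 O6 Q6 = true := by decide +kernel

end Pool.Agent.Lib.MP_16c009_coR
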