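import Pool.Agent.Lib.MP_16c009_coR.Da7

/-!
# The lists of plane code 7
-/

set_option autoImplicit false
set_option maxRecDepth 100000

namespace Pool.Agent.Lib.MP_16c009_coR

theorem raw_7 : raw pl7 = K7 := by decide +kernel

theorem kok_7 : K7.all (kOk (phi pl7)) = true := by decide +kernel

theorem chkR_7 : chkR pl7 C7 O7 Q7 = true := by decide +kernel

end Pool.Agent.Lib.MP_16c009_coR
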