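import Pool.Agent.Lib.MP_16c009_coR.Da8

/-!
# The lists of plane code 8
-/

set_option autoImplicit false
set_option maxRecDepth 100000

namespace Pool.Agent.Lib.MP_16c009_coR

theorem raw_8 : raw pl8 = K8 := by decide +kernel

theorem kok_8 : K8.all (kOk (phi pl8)) = true := by decide +kernel

theorem chkR_8 : chkR pl8 C8 O8 Q8 = true := by decide +kernel

end Pool.Agent.Lib.MP_16c009_coR
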