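import Pool.Agent.Lib.MP_16c009_coR.Da9

/-!
# The lists of plane code 9
-/

set_option autoImplicit false
set_option maxRecDepth 100000

namespace Pool.Agent.Lib.MP_16c009_coR

theorem raw_9 : raw pl9 = K9 := by decide +kernel

theorem kok_9 : K9.all (kOk (phi pl9)) = true := by decide +kernel

theorem chkR_9 : chkR pl9 C9 O9 Q9 = true := by decide +kernel

end Pool.Agent.Lib.MP_16c009_coR
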