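import Pool.Agent.Lib.MP_16c009_coR.Da0

/-!
# The check of plane code 0, part 1
-/

set_option autoImplicit false
set_option maxRecDepth 100000

namespace Pool.Agent.Lib.MP_16c009_coR

theorem okq_0_3 : Q0_3.all (fun q => okQ K0 q C0 O0) = true := by decide +kernel

theorem okq_0_4 : Q0_4.all (fun q => okQ K0 q C0 O0) = true := by decide +kernel

theorem okq_0_5 : Q0_5.all (fun q => okQ K0 q C0 O0) = true := by decide +kernel

end Pool.Agent.Lib.MP_16c009_coR
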