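import Pool.Agent.Lib.MP_16c009_coR.Da1

/-!
# The check of plane code 1, part 1
-/

set_option autoImplicit false
set_option maxRecDepth 100000

namespace Pool.Agent.Lib.MP_16c009_coR

theorem okq_1_1 : Q1_1.all (fun q => okQ K1 q C1 O1) = true := by decide +kernel

end Pool.Agent.Lib.MP_16c009_coR
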