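import Pool.Agent.Lib.MP_16c009_coR.Da5

/-!
# The check of plane code 5, part 1
-/

set_option autoImplicit false
set_option maxRecDepth 100000

namespace Pool.Agent.Lib.MP_16c009_coR

theorem okq_5_2 : Q5_2.all (fun q => okQ K5 q C5 O5) = true := by decide +kernel

theorem okq_5_3 : Q5_3.all (fun q => okQ K5 q C5 O5) = true := by decide +kernel

end Pool.Agent.Lib.MP_16c009_coR
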