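import Pool.Agent.Lib.MP_16c009_coR.Da8

/-!
# The check of plane code 8, part 0
-/

set_option autoImplicit false
set_option maxRecDepth 100000

namespace Pool.Agent.Lib.MP_16c009_coR

theorem okq_8_0 : Q8_0.all (fun q => okQ K8 q C8 O8) = true := by decide +kernel

end Pool.Agent.Lib.MP_16c009_coR
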