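import Pool.Agent.Lib.MP_16c009_coR.KC
import Pool.Agent.Lib.MP_16c009_coR.Da0
import Pool.Agent.Lib.MP_16c009_coR.Da1
import Pool.Agent.Lib.MP_16c009_coR.Da2
import Pool.Agent.Lib.MP_16c009_coR.Da3
import Pool.Agent.Lib.MP_16c009_coR.Da4
import Pool.Agent.Lib.MP_16c009_coR.Da5
import Pool.Agent.Lib.MP_16c009_coR.Da6
import Pool.Agent.Lib.MP_16c009_coR.Da7
import Pool.Agent.Lib.MP_16c009_coR.Da8
import Pool.Agent.Lib.MP_16c009_coR.Da9
import Pool.Agent.Lib.MP_16c009_coR.Da10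
import Pool.Agent.Lib.MP_16c009_coR.Da11
import Pool.Agent.Lib.MP_16c009_coR.Da12
import Pool.Agent.Lib.MP_16c009_coR.Da13
import Pool.Agent.Lib.MP_16c009_coR.Da14
import Pool.Agent.Lib.MP_16c009_coR.Da15

/-!
# The plane codes
-/

set_option autoImplicit false
set_option maxRecDepth 100000

namespace Pool.Agent.Lib.MP_16c009_coR

theorem PL_eq : eqL PL [pl0, pl1, pl2, pl3, pl4, pl5, pl6, pl7, pl8, pl9, pl10, pl11, pl12, pl13, pl14, pl15] = true := by decide +kernel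

end Pool.Agent.Lib.MP_16c009_coR
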