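import Pool.Agent.Lib.MP_16c009_coR.KG
import Pool.Agent.Lib.MP_16c009_coR.Dp
import Pool.Agent.Lib.MP_16c009_coR.Db0
import Pool.Agent.Lib.MP_16c009_coR.Dc0_0
import Pool.Agent.Lib.MP_16c009_coR.Dc0_1
import Pool.Agent.Lib.MP_16c009_coR.Dc0_2
import Pool.Agent.Lib.MP_16c009_coR.Dc0_3
import Pool.Agent.Lib.MP_16c009_coR.Dc0_4
import Pool.Agent.Lib.MP_16c009_coR.Dc0_5
import Pool.Agent.Lib.MP_16c009_coR.Dc0_6
import Pool.Agent.Lib.MP_16c009_coR.Dc0_7
import Pool.Agent.Lib.MP_16c009_coR.Dc0_8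
import Pool.Agent.Lib.MP_16c009_coR.Db1
import Pool.Agent.Lib.MP_16c009_coR.Dc1_0
import Pool.Agent.Lib.MP_16c009_coR.Dc1_1
import Pool.Agent.Lib.MP_16c009_coR.Dc1_2
import Pool.Agent.Lib.MP_16c009_coR.Dc1_3
import Pool.Agent.Lib.MP_16c009_coR.Dc1_4
import Pool.Agent.Lib.MP_16c009_coR.Dc1_5
import Pool.Agent.Lib.MP_16c009_coR.Dc1_6
import Pool.Agent.Lib.MP_16c009_coR.Dc1_7
import Pool.Agent.Lib.MP_16c009_coR.Dc1_8
import Pool.Agent.Lib.MP_16c009_coR.Dc1_9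
import Pool.Agent.Lib.MP_16c009_coR.Dc1_10
import Pool.Agent.Lib.MP_16c009_coR.Db2
import Pool.Agent.Lib.MP_16c009_coR.Dc2_0
import Pool.Agent.Lib.MP_16c009_coR.Dc2_1
import Pool.Agent.Lib.MP_16c009_coR.Dc2_2
import Pool.Agent.Lib.MP_16c009_coR.Db3
import Pool.Agent.Lib.MP_16c009_coR.Dc3_0
import Pool.Agent.Lib.MP_16c009_coR.Dc3_1
import Pool.Agent.Lib.MP_16c009_coR.Dc3_2
import Pool.Agent.Lib.MP_16c009_coR.Dc3_3
import Pool.Agent.Lib.MP_16c009_coR.Dc3_4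
import Pool.Agent.Lib.MP_16c009_coR.Dc3_5
import Pool.Agent.Lib.MP_16c009_coR.Db4
import Pool.Agent.Lib.MP_16c009_coR.Dc4_0
import Pool.Agent.Lib.MP_16c009_coR.Db5
import Pool.Agent.Lib.MP_16c009_coR.Dc5_0
import Pool.Agent.Lib.MP_16c009_coR.Dc5_1
import Pool.Agent.Lib.MP_16c009_coR.Db6
import Pool.Agent.Lib.MP_16c009_coR.Dc6_0
import Pool.Agent.Lib.MP_16c009_coR.Db7
import Pool.Agent.Lib.MP_16c009_coR.Dc7_0
import Pool.Agent.Lib.MP_16c009_coR.Dc7_1
import Pool.Agent.Lib.MP_16c009_coR.Dc7_2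
import Pool.Agent.Lib.MP_16c009_coR.Db8
import Pool.Agent.Lib.MP_16c009_coR.Dc8_0
import Pool.Agent.Lib.MP_16c009_coR.Db9
import Pool.Agent.Lib.MP_16c009_coR.Dc9_0
import Pool.Agent.Lib.MP_16c009_coR.Db10
import Pool.Agent.Lib.MP_16c009_coR.Dc10_0
import Pool.Agent.Lib.MP_16c009_coR.Db11
import Pool.Agent.Lib.MP_16c009_coR.Dc11_0
import Pool.Agent.Lib.MP_16c009_coR.Db12
import Pool.Agent.Lib.MP_16c009_coR.Dc12_0
import Pool.Agent.Lib.MP_16c009_coR.Db13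
import Pool.Agent.Lib.MP_16c009_coR.Dc13_0
import Pool.Agent.Lib.MP_16c009_coR.Db14
import Pool.Agent.Lib.MP_16c009_coR.Dc14_0
import Pool.Agent.Lib.MP_16c009_coR.Db15
import Pool.Agent.Lib.MP_16c009_coR.Dc15_0

/-!
# The finite check
-/

set_option autoImplicit false
set_option maxRecDepth 100000

namespace Pool.Agent.Lib.MP_16c009_coR

theorem chk_0 : ∀ q ∈ QL pl0, ∀ r ∈ RL pl0, 0 ≤ ((raw pl0).map (evK q r)).sum := by
  refine check_of chkR_0 raw_0 kok_0 fun q hq => ?_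
  have h : Q0.all (fun q => okQ K0 q C0 O0) = true := by
    unfold Q0
    simp only [List.all_append, Bool.and_eq_true]
    exact ⟨okq_0_0, okq_0_1, okq_0_2, okq_0_3, okq_0_4, okq_0_5, okq_0_6, okq_0_7, okq_0_8, okq_0_9, okq_0_10, okq_0_11, okq_0_12, okq_0_13, okq_0_14, okq_0_15, okq_0_16, okq_0_17, okq_0_18, okq_0_19, okq_0_20, okq_0_21, okq_0_22, okq_0_23, okq_0_24⟩
  exact List.all_eq_true.1 h q hq

theorem chk_1 : ∀ q ∈ QL pl1, ∀ r ∈ RL pl1, 0 ≤ ((raw pl1).map (evK q r)).sum := by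
  refine check_of chkR_1 raw_1 kok_1 fun q hq => ?_
  have h : Q1.all (fun q => okQ K1 q C1 O1) = true := by
    unfold Q1
    simp only [List.all_append, Bool.and_eq_true]
    exact ⟨okq_1_0, okq_1_1, okq_1_2, okq_1_3, okq_1_4, okq_1_5, okq_1_6, okq_1_7, okq_1_8, okq_1_9, okq_1_10⟩
  exact List.all_eq_true.1 h q hq

theorem chk_2 : ∀ q ∈ QL pl2, ∀ r ∈ RL pl2, 0 ≤ ((raw pl2).map (evK q r)).sum := by
  refine check_of chkR_2 raw_2 kok_2 fun q hq => ?_
  have h : Q2.all (fun q => okQ K2 q C2 O2) = true := by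
    unfold Q2
    simp only [List.all_append, Bool.and_eq_true]
    exact ⟨okq_2_0, okq_2_1, okq_2_2, okq_2_3, okq_2_4, okq_2_5⟩
  exact List.all_eq_true.1 h q hq

theorem chk_3 : ∀ q ∈ QL pl3, ∀ r ∈ RL pl3, 0 ≤ ((raw pl3).map (evK q r)).sum := by
  refine check_of chkR_3 raw_3 kok_3 fun q hq => ?_
  have h : Q3.all (fun q => okQ K3 q C3 O3) = true := by
    unfold Q3
    simp only [List.all_append, Bool.and_eq_true]
    exact ⟨okq_3_0, okq_3_1, okq_3_2, okq_3_3, okq_3_4, okq_3_5, okq_3_6, okq_3_7, okq_3_8, okq_3_9, okq_3_10, okq_3_11⟩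
  exact List.all_eq_true.1 h q hq

theorem chk_4 : ∀ q ∈ QL pl4, ∀ r ∈ RL pl4, 0 ≤ ((raw pl4).map (evK q r)).sum := by
  refine check_of chkR_4 raw_4 kok_4 fun q hq => ?_
  have h : Q4.all (fun q => okQ K4 q C4 O4) = true := by
    exact okq_4_0
  exact List.all_eq_true.1 h q hq

theorem chk_5 : ∀ q ∈ QL pl5, ∀ r ∈ RL pl5, 0 ≤ ((raw pl5).map (evK q r)).sum := by
  refine check_of chkR_5 raw_5 kok_5 fun q hq => ?_
  have h : Q5.all (fun q => okQ K5 q C5 O5) = true := by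
    unfold Q5
    simp only [List.all_append, Bool.and_eq_true]
    exact ⟨okq_5_0, okq_5_1, okq_5_2, okq_5_3⟩
  exact List.all_eq_true.1 h q hq

theorem chk_6 : ∀ q ∈ QL pl6, ∀ r ∈ RL pl6, 0 ≤ ((raw pl6).map (evK q r)).sum := by
  refine check_of chkR_6 raw_6 kok_6 fun q hq => ?_
  have h : Q6.all (fun q => okQ K6 q C6 O6) = true := by
    exact okq_6_0
  exact List.all_eq_true.1 h q hq

theorem chk_7 : ∀ q ∈ QL pl7, ∀ r ∈ RL pl7, 0 ≤ ((raw pl7).map (evK q r)).sum := by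
  refine check_of chkR_7 raw_7 kok_7 fun q hq => ?_
  have h : Q7.all (fun q => okQ K7 q C7 O7) = true := by
    unfold Q7
    simp only [List.all_append, Bool.and_eq_true]
    exact ⟨okq_7_0, okq_7_1, okq_7_2, okq_7_3, okq_7_4⟩
  exact List.all_eq_true.1 h q hq

theorem chk_8 : ∀ q ∈ QL pl8, ∀ r ∈ RL pl8, 0 ≤ ((raw pl8).map (evK q r)).sum := by
  refine check_of chkR_8 raw_8 kok_8 fun q hq => ?_
  have h : Q8.all (fun q => okQ K8 q C8 O8) = true := by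
    exact okq_8_0
  exact List.all_eq_true.1 h q hq

theorem chk_9 : ∀ q ∈ QL pl9, ∀ r ∈ RL pl9, 0 ≤ ((raw pl9).map (evK q r)).sum := by
  refine check_of chkR_9 raw_9 kok_9 fun q hq => ?_
  have h : Q9.all (fun q => okQ K9 q C9 O9) = true := by
    exact okq_9_0
  exact List.all_eq_true.1 h q hq

theorem chk_10 : ∀ q ∈ QL pl10, ∀ r ∈ RL pl10, 0 ≤ ((raw pl10).map (evK q r)).sum := by
  refine check_of chkR_10 raw_10 kok_10 fun q hq => ?_
  have h : Q10.all (fun q => okQ K10 q C10 O10) = true := by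
    exact okq_10_0
  exact List.all_eq_true.1 h q hq

theorem chk_11 : ∀ q ∈ QL pl11, ∀ r ∈ RL pl11, 0 ≤ ((raw pl11).map (evK q r)).sum := by
  refine check_of chkR_11 raw_11 kok_11 fun q hq => ?_
  have h : Q11.all (fun q => okQ K11 q C11 O11) = true := by
    exact okq_11_0
  exact List.all_eq_true.1 h q hq

theorem chk_12 : ∀ q ∈ QL pl12, ∀ r ∈ RL pl12, 0 ≤ ((raw pl12).map (evK q r)).sum := by
  refine check_of chkR_12 raw_12 kok_12 fun q hq => ?_
  have h : Q12.all (fun q => okQ K12 q C12 O12) = true := by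
    exact okq_12_0
  exact List.all_eq_true.1 h q hq

theorem chk_13 : ∀ q ∈ QL pl13, ∀ r ∈ RL pl13, 0 ≤ ((raw pl13).map (evK q r)).sum := by
  refine check_of chkR_13 raw_13 kok_13 fun q hq => ?_
  have h : Q13.all (fun q => okQ K13 q C13 O13) = true := by
    exact okq_13_0
  exact List.all_eq_true.1 h q hq

theorem chk_14 : ∀ q ∈ QL pl14, ∀ r ∈ RL pl14, 0 ≤ ((raw pl14).map (evK q r)).sum := by
  refine check_of chkR_14 raw_14 kok_14 fun q hq => ?_
  have h : Q14.all (fun q => okQ K14 q C14 O14) = true := by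
    exact okq_14_0
  exact List.all_eq_true.1 h q hq

theorem chk_15 : ∀ q ∈ QL pl15, ∀ r ∈ RL pl15, 0 ≤ ((raw pl15).map (evK q r)).sum := by
  refine check_of chkR_15 raw_15 kok_15 fun q hq => ?_
  have h : Q15.all (fun q => okQ K15 q C15 O15) = true := by
    exact okq_15_0
  exact List.all_eq_true.1 h q hq

theorem check_all : ∀ P ∈ PL, ∀ q ∈ QL P, ∀ r ∈ RL P, 0 ≤ ((raw P).map (evK q r)).sum := by
  intro P hP
  rw [eqL_eq PL_eq] at hP
  simp only [List.mem_cons, List.not_mem_nil, or_false] at hP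
  rcases hP with rfl | rfl | rfl | rfl | rfl | rfl | rfl | rfl | rfl | rfl | rfl | rfl | rfl | rfl | rfl | rfl
  · exact chk_0
  · exact chk_1
  · exact chk_2
  · exact chk_3
  · exact chk_4
  · exact chk_5
  · exact chk_6
  · exact chk_7
  · exact chk_8
  · exact chk_9
  · exact chk_10
  · exact chk_11
  · exact chk_12
  · exact chk_13
  · exact chk_14
  · exact chk_15

end Pool.Agent.Lib.MP_16c009_coR
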