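import Pool.Agent.Lib.MP_16c009_coR.A1
import Pool.Agent.Lib.MP_16c009_coR.A3

/-!
# Sums over all the permutations of seven slots, for functions symmetric in blocks of slots
-/

set_option autoImplicit false

namespace Pool.Agent.Lib.MP_16c009_coR

open Equiv Finset

theorem B1_comp (τ : Perm (Fin 7)) (F : Perm (Fin 7) → ℝ) : ∑ σ, F (σ * τ) = ∑ σ, F σ :=
  Equiv.sum_comp (Equiv.mulRight τ) F

/-- PROOF. `1 = ch (σ i < σ j) + ch (σ j < σ i)`; the substitution `σ ↦ σ * swap i j` (`Equiv.sum_comp` with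
`Equiv.mulRight`) changes the second sum into the first one. -/
theorem pairStep {i j : Fin 7} (hij : i ≠ j) (f : Perm (Fin 7) → ℝ) (hf : ∀ σ, f (σ * swap i j) = f σ) :
    ∑ σ, f σ = 2 * ∑ σ : Perm (Fin 7), ch (σ i < σ j) * f σ := by
  have h1 : ∀ σ : Perm (Fin 7), f σ = ch (σ i < σ j) * f σ + ch (σ j < σ i) * f σ := by
    intro σ
    have h0 : σ i ≠ σ j := fun h => hij (σ.injective h)
    rcases lt_or_gt_of_ne h0 with h | h
    · rw [ch_true h, ch_false (not_lt_of_gt h)]
      ring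
    · rw [ch_true h, ch_false (not_lt_of_gt h)]
      ring
  have h2 : ∑ σ : Perm (Fin 7), ch (σ j < σ i) * f σ = ∑ σ : Perm (Fin 7), ch (σ i < σ j) * f σ := by
    rw [← B1_comp (swap i j) (fun σ => ch (σ j < σ i) * f σ)]
    refine sum_congr rfl fun σ _ => ?_
    simp only [Perm.mul_apply, swap_apply_left, swap_apply_right, hf]
  rw [two_mul]
  nth_rewrite 2 [← h2]
  rw [← sum_add_distrib]
  exact sum_congr rfl fun σ _ => h1 σ

/-- PROOF. The sum of `ch` of the six orders of `σ i, σ j, σ k` is `1`; every one of the six sums is changed into the first one by a product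
of the exchanges `swap i j`, `swap j k`. -/
theorem tripleStep {i j k : Fin 7} (hij : i ≠ j) (hik : i ≠ k) (hjk : j ≠ k) (f : Perm (Fin 7) → ℝ)
    (hf : ∀ σ, f (σ * swap i j) = f σ) (hf' : ∀ σ, f (σ * swap j k) = f σ) :
    ∑ σ, f σ = 6 * ∑ σ : Perm (Fin 7), ch (σ i < σ j ∧ σ j < σ k) * f σ := by
  have h1 : ∀ σ : Perm (Fin 7), f σ = ch (σ i < σ j ∧ σ j < σ k) * f σ +
      ch (σ j < σ i ∧ σ i < σ k) * f σ + ch (σ i < σ k ∧ σ k < σ j) * f σ +
      ch (σ j < σ k ∧ σ k < σ i) * f σ + ch (σ k < σ i ∧ σ i < σ j) * f σ +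
      ch (σ k < σ j ∧ σ j < σ i) * f σ := by
    intro σ
    have h0 : σ i ≠ σ j := fun h => hij (σ.injective h)
    have h0' : σ i ≠ σ k := fun h => hik (σ.injective h)
    have h0'' : σ j ≠ σ k := fun h => hjk (σ.injective h)
    suffices h : ch (σ i < σ j ∧ σ j < σ k) + ch (σ j < σ i ∧ σ i < σ k) +
        ch (σ i < σ k ∧ σ k < σ j) + ch (σ j < σ k ∧ σ k < σ i) + ch (σ k < σ i ∧ σ i < σ j) +
        ch (σ k < σ j ∧ σ j < σ i) = 1 by
      linear_combination (-(f σ)) * h
    rcases lt_or_gt_of_ne h0 with h | h <;> rcases lt_or_gt_of_ne h0' with h' | h' <;>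
      rcases lt_or_gt_of_ne h0'' with h'' | h'' <;>
      simp only [ch, h, h', h'', not_lt_of_gt h, not_lt_of_gt h', not_lt_of_gt h'', and_true, true_and,
        and_false, false_and, and_self, if_true, if_false] <;> first | (norm_num; done) | (exfalso; omega)
  have hs : ∀ σ : Perm (Fin 7), f (σ * (swap i j * swap j k)) = f σ := fun σ => by
    rw [← mul_assoc, hf', hf]
  have ht : ∀ σ : Perm (Fin 7), f (σ * (swap j k * swap i j)) = f σ := fun σ => by
    rw [← mul_assoc, hf, hf']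
  have hu : ∀ σ : Perm (Fin 7), f (σ * (swap i j * swap j k * swap i j)) = f σ := fun σ => by
    rw [← mul_assoc, hf, hs]
  have e1 : swap i j k = k := swap_apply_of_ne_of_ne hik.symm hjk.symm
  have e2 : swap j k i = i := swap_apply_of_ne_of_ne hij hik
  have h2 : ∑ σ : Perm (Fin 7), ch (σ j < σ i ∧ σ i < σ k) * f σ =
      ∑ σ : Perm (Fin 7), ch (σ i < σ j ∧ σ j < σ k) * f σ := by
    rw [← B1_comp (swap i j) (fun σ => ch (σ j < σ i ∧ σ i < σ k) * f σ)]
    refine sum_congr rfl fun σ _ => ?_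
    simp only [Perm.mul_apply, swap_apply_left, swap_apply_right, hf, e1]
  have h3 : ∑ σ : Perm (Fin 7), ch (σ i < σ k ∧ σ k < σ j) * f σ =
      ∑ σ : Perm (Fin 7), ch (σ i < σ j ∧ σ j < σ k) * f σ := by
    rw [← B1_comp (swap j k) (fun σ => ch (σ i < σ k ∧ σ k < σ j) * f σ)]
    refine sum_congr rfl fun σ _ => ?_
    simp only [Perm.mul_apply, swap_apply_left, swap_apply_right, hf', e2]
  have h4 : ∑ σ : Perm (Fin 7), ch (σ j < σ k ∧ σ k < σ i) * f σ =
      ∑ σ : Perm (Fin 7), ch (σ i < σ j ∧ σ j < σ k) * f σ := by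
    rw [← B1_comp (swap j k * swap i j) (fun σ => ch (σ j < σ k ∧ σ k < σ i) * f σ)]
    refine sum_congr rfl fun σ _ => ?_
    simp only [ht]
    simp only [Perm.mul_apply, swap_apply_left, swap_apply_right, e1, e2]
  have h5 : ∑ σ : Perm (Fin 7), ch (σ k < σ i ∧ σ i < σ j) * f σ =
      ∑ σ : Perm (Fin 7), ch (σ i < σ j ∧ σ j < σ k) * f σ := by
    rw [← B1_comp (swap i j * swap j k) (fun σ => ch (σ k < σ i ∧ σ i < σ j) * f σ)]
    refine sum_congr rfl fun σ _ => ?_
    simp only [hs]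
    simp only [Perm.mul_apply, swap_apply_left, swap_apply_right, e1, e2]
  have h6 : ∑ σ : Perm (Fin 7), ch (σ k < σ j ∧ σ j < σ i) * f σ =
      ∑ σ : Perm (Fin 7), ch (σ i < σ j ∧ σ j < σ k) * f σ := by
    rw [← B1_comp (swap i j * swap j k * swap i j) (fun σ => ch (σ k < σ j ∧ σ j < σ i) * f σ)]
    refine sum_congr rfl fun σ _ => ?_
    simp only [hu]
    simp only [Perm.mul_apply, swap_apply_left, swap_apply_right, e1, e2]
  rw [sum_congr rfl fun σ _ => h1 σ]
  rw [sum_add_distrib, sum_add_distrib, sum_add_distrib, sum_add_distrib, sum_add_distrib,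
    h2, h3, h4, h5, h6]
  ring

theorem B1_pair {i j : Fin 7} (hij : i ≠ j) (P : Perm (Fin 7) → Prop) (f : Perm (Fin 7) → ℝ)
    (hP : ∀ σ, P (σ * swap i j) ↔ P σ) (hf : ∀ σ, f (σ * swap i j) = f σ) :
    ∑ σ, ch (P σ) * f σ = 2 * ∑ σ : Perm (Fin 7), ch (P σ ∧ σ i < σ j) * f σ := by
  rw [pairStep hij (fun σ => ch (P σ) * f σ) fun σ => by simp only [ch_congr (hP σ), hf]]
  congr 1
  refine sum_congr rfl fun σ _ => ?_
  rw [ch_and]
  ring

theorem B1_triple {i j k : Fin 7} (hij : i ≠ j) (hik : i ≠ k) (hjk : j ≠ k)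
    (P : Perm (Fin 7) → Prop) (f : Perm (Fin 7) → ℝ)
    (hP : ∀ σ, P (σ * swap i j) ↔ P σ) (hP' : ∀ σ, P (σ * swap j k) ↔ P σ)
    (hf : ∀ σ, f (σ * swap i j) = f σ) (hf' : ∀ σ, f (σ * swap j k) = f σ) :
    ∑ σ, ch (P σ) * f σ = 6 * ∑ σ : Perm (Fin 7), ch (P σ ∧ σ i < σ j ∧ σ j < σ k) * f σ := by
  rw [tripleStep hij hik hjk (fun σ => ch (P σ) * f σ) (fun σ => by simp only [ch_congr (hP σ), hf])
    fun σ => by simp only [ch_congr (hP' σ), hf']]
  congr 1
  refine sum_congr rfl fun σ _ => ?_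
  rw [ch_and (P σ)]
  ring

/-- the positions `i` such that `i`, `i + 1` are in the same block -/
def adj (b : List ℕ) : List (Fin 7) :=
  if b = [3, 2, 2] then [0, 1, 3, 5] else
  if b = [2, 1, 2, 2] then [0, 3, 5] else
  if b = [3, 3, 1] then [0, 1, 3, 4] else
  if b = [3, 2, 1, 1] then [0, 1, 3] else
  if b = [2, 1, 2, 1, 1] then [0, 3] else
  if b = [2, 2, 1, 2] then [0, 2, 5] else
  if b = [1, 2, 2, 2] then [1, 3, 5] else
  if b = [1, 1, 1, 2, 2] then [3, 5] else []

/-- the order of the group of the block structure -/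
def grp (b : List ℕ) : ℕ :=
  if b = [3, 2, 2] then 24 else
  if b = [2, 1, 2, 2] then 8 else
  if b = [3, 3, 1] then 36 else
  if b = [3, 2, 1, 1] then 12 else
  if b = [2, 1, 2, 1, 1] then 4 else
  if b = [2, 2, 1, 2] then 8 else
  if b = [1, 2, 2, 2] then 8 else
  if b = [1, 1, 1, 2, 2] then 4 else 1

/-- the block structures which occur -/
def bset : List (List ℕ) :=
  [[3, 2, 2], [2, 1, 2, 2], [3, 3, 1], [3, 2, 1, 1], [2, 1, 2, 1, 1], [2, 2, 1, 2], [1, 2, 2, 2], [1, 1, 1, 2, 2]]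

/-- the permutation is increasing on the blocks -/
def srt (b : List ℕ) (σ : Perm (Fin 7)) : Prop := ∀ i ∈ adj b, σ i < σ (i + 1)

/-- PROOF. The eight block structures one by one, with `pairStep` for the blocks of two slots and `tripleStep` for the blocks of three
slots: apply them one after the other to the functions `f`, `ch (…) * f`, …; the condition on one block is invariant under the
exchanges in another block. Example `[3, 2, 2]`: `tripleStep` with `0, 1, 2`, `pairStep` with `3, 4`, `pairStep` with `5, 6`. -/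
theorem block_sum {b : List ℕ} (hb : b ∈ bset) (f : Perm (Fin 7) → ℝ)
    (hf : ∀ i ∈ adj b, ∀ σ, f (σ * swap i (i + 1)) = f σ) :
    ∑ σ, f σ = (grp b : ℝ) * ∑ σ : Perm (Fin 7), ch (srt b σ) * f σ := by
  have h0 : ∑ σ, f σ = ∑ σ : Perm (Fin 7), ch True * f σ := by
    refine sum_congr rfl fun σ _ => ?_
    rw [ch_true trivial, one_mul]
  rw [h0]
  simp only [bset, List.mem_cons, List.not_mem_nil, or_false] at hb
  rcases hb with rfl | rfl | rfl | rfl | rfl | rfl | rfl | rfl
  · have a0 := hf 0 (by decide)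
    have a1 := hf 1 (by decide)
    have a3 := hf 3 (by decide)
    have a5 := hf 5 (by decide)
    rw [B1_triple (i := 0) (j := 1) (k := 2) (by decide) (by decide) (by decide) (fun _ => True) f
      (by intro σ; rfl) (by intro σ; rfl) a0 a1]
    rw [B1_pair (i := 3) (j := 4) (by decide) _ f (by intro σ; rfl) a3]
    rw [B1_pair (i := 5) (j := 6) (by decide) _ f (by intro σ; rfl) a5]
    have h : ∀ σ : Perm (Fin 7), ch (((True ∧ σ 0 < σ 1 ∧ σ 1 < σ 2) ∧ σ 3 < σ 4) ∧ σ 5 < σ 6) =
        ch (srt [3, 2, 2] σ) := by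
      intro σ
      refine ch_congr ?_
      simp [srt, adj]
      try tauto
    simp only [h]
    try simp only [← mul_assoc]
    norm_num [grp]
  · have a0 := hf 0 (by decide)
    have a3 := hf 3 (by decide)
    have a5 := hf 5 (by decide)
    rw [B1_pair (i := 0) (j := 1) (by decide) (fun _ => True) f (by intro σ; rfl) a0]
    rw [B1_pair (i := 3) (j := 4) (by decide) _ f (by intro σ; rfl) a3]
    rw [B1_pair (i := 5) (j := 6) (by decide) _ f (by intro σ; rfl) a5]
    have h : ∀ σ : Perm (Fin 7), ch (((True ∧ σ 0 < σ 1) ∧ σ 3 < σ 4) ∧ σ 5 < σ 6) =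
        ch (srt [2, 1, 2, 2] σ) := by
      intro σ
      refine ch_congr ?_
      simp [srt, adj]
      try tauto
    simp only [h]
    try simp only [← mul_assoc]
    norm_num [grp]
  · have a0 := hf 0 (by decide)
    have a1 := hf 1 (by decide)
    have a3 := hf 3 (by decide)
    have a4 := hf 4 (by decide)
    rw [B1_triple (i := 0) (j := 1) (k := 2) (by decide) (by decide) (by decide) (fun _ => True) f
      (by intro σ; rfl) (by intro σ; rfl) a0 a1]
    rw [B1_triple (i := 3) (j := 4) (k := 5) (by decide) (by decide) (by decide) _ f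
      (by intro σ; rfl) (by intro σ; rfl) a3 a4]
    have h : ∀ σ : Perm (Fin 7), ch ((True ∧ σ 0 < σ 1 ∧ σ 1 < σ 2) ∧ σ 3 < σ 4 ∧ σ 4 < σ 5) =
        ch (srt [3, 3, 1] σ) := by
      intro σ
      refine ch_congr ?_
      simp [srt, adj]
      try tauto
    simp only [h]
    try simp only [← mul_assoc]
    norm_num [grp]
  · have a0 := hf 0 (by decide)
    have a1 := hf 1 (by decide)
    have a3 := hf 3 (by decide)
    rw [B1_triple (i := 0) (j := 1) (k := 2) (by decide) (by decide) (by decide) (fun _ => True) f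
      (by intro σ; rfl) (by intro σ; rfl) a0 a1]
    rw [B1_pair (i := 3) (j := 4) (by decide) _ f (by intro σ; rfl) a3]
    have h : ∀ σ : Perm (Fin 7), ch ((True ∧ σ 0 < σ 1 ∧ σ 1 < σ 2) ∧ σ 3 < σ 4) =
        ch (srt [3, 2, 1, 1] σ) := by
      intro σ
      refine ch_congr ?_
      simp [srt, adj]
      try tauto
    simp only [h]
    try simp only [← mul_assoc]
    norm_num [grp]
  · have a0 := hf 0 (by decide)
    have a3 := hf 3 (by decide)
    rw [B1_pair (i := 0) (j := 1) (by decide) (fun _ => True) f (by intro σ; rfl) a0]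
    rw [B1_pair (i := 3) (j := 4) (by decide) _ f (by intro σ; rfl) a3]
    have h : ∀ σ : Perm (Fin 7), ch ((True ∧ σ 0 < σ 1) ∧ σ 3 < σ 4) =
        ch (srt [2, 1, 2, 1, 1] σ) := by
      intro σ
      refine ch_congr ?_
      simp [srt, adj]
      try tauto
    simp only [h]
    try simp only [← mul_assoc]
    norm_num [grp]
  · have a0 := hf 0 (by decide)
    have a2 := hf 2 (by decide)
    have a5 := hf 5 (by decide)
    rw [B1_pair (i := 0) (j := 1) (by decide) (fun _ => True) f (by intro σ; rfl) a0]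
    rw [B1_pair (i := 2) (j := 3) (by decide) _ f (by intro σ; rfl) a2]
    rw [B1_pair (i := 5) (j := 6) (by decide) _ f (by intro σ; rfl) a5]
    have h : ∀ σ : Perm (Fin 7), ch (((True ∧ σ 0 < σ 1) ∧ σ 2 < σ 3) ∧ σ 5 < σ 6) =
        ch (srt [2, 2, 1, 2] σ) := by
      intro σ
      refine ch_congr ?_
      simp [srt, adj]
      try tauto
    simp only [h]
    try simp only [← mul_assoc]
    norm_num [grp]
  · have a1 := hf 1 (by decide)
    have a3 := hf 3 (by decide)
    have a5 := hf 5 (by decide)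
    rw [B1_pair (i := 1) (j := 2) (by decide) (fun _ => True) f (by intro σ; rfl) a1]
    rw [B1_pair (i := 3) (j := 4) (by decide) _ f (by intro σ; rfl) a3]
    rw [B1_pair (i := 5) (j := 6) (by decide) _ f (by intro σ; rfl) a5]
    have h : ∀ σ : Perm (Fin 7), ch (((True ∧ σ 1 < σ 2) ∧ σ 3 < σ 4) ∧ σ 5 < σ 6) =
        ch (srt [1, 2, 2, 2] σ) := by
      intro σ
      refine ch_congr ?_
      simp [srt, adj]
      try tauto
    simp only [h]
    try simp only [← mul_assoc]
    norm_num [grp]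
  · have a3 := hf 3 (by decide)
    have a5 := hf 5 (by decide)
    rw [B1_pair (i := 3) (j := 4) (by decide) (fun _ => True) f (by intro σ; rfl) a3]
    rw [B1_pair (i := 5) (j := 6) (by decide) _ f (by intro σ; rfl) a5]
    have h : ∀ σ : Perm (Fin 7), ch ((True ∧ σ 3 < σ 4) ∧ σ 5 < σ 6) =
        ch (srt [1, 1, 1, 2, 2] σ) := by
      intro σ
      refine ch_congr ?_
      simp [srt, adj]
      try tauto
    simp only [h]
    try simp only [← mul_assoc]
    norm_num [grp]

end Pool.Agent.Lib.MP_16c009_coR
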