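import Pool.Agent.Lib.MP_16c009_coR.B1

/-!
# The lists of colorings are the lists of the permutations increasing on the blocks
-/

set_option autoImplicit false

namespace Pool.Agent.Lib.MP_16c009_coR

open Equiv Finset

/-- the slots of a list -/
def lf (x : List ℕ) (i : Fin 7) : Fin 7 := Fin.ofNat 7 (x.getD i 0)

open Classical in
/-- the permutation of a list -/
noncomputable def lp (x : List ℕ) : Perm (Fin 7) :=
  if h : Function.Bijective (lf x) then Equiv.ofBijective (lf x) h else 1

/-- the list has seven different elements smaller than seven -/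
def val7 (x : List ℕ) : Bool :=
  Nat.beq x.length 7 && (x.all (fun a => Nat.blt a 7) && decide x.Nodup)

set_option maxRecDepth 100000 in
/-- By `decide +kernel` (eight lists, at most 1260 elements). -/
theorem cols_val : ∀ b ∈ bset, ∀ x ∈ cols b L7, val7 x = true ∧ ∀ i ∈ adj b, lf x i < lf x (i + 1) := by
  decide +kernel

set_option maxRecDepth 100000 in
/-- By `decide +kernel`. -/
theorem cols_len : ∀ b ∈ bset, (cols b L7).length * grp b = 5040 := by
  decide +kernel

/-- the number of a list in base eight -/
def B2_num (x : List ℕ) : ℕ := x.foldl (fun a d => Nat.add (Nat.mul a 8) d) 0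

/-- strictly increasing -/
def B2_chn : List ℕ → Bool
  | [] => true
  | a :: l => match l with
    | [] => true
    | b :: _ => Nat.blt a b && B2_chn l

theorem B2_chn_pair : ∀ l : List ℕ, B2_chn l = true → l.Pairwise (· < ·)
  | [], _ => List.Pairwise.nil
  | [a], _ => List.pairwise_singleton _ _
  | a :: b :: l, h => by
    have h1 : (Nat.blt a b && B2_chn (b :: l)) = true := h
    rw [Bool.and_eq_true] at h1
    have h2 := B2_chn_pair (b :: l) h1.2
    have h3 : a < b := by
      have := h1.1
      rwa [Nat.blt_eq] at this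
    refine List.Pairwise.cons ?_ h2
    intro c hc
    rcases List.mem_cons.1 hc with rfl | hc
    · exact h3
    · exact h3.trans ((List.pairwise_cons.1 h2).1 c hc)

set_option maxRecDepth 100000 in
theorem B2_chk : ∀ b ∈ bset, B2_chn ((cols b L7).map B2_num) = true := by
  decide +kernel

/-- PROOF. The number of a list `[a, b, …]` in base eight is strictly increasing along `cols b L7` (check the chain by `decide +kernel`
with a Boolean function written with `Nat.ble`, `Nat.add`, `Nat.mul`), so the list has no duplicates. -/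
theorem cols_nodup : ∀ b ∈ bset, (cols b L7).Nodup := by
  intro b hb
  have h1 := B2_chn_pair _ (B2_chk b hb)
  exact List.Nodup.of_map B2_num (h1.imp fun h => h.ne)

theorem B2_val {x : List ℕ} (h : val7 x = true) : x.length = 7 ∧ (∀ a ∈ x, a < 7) ∧ x.Nodup := by
  unfold val7 at h
  rw [Bool.and_eq_true, Bool.and_eq_true, Nat.beq_eq, List.all_eq_true, decide_eq_true_iff] at h
  refine ⟨h.1, fun a ha => ?_, h.2.2⟩
  have := h.2.1 a ha
  rwa [Nat.blt_eq] at this

theorem B2_lf {x : List ℕ} (h : val7 x = true) (i : Fin 7) :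
    ∃ h' : i.1 < x.length, (lf x i).1 = x[i.1] := by
  obtain ⟨h1, h2, -⟩ := B2_val h
  have h' : i.1 < x.length := by rw [h1]; exact i.2
  refine ⟨h', ?_⟩
  unfold lf
  rw [List.getD_eq_getElem _ _ h']
  exact Nat.mod_eq_of_lt (h2 _ (List.getElem_mem h'))

theorem val7_bij {x : List ℕ} (h : val7 x = true) : Function.Bijective (lf x) := by
  refine Finite.injective_iff_bijective.1 fun i j hij => ?_
  obtain ⟨hi, ei⟩ := B2_lf h i
  obtain ⟨hj, ej⟩ := B2_lf h j
  rw [hij, ej] at ei
  exact Fin.ext (((B2_val h).2.2.getElem_inj_iff).1 ei.symm)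

theorem lp_apply {x : List ℕ} (h : val7 x = true) (i : Fin 7) : lp x i = lf x i := by
  unfold lp
  rw [dif_pos (val7_bij h), Equiv.ofBijective_apply]

theorem B2_inj {x y : List ℕ} (hx : val7 x = true) (hy : val7 y = true) (h : lp x = lp y) : x = y := by
  refine List.ext_getElem ((B2_val hx).1.trans (B2_val hy).1.symm) fun n h1 h2 => ?_
  have h3 : n < 7 := by rw [← (B2_val hx).1]; exact h1
  obtain ⟨hi, ei⟩ := B2_lf hx ⟨n, h3⟩
  obtain ⟨hj, ej⟩ := B2_lf hy ⟨n, h3⟩
  have h4 := congrArg (fun σ : Perm (Fin 7) => (σ ⟨n, h3⟩).1) h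
  beta_reduce at h4
  rw [lp_apply hx, lp_apply hy, ei, ej] at h4
  exact h4

/-- PROOF. The finset of the permutations `σ` with `srt b σ` is the image under `lp` of the elements of `cols b L7`: the image is contained in it
(`cols_val`, `lp_apply`), `lp` is injective on the lists with `val7`, so the image has `5040 / grp b` elements (`cols_len`,
`cols_nodup`); by `block_sum` for `f = 1`, `5040 = grp b * #{σ | srt b σ}` (`Fintype.card_perm`). Then `Finset.sum_image` / `List.sum_toFinset`. -/
theorem srt_sum {b : List ℕ} (hb : b ∈ bset) (f : Perm (Fin 7) → ℝ) :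
    ∑ σ : Perm (Fin 7), ch (srt b σ) * f σ = ((cols b L7).map fun x => f (lp x)).sum := by
  classical
  set A : Finset (Perm (Fin 7)) := Finset.univ.filter fun σ => srt b σ with hA
  have hval : ∀ x ∈ cols b L7, val7 x = true := fun x hx => (cols_val b hb x hx).1
  have hinj : Set.InjOn lp ((cols b L7).toFinset : Set (List ℕ)) := by
    intro x hx y hy h
    rw [Finset.mem_coe, List.mem_toFinset] at hx hy
    exact B2_inj (hval x hx) (hval y hy) h
  have hsub : (cols b L7).toFinset.image lp ⊆ A := by
    intro σ hσ
    obtain ⟨x, hx, rfl⟩ := Finset.mem_image.1 hσ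
    rw [List.mem_toFinset] at hx
    rw [hA, Finset.mem_filter]
    refine ⟨Finset.mem_univ _, fun i hi => ?_⟩
    rw [lp_apply (hval x hx), lp_apply (hval x hx)]
    exact (cols_val b hb x hx).2 i hi
  have hcard : ((cols b L7).toFinset.image lp).card * grp b = 5040 := by
    rw [Finset.card_image_of_injOn hinj, List.toFinset_card_of_nodup (cols_nodup b hb)]
    exact cols_len b hb
  have hA' : (grp b : ℝ) * A.card = 5040 := by
    have h1 := block_sum hb (fun _ => (1 : ℝ)) fun _ _ _ => rfl
    have h2 : ∑ _σ : Perm (Fin 7), (1 : ℝ) = 5040 := by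
      rw [Finset.sum_const, Finset.card_univ, Fintype.card_perm, Fintype.card_fin, nsmul_eq_mul,
        mul_one]
      norm_num [Nat.factorial]
    have h3 : ∑ σ : Perm (Fin 7), ch (srt b σ) * (1 : ℝ) = A.card := by
      rw [hA, Finset.card_filter]
      push_cast
      refine Finset.sum_congr rfl fun σ _ => ?_
      by_cases h : srt b σ
      · rw [ch_true h, if_pos h, mul_one]
      · rw [ch_false h, if_neg h, zero_mul]
    rw [h2, h3] at h1
    exact h1.symm
  have hA'' : grp b * A.card = 5040 := by exact_mod_cast hA'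
  have heq : (cols b L7).toFinset.image lp = A := by
    refine Finset.eq_of_subset_of_card_le hsub (le_of_eq ?_)
    have h1 : 0 < grp b := by
      rcases Nat.eq_zero_or_pos (grp b) with h | h
      · rw [h, zero_mul] at hA''
        exact absurd hA'' (by norm_num)
      · exact h
    refine Nat.eq_of_mul_eq_mul_left h1 ?_
    rw [hA'', mul_comm, hcard]
  have h1 : ∑ σ : Perm (Fin 7), ch (srt b σ) * f σ = ∑ σ ∈ A, f σ := by
    rw [hA, Finset.sum_filter]
    refine Finset.sum_congr rfl fun σ _ => ?_
    by_cases h : srt b σ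
    · rw [ch_true h, if_pos h, one_mul]
    · rw [ch_false h, if_neg h, zero_mul]
  rw [h1, ← heq, Finset.sum_image hinj, List.sum_toFinset _ (cols_nodup b hb)]

end Pool.Agent.Lib.MP_16c009_coR
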