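import Pool.Agent.Lib.MP_16c009_coR.A4
import Pool.Agent.Lib.MP_16c009_coR.B1

/-!
# Symmetries of the templates
-/

set_option autoImplicit false

namespace Pool.Agent.Lib.MP_16c009_coR

open Equiv Finset

variable {V K Λ Λ' : Type*} {pl : V → K} (S : Side pl Λ) (R : Side pl Λ')

/-- template `j` at a tuple -/
noncomputable def FT (j : ℕ) (x : Fin 7 → V) : ℝ := FF S R j (x 0) (x 1) (x 2) (x 3) (x 4) (x 5) (x 6)

theorem on_symm {s t x : V} (h : pl s ≠ pl t) : S.on s t x ↔ S.on t s x :=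
  on_congr S h (fun e => h e.symm) (S.ln_symm s t)

theorem bls_mem {j : ℕ} (hj : j < 12) : bls j ∈ bset := by
  interval_cases j <;> decide

section B3aux

theorem B3_mul {P P' : Prop} {X X' : ℝ} (h : P' ↔ P) (hX : P → X' = X) : ch P' * X' = ch P * X := by
  rw [propext h]
  by_cases hP : P
  · rw [hX hP]
  · rw [ch_false hP, zero_mul, zero_mul]

theorem B3_Tr12 {x y w : V} : Tr pl y x w ↔ Tr pl x y w := ⟨Tr_swap12, Tr_swap12⟩

theorem B3_Tr23 {x y w : V} : Tr pl x w y ↔ Tr pl x y w := ⟨Tr_swap23, Tr_swap23⟩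

theorem B3_q12 (x y w : V) : S.q3 y x w = S.q3 x y w := propext ⟨q3_12 S, q3_12 S⟩

theorem B3_q23 (x y w : V) : S.q3 x w y = S.q3 x y w := propext ⟨q3_23 S, q3_23 S⟩

theorem B3_q (x y : V) : S.q y x = S.q x y := propext ⟨S.q_symm y x, S.q_symm x y⟩

theorem B3_ip1 (y s t u v : V) : S.ip y t s u v = - S.ip y s t u v := by
  unfold Side.ip
  ring

theorem B3_ip2 (y s t u v : V) : S.ip y s t v u = - S.ip y s t u v := by
  unfold Side.ip
  ring

theorem B3_okl1 {a b s t : V} (h : pl a ≠ pl b) : okl S R b a s t = okl S R a b s t := by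
  unfold okl
  apply ch_congr
  rw [on_symm S (s := b) (t := a) (fun e => h e.symm), on_symm S (s := b) (t := a) (fun e => h e.symm),
    on_symm R (s := b) (t := a) (fun e => h e.symm), on_symm R (s := b) (t := a) (fun e => h e.symm)]

theorem B3_okl2 (a b s t : V) : okl S R a b t s = okl S R a b s t := by
  unfold okl
  apply ch_congr
  rw [and_comm, and_comm (a := R.on a b t)]

theorem B3_GX1 {y o a s t u v : V} (h : pl s ≠ pl t) : GX S y o a t s u v = GX S y o a s t u v := by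
  unfold GX
  rw [ch_congr (on_symm S (s := t) (t := s) (x := a) (fun e => h e.symm)), S.ln_symm t s, B3_q12 S s t o]

theorem B3_GX2 (y o a s t u v : V) : GX S y o a s t v u = GX S y o a s t u v := by
  unfold GX
  rw [S.ln_symm v u]

variable (x : Fin 7 → V) (j : ℕ)

theorem B3_s0 : FT S R j (x ∘ swap 0 (0 + 1)) = FF S R j (x 1) (x 0) (x 2) (x 3) (x 4) (x 5) (x 6) := rfl
theorem B3_s1 : FT S R j (x ∘ swap 1 (1 + 1)) = FF S R j (x 0) (x 2) (x 1) (x 3) (x 4) (x 5) (x 6) := rfl
theorem B3_s2 : FT S R j (x ∘ swap 2 (2 + 1)) = FF S R j (x 0) (x 1) (x 3) (x 2) (x 4) (x 5) (x 6) := rfl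
theorem B3_s3 : FT S R j (x ∘ swap 3 (3 + 1)) = FF S R j (x 0) (x 1) (x 2) (x 4) (x 3) (x 5) (x 6) := rfl
theorem B3_s4 : FT S R j (x ∘ swap 4 (4 + 1)) = FF S R j (x 0) (x 1) (x 2) (x 3) (x 5) (x 4) (x 6) := rfl
theorem B3_s5 : FT S R j (x ∘ swap 5 (5 + 1)) = FF S R j (x 0) (x 1) (x 2) (x 3) (x 4) (x 6) (x 5) := rfl

end B3aux

/-- Exchange of two slots in one block. -/
theorem FT_swap {j : ℕ} (hj : j < 12) {i : Fin 7} (hi : i ∈ adj (bls j)) (x : Fin 7 → V) :
    FT S R j (x ∘ swap i (i + 1)) = FT S R j x := by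
  interval_cases j
  · have h : i = 0 ∨ i = 1 ∨ i = 3 ∨ i = 5 := by
      revert hi; revert i; decide
    rcases h with rfl | rfl | rfl | rfl
    · rw [B3_s0]
      refine B3_mul ?_ fun h => ?_
      · rw [B3_Tr12]
      · rw [B3_q12 S, B3_q12 R]
    · rw [B3_s1]
      refine B3_mul ?_ fun h => ?_
      · rw [B3_Tr23]
      · rw [B3_q23 S, B3_q23 R]
    · rw [B3_s3]
      refine B3_mul ?_ fun h => rfl
      grind
    · rw [B3_s5]
      refine B3_mul ?_ fun h => rfl
      grind
  · have h : i = 0 ∨ i = 3 ∨ i = 5 := by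
      revert hi; revert i; decide
    rcases h with rfl | rfl | rfl
    · rw [B3_s0]
      refine B3_mul ?_ fun h => ?_
      · grind
      · rw [B3_q S, B3_q R]
    · rw [B3_s3]
      refine B3_mul ?_ fun h => rfl
      grind
    · rw [B3_s5]
      refine B3_mul ?_ fun h => rfl
      grind
  · have h : i = 0 ∨ i = 1 ∨ i = 3 ∨ i = 5 := by
      revert hi; revert i; decide
    rcases h with rfl | rfl | rfl | rfl
    · rw [B3_s0]
      refine B3_mul ?_ fun h => ?_
      · rw [B3_Tr12]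
      · rw [B3_q12 S, B3_q12 R]
    · rw [B3_s1]
      refine B3_mul ?_ fun h => ?_
      · rw [B3_Tr23]
      · rw [B3_q23 S, B3_q23 R]
    · rw [B3_s3]
      refine B3_mul ?_ fun h => rfl
      grind
    · rw [B3_s5]
      refine B3_mul ?_ fun h => ?_
      · grind
      · rw [B3_q S (x 5), B3_q R (x 5)]
  · have h : i = 0 ∨ i = 3 ∨ i = 5 := by
      revert hi; revert i; decide
    rcases h with rfl | rfl | rfl
    · rw [B3_s0]
      refine B3_mul ?_ fun h => ?_
      · grind
      · rw [B3_q S (x 0), B3_q R (x 0)]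
    · rw [B3_s3]
      refine B3_mul ?_ fun h => rfl
      grind
    · rw [B3_s5]
      refine B3_mul ?_ fun h => ?_
      · grind
      · rw [B3_q S (x 5), B3_q R (x 5)]
  · have h : i = 0 ∨ i = 1 ∨ i = 3 ∨ i = 4 := by
      revert hi; revert i; decide
    rcases h with rfl | rfl | rfl | rfl
    · rw [B3_s0]
      refine B3_mul ?_ fun h => ?_
      · rw [B3_Tr12 (x := x 0)]
      · rw [B3_q12 S (x 0)]
    · rw [B3_s1]
      refine B3_mul ?_ fun h => ?_
      · rw [B3_Tr23 (x := x 0) (y := x 1)]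
      · rw [B3_q23 S (x 0)]
    · rw [B3_s3]
      refine B3_mul ?_ fun h => ?_
      · rw [B3_Tr12 (x := x 3)]
      · rw [B3_q12 R (x 3)]
    · rw [B3_s4]
      refine B3_mul ?_ fun h => ?_
      · rw [B3_Tr23 (x := x 3) (y := x 4)]
      · rw [B3_q23 R (x 3)]
  · have h : i = 0 ∨ i = 1 ∨ i = 3 := by
      revert hi; revert i; decide
    rcases h with rfl | rfl | rfl
    · rw [B3_s0]
      refine B3_mul ?_ fun h => ?_
      · rw [B3_Tr12 (x := x 0)]
      · rw [B3_q12 S (x 0), B3_q12 R (x 0)]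
    · rw [B3_s1]
      refine B3_mul ?_ fun h => ?_
      · rw [B3_Tr23 (x := x 0) (y := x 1)]
      · rw [B3_q23 S (x 0), B3_q23 R (x 0)]
    · rw [B3_s3]
      refine B3_mul ?_ fun h => ?_
      · grind
      · rw [B3_q S (x 3), B3_q R (x 3)]
  · have h : i = 0 ∨ i = 3 := by
      revert hi; revert i; decide
    rcases h with rfl | rfl
    · rw [B3_s0]
      refine B3_mul ?_ fun h => ?_
      · grind
      · rw [B3_q S (x 0)]
    · rw [B3_s3]
      refine B3_mul ?_ fun h => ?_
      · grind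
      · rw [B3_q R (x 3)]
  · have h : i = 0 ∨ i = 2 ∨ i = 5 := by
      revert hi; revert i; decide
    rcases h with rfl | rfl | rfl
    · rw [B3_s0]
      refine B3_mul ?_ fun h => ?_
      · grind
      · rw [B3_q S (x 0)]
    · rw [B3_s2]
      refine B3_mul ?_ fun h => ?_
      · grind
      · rw [B3_q R (x 2)]
    · rw [B3_s5]
      refine B3_mul ?_ fun h => rfl
      grind
  · have h : i = 0 ∨ i = 2 ∨ i = 5 := by
      revert hi; revert i; decide
    rcases h with rfl | rfl | rfl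
    · rw [B3_s0]
      refine B3_mul ?_ fun h => ?_
      · grind
      · rw [B3_q S (x 0)]
    · rw [B3_s2]
      refine B3_mul ?_ fun h => ?_
      · grind
      · rw [B3_q R (x 2)]
    · rw [B3_s5]
      refine B3_mul ?_ fun h => rfl
      grind
  · have h : i = 0 ∨ i = 3 ∨ i = 5 := by
      revert hi; revert i; decide
    rcases h with rfl | rfl | rfl
    · rw [B3_s0]
      refine B3_mul ?_ fun h => ?_
      · grind
      · rw [B3_q S (x 0), B3_q R (x 0)]
    · rw [B3_s3]
      refine B3_mul ?_ fun h => rfl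
      grind
    · rw [B3_s5]
      refine B3_mul ?_ fun h => rfl
      grind
  · have h : i = 1 ∨ i = 3 ∨ i = 5 := by
      revert hi; revert i; decide
    rcases h with rfl | rfl | rfl
    · rw [B3_s1]
      refine B3_mul ?_ fun h => ?_
      · grind
      · rw [B3_okl1 S R h.1, B3_okl1 S R h.1]
    · rw [B3_s3]
      refine B3_mul ?_ fun h => ?_
      · grind
      · rw [B3_okl2 S R (x 1) (x 2) (x 3) (x 4), B3_ip1 S (x 0) (x 3) (x 4), B3_ip1 R (x 0) (x 3) (x 4)]
        ring
    · rw [B3_s5]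
      refine B3_mul ?_ fun h => ?_
      · grind
      · rw [B3_okl2 S R (x 1) (x 2) (x 5) (x 6), B3_ip2 S (x 0) (x 3) (x 4), B3_ip2 R (x 0) (x 3) (x 4)]
        ring
  · have h : i = 3 ∨ i = 5 := by
      revert hi; revert i; decide
    rcases h with rfl | rfl
    · rw [B3_s3]
      refine B3_mul ?_ fun h => ?_
      · grind
      · have h34 : pl (x 3) ≠ pl (x 4) := by
          rcases h with ⟨_, _, _, _, _, _, h7, _⟩
          exact h7
        rw [B3_GX1 S h34, B3_GX1 R h34, B3_ip1 S (x 0) (x 3) (x 4), B3_ip1 R (x 0) (x 3) (x 4)]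
        ring
    · rw [B3_s5]
      refine B3_mul ?_ fun h => ?_
      · grind
      · rw [B3_GX2 S (x 0) (x 1) (x 2) (x 3) (x 4) (x 5) (x 6), B3_GX2 R (x 0) (x 1) (x 2) (x 3) (x 4) (x 5) (x 6),
          B3_ip2 S (x 0) (x 3) (x 4), B3_ip2 R (x 0) (x 3) (x 4)]
        ring

end Pool.Agent.Lib.MP_16c009_coR
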