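import Pool.Agent.Lib.MP_16c009_coR.A7
import Pool.Agent.Lib.MP_16c009_coR.A8
import Pool.Agent.Lib.MP_16c009_coR.B2
import Pool.Agent.Lib.MP_16c009_coR.B3

/-!
# The sum of the templates is nonnegative
-/

set_option autoImplicit false

namespace Pool.Agent.Lib.MP_16c009_coR

open Equiv Finset

variable {V K Λ Λ' : Type*} {pl : V → K} (S : Side pl Λ) (R : Side pl Λ')

/-- the sum of the templates over all the colorings -/
noncomputable def CC (p : Fin 7 → V) : ℝ :=
  ∑ j ∈ range 12, ((cols (bls j) L7).map fun x => FT S R j (p ∘ lf x)).sum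

private theorem B4_flatMap {α β : Type*} (f : β → ℤ) (g : α → List β) (L : List α) :
    ((L.flatMap g).map f).sum = (L.map fun x => ((g x).map f).sum).sum := by
  induction L with
  | nil => rfl
  | cons a L ih =>
    rw [List.flatMap_cons, List.map_append, List.sum_append, ih, List.map_cons, List.sum_cons]

private theorem B4_cast {α : Type*} (f : α → ℤ) (L : List α) :
    (((L.map f).sum : ℤ) : ℝ) = (L.map fun x => ((f x : ℤ) : ℝ)).sum := by
  induction L with
  | nil => simp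
  | cons a L ih => rw [List.map_cons, List.sum_cons, Int.cast_add, ih, List.map_cons, List.sum_cons]

private theorem B4_range (g : ℕ → ℝ) (n : ℕ) :
    ((List.range n).map g).sum = ∑ j ∈ range n, g j := by
  induction n with
  | zero => simp
  | succ n ih =>
    rw [List.range_succ, List.map_append, List.sum_append, ih, Finset.sum_range_succ]
    simp

private theorem B4_seven {x : List ℕ} (h : val7 x = true) :
    ∃ a b c d e f g : ℕ, x = [a, b, c, d, e, f, g] ∧ a < 7 ∧ b < 7 ∧ c < 7 ∧ d < 7 ∧ e < 7 ∧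
      f < 7 ∧ g < 7 := by
  unfold val7 at h
  rw [Bool.and_eq_true, Bool.and_eq_true] at h
  obtain ⟨h1, h2, -⟩ := h
  have hl : x.length = 7 := Nat.eq_of_beq_eq_true h1
  rw [List.all_eq_true] at h2
  match x, hl with
  | [a, b, c, d, e, f, g], _ =>
    have h3 : ∀ y ∈ [a, b, c, d, e, f, g], y < 7 := fun y hy => Nat.blt_eq ▸ (h2 y hy)
    exact ⟨a, b, c, d, e, f, g, rfl, h3 a (by simp), h3 b (by simp), h3 c (by simp), h3 d (by simp),
      h3 e (by simp), h3 f (by simp), h3 g (by simp)⟩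

private theorem B4_lf (a b c d e f g : ℕ) (i : Fin 7) :
    ((lf [a, b, c, d, e, f, g] i : Fin 7) : ℕ) = [a, b, c, d, e, f, g].getD i 0 % 7 := rfl

private theorem B4_tml (p : Fin 7 → V) (j : ℕ) {x : List ℕ} (h : val7 x = true) :
    ((((tml (plc pl p) j x).map (evK (qc S p) (qc R p))).sum : ℤ) : ℝ) = FT S R j (p ∘ lf x) := by
  have hb := val7_bij h
  obtain ⟨a, b, c, d, e, f, g, rfl, ha, hb', hc, hd, he, hf, hg⟩ := B4_seven h
  have hn : [lf [a, b, c, d, e, f, g] 0, lf [a, b, c, d, e, f, g] 1, lf [a, b, c, d, e, f, g] 2,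
      lf [a, b, c, d, e, f, g] 3, lf [a, b, c, d, e, f, g] 4, lf [a, b, c, d, e, f, g] 5,
      lf [a, b, c, d, e, f, g] 6].Nodup := by
    have h0 := List.nodup_ofFn.2 hb.1
    exact h0
  have key := tm_sound S R p j _ _ _ _ _ _ _ hn
  rw [B4_lf, B4_lf, B4_lf, B4_lf, B4_lf, B4_lf, B4_lf] at key
  have e0 : [a, b, c, d, e, f, g].getD ((0 : Fin 7) : ℕ) 0 % 7 = a := Nat.mod_eq_of_lt ha
  have e1 : [a, b, c, d, e, f, g].getD ((1 : Fin 7) : ℕ) 0 % 7 = b := Nat.mod_eq_of_lt hb'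
  have e2 : [a, b, c, d, e, f, g].getD ((2 : Fin 7) : ℕ) 0 % 7 = c := Nat.mod_eq_of_lt hc
  have e3 : [a, b, c, d, e, f, g].getD ((3 : Fin 7) : ℕ) 0 % 7 = d := Nat.mod_eq_of_lt hd
  have e4 : [a, b, c, d, e, f, g].getD ((4 : Fin 7) : ℕ) 0 % 7 = e := Nat.mod_eq_of_lt he
  have e5 : [a, b, c, d, e, f, g].getD ((5 : Fin 7) : ℕ) 0 % 7 = f := Nat.mod_eq_of_lt hf
  have e6 : [a, b, c, d, e, f, g].getD ((6 : Fin 7) : ℕ) 0 % 7 = g := Nat.mod_eq_of_lt hg
  rw [e0, e1, e2, e3, e4, e5, e6] at key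
  exact key

theorem raw_sound (p : Fin 7 → V) :
    ((((raw (plc pl p)).map (evK (qc S p) (qc R p))).sum : ℤ) : ℝ) = CC S R p := by
  unfold raw CC
  have hr : ([0, 1, 2, 3, 4, 5, 6, 7, 8, 9, 10, 11] : List ℕ) = List.range 12 := by decide
  rw [hr, B4_flatMap, B4_cast, ← B4_range]
  refine congrArg List.sum (List.map_congr_left fun j hj => ?_)
  rw [B4_flatMap, B4_cast]
  refine congrArg List.sum (List.map_congr_left fun x hx => ?_)
  exact B4_tml S R p j (cols_val _ (bls_mem (List.mem_range.1 hj)) x hx).1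

private theorem B4_grp : ∀ b ∈ bset, grp b ≠ 0 := by decide

private theorem B4_tot (p : Fin 7 → V) {j : ℕ} (hj : j < 12) :
    ∑ τ : Perm (Fin 7), FT S R j (p ∘ τ) =
      (grp (bls j) : ℝ) * ((cols (bls j) L7).map fun x => FT S R j (p ∘ lf x)).sum := by
  rw [block_sum (bls_mem hj) (fun τ => FT S R j (p ∘ τ))
    (fun i hi σ => FT_swap S R hj hi (p ∘ σ)), srt_sum (bls_mem hj)]
  refine congrArg _ (congrArg List.sum (List.map_congr_left fun x hx => ?_))
  have h1 := (cols_val _ (bls_mem hj) x hx).1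
  have h2 : (lp x : Fin 7 → Fin 7) = lf x := funext fun i => lp_apply h1 i
  show FT S R j (p ∘ (lp x : Fin 7 → Fin 7)) = _
  rw [h2]

theorem CC_perm (p : Fin 7 → V) (σ : Perm (Fin 7)) : CC S R (p ∘ σ) = CC S R p := by
  unfold CC
  refine Finset.sum_congr rfl fun j hj => ?_
  have hj' := Finset.mem_range.1 hj
  have h1 := B4_tot S R (p ∘ σ) hj'
  have h2 := B4_tot S R p hj'
  have h3 : ∑ τ : Perm (Fin 7), FT S R j ((p ∘ σ) ∘ τ) = ∑ τ : Perm (Fin 7), FT S R j (p ∘ τ) :=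
    Equiv.sum_comp (Equiv.mulLeft σ) fun τ : Perm (Fin 7) => FT S R j (p ∘ τ)
  have h4 : (grp (bls j) : ℝ) ≠ 0 := Nat.cast_ne_zero.2 (B4_grp _ (bls_mem hj'))
  exact mul_left_cancel₀ h4 (by rw [← h1, ← h2, h3])

theorem CC_nonneg (p : Fin 7 → V) : 0 ≤ CC S R p := by
  obtain ⟨σ, h1, h2⟩ := exists_canon S p
  rw [← CC_perm S R p σ, ← raw_sound]
  exact_mod_cast check_all _ h1 _ h2 _ (qc_mem R (p ∘ σ))

variable [Fintype V] {z : V → ℝ}

private theorem B4_cons (n : ℕ) (G : (Fin (n + 1) → V) → ℝ) :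
    ∑ p : Fin (n + 1) → V, (∏ i, z (p i)) * G p =
      I z fun a => ∑ p : Fin n → V, (∏ i, z (p i)) * G (Fin.cons a p) := by
  unfold I
  rw [← (Fin.consEquiv fun _ : Fin (n + 1) => V).sum_comp, Fintype.sum_prod_type]
  refine Finset.sum_congr rfl fun a _ => ?_
  rw [Finset.mul_sum]
  refine Finset.sum_congr rfl fun p _ => ?_
  show (∏ i, z ((Fin.cons a p : Fin (n + 1) → V) i)) * G (Fin.cons a p) = _
  rw [Fin.prod_univ_succ]
  simp only [Fin.cons_zero, Fin.cons_succ]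
  ring

private theorem B4_zero (G : (Fin 0 → V) → ℝ) :
    ∑ p : Fin 0 → V, (∏ i, z (p i)) * G p = G Fin.elim0 := by
  rw [Fintype.sum_unique, Fin.prod_univ_zero, one_mul]
  exact congrArg G (Subsingleton.elim _ _)

theorem sum_seven (F : V → V → V → V → V → V → V → ℝ) :
    ∑ p : Fin 7 → V, (∏ i, z (p i)) * F (p 0) (p 1) (p 2) (p 3) (p 4) (p 5) (p 6) = J7 z F := by
  unfold J7 J6 J5 J4 J3 J2
  rw [B4_cons 6 fun p => F (p 0) (p 1) (p 2) (p 3) (p 4) (p 5) (p 6)]
  refine I_congr fun a => ?_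
  rw [B4_cons 5]
  refine I_congr fun b => ?_
  rw [B4_cons 4]
  refine I_congr fun c => ?_
  rw [B4_cons 3]
  refine I_congr fun d => ?_
  rw [B4_cons 2]
  refine I_congr fun e => ?_
  rw [B4_cons 1]
  refine I_congr fun f => ?_
  rw [B4_cons 0]
  refine I_congr fun g => ?_
  rw [B4_zero]
  rfl

private theorem B4_swap {α β : Type*} [Fintype β] (h : α → β → ℝ) (L : List α) :
    ∑ q : β, (L.map fun x => h x q).sum = (L.map fun x => ∑ q : β, h x q).sum := by
  induction L with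
  | nil => simp
  | cons a L ih => simp only [List.map_cons, List.sum_cons, Finset.sum_add_distrib, ih]

private theorem B4_one (j : ℕ) {x : List ℕ} (h : val7 x = true) :
    ∑ p : Fin 7 → V, (∏ i, z (p i)) * FT S R j (p ∘ lf x) = J7 z (FF S R j) := by
  let e : Fin 7 ≃ Fin 7 := Equiv.ofBijective (lf x) (val7_bij h)
  have h1 : ∑ p : Fin 7 → V, (∏ i, z (p i)) * FT S R j (p ∘ lf x) =
      ∑ p : Fin 7 → V, (∏ i, z (p i)) * FT S R j p := by
    rw [← (Equiv.arrowCongr e.symm (Equiv.refl V)).sum_comp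
      fun p : Fin 7 → V => (∏ i, z (p i)) * FT S R j p]
    refine Finset.sum_congr rfl fun p _ => ?_
    have h2 : (Equiv.arrowCongr e.symm (Equiv.refl V)) p = p ∘ lf x := rfl
    rw [h2]
    have h3 : ∏ i, z ((p ∘ lf x) i) = ∏ i, z (p i) := e.prod_comp fun i => z (p i)
    rw [h3]
  rw [h1]
  exact sum_seven (FF S R j)

private theorem B4_len : ∀ j < 12, (cols (bls j) L7).length =
    [210, 630, 210, 630, 140, 420, 1260, 630, 630, 630, 630, 1260].getD j 0 := by
  decide +kernel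

private theorem B4_total :
    ∑ p : Fin 7 → V, (∏ i, z (p i)) * CC S R p =
      ∑ j ∈ range 12, ((cols (bls j) L7).length : ℝ) * J7 z (FF S R j) := by
  unfold CC
  simp only [Finset.mul_sum]
  rw [Finset.sum_comm]
  refine Finset.sum_congr rfl fun j hj => ?_
  have hj' := Finset.mem_range.1 hj
  have h1 : ∀ p : Fin 7 → V, (∏ i, z (p i)) * ((cols (bls j) L7).map fun x => FT S R j (p ∘ lf x)).sum =
      ((cols (bls j) L7).map fun x => (∏ i, z (p i)) * FT S R j (p ∘ lf x)).sum :=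
    fun p => (List.sum_map_mul_left _ _ _).symm
  rw [Finset.sum_congr rfl fun p _ => h1 p, B4_swap]
  have h2 : ((cols (bls j) L7).map fun x => ∑ p : Fin 7 → V, (∏ i, z (p i)) * FT S R j (p ∘ lf x)) =
      (cols (bls j) L7).map fun _ => J7 z (FF S R j) :=
    List.map_congr_left fun x hx => B4_one S R j (cols_val _ (bls_mem hj') x hx).1
  rw [h2, List.map_const', List.sum_replicate, nsmul_eq_mul]

theorem machine (hz : ∀ a, 0 ≤ z a) :
    0 ≤ 210 * J7 z (FF S R 0) + 630 * J7 z (FF S R 1) + 210 * J7 z (FF S R 2) + 630 * J7 z (FF S R 3) +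
      140 * J7 z (FF S R 4) + 420 * J7 z (FF S R 5) + 1260 * J7 z (FF S R 6) + 630 * J7 z (FF S R 7) +
      630 * J7 z (FF S R 8) + 630 * J7 z (FF S R 9) + 630 * J7 z (FF S R 10) + 1260 * J7 z (FF S R 11) := by
  have h0 : 0 ≤ ∑ p : Fin 7 → V, (∏ i, z (p i)) * CC S R p :=
    Finset.sum_nonneg fun p _ => mul_nonneg (Finset.prod_nonneg fun i _ => hz _) (CC_nonneg S R p)
  rw [B4_total] at h0
  have h1 : ∑ j ∈ range 12, ((cols (bls j) L7).length : ℝ) * J7 z (FF S R j) =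
      ∑ j ∈ range 12, (([210, 630, 210, 630, 140, 420, 1260, 630, 630, 630, 630, 1260].getD j 0 : ℕ) : ℝ) *
        J7 z (FF S R j) :=
    Finset.sum_congr rfl fun j hj => by rw [B4_len j (Finset.mem_range.1 hj)]
  rw [h1] at h0
  simp only [Finset.sum_range_succ, Finset.sum_range_zero] at h0
  norm_num at h0
  exact h0

end Pool.Agent.Lib.MP_16c009_coR
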