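import Pool.Agent.Lib.MP_16c009_coR.A1
import Pool.Agent.Lib.MP_16c009_coR.A2

/-!
# The sums
-/

set_option autoImplicit false

namespace Pool.Agent.Lib.MP_16c009_coR

variable {V K Λ Λ' : Type*} [Fintype V] {pl : V → K}

/-- the sum of all the weights -/
noncomputable def Zt (z : V → ℝ) : ℝ := I z fun _ => 1

/-- pairs in two planes -/
noncomputable def Et (z : V → ℝ) (pl : V → K) : ℝ := (1 / 2) * J2 z fun a b => ch (pl a ≠ pl b)

/-- pairs in one plane and not in one row -/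
noncomputable def xs (z : V → ℝ) (S : Side pl Λ) : ℝ := (1 / 2) * J2 z fun a b => ch (pl a = pl b ∧ ¬ S.q a b)

/-- such a pair and an element of another plane -/
noncomputable def Xs (z : V → ℝ) (S : Side pl Λ) : ℝ :=
  (1 / 2) * J3 z fun a b c => ch (pl a = pl b ∧ pl a ≠ pl c ∧ ¬ S.q a b)

/-- triples in three planes and not on one line -/
noncomputable def as (z : V → ℝ) (S : Side pl Λ) : ℝ := (1 / 6) * J3 z fun a b c => ch (Tr pl a b c ∧ ¬ S.q3 a b c)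

/-- the same with both sides -/
noncomputable def del (z : V → ℝ) (S : Side pl Λ) (R : Side pl Λ') : ℝ :=
  (1 / 2) * J2 z fun a b => ch (pl a = pl b ∧ ¬ S.q a b ∧ ¬ R.q a b)

noncomputable def Del (z : V → ℝ) (S : Side pl Λ) (R : Side pl Λ') : ℝ :=
  (1 / 2) * J3 z fun a b c => ch (pl a = pl b ∧ pl a ≠ pl c ∧ ¬ S.q a b ∧ ¬ R.q a b)

noncomputable def gg (z : V → ℝ) (S : Side pl Λ) (R : Side pl Λ') : ℝ :=
  (1 / 6) * J3 z fun a b c => ch (Tr pl a b c ∧ ¬ S.q3 a b c ∧ ¬ R.q3 a b c)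

/-- pairs, pairs with an element of another plane, triples in three planes, which are independent -/
noncomputable def us (z : V → ℝ) (S : Side pl Λ) (R : Side pl Λ') : ℝ :=
  (1 / 2) * J2 z fun a b => ch (pl a = pl b ∧ ¬ (S.q a b ∧ R.q a b))

noncomputable def Us (z : V → ℝ) (S : Side pl Λ) (R : Side pl Λ') : ℝ :=
  (1 / 2) * J3 z fun a b c => ch (pl a = pl b ∧ pl a ≠ pl c ∧ ¬ (S.q a b ∧ R.q a b))

noncomputable def ds (z : V → ℝ) (S : Side pl Λ) (R : Side pl Λ') : ℝ :=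
  (1 / 6) * J3 z fun a b c => ch (Tr pl a b c ∧ ¬ (S.q3 a b c ∧ R.q3 a b c))

/-- the sums of one plane `k`: weights in the plane, weights outside, pairs outside -/
noncomputable def Zk (z : V → ℝ) (pl : V → K) (k : K) : ℝ := I z fun a => ch (pl a = k)

noncomputable def sk (z : V → ℝ) (pl : V → K) (k : K) : ℝ := I z fun a => ch (pl a ≠ k)

noncomputable def ek (z : V → ℝ) (pl : V → K) (k : K) : ℝ :=
  (1 / 2) * J2 z fun a b => ch (pl a ≠ k ∧ pl b ≠ k ∧ pl a ≠ pl b)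

/-- pairs in the plane not in one row -/
noncomputable def xk (z : V → ℝ) (S : Side pl Λ) (k : K) : ℝ :=
  (1 / 2) * J2 z fun a b => ch (pl a = k ∧ pl b = k ∧ ¬ S.q a b)

noncomputable def dk (z : V → ℝ) (S : Side pl Λ) (R : Side pl Λ') (k : K) : ℝ :=
  (1 / 2) * J2 z fun a b => ch (pl a = k ∧ pl b = k ∧ ¬ S.q a b ∧ ¬ R.q a b)

variable {z : V → ℝ} (S : Side pl Λ) (R : Side pl Λ')

theorem C1_ch3 (P a b : Prop) :
    ch (P ∧ ¬ a) + ch (P ∧ ¬ b) = ch (P ∧ ¬ (a ∧ b)) + ch (P ∧ ¬ a ∧ ¬ b) := by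
  by_cases h1 : P <;> by_cases h2 : a <;> by_cases h3 : b <;> simp [ch, h1, h2, h3]

theorem C1_ch4 (P Q a b : Prop) :
    ch (P ∧ Q ∧ ¬ a) + ch (P ∧ Q ∧ ¬ b) = ch (P ∧ Q ∧ ¬ (a ∧ b)) + ch (P ∧ Q ∧ ¬ a ∧ ¬ b) := by
  by_cases h1 : P <;> by_cases h0 : Q <;> by_cases h2 : a <;> by_cases h3 : b <;>
    simp [ch, h0, h1, h2, h3]

theorem C1_mul (F G : V → ℝ) : I z F * I z G = J2 z fun a b => F a * G b := by
  rw [I_mul]
  exact I_congr fun a => mul_I _ _

theorem C1_mul3 (F : V → V → ℝ) (G : V → ℝ) : J2 z F * I z G = J3 z fun a b c => F a b * G c := by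
  rw [J2_mul]
  exact I_congr fun a => I_congr fun b => mul_I _ _

theorem C1_J2_sum {ι : Type*} (s : Finset ι) (F : ι → V → V → ℝ) :
    J2 z (fun a b => ∑ i ∈ s, F i a b) = ∑ i ∈ s, J2 z (F i) := by
  unfold J2
  rw [← I_sum]
  exact I_congr fun a => I_sum s _

theorem C1_J3_sum {ι : Type*} (s : Finset ι) (F : ι → V → V → V → ℝ) :
    J3 z (fun a b c => ∑ i ∈ s, F i a b c) = ∑ i ∈ s, J3 z (F i) := by
  unfold J3
  rw [← I_sum]
  exact I_congr fun a => C1_J2_sum s _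

theorem C1_sum [Fintype K] (x : K) (P : K → Prop) : ∑ k, ch (x = k ∧ P k) = ch (P x) := by
  classical
  rw [Finset.sum_eq_single x]
  · exact ch_congr ⟨fun h => h.2, fun h => ⟨rfl, h⟩⟩
  · intro k _ hk
    exact ch_false fun h => hk h.1.symm
  · intro h
    exact absurd (Finset.mem_univ x) h

/-- PROOF. Pointwise, `ch (P ∧ ¬ q) + ch (P ∧ ¬ r) = ch (P ∧ ¬ (q ∧ r)) + ch (P ∧ ¬ q ∧ ¬ r)` (by cases). The same for the next two. -/
theorem xs_add : xs z S + xs z R = us z S R + del z S R := by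
  unfold xs us del
  rw [← mul_add, ← mul_add, ← J2_add, ← J2_add]
  congr 1
  exact J2_congr fun a b => C1_ch3 _ _ _

theorem Xs_add : Xs z S + Xs z R = Us z S R + Del z S R := by
  unfold Xs Us Del
  rw [← mul_add, ← mul_add, ← J3_add, ← J3_add]
  congr 1
  exact J3_congr fun a b c => C1_ch4 _ _ _ _

theorem as_add : as z S + as z R = ds z S R + gg z S R := by
  unfold as ds gg
  rw [← mul_add, ← mul_add, ← J3_add, ← J3_add]
  congr 1
  exact J3_congr fun a b c => C1_ch3 _ _ _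

/-- PROOF. `ch (pl a = k) + ch (pl a ≠ k) = 1`. -/
theorem Zk_add_sk (k : K) : Zk z pl k + sk z pl k = Zt z := by
  unfold Zk sk Zt
  rw [← I_add]
  refine I_congr fun a => ?_
  by_cases h : pl a = k <;> simp [ch, h]

/-- PROOF. Split the pairs `a, b` with `pl a ≠ pl b` into: `pl a = k`; `pl b = k`; neither. The first two sums are `Zk * sk` each
(product of two sums: `I_mul`, `mul_I`). -/
theorem Et_eq (k : K) : Et z pl = Zk z pl k * sk z pl k + ek z pl k := by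
  have h1 : J2 z (fun a b => ch (pl a ≠ pl b)) =
      J2 z (fun a b => ch (pl a = k) * ch (pl b ≠ k)) +
        J2 z (fun a b => ch (pl a ≠ k) * ch (pl b = k)) +
        J2 z (fun a b => ch (pl a ≠ k ∧ pl b ≠ k ∧ pl a ≠ pl b)) := by
    rw [← J2_add, ← J2_add]
    refine J2_congr fun a b => ?_
    by_cases ha : pl a = k
    · by_cases hb : pl b = k
      · have hab : pl a = pl b := ha.trans hb.symm
        simp [ch, hb, hab]
      · have hab : pl a ≠ pl b := fun h => hb (h.symm.trans ha)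
        simp only [ch_true ha, ch_true hb, ch_true hab, ch_false (not_not.2 ha), ch_false hb]
        rw [ch_false fun h => h.1 ha]
        ring
    · by_cases hb : pl b = k
      · have hab : pl a ≠ pl b := fun h => ha (h.trans hb)
        rw [ch_true hab, ch_false ha, ch_true ha, ch_true hb,
          ch_false (fun h : pl a ≠ k ∧ pl b ≠ k ∧ pl a ≠ pl b => h.2.1 hb)]
        ring
      · rw [ch_false ha, ch_false hb, mul_zero, zero_mul, zero_add, zero_add]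
        exact ch_congr ⟨fun h => ⟨ha, hb, h⟩, fun h => h.2.2⟩
  unfold Et ek
  rw [h1, ← C1_mul, ← C1_mul]
  unfold Zk sk
  ring

variable [Fintype K]

/-- Sums over the planes. PROOF. `∑ k, ch (pl a = k ∧ P k) = ch (P (pl a))` (`Finset.sum_eq_single`), `I_sum`. -/
theorem sum_Zk : ∑ k, Zk z pl k = Zt z := by
  unfold Zk Zt
  rw [← I_sum]
  refine I_congr fun a => ?_
  have h := C1_sum (pl a) (fun _ => True)
  rw [ch_true trivial] at h
  rw [← h]
  exact Finset.sum_congr rfl fun k _ => ch_congr ⟨fun h => ⟨h, trivial⟩, fun h => h.1⟩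

theorem sum_xk : ∑ k, xk z S k = xs z S := by
  unfold xk xs
  rw [← Finset.mul_sum, ← C1_J2_sum]
  congr 1
  refine J2_congr fun a b => ?_
  rw [C1_sum (pl a) fun k => pl b = k ∧ ¬ S.q a b]
  exact ch_congr ⟨fun h => ⟨h.1.symm, h.2⟩, fun h => ⟨h.1.symm, h.2⟩⟩

theorem sum_dk : ∑ k, dk z S R k = del z S R := by
  unfold dk del
  rw [← Finset.mul_sum, ← C1_J2_sum]
  congr 1
  refine J2_congr fun a b => ?_
  rw [C1_sum (pl a) fun k => pl b = k ∧ ¬ S.q a b ∧ ¬ R.q a b]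
  exact ch_congr ⟨fun h => ⟨h.1.symm, h.2⟩, fun h => ⟨h.1.symm, h.2⟩⟩

theorem sum_Zk_sk : ∑ k, Zk z pl k * sk z pl k = 2 * Et z pl := by
  have h1 : ∀ k, Zk z pl k * sk z pl k = J2 z fun a b => ch (pl a = k ∧ pl b ≠ k) := by
    intro k
    unfold Zk sk
    rw [C1_mul]
    exact J2_congr fun a b => (ch_and _ _).symm
  rw [Finset.sum_congr rfl fun k _ => h1 k, ← C1_J2_sum]
  unfold Et
  have h2 : J2 z (fun a b => ∑ k, ch (pl a = k ∧ pl b ≠ k)) = J2 z fun a b => ch (pl a ≠ pl b) := by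
    refine J2_congr fun a b => ?_
    rw [C1_sum (pl a) fun k => pl b ≠ k]
    exact ch_congr ⟨fun h e => h e.symm, fun h e => h e.symm⟩
  rw [h2]
  ring

theorem sum_xk_sk : ∑ k, xk z S k * sk z pl k = Xs z S := by
  have h1 : ∀ k, xk z S k * sk z pl k =
      (1 / 2) * J3 z fun a b c => ch (pl a = k ∧ pl b = k ∧ pl c ≠ k ∧ ¬ S.q a b) := by
    intro k
    unfold xk sk
    rw [mul_assoc, C1_mul3]
    congr 1
    refine J3_congr fun a b c => ?_
    rw [← ch_and]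
    exact ch_congr ⟨fun h => ⟨h.1.1, h.1.2.1, h.2, h.1.2.2⟩, fun h => ⟨⟨h.1, h.2.1, h.2.2.2⟩, h.2.2.1⟩⟩
  rw [Finset.sum_congr rfl fun k _ => h1 k, ← Finset.mul_sum, ← C1_J3_sum]
  unfold Xs
  congr 1
  refine J3_congr fun a b c => ?_
  rw [C1_sum (pl a) fun k => pl b = k ∧ pl c ≠ k ∧ ¬ S.q a b]
  exact ch_congr ⟨fun h => ⟨h.1.symm, fun e => h.2.1 e.symm, h.2.2⟩,
    fun h => ⟨h.1.symm, fun e => h.2.1 e.symm, h.2.2⟩⟩

theorem sum_dk_sk : ∑ k, dk z S R k * sk z pl k = Del z S R := by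
  have h1 : ∀ k, dk z S R k * sk z pl k =
      (1 / 2) * J3 z fun a b c => ch (pl a = k ∧ pl b = k ∧ pl c ≠ k ∧ ¬ S.q a b ∧ ¬ R.q a b) := by
    intro k
    unfold dk sk
    rw [mul_assoc, C1_mul3]
    congr 1
    refine J3_congr fun a b c => ?_
    rw [← ch_and]
    exact ch_congr ⟨fun h => ⟨h.1.1, h.1.2.1, h.2, h.1.2.2⟩, fun h => ⟨⟨h.1, h.2.1, h.2.2.2⟩, h.2.2.1⟩⟩
  rw [Finset.sum_congr rfl fun k _ => h1 k, ← Finset.mul_sum, ← C1_J3_sum]
  unfold Del
  congr 1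
  refine J3_congr fun a b c => ?_
  rw [C1_sum (pl a) fun k => pl b = k ∧ pl c ≠ k ∧ ¬ S.q a b ∧ ¬ R.q a b]
  exact ch_congr ⟨fun h => ⟨h.1.symm, fun e => h.2.1 e.symm, h.2.2⟩,
    fun h => ⟨h.1.symm, fun e => h.2.1 e.symm, h.2.2⟩⟩

theorem Zk_nonneg (hz : ∀ a, 0 ≤ z a) (k : K) : 0 ≤ Zk z pl k :=
  I_nonneg hz fun _ => ch_nonneg _

theorem sk_nonneg (hz : ∀ a, 0 ≤ z a) (k : K) : 0 ≤ sk z pl k :=
  I_nonneg hz fun _ => ch_nonneg _

theorem ek_nonneg (hz : ∀ a, 0 ≤ z a) (k : K) : 0 ≤ ek z pl k :=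
  mul_nonneg (by norm_num) (J2_nonneg hz fun _ _ => ch_nonneg _)

theorem dk_nonneg (hz : ∀ a, 0 ≤ z a) (k : K) : 0 ≤ dk z S R k :=
  mul_nonneg (by norm_num) (J2_nonneg hz fun _ _ => ch_nonneg _)

theorem xk_nonneg (hz : ∀ a, 0 ≤ z a) (k : K) : 0 ≤ xk z S k :=
  mul_nonneg (by norm_num) (J2_nonneg hz fun _ _ => ch_nonneg _)

end Pool.Agent.Lib.MP_16c009_coR
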