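import Pool.Agent.Lib.MP_16c009_coR.A4
import Pool.Agent.Lib.MP_16c009_coR.C1

/-!
# The sums of the templates
-/

set_option autoImplicit false

namespace Pool.Agent.Lib.MP_16c009_coR

theorem C2_J7_add {V : Type*} [Fintype V] {z : V → ℝ} (F G : V → V → V → V → V → V → V → ℝ) :
    J7 z (fun a b c d e f g => F a b c d e f g + G a b c d e f g) = J7 z F + J7 z G := by
  have h : J7 z F + J7 z G = J3 z (fun a b c => J4 z (F a b c) + J4 z (G a b c)) :=
    (J3_add (fun a b c => J4 z (F a b c)) (fun a b c => J4 z (G a b c))).symm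
  rw [h]
  exact J3_congr fun a b c => J4_add (F a b c) (G a b c)

theorem C2_mul_J7 {V : Type*} [Fintype V] {z : V → ℝ} (k : ℝ) (F : V → V → V → V → V → V → V → ℝ) :
    k * J7 z F = J7 z (fun a b c d e f g => k * F a b c d e f g) := by
  have h : k * J7 z F = J3 z (fun a b c => k * J4 z (F a b c)) :=
    mul_J3 k (fun a b c => J4 z (F a b c))
  rw [h]
  exact J3_congr fun a b c => mul_J4 k (F a b c)

theorem C2_322 {V : Type*} [Fintype V] {z : V → ℝ} (F : V → V → V → ℝ) (G H : V → V → ℝ) :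
    J3 z F * (J2 z G * J2 z H) = J7 z (fun a b c d e f g => F a b c * (G d e * H f g)) := by
  rw [J3_mul]
  refine J3_congr fun a b c => ?_
  have h : J2 z G * J2 z H = J4 z (fun d e f g => G d e * H f g) := by
    rw [J2_mul]
    exact J2_congr fun d e => mul_J2 (G d e) H
  rw [h]
  exact mul_J4 (F a b c) (fun d e f g => G d e * H f g)

theorem C2_331 {V : Type*} [Fintype V] {z : V → ℝ} (F G : V → V → V → ℝ) (H : V → ℝ) :
    J3 z F * (J3 z G * I z H) = J7 z (fun a b c d e f g => F a b c * (G d e f * H g)) := by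
  rw [J3_mul]
  refine J3_congr fun a b c => ?_
  have h : J3 z G * I z H = J4 z (fun d e f g => G d e f * H g) := by
    rw [J3_mul]
    exact J3_congr fun d e f => mul_I (G d e f) H
  rw [h]
  exact mul_J4 (F a b c) (fun d e f g => G d e f * H g)

variable {V K Λ Λ' : Type*} [Fintype V] {pl : V → K} {z : V → ℝ} (S : Side pl Λ) (R : Side pl Λ')

/-- PROOF (of all the theorems of this file). Write the product on the right as a sum over seven elements. -/
theorem J7_0 : J7 z (FF S R 0) = 384 * (gg z S R * Et z pl ^ 2) := by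
  have h : 384 * (gg z S R * Et z pl ^ 2) =
      16 * (J3 z (fun a b c => ch (Tr pl a b c ∧ ¬ S.q3 a b c ∧ ¬ R.q3 a b c)) *
        (J2 z (fun a b => ch (pl a ≠ pl b)) * J2 z (fun a b => ch (pl a ≠ pl b)))) := by
    unfold gg Et
    ring
  rw [h, C2_322, C2_mul_J7]
  refine J7_congr fun a b c d e f g => ?_
  simp only [FF, ch_and]
  ring

theorem J7_1 : J7 z (FF S R 1) = 128 * (Del z S R * Et z pl ^ 2) := by
  have h : 128 * (Del z S R * Et z pl ^ 2) =
      16 * (J3 z (fun a b c => ch (pl a = pl b ∧ pl a ≠ pl c ∧ ¬ S.q a b ∧ ¬ R.q a b)) *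
        (J2 z (fun a b => ch (pl a ≠ pl b)) * J2 z (fun a b => ch (pl a ≠ pl b)))) := by
    unfold Del Et
    ring
  rw [h, C2_322, C2_mul_J7]
  refine J7_congr fun a b c d e f g => ?_
  simp only [FF, ch_and]
  ring

theorem J7_2 : J7 z (FF S R 2) = 384 * (as z S * Et z pl * xs z R + as z R * Et z pl * xs z S) := by
  have h : 384 * (as z S * Et z pl * xs z R + as z R * Et z pl * xs z S) =
      16 * (J3 z (fun a b c => ch (Tr pl a b c ∧ ¬ S.q3 a b c)) *
        (J2 z (fun a b => ch (pl a ≠ pl b)) * J2 z (fun a b => ch (pl a = pl b ∧ ¬ R.q a b)))) +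
      16 * (J3 z (fun a b c => ch (Tr pl a b c ∧ ¬ R.q3 a b c)) *
        (J2 z (fun a b => ch (pl a ≠ pl b)) * J2 z (fun a b => ch (pl a = pl b ∧ ¬ S.q a b)))) := by
    unfold as xs Et
    ring
  rw [h, C2_322, C2_322, C2_mul_J7, C2_mul_J7, ← C2_J7_add]
  refine J7_congr fun a b c d e f g => ?_
  simp only [FF, ch_and]
  ring

theorem J7_3 : J7 z (FF S R 3) = 128 * (Xs z S * Et z pl * xs z R + Xs z R * Et z pl * xs z S) := by
  have h : 128 * (Xs z S * Et z pl * xs z R + Xs z R * Et z pl * xs z S) =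
      16 * (J3 z (fun a b c => ch (pl a = pl b ∧ pl a ≠ pl c ∧ ¬ S.q a b)) *
        (J2 z (fun a b => ch (pl a ≠ pl b)) * J2 z (fun a b => ch (pl a = pl b ∧ ¬ R.q a b)))) +
      16 * (J3 z (fun a b c => ch (pl a = pl b ∧ pl a ≠ pl c ∧ ¬ R.q a b)) *
        (J2 z (fun a b => ch (pl a ≠ pl b)) * J2 z (fun a b => ch (pl a = pl b ∧ ¬ S.q a b)))) := by
    unfold Xs xs Et
    ring
  rw [h, C2_322, C2_322, C2_mul_J7, C2_mul_J7, ← C2_J7_add]
  refine J7_congr fun a b c d e f g => ?_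
  simp only [FF, ch_and]
  ring

theorem J7_4 : J7 z (FF S R 4) = -576 * (as z S * as z R * Zt z) := by
  have h : -576 * (as z S * as z R * Zt z) =
      -16 * (J3 z (fun a b c => ch (Tr pl a b c ∧ ¬ S.q3 a b c)) *
        (J3 z (fun a b c => ch (Tr pl a b c ∧ ¬ R.q3 a b c)) * I z (fun _ => 1))) := by
    unfold as Zt
    ring
  rw [h, C2_331, C2_mul_J7]
  refine J7_congr fun a b c d e f g => ?_
  simp only [FF, ch_and]
  ring

theorem J7_5 : J7 z (FF S R 5) = -192 * (Zt z * (as z S * Xs z R + as z R * Xs z S)) := by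
  have h : -192 * (Zt z * (as z S * Xs z R + as z R * Xs z S)) =
      -16 * (J3 z (fun a b c => ch (Tr pl a b c ∧ ¬ S.q3 a b c)) *
        (J3 z (fun a b c => ch (pl a = pl b ∧ pl a ≠ pl c ∧ ¬ R.q a b)) * I z (fun _ => 1))) +
      -16 * (J3 z (fun a b c => ch (Tr pl a b c ∧ ¬ R.q3 a b c)) *
        (J3 z (fun a b c => ch (pl a = pl b ∧ pl a ≠ pl c ∧ ¬ S.q a b)) * I z (fun _ => 1))) := by
    unfold as Xs Zt
    ring
  rw [h, C2_331, C2_331, C2_mul_J7, C2_mul_J7, ← C2_J7_add]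
  refine J7_congr fun a b c d e f g => ?_
  simp only [FF, ch_and]
  ring

theorem J7_6 : J7 z (FF S R 6) = -64 * (Zt z * Xs z S * Xs z R) := by
  have h : -64 * (Zt z * Xs z S * Xs z R) =
      -16 * (J3 z (fun a b c => ch (pl a = pl b ∧ pl a ≠ pl c ∧ ¬ S.q a b)) *
        (J3 z (fun a b c => ch (pl a = pl b ∧ pl a ≠ pl c ∧ ¬ R.q a b)) * I z (fun _ => 1))) := by
    unfold Xs Zt
    ring
  rw [h, C2_331, C2_mul_J7]
  refine J7_congr fun a b c d e f g => ?_
  simp only [FF, ch_and]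
  ring

end Pool.Agent.Lib.MP_16c009_coR
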