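import Pool.Agent.Lib.MP_16c009_coR.A4
import Pool.Agent.Lib.MP_16c009_coR.C1

/-!
# The sums of the templates (sums over the planes)
-/

set_option autoImplicit false

namespace Pool.Agent.Lib.MP_16c009_coR

section C3aux

variable {V K : Type*} [Fintype V] {z : V → ℝ}

theorem C3_p22111 (F G : V → V → ℝ) (H M N : V → ℝ) :
    J7 z (fun a b c d e f g => F a b * G c d * H e * M f * N g) =
      J2 z F * J2 z G * I z H * I z M * I z N := by
  simp only [J7, J6, J5, J4, J3, J2, ← mul_I, ← I_mul]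

theorem C3_p2212 (F G : V → V → ℝ) (H : V → ℝ) (M : V → V → ℝ) :
    J7 z (fun a b c d e f g => F a b * G c d * H e * M f g) =
      J2 z F * J2 z G * I z H * J2 z M := by
  simp only [J7, J6, J5, J4, J3, J2, ← mul_I, ← I_mul]

theorem C3_p2122 (F : V → V → ℝ) (H : V → ℝ) (G M : V → V → ℝ) :
    J7 z (fun a b c d e f g => F a b * H c * G d e * M f g) =
      J2 z F * I z H * J2 z G * J2 z M := by
  simp only [J7, J6, J5, J4, J3, J2, ← mul_I, ← I_mul]

theorem C3_mul (c : ℝ) (F : V → V → V → V → V → V → V → ℝ) :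
    J7 z (fun a b d e f g h => c * F a b d e f g h) = c * J7 z F := by
  simp only [J7, J6, J5, J4, J3, J2, ← mul_I]

theorem C3_sum {ι : Type*} (s : Finset ι) (F : ι → V → V → V → V → V → V → V → ℝ) :
    J7 z (fun a b c d e f g => ∑ i ∈ s, F i a b c d e f g) = ∑ i ∈ s, J7 z (F i) := by
  simp only [J7, J6, J5, J4, J3, J2, I_sum]

theorem C3_single [Fintype K] (k0 : K) (P : K → ℝ) (h : ∀ k, k0 ≠ k → P k = 0) : ∑ k, P k = P k0 :=
  Finset.sum_eq_single k0 (fun k _ hk => h k hk.symm) (fun h => absurd (Finset.mem_univ _) h)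

theorem C3_ne {x y : K} : ch (x ≠ y) = ch (y ≠ x) := ch_congr ne_comm

theorem C3_eq {x y : K} : ch (x = y) = ch (y = x) := ch_congr eq_comm

end C3aux

variable {V K Λ Λ' : Type*} [Fintype V] [Fintype K] {pl : V → K} {z : V → ℝ} (S : Side pl Λ) (R : Side pl Λ')

/-- PROOF (of the three theorems). For every `k` write the product as a sum over seven elements: for instance
`J2 z F * J2 z G * I z H * I z M * I z N = J7 z (fun a b c d e f g => F a b * G c d * H e * M f * N g)` by unfolding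
`J7, J6, J5, J4, J3, J2` and `simp only [I_mul]`, `simp only [mul_I]`. Exchange `∑ k` and `J7` (`I_sum`, repeatedly), and
`∑ k, ch (pl a = k ∧ …)` = the condition with `k = pl a` (`Finset.sum_eq_single (pl a)`; if `k ≠ pl a` the product contains `ch (pl a = k) = 0`);
then compare the values: `ch_and`. -/
theorem J7_7 : J7 z (FF S R 7) = -128 * ∑ k, xk z S k * xk z R k * Zk z pl k * sk z pl k ^ 2 := by
  have h1 : ∀ k : K, -128 * (xk z S k * xk z R k * Zk z pl k * sk z pl k ^ 2) =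
      J7 z (fun a b c d e f g => -32 * (ch (pl a = k ∧ pl b = k ∧ ¬ S.q a b) *
        ch (pl c = k ∧ pl d = k ∧ ¬ R.q c d) * ch (pl e = k) * ch (pl f ≠ k) * ch (pl g ≠ k))) := by
    intro k
    rw [C3_mul, C3_p22111 (fun a b => ch (pl a = k ∧ pl b = k ∧ ¬ S.q a b))
      (fun c d => ch (pl c = k ∧ pl d = k ∧ ¬ R.q c d)) (fun e => ch (pl e = k)) (fun f => ch (pl f ≠ k))
      (fun g => ch (pl g ≠ k))]
    unfold xk Zk sk
    ring
  rw [Finset.mul_sum, Finset.sum_congr rfl fun k _ => h1 k, ← C3_sum]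
  refine J7_congr fun a b c d e f g => ?_
  rw [C3_single (pl a)]
  · rw [C3_ne (x := pl f), C3_ne (x := pl g), C3_eq (x := pl e)]
    simp only [FF, ch_and]
    rw [C3_eq (x := pl b) (y := pl a), C3_eq (x := pl c) (y := pl a), C3_eq (x := pl d) (y := pl a),
      ch_true True.intro]
    ring
  · intro k hk
    simp only [ch_and, ch_false hk]
    ring

theorem J7_8 : J7 z (FF S R 8) = -256 * ∑ k, xk z S k * xk z R k * sk z pl k * ek z pl k := by
  have h1 : ∀ k : K, -256 * (xk z S k * xk z R k * sk z pl k * ek z pl k) =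
      J7 z (fun a b c d e f g => -32 * (ch (pl a = k ∧ pl b = k ∧ ¬ S.q a b) *
        ch (pl c = k ∧ pl d = k ∧ ¬ R.q c d) * ch (pl e ≠ k) *
        ch (pl f ≠ k ∧ pl g ≠ k ∧ pl f ≠ pl g))) := by
    intro k
    rw [C3_mul, C3_p2212 (fun a b => ch (pl a = k ∧ pl b = k ∧ ¬ S.q a b))
      (fun c d => ch (pl c = k ∧ pl d = k ∧ ¬ R.q c d)) (fun e => ch (pl e ≠ k))
      (fun f g => ch (pl f ≠ k ∧ pl g ≠ k ∧ pl f ≠ pl g))]
    unfold xk sk ek
    ring
  rw [Finset.mul_sum, Finset.sum_congr rfl fun k _ => h1 k, ← C3_sum]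
  refine J7_congr fun a b c d e f g => ?_
  rw [C3_single (pl a)]
  · simp only [FF, ch_and]
    rw [C3_ne (x := pl f) (y := pl a), C3_ne (x := pl g) (y := pl a), C3_ne (x := pl e) (y := pl a),
      C3_eq (x := pl b) (y := pl a), C3_eq (x := pl c) (y := pl a), C3_eq (x := pl d) (y := pl a),
      ch_true True.intro]
    ring
  · intro k hk
    simp only [ch_and, ch_false hk]
    ring

theorem J7_9 : J7 z (FF S R 9) = -128 * ∑ k, dk z S R k * Zk z pl k * ek z pl k ^ 2 := by
  have h1 : ∀ k : K, -128 * (dk z S R k * Zk z pl k * ek z pl k ^ 2) =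
      J7 z (fun a b c d e f g => -16 * (ch (pl a = k ∧ pl b = k ∧ ¬ S.q a b ∧ ¬ R.q a b) *
        ch (pl c = k) * ch (pl d ≠ k ∧ pl e ≠ k ∧ pl d ≠ pl e) *
        ch (pl f ≠ k ∧ pl g ≠ k ∧ pl f ≠ pl g))) := by
    intro k
    rw [C3_mul, C3_p2122 (fun a b => ch (pl a = k ∧ pl b = k ∧ ¬ S.q a b ∧ ¬ R.q a b))
      (fun c => ch (pl c = k)) (fun d e => ch (pl d ≠ k ∧ pl e ≠ k ∧ pl d ≠ pl e))
      (fun f g => ch (pl f ≠ k ∧ pl g ≠ k ∧ pl f ≠ pl g))]
    unfold dk Zk ek
    ring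
  rw [Finset.mul_sum, Finset.sum_congr rfl fun k _ => h1 k, ← C3_sum]
  refine J7_congr fun a b c d e f g => ?_
  rw [C3_single (pl a)]
  · simp only [FF, ch_and]
    rw [C3_ne (x := pl f) (y := pl a), C3_ne (x := pl g) (y := pl a), C3_ne (x := pl d) (y := pl a),
      C3_ne (x := pl e) (y := pl a),
      C3_eq (x := pl b) (y := pl a), C3_eq (x := pl c) (y := pl a),
      ch_true True.intro]
    ring
  · intro k hk
    simp only [ch_and, ch_false hk]
    ring

end Pool.Agent.Lib.MP_16c009_coR
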