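import Pool.Agent.Lib.MP_16c009_coR.A4
import Pool.Agent.Lib.MP_16c009_coR.B3

/-!
# The squares
-/

set_option autoImplicit false

namespace Pool.Agent.Lib.MP_16c009_coR

theorem C4_sum_ch {A : Type*} [Fintype A] (x y : A) : ∑ α, ch (x = α) * ch (y = α) = ch (x = y) := by
  classical
  rw [Finset.sum_eq_single x]
  · rw [ch_true rfl, one_mul]
    exact ch_congr eq_comm
  · intro b _ hb
    rw [ch_false (fun h => hb h.symm), zero_mul]
  · intro h
    exact absurd (Finset.mem_univ x) h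

theorem C4_diff {A : Type*} [Fintype A] (a b a' b' : A) :
    ∑ α, (ch (a = α) - ch (b = α)) * (ch (a' = α) - ch (b' = α)) =
      ch (a = a') - ch (a = b') - ch (b = a') + ch (b = b') := by
  have h : ∀ α, (ch (a = α) - ch (b = α)) * (ch (a' = α) - ch (b' = α)) =
      ch (a = α) * ch (a' = α) - ch (a = α) * ch (b' = α) - ch (b = α) * ch (a' = α) +
        ch (b = α) * ch (b' = α) := fun α => by ring
  rw [Finset.sum_congr rfl fun α _ => h α, Finset.sum_add_distrib, Finset.sum_sub_distrib,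
    Finset.sum_sub_distrib, C4_sum_ch, C4_sum_ch, C4_sum_ch, C4_sum_ch]

theorem C4_prod {A B C : Type*} [Fintype A] [Fintype B] [Fintype C] (X : ℝ) (p : C → ℝ) (q : A → ℝ) (r : B → ℝ) :
    X * (∑ γ, p γ) * (∑ α, q α) * (∑ β, r β) = ∑ γ, ∑ α, ∑ β, X * p γ * q α * r β := by
  simp only [← Finset.mul_sum, ← Finset.sum_mul]

theorem C4_J4_sum {V ι : Type*} [Fintype V] {z : V → ℝ} (s : Finset ι) (F : ι → V → V → V → V → ℝ) :
    J4 z (fun a b c d => ∑ i ∈ s, F i a b c d) = ∑ i ∈ s, J4 z (F i) := by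
  unfold J4 J3 J2
  rw [← I_sum]
  refine I_congr fun a => ?_
  rw [← I_sum]
  refine I_congr fun b => ?_
  rw [← I_sum]
  refine I_congr fun c => ?_
  rw [← I_sum]

theorem C4_J2_sq {V : Type*} [Fintype V] {z : V → ℝ} (G : V → V → ℝ) :
    J4 z (fun s t u v => G s t * G u v) = J2 z G * J2 z G := by
  have h : J2 z G * J2 z G = J2 z (fun s t => G s t * J2 z G) := J2_mul _ _
  rw [h]
  show I z _ = I z _
  refine I_congr fun s => ?_
  show I z _ = I z _
  refine I_congr fun t => ?_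
  exact (mul_J2 _ _).symm

section gram

variable {V A B C : Type*} [Fintype V] [Finite A] [Finite B] [Finite C] {z : V → ℝ}

/-- PROOF. The sum is the sum over `α : A`, `β : B`, `γ : C` of the squares of
`J2 z (fun s t => W s t * ch (l s t = γ) * (ch (c s = α) - ch (c t = α)) * (ch (d s = β) - ch (d t = β)))`: because
`ch (x = y) = ∑ α, ch (x = α) * ch (y = α)`. (Take `Fintype` instances from `Finite`.) -/
theorem gram (c : V → A) (d : V → B) (l : V → V → C) (W : V → V → ℝ) :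
    0 ≤ J4 z (fun s t u v => W s t * W u v * ch (l s t = l u v) *
      (ch (c s = c u) - ch (c s = c v) - ch (c t = c u) + ch (c t = c v)) *
      (ch (d s = d u) - ch (d s = d v) - ch (d t = d u) + ch (d t = d v))) := by
  classical
  have := Fintype.ofFinite A
  have := Fintype.ofFinite B
  have := Fintype.ofFinite C
  have h : J4 z (fun s t u v => W s t * W u v * ch (l s t = l u v) *
      (ch (c s = c u) - ch (c s = c v) - ch (c t = c u) + ch (c t = c v)) *
      (ch (d s = d u) - ch (d s = d v) - ch (d t = d u) + ch (d t = d v))) =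
      ∑ γ : C, ∑ α : A, ∑ β : B,
        J2 z (fun s t => W s t * ch (l s t = γ) * (ch (c s = α) - ch (c t = α)) *
          (ch (d s = β) - ch (d t = β))) *
        J2 z (fun s t => W s t * ch (l s t = γ) * (ch (c s = α) - ch (c t = α)) *
          (ch (d s = β) - ch (d t = β))) := by
    have e : ∀ γ : C, ∀ α : A, ∀ β : B,
        J2 z (fun s t => W s t * ch (l s t = γ) * (ch (c s = α) - ch (c t = α)) *
          (ch (d s = β) - ch (d t = β))) *
        J2 z (fun s t => W s t * ch (l s t = γ) * (ch (c s = α) - ch (c t = α)) *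
          (ch (d s = β) - ch (d t = β))) =
        J4 z (fun s t u v => (W s t * ch (l s t = γ) * (ch (c s = α) - ch (c t = α)) *
          (ch (d s = β) - ch (d t = β))) * (W u v * ch (l u v = γ) * (ch (c u = α) - ch (c v = α)) *
          (ch (d u = β) - ch (d v = β)))) := fun γ α β => (C4_J2_sq _).symm
    rw [Finset.sum_congr rfl fun γ _ => Finset.sum_congr rfl fun α _ => Finset.sum_congr rfl fun β _ => e γ α β]
    rw [Finset.sum_congr rfl fun γ _ => Finset.sum_congr rfl fun α _ => (C4_J4_sum _ _).symm]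
    rw [Finset.sum_congr rfl fun γ _ => (C4_J4_sum _ _).symm]
    rw [← C4_J4_sum]
    refine J4_congr fun s t u v => ?_
    rw [← C4_sum_ch (l s t) (l u v), ← C4_diff (c s) (c t) (c u) (c v), ← C4_diff (d s) (d t) (d u) (d v)]
    rw [C4_prod]
    refine Finset.sum_congr rfl fun γ _ => ?_
    refine Finset.sum_congr rfl fun α _ => ?_
    refine Finset.sum_congr rfl fun β _ => ?_
    ring
  rw [h]
  exact Finset.sum_nonneg fun γ _ => Finset.sum_nonneg fun α _ => Finset.sum_nonneg fun β _ => mul_self_nonneg _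

end gram

variable {V K Λ Λ' : Type*} [Fintype V] [Finite Λ] [Finite Λ'] {pl : V → K} {z : V → ℝ} (S : Side pl Λ)
  (R : Side pl Λ')

theorem C4_J7_nonpos (hz : ∀ a, 0 ≤ z a) {F : V → V → V → V → V → V → V → ℝ}
    (h : ∀ a b c, J4 z (F a b c) ≤ 0) : J7 z F ≤ 0 := by
  have h0 : J7 z F ≤ I z fun _ => I z fun _ => I z fun _ => (0 : ℝ) :=
    I_mono hz fun a => I_mono hz fun b => I_mono hz fun c => h a b c
  simpa only [I_zero] using h0

/-- PROOF. `J7 z (FF S R 10)` is the sum over `a, b, c` of `-4 * ch (pl b ≠ pl c)` times the sum of `gram` with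
`c = S.ln a`, `d = R.ln a`, `l` constant, `W s t = ch (pl a ≠ pl s ∧ pl a ≠ pl t ∧ pl s ≠ pl t) * okl S R b c s t`. -/
theorem J7_10 (hz : ∀ a, 0 ≤ z a) : J7 z (FF S R 10) ≤ 0 := by
  refine C4_J7_nonpos hz fun a b c => ?_
  have hg := gram (z := z) (S.ln a) (R.ln a) (fun _ _ => ())
    (fun s t => ch (pl a ≠ pl s ∧ pl a ≠ pl t ∧ pl s ≠ pl t) * okl S R b c s t)
  have e : J4 z (FF S R 10 a b c) = (-4 * ch (pl b ≠ pl c)) *
      J4 z (fun s t u v => (ch (pl a ≠ pl s ∧ pl a ≠ pl t ∧ pl s ≠ pl t) * okl S R b c s t) *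
        (ch (pl a ≠ pl u ∧ pl a ≠ pl v ∧ pl u ≠ pl v) * okl S R b c u v) *
        ch ((fun _ _ : V => ()) s t = (fun _ _ : V => ()) u v) *
      (ch (S.ln a s = S.ln a u) - ch (S.ln a s = S.ln a v) - ch (S.ln a t = S.ln a u) +
        ch (S.ln a t = S.ln a v)) *
      (ch (R.ln a s = R.ln a u) - ch (R.ln a s = R.ln a v) - ch (R.ln a t = R.ln a u) +
        ch (R.ln a t = R.ln a v))) := by
    rw [mul_J4]
    refine J4_congr fun d e f g => ?_
    show ch (pl b ≠ pl c ∧ pl a ≠ pl d ∧ pl a ≠ pl e ∧ pl a ≠ pl f ∧ pl a ≠ pl g ∧ pl d ≠ pl e ∧ pl f ≠ pl g) *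
      (-4 * okl S R b c d e * okl S R b c f g * S.ip a d e f g * R.ip a d e f g) = _
    simp only [Side.ip, ch_and, ch_true]
    ring
  rw [e]
  have h1 := ch_nonneg (pl b ≠ pl c)
  nlinarith [mul_nonneg h1 hg]

omit [Fintype V] [Finite Λ] in
theorem C4_q3_on {s t b : V} (h1 : pl s ≠ pl b) (h2 : pl t ≠ pl b) : S.q3 s t b ↔ S.on s t b := by
  unfold Side.on
  constructor
  · intro h
    exact Or.inr (Or.inr ⟨h1, h2, h⟩)
  · rintro (h | h | h)
    · exact absurd h.1 h1
    · exact absurd h.2.1 h2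
    · exact h.2.2

omit [Fintype V] [Finite Λ] in
/-- the product of the weights of two squares -/
theorem C4_weight {a b c s t u v : V} (hab : pl a = pl b) :
    (ch (pl a ≠ pl s ∧ pl a ≠ pl t ∧ pl s ≠ pl t) * ch (S.on s t c) * ch (¬ S.q3 s t b)) *
      (ch (pl a ≠ pl u ∧ pl a ≠ pl v ∧ pl u ≠ pl v) * ch (S.on u v c) * ch (¬ S.q3 u v b)) *
        ch (S.ln s t = S.ln u v) =
    ch (pl a ≠ pl s ∧ pl a ≠ pl t ∧ pl s ≠ pl t) * ch (pl a ≠ pl u ∧ pl a ≠ pl v ∧ pl u ≠ pl v) *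
      (ch (S.on s t c) * ch (S.ln s t = S.ln u v)) * ch (¬ S.q3 s t b) := by
  by_cases h1 : pl a ≠ pl s ∧ pl a ≠ pl t ∧ pl s ≠ pl t
  · by_cases h2 : pl a ≠ pl u ∧ pl a ≠ pl v ∧ pl u ≠ pl v
    · by_cases h3 : S.ln s t = S.ln u v
      · have e1 : ch (S.on u v c) = ch (S.on s t c) := ch_congr (on_congr S h1.2.2 h2.2.2 h3).symm
        have e2 : ch (¬ S.q3 u v b) = ch (¬ S.q3 s t b) := by
          refine ch_congr (not_congr ?_)
          rw [C4_q3_on S (fun e => h2.1 (hab.trans e.symm)) (fun e => h2.2.1 (hab.trans e.symm)),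
            C4_q3_on S (fun e => h1.1 (hab.trans e.symm)) (fun e => h1.2.1 (hab.trans e.symm))]
          exact (on_congr S h1.2.2 h2.2.2 h3).symm
        have e3 := ch_sq (S.on s t c)
        have e4 := ch_sq (¬ S.q3 s t b)
        rw [e1, e2, ch_true h1, ch_true h2, ch_true h3]
        linear_combination (ch (¬ S.q3 s t b) * ch (¬ S.q3 s t b)) * e3 + ch (S.on s t c) * e4
      · rw [ch_false h3]
        ring
    · rw [ch_false h2]
      ring
  · rw [ch_false h1]
    ring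

/-- one of the two terms -/
theorem C4_part (T : Side pl Λ) {Λ₁ : Type*} [Finite Λ₁] (S₁ : Side pl Λ₁) {Λ₂ : Type*} [Finite Λ₂]
    (S₂ : Side pl Λ₂) (a b c : V) (hab : pl a = pl b) :
    0 ≤ J4 z (fun d e f g => ch (pl a ≠ pl d ∧ pl a ≠ pl e ∧ pl d ≠ pl e) *
      ch (pl a ≠ pl f ∧ pl a ≠ pl g ∧ pl f ≠ pl g) *
      (ch (T.on d e c) * ch (T.ln d e = T.ln f g)) * ch (¬ T.q3 d e b) *
        S₁.ip a d e f g * S₂.ip a d e f g) := by
  have hg := gram (z := z) (S₁.ln a) (S₂.ln a) T.ln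
    (fun s t => ch (pl a ≠ pl s ∧ pl a ≠ pl t ∧ pl s ≠ pl t) * ch (T.on s t c) * ch (¬ T.q3 s t b))
  refine le_of_le_of_eq hg (J4_congr fun s t u v => ?_)
  show (ch (pl a ≠ pl s ∧ pl a ≠ pl t ∧ pl s ≠ pl t) * ch (T.on s t c) * ch (¬ T.q3 s t b)) *
      (ch (pl a ≠ pl u ∧ pl a ≠ pl v ∧ pl u ≠ pl v) * ch (T.on u v c) * ch (¬ T.q3 u v b)) *
        ch (T.ln s t = T.ln u v) * _ * _ = _
  rw [C4_weight T hab]
  rfl

/-- PROOF. Two terms; the first one is the sum over `a, b, c` of `-ch (pl a = pl b ∧ pl a ≠ pl c) * ch (¬ S.q a b)` times the sum of `gram`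
with `c = S.ln a`, `d = R.ln a`, `l = S.ln`, `W s t = ch (pl a ≠ pl s ∧ pl a ≠ pl t ∧ pl s ≠ pl t) * ch (S.on s t c) * ch (¬ S.q3 s t b)`:
if `S.ln s t = S.ln u v` (with `pl s ≠ pl t`, `pl u ≠ pl v`) then `S.on s t c ↔ S.on u v c` (`on_congr`) and
`S.q3 s t b ↔ S.q3 u v b`, because `b` is in the plane of `a`, so in neither plane of `s, t`, and `S.q3 s t b ↔ S.on s t b`. The second term is the
same with `R` in the weights and `l = R.ln`. -/
theorem J7_11 (hz : ∀ a, 0 ≤ z a) : J7 z (FF S R 11) ≤ 0 := by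
  refine C4_J7_nonpos hz fun a b c => ?_
  by_cases hab : pl a = pl b
  · have g1 := C4_part (z := z) S S R a b c hab
    have g2 := C4_part (z := z) R S R a b c hab
    have e : J4 z (FF S R 11 a b c) =
        (-(ch (pl a = pl b) * ch (pl a ≠ pl c) * ch (¬ S.q a b))) *
          J4 z (fun d e f g => ch (pl a ≠ pl d ∧ pl a ≠ pl e ∧ pl d ≠ pl e) *
            ch (pl a ≠ pl f ∧ pl a ≠ pl g ∧ pl f ≠ pl g) *
            (ch (S.on d e c) * ch (S.ln d e = S.ln f g)) * ch (¬ S.q3 d e b) *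
              S.ip a d e f g * R.ip a d e f g) +
        (-(ch (pl a = pl b) * ch (pl a ≠ pl c) * ch (¬ R.q a b))) *
          J4 z (fun d e f g => ch (pl a ≠ pl d ∧ pl a ≠ pl e ∧ pl d ≠ pl e) *
            ch (pl a ≠ pl f ∧ pl a ≠ pl g ∧ pl f ≠ pl g) *
            (ch (R.on d e c) * ch (R.ln d e = R.ln f g)) * ch (¬ R.q3 d e b) *
              S.ip a d e f g * R.ip a d e f g) := by
      rw [mul_J4, mul_J4, ← J4_add]
      refine J4_congr fun d e f g => ?_
      show ch (pl a = pl b ∧ pl a ≠ pl c ∧ pl a ≠ pl d ∧ pl a ≠ pl e ∧ pl a ≠ pl f ∧ pl a ≠ pl g ∧ pl d ≠ pl e ∧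
        pl f ≠ pl g) * (-(GX S a b c d e f g) * S.ip a d e f g * R.ip a d e f g +
          -(GX R a b c d e f g) * S.ip a d e f g * R.ip a d e f g) = _
      simp only [GX, ch_and]
      ring
    rw [e]
    have n1 := mul_nonneg (mul_nonneg (ch_nonneg (pl a = pl b)) (ch_nonneg (pl a ≠ pl c))) (ch_nonneg (¬ S.q a b))
    have n2 := mul_nonneg (mul_nonneg (ch_nonneg (pl a = pl b)) (ch_nonneg (pl a ≠ pl c))) (ch_nonneg (¬ R.q a b))
    have m1 := mul_nonneg n1 g1
    have m2 := mul_nonneg n2 g2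
    linarith
  · have e : J4 z (FF S R 11 a b c) = 0 := by
      have h0 : J4 z (fun _ _ _ _ : V => (0 : ℝ)) = 0 := by
        unfold J4 J3 J2
        simp only [I_zero]
      rw [← h0]
      refine J4_congr fun d e f g => ?_
      show ch (pl a = pl b ∧ pl a ≠ pl c ∧ pl a ≠ pl d ∧ pl a ≠ pl e ∧ pl a ≠ pl f ∧ pl a ≠ pl g ∧ pl d ≠ pl e ∧
        pl f ≠ pl g) * (-(GX S a b c d e f g) * S.ip a d e f g * R.ip a d e f g +
          -(GX R a b c d e f g) * S.ip a d e f g * R.ip a d e f g) = _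
      rw [ch_false (fun h => hab h.1), zero_mul]
    rw [e]

end Pool.Agent.Lib.MP_16c009_coR
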