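import Pool.Agent.Lib.MP_16c009_coR.B4
import Pool.Agent.Lib.MP_16c009_coR.C2
import Pool.Agent.Lib.MP_16c009_coR.C3
import Pool.Agent.Lib.MP_16c009_coR.C4

/-!
# The main inequality
-/

set_option autoImplicit false

namespace Pool.Agent.Lib.MP_16c009_coR

variable {V K Λ Λ' : Type*} [Fintype V] [Fintype K] [Finite Λ] [Finite Λ'] {pl : V → K} {z : V → ℝ}
  (S : Side pl Λ) (R : Side pl Λ')

/-- PROOF. `machine`, `J7_0`, …, `J7_11`. -/
theorem star2 (hz : ∀ a, 0 ≤ z a) :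
    Zt z * (as z S + Xs z S) * (as z R + Xs z R) +
      ∑ k, (Zk z pl k * sk z pl k ^ 2 + 2 * sk z pl k * ek z pl k) * (xk z S k * xk z R k) +
      ∑ k, ek z pl k ^ 2 * (Zk z pl k * dk z S R k) ≤
    Et z pl ^ 2 * gg z S R + Et z pl ^ 2 * Del z S R +
      Et z pl * ((as z S + Xs z S) * xs z R + xs z S * (as z R + Xs z R)) := by
  have h := machine S R hz
  have h10 := J7_10 S R hz
  have h11 := J7_11 S R hz
  rw [J7_0, J7_1, J7_2, J7_3, J7_4, J7_5, J7_6, J7_7, J7_8, J7_9] at h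
  have e1 : ∑ k, (Zk z pl k * sk z pl k ^ 2 + 2 * sk z pl k * ek z pl k) * (xk z S k * xk z R k) =
      (∑ k, xk z S k * xk z R k * Zk z pl k * sk z pl k ^ 2) +
        2 * ∑ k, xk z S k * xk z R k * sk z pl k * ek z pl k := by
    rw [Finset.mul_sum, ← Finset.sum_add_distrib]
    exact Finset.sum_congr rfl fun k _ => by ring
  have e2 : ∑ k, ek z pl k ^ 2 * (Zk z pl k * dk z S R k) = ∑ k, dk z S R k * Zk z pl k * ek z pl k ^ 2 :=
    Finset.sum_congr rfl fun k _ => by ring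
  rw [e1, e2]
  nlinarith [h, h10, h11]

end Pool.Agent.Lib.MP_16c009_coR
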