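import Pool.Agent.Lib.MP_16c009_coR.C1
import Pool.Agent.Lib.MP_16c009_co.Phi4

/-!
# Inequalities in one plane
-/

set_option autoImplicit false

namespace Pool.Agent.Lib.MP_16c009_coR

/-- The facts on independent sets of three and four elements. -/
structure Mat4 {V K Λ Λ' : Type*} {pl : V → K} (S : Side pl Λ) (R : Side pl Λ') where
  i3 : V → V → V → Prop
  i4 : V → V → V → V → Prop
  i3_12 : ∀ a b c, i3 a b c → i3 b a c
  i3_23 : ∀ a b c, i3 a b c → i3 a c b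
  i4_12 : ∀ a b c d, i4 a b c d → i4 b a c d
  i4_23 : ∀ a b c d, i4 a b c d → i4 a c b d
  i4_34 : ∀ a b c d, i4 a b c d → i4 a b d c
  /-- a triple in one plane is not in one row, not in one column, has no parallel pair -/
  i3_row : ∀ a b c, pl a = pl b → pl a = pl c → i3 a b c → ¬ (S.q a b ∧ S.q a c)
  i3_col : ∀ a b c, pl a = pl b → pl a = pl c → i3 a b c → ¬ (R.q a b ∧ R.q a c)
  i3_par : ∀ a b c, i3 a b c → ¬ (S.q a b ∧ R.q a b)
  /-- triples in two and in three planes -/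
  i3_two : ∀ a b c, pl a = pl b → pl a ≠ pl c → (i3 a b c ↔ ¬ (S.q a b ∧ R.q a b))
  i3_three : ∀ a b c, Tr pl a b c → (i3 a b c ↔ ¬ (S.q3 a b c ∧ R.q3 a b c))
  /-- quadruples -/
  i4_one : ∀ a b c d, i4 a b c d → ¬ (pl a = pl b ∧ pl a = pl c ∧ pl a = pl d)
  i4_31 : ∀ a b c d, pl a = pl b → pl a = pl c → pl a ≠ pl d → (i4 a b c d ↔ i3 a b c)
  i4_par : ∀ a b c d, i4 a b c d → ¬ (S.q a b ∧ R.q a b)
  i4_row : ∀ a b c d, i4 a b c d → ¬ (S.q a b ∧ S.q c d)
  i4_col : ∀ a b c d, i4 a b c d → ¬ (R.q a b ∧ R.q c d)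
  i4_211 : ∀ a b c d, pl a = pl b → Tr pl a c d → i4 a b c d → S.q a b ∨ R.q a b →
    (¬ S.q3 a c d ∧ ¬ R.q3 a c d) ∨ (¬ S.q3 b c d ∧ ¬ R.q3 b c d)
  i4_1111 : ∀ a b c d, Tr pl a b c → Tr pl a b d → pl c ≠ pl d → i4 a b c d →
    (¬ S.q3 a b c ∧ ¬ R.q3 a b c) ∨ (¬ S.q3 a b d ∧ ¬ R.q3 a b d) ∨ (¬ S.q3 a c d ∧ ¬ R.q3 a c d) ∨
      (¬ S.q3 b c d ∧ ¬ R.q3 b c d)

variable {V K Λ Λ' : Type*} [Fintype V] {pl : V → K} {z : V → ℝ} {S : Side pl Λ} {R : Side pl Λ'}

/-- the independent triples in the plane `k` -/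
noncomputable def tk (z : V → ℝ) (M : Mat4 S R) (k : K) : ℝ :=
  (1 / 6) * J3 z fun a b c => ch (pl a = k ∧ pl b = k ∧ pl c = k ∧ M.i3 a b c)

/-- all the independent triples in a plane -/
noncomputable def ts (z : V → ℝ) (M : Mat4 S R) : ℝ :=
  (1 / 6) * J3 z fun a b c => ch (pl a = pl b ∧ pl a = pl c ∧ M.i3 a b c)

/-- the independent sets of three and four elements -/
noncomputable def D3s (z : V → ℝ) (M : Mat4 S R) : ℝ := (1 / 6) * J3 z fun a b c => ch (M.i3 a b c)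

noncomputable def D4s (z : V → ℝ) (M : Mat4 S R) : ℝ := (1 / 24) * J4 z fun a b c d => ch (M.i4 a b c d)

variable (M : Mat4 S R)

theorem tk_nonneg (hz : ∀ a, 0 ≤ z a) (k : K) : 0 ≤ tk z M k := by
  unfold tk
  exact mul_nonneg (by norm_num) (J3_nonneg hz fun a b c => ch_nonneg _)

theorem sum_tk [Fintype K] : ∑ k, tk z M k = ts z M := by
  classical
  have h1 : ∀ k, tk z M k = (1 / 6) * J3 z fun a b c =>
      ch (pl a = k ∧ pl b = k ∧ pl c = k ∧ M.i3 a b c) := fun _ => rfl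
  simp only [h1]
  rw [← Finset.mul_sum]
  unfold ts
  congr 1
  unfold J3 J2
  rw [← I_sum]
  refine I_congr fun a => ?_
  rw [← I_sum]
  refine I_congr fun b => ?_
  rw [← I_sum]
  refine I_congr fun c => ?_
  rw [Finset.sum_eq_single (pl a)]
  · refine ch_congr ?_
    constructor
    · rintro ⟨-, h2, h3, h4⟩
      exact ⟨h2.symm, h3.symm, h4⟩
    · rintro ⟨h2, h3, h4⟩
      exact ⟨rfl, h2.symm, h3.symm, h4⟩
  · intro k _ hk
    exact ch_false fun h => hk h.1.symm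
  · intro h
    exact absurd (Finset.mem_univ _) h

/-- PROOF. Pointwise, for three elements `a, b, c` of the plane `k` with `M.i3 a b c` one of the three pairs is neither in a row nor in a column:
otherwise two of the three pairs are both in rows (then all three elements are in one row, contradiction to `i3_row`, up to the order) or both in
columns. So `ch (… ∧ i3 a b c) ≤ ch (P a b) * ch (pl c = k) + ch (P a c) * ch (pl b = k) + ch (P b c) * ch (pl a = k)` where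
`P a b = (pl a = k ∧ pl b = k ∧ ¬ S.q a b ∧ ¬ R.q a b)`; the three sums are equal (`J3_swap12`, `J3_swap23`) to `2 * dk * Zk`. -/
theorem tk_le (hz : ∀ a, 0 ≤ z a) (k : K) : tk z M k ≤ Zk z pl k * dk z S R k := by
  have key : ∀ a b c : V, ch (pl a = k ∧ pl b = k ∧ pl c = k ∧ M.i3 a b c) ≤
      ch (pl a = k ∧ pl b = k ∧ ¬ S.q a b ∧ ¬ R.q a b) * ch (pl c = k) +
      ch (pl a = k ∧ pl c = k ∧ ¬ S.q a c ∧ ¬ R.q a c) * ch (pl b = k) +
      ch (pl b = k ∧ pl c = k ∧ ¬ S.q b c ∧ ¬ R.q b c) * ch (pl a = k) := by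
    intro a b c
    have n1 := mul_nonneg (ch_nonneg (pl a = k ∧ pl b = k ∧ ¬ S.q a b ∧ ¬ R.q a b))
      (ch_nonneg (pl c = k))
    have n2 := mul_nonneg (ch_nonneg (pl a = k ∧ pl c = k ∧ ¬ S.q a c ∧ ¬ R.q a c))
      (ch_nonneg (pl b = k))
    have n3 := mul_nonneg (ch_nonneg (pl b = k ∧ pl c = k ∧ ¬ S.q b c ∧ ¬ R.q b c))
      (ch_nonneg (pl a = k))
    by_cases h : pl a = k ∧ pl b = k ∧ pl c = k ∧ M.i3 a b c
    · obtain ⟨ha, hb, hc, hi⟩ := h
      have hr := M.i3_row a b c (ha.trans hb.symm) (ha.trans hc.symm) hi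
      have hl := M.i3_col a b c (ha.trans hb.symm) (ha.trans hc.symm) hi
      have hr' : ∀ {x y w : V}, S.q x y → S.q y w → S.q x w := fun h1 h2 => S.q_trans _ _ _ h1 h2
      rw [ch_true ⟨ha, hb, hc, hi⟩]
      by_cases hab : ¬ S.q a b ∧ ¬ R.q a b
      · have e5 : ch (pl a = k ∧ pl b = k ∧ ¬ S.q a b ∧ ¬ R.q a b) * ch (pl c = k) = 1 := by
          rw [ch_true (p := pl a = k ∧ pl b = k ∧ ¬ S.q a b ∧ ¬ R.q a b) ⟨ha, hb, hab⟩,
            ch_true (p := pl c = k) hc, mul_one]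
        linarith
      · by_cases hac : ¬ S.q a c ∧ ¬ R.q a c
        · have e5 : ch (pl a = k ∧ pl c = k ∧ ¬ S.q a c ∧ ¬ R.q a c) * ch (pl b = k) = 1 := by
            rw [ch_true (p := pl a = k ∧ pl c = k ∧ ¬ S.q a c ∧ ¬ R.q a c) ⟨ha, hc, hac⟩,
              ch_true (p := pl b = k) hb, mul_one]
          linarith
        · have hbc : ¬ S.q b c ∧ ¬ R.q b c := by
            rw [not_and_or, not_not, not_not] at hab hac
            constructor
            · intro h1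
              rcases hab with h2 | h2
              · exact hr ⟨h2, S.q_trans _ _ _ h2 h1⟩
              · rcases hac with h3 | h3
                · exact hr ⟨S.q_trans _ _ _ h3 (S.q_symm _ _ h1), h3⟩
                · exact hl ⟨h2, h3⟩
            · intro h1
              rcases hab with h2 | h2
              · rcases hac with h3 | h3
                · exact hr ⟨h2, h3⟩
                · exact hl ⟨R.q_trans _ _ _ h3 (R.q_symm _ _ h1), h3⟩
              · exact hl ⟨h2, R.q_trans _ _ _ h2 h1⟩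
          have e5 : ch (pl b = k ∧ pl c = k ∧ ¬ S.q b c ∧ ¬ R.q b c) * ch (pl a = k) = 1 := by
            rw [ch_true (p := pl b = k ∧ pl c = k ∧ ¬ S.q b c ∧ ¬ R.q b c) ⟨hb, hc, hbc⟩,
              ch_true (p := pl a = k) ha, mul_one]
          linarith
    · rw [ch_false h]
      linarith
  have h1 := J3_mono hz key
  rw [J3_add, J3_add] at h1
  have e1 : J3 z (fun a b c => ch (pl a = k ∧ pl b = k ∧ ¬ S.q a b ∧ ¬ R.q a b) * ch (pl c = k)) =
      2 * dk z S R k * Zk z pl k := by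
    have e0 : 2 * dk z S R k = J2 z fun a b => ch (pl a = k ∧ pl b = k ∧ ¬ S.q a b ∧ ¬ R.q a b) := by
      unfold dk
      ring
    rw [e0]
    unfold Zk
    rw [J2_mul]
    unfold J3 J2
    exact I_congr fun a => I_congr fun b => (mul_I _ _).symm
  have e2 : J3 z (fun a b c => ch (pl a = k ∧ pl c = k ∧ ¬ S.q a c ∧ ¬ R.q a c) * ch (pl b = k)) =
      2 * dk z S R k * Zk z pl k := by
    rw [← e1]
    exact J3_swap23
      (fun a b c => ch (pl a = k ∧ pl b = k ∧ ¬ S.q a b ∧ ¬ R.q a b) * ch (pl c = k))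
  have e3 : J3 z (fun a b c => ch (pl b = k ∧ pl c = k ∧ ¬ S.q b c ∧ ¬ R.q b c) * ch (pl a = k)) =
      2 * dk z S R k * Zk z pl k := by
    rw [← e2]
    exact J3_swap12
      (fun a b c => ch (pl a = k ∧ pl c = k ∧ ¬ S.q a c ∧ ¬ R.q a c) * ch (pl b = k))
  rw [e1, e2, e3] at h1
  unfold tk
  linarith

/-- the triples in the plane `k` which have no pair in one cell, and are not in a row and not in a column -/
noncomputable def mk (z : V → ℝ) (S : Side pl Λ) (R : Side pl Λ') (k : K) : ℝ :=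
  (1 / 6) * J3 z fun a b c => ch (pl a = k ∧ pl b = k ∧ pl c = k ∧ ¬ (S.q a b ∧ R.q a b) ∧ ¬ (S.q a c ∧ R.q a c) ∧
    ¬ (S.q b c ∧ R.q b c) ∧ ¬ (S.q a b ∧ S.q a c) ∧ ¬ (R.q a b ∧ R.q a c))

theorem tk_le_mk (hz : ∀ a, 0 ≤ z a) (k : K) : tk z M k ≤ mk z S R k := by
  unfold tk mk
  refine mul_le_mul_of_nonneg_left (J3_mono hz fun a b c => ch_mono ?_) (by norm_num)
  rintro ⟨ha, hb, hc, hi⟩
  have h2 := M.i3_23 a b c hi
  have h3 := M.i3_23 b a c (M.i3_12 a b c hi)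
  exact ⟨ha, hb, hc, M.i3_par a b c hi, M.i3_par a c b h2, M.i3_par b c a h3,
    M.i3_row a b c (ha.trans hb.symm) (ha.trans hc.symm) hi,
    M.i3_col a b c (ha.trans hb.symm) (ha.trans hc.symm) hi⟩

theorem D1_J2 (k : K) (F : V → V → ℝ) :
    J2 z (fun a b => ch (pl a = k) * (ch (pl b = k) * F a b)) =
      J2 (fun a => z a * ch (pl a = k)) F := by
  unfold J2 I
  refine Finset.sum_congr rfl fun a _ => ?_
  rw [Finset.mul_sum, Finset.mul_sum]
  exact Finset.sum_congr rfl fun b _ => by ring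

theorem D1_J3 (k : K) (F : V → V → V → ℝ) :
    J3 z (fun a b c => ch (pl a = k) * (ch (pl b = k) * (ch (pl c = k) * F a b c))) =
      J3 (fun a => z a * ch (pl a = k)) F := by
  unfold J3
  have h : ∀ a, J2 z (fun b c => ch (pl a = k) * (ch (pl b = k) * (ch (pl c = k) * F a b c))) =
      ch (pl a = k) * J2 (fun a => z a * ch (pl a = k)) (F a) := by
    intro a
    rw [← D1_J2, mul_J2]
  rw [I_congr h]
  unfold I
  exact Finset.sum_congr rfl fun a _ => by ring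

theorem D1_rep (S : Side pl Λ) : ∃ c : V → V, ∀ a b, c a = c b ↔ S.q a b := by
  let sS : Setoid V := ⟨S.q, ⟨S.q_refl, fun h => S.q_symm _ _ h, fun h h' => S.q_trans _ _ _ h h'⟩⟩
  refine ⟨fun a => (Quotient.mk sS a).out, fun a b => ?_⟩
  rw [Quotient.out_inj, Quotient.eq]
  rfl

/-- collapsing a sum over the classes -/
theorem D1_coll {ι : Type*} [Fintype ι] (φ : V → ι) (F : V → ℝ) (g : V → ι → ℝ) :
    ∑ i, ∑ a, F a * ch (φ a = i) * g a i = ∑ a, F a * g a (φ a) := by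
  classical
  rw [Finset.sum_comm]
  refine Finset.sum_congr rfl fun a _ => ?_
  rw [Finset.sum_eq_single (φ a)]
  · rw [ch_true rfl, mul_one]
  · intro i _ hi
    rw [ch_false fun h => hi h.symm]
    ring
  · intro h
    exact absurd (Finset.mem_univ _) h

theorem D1_G (s1 s2 s3 t1 t2 t3 : Prop) (hs12 : s1 → s2 → s3) (hs13 : s1 → s3 → s2)
    (hs23 : s2 → s3 → s1) (ht12 : t1 → t2 → t3) (ht13 : t1 → t3 → t2) (ht23 : t2 → t3 → t1) :
    ch (¬ (s1 ∧ t1) ∧ ¬ (s2 ∧ t2) ∧ ¬ (s3 ∧ t3) ∧ ¬ (s1 ∧ s2) ∧ ¬ (t1 ∧ t2)) =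
      1 - ch s1 * ch t1 - ch s2 * ch t2 - ch s3 * ch t3 + 2 * ((ch s1 * ch t1) * (ch s2 * ch t2)) -
        (ch s1 * ch s2 - ch s1 * ch s2 * ch t1 - ch s1 * ch s2 * ch t2 - ch s1 * ch s2 * ch t3 +
          2 * ((ch s1 * ch t1) * (ch s2 * ch t2))) -
        (ch t1 * ch t2 - ch t1 * ch t2 * ch s1 - ch t1 * ch t2 * ch s2 - ch t1 * ch t2 * ch s3 +
          2 * ((ch s1 * ch t1) * (ch s2 * ch t2))) := by
  by_cases h1 : s1 <;> by_cases h2 : s2 <;> by_cases h3 : s3 <;>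
    first
    | exact absurd (hs12 h1 h2) h3
    | exact absurd (hs13 h1 h3) h2
    | exact absurd (hs23 h2 h3) h1
    | (by_cases g1 : t1 <;> by_cases g2 : t2 <;> by_cases g3 : t3 <;>
        first
        | exact absurd (ht12 g1 g2) g3
        | exact absurd (ht13 g1 g3) g2
        | exact absurd (ht23 g2 g3) g1
        | (simp only [ch, h1, h2, h3, g1, g2, g3, and_true, true_and, and_false, false_and,
            not_true_eq_false, not_false_eq_true, if_true, if_false, and_self]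
           norm_num))

/-- The quartic inequality. PROOF. Let `cS, cR : V → V` be functions with `cS a = cS b ↔ S.q a b`, `cR a = cR b ↔ R.q a b` (representatives of the
classes of the equivalence relations, by choice). Let `w i j = ∑ a, z a * ch (pl a = k ∧ cS a = i ∧ cR a = j)` for `i j : V`. Apply
`Pool.Agent.Lib.MP_16c009_co.quartic w`. All the sums in it are sums over elements of the plane: `∑ i, ∑ j, w i j = Zk`,
`∑ i, (∑ j, w i j) ^ 2 = J2 (ch (… ∧ S.q a b))`, `∑ i, ∑ j, w i j ^ 2 = J2 (ch (… ∧ S.q a b ∧ R.q a b))`,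
`∑ i, ∑ j, w i j ^ 3 = J3 (S.q a b ∧ S.q a c ∧ R.q a b ∧ R.q a c)`, `∑ i, (∑ j, w i j) ^ 3 = J3 (S.q a b ∧ S.q a c)`,
`∑ i, (∑ j, w i j) * (∑ j, w i j ^ 2) = J3 (S.q a b ∧ S.q a c ∧ R.q b c)`, and the same with `S`, `R` exchanged. On the other side
`2 * xk z S k = Zk ^ 2 - J2 (S.q a b)`, `2 * xk z R k = Zk ^ 2 - J2 (R.q a b)`, and, with `p a b = S.q a b ∧ R.q a b`,
`6 * mk = Zk ^ 3 - 3 * Zk * J2 (p a b) + 2 * J3 (p a b ∧ p a c) - (J3 (S.q a b ∧ S.q a c) - 3 * J3 (S.q a b ∧ S.q a c ∧ R.q b c) + 2 * J3 (p a b ∧ p a c)) -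
(the same with R, S)`: pointwise inclusion and exclusion. Compare `phi4` in `MP_16c009_co/Sets.lean`. -/
theorem phi_mk (hz : ∀ a, 0 ≤ z a) (k : K) : Zk z pl k * mk z S R k ≤ xk z S k * xk z R k := by
  classical
  obtain ⟨cS, hcS⟩ := D1_rep S
  obtain ⟨cR, hcR⟩ := D1_rep R
  set y : V → ℝ := fun a => z a * ch (pl a = k) with hy
  have hy0 : ∀ a, 0 ≤ y a := fun a => mul_nonneg (hz a) (ch_nonneg _)
  have hS : ∀ a b, ch (cS b = cS a) = ch (S.q a b) := fun a b => ch_congr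
    ((hcS b a).trans ⟨S.q_symm _ _, S.q_symm _ _⟩)
  have hR : ∀ a b, ch (cR b = cR a) = ch (R.q a b) := fun a b => ch_congr
    ((hcR b a).trans ⟨R.q_symm _ _, R.q_symm _ _⟩)
  set w : V → V → ℝ := fun i j => ∑ a, y a * ch (cS a = i) * ch (cR a = j) with hw
  have hw0 : ∀ i j, 0 ≤ w i j := fun i j => Finset.sum_nonneg fun a _ =>
    mul_nonneg (mul_nonneg (hy0 a) (ch_nonneg _)) (ch_nonneg _)
  have hq := Pool.Agent.Lib.MP_16c009_co.quartic w hw0
  -- the row and column sums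
  have hrow : ∀ i, ∑ j, w i j = ∑ a, y a * ch (cS a = i) := by
    intro i
    have h1 := D1_coll cR (fun a => y a * ch (cS a = i)) (fun _ _ => 1)
    simp only [mul_one] at h1
    exact h1
  have hcol : ∀ j, ∑ i, w i j = ∑ a, y a * ch (cR a = j) := by
    intro j
    have h1 := D1_coll cS (fun a => y a) (fun a _ => ch (cR a = j))
    exact h1
  have hW : ∀ g : V → V → ℝ, ∑ i, ∑ j, w i j * g i j = ∑ a, y a * g (cS a) (cR a) := by
    intro g
    have h1 : ∀ i, ∑ j, w i j * g i j = ∑ a, y a * ch (cS a = i) * g i (cR a) := by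
      intro i
      have h2 := D1_coll cR (fun a => y a * ch (cS a = i)) (fun _ j => g i j)
      rw [← h2]
      refine Finset.sum_congr rfl fun j _ => ?_
      rw [hw, Finset.sum_mul]
    simp only [h1]
    exact D1_coll cS y (fun a i => g i (cR a))
  have hρ : ∀ a, ∑ b, y b * ch (cS b = cS a) = ∑ b, y b * ch (S.q a b) := fun a =>
    Finset.sum_congr rfl fun b _ => by rw [hS]
  have hκ : ∀ a, ∑ b, y b * ch (cR b = cR a) = ∑ b, y b * ch (R.q a b) := fun a =>
    Finset.sum_congr rfl fun b _ => by rw [hR]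
  have hww : ∀ a, w (cS a) (cR a) = ∑ b, y b * (ch (S.q a b) * ch (R.q a b)) := fun a =>
    Finset.sum_congr rfl fun b _ => by rw [hS, hR, mul_assoc]
  have hJ2 : ∀ F : V → V → ℝ, J2 y F = ∑ a, y a * ∑ b, y b * F a b := fun F => rfl
  have hJ3 : ∀ F G : V → V → ℝ, J3 y (fun a b c => F a b * G a c) =
      ∑ a, y a * ((∑ b, y b * F a b) * ∑ c, y c * G a c) := by
    intro F G
    unfold J3 J2 I
    refine Finset.sum_congr rfl fun a _ => ?_
    congr 1
    rw [Finset.sum_mul]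
    refine Finset.sum_congr rfl fun b _ => ?_
    rw [Finset.mul_sum, Finset.mul_sum]
    exact Finset.sum_congr rfl fun c _ => by ring
  -- the values
  have vZ : ∑ i, ∑ j, w i j = Zk z pl k := by
    have h1 := hW (fun _ _ => 1)
    simp only [mul_one] at h1
    rw [h1]
    rfl
  have vA : ∑ i, (∑ j, w i j) ^ 2 = J2 y (fun a b => ch (S.q a b)) := by
    simp only [hrow]
    have h1 := D1_coll cS y (fun _ i => ∑ b, y b * ch (cS b = i))
    rw [hJ2]
    simp only [hρ] at h1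
    rw [← h1]
    exact Finset.sum_congr rfl fun i _ => by rw [sq, Finset.sum_mul]
  have vA' : ∑ j, (∑ i, w i j) ^ 2 = J2 y (fun a b => ch (R.q a b)) := by
    simp only [hcol]
    have h1 := D1_coll cR y (fun _ i => ∑ b, y b * ch (cR b = i))
    rw [hJ2]
    simp only [hκ] at h1
    rw [← h1]
    exact Finset.sum_congr rfl fun i _ => by rw [sq, Finset.sum_mul]
  have vP2 : ∑ i, ∑ j, w i j ^ 2 = J2 y (fun a b => ch (S.q a b) * ch (R.q a b)) := by
    have h1 := hW w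
    simp only [hww] at h1
    rw [hJ2, ← h1]
    exact Finset.sum_congr rfl fun i _ => Finset.sum_congr rfl fun j _ => sq _
  have vP3 : ∑ i, ∑ j, w i j ^ 3 =
      J3 y (fun a b c => (ch (S.q a b) * ch (R.q a b)) * (ch (S.q a c) * ch (R.q a c))) := by
    have h1 := hW (fun i j => w i j * w i j)
    simp only [hww] at h1
    rw [hJ3 (fun a b => ch (S.q a b) * ch (R.q a b)) (fun a b => ch (S.q a b) * ch (R.q a b)), ← h1]
    exact Finset.sum_congr rfl fun i _ => Finset.sum_congr rfl fun j _ => by ring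
  have vC : ∑ i, (∑ j, w i j) ^ 3 = J3 y (fun a b c => ch (S.q a b) * ch (S.q a c)) := by
    simp only [hrow]
    have h1 := D1_coll cS y
      (fun _ i => (∑ b, y b * ch (cS b = i)) * ∑ b, y b * ch (cS b = i))
    simp only [hρ] at h1
    rw [hJ3 (fun a b => ch (S.q a b)) (fun a b => ch (S.q a b)), ← h1]
    refine Finset.sum_congr rfl fun i _ => ?_
    rw [← Finset.sum_mul]
    ring
  have vC' : ∑ j, (∑ i, w i j) ^ 3 = J3 y (fun a b c => ch (R.q a b) * ch (R.q a c)) := by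
    simp only [hcol]
    have h1 := D1_coll cR y
      (fun _ i => (∑ b, y b * ch (cR b = i)) * ∑ b, y b * ch (cR b = i))
    simp only [hκ] at h1
    rw [hJ3 (fun a b => ch (R.q a b)) (fun a b => ch (R.q a b)), ← h1]
    refine Finset.sum_congr rfl fun i _ => ?_
    rw [← Finset.sum_mul]
    ring
  have vD : ∑ i, (∑ j, w i j) * (∑ j, w i j ^ 2) =
      J3 y (fun a b c => ch (S.q a b) * (ch (S.q a c) * ch (R.q a c))) := by
    simp only [hrow]
    have h1 := hW (fun i j => (∑ b, y b * ch (cS b = i)) * w i j)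
    simp only [hww, hρ] at h1
    rw [hJ3 (fun a b => ch (S.q a b)) (fun a b => ch (S.q a b) * ch (R.q a b)), ← h1]
    refine Finset.sum_congr rfl fun i _ => ?_
    rw [Finset.mul_sum]
    exact Finset.sum_congr rfl fun j _ => by ring
  have vD' : ∑ j, (∑ i, w i j) * (∑ i, w i j ^ 2) =
      J3 y (fun a b c => ch (R.q a b) * (ch (S.q a c) * ch (R.q a c))) := by
    simp only [hcol]
    have h1 := hW (fun i j => (∑ b, y b * ch (cR b = j)) * w i j)
    simp only [hww, hκ] at h1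
    rw [hJ3 (fun a b => ch (R.q a b)) (fun a b => ch (S.q a b) * ch (R.q a b)), ← h1,
      Finset.sum_comm]
    refine Finset.sum_congr rfl fun i _ => ?_
    rw [Finset.mul_sum]
    exact Finset.sum_congr rfl fun j _ => by ring
  rw [vZ, vA, vA', vP2, vP3, vC, vC', vD, vD'] at hq
  -- the other side
  have hone : J2 y (fun _ _ => 1) = Zk z pl k ^ 2 := by
    have h1 : J2 y (fun _ _ => 1) = (∑ a, y a) * ∑ a, y a := by
      rw [hJ2]
      simp only [mul_one]
      rw [← Finset.sum_mul]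
    rw [h1, sq]
    rfl
  have hJsub : ∀ F : V → V → ℝ, J2 y (fun a b => 1 - F a b) = J2 y (fun _ _ => 1) - J2 y F := by
    intro F
    have h1 := J2_add (z := y) (fun a b => 1 - F a b) F
    simp only [sub_add_cancel] at h1
    linarith
  have vxS : xk z S k = (Zk z pl k ^ 2 - J2 y (fun a b => ch (S.q a b))) / 2 := by
    have h1 : xk z S k = (1 / 2) * J2 y (fun a b => 1 - ch (S.q a b)) := by
      unfold xk
      rw [hy, ← D1_J2]
      congr 1
      exact J2_congr fun a b => by rw [ch_and, ch_and, ch_not]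
    rw [h1, hJsub, hone]
    ring
  have vxR : xk z R k = (Zk z pl k ^ 2 - J2 y (fun a b => ch (R.q a b))) / 2 := by
    have h1 : xk z R k = (1 / 2) * J2 y (fun a b => 1 - ch (R.q a b)) := by
      unfold xk
      rw [hy, ← D1_J2]
      congr 1
      exact J2_congr fun a b => by rw [ch_and, ch_and, ch_not]
    rw [h1, hJsub, hone]
    ring
  -- the triples
  have hsub3 : ∀ F G : V → V → V → ℝ, J3 y (fun a b c => F a b c - G a b c) = J3 y F - J3 y G := by
    intro F G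
    have h1 := J3_add (z := y) (fun a b c => F a b c - G a b c) G
    simp only [sub_add_cancel] at h1
    linarith
  have hG : ∀ a b c, ch (¬ (S.q a b ∧ R.q a b) ∧ ¬ (S.q a c ∧ R.q a c) ∧ ¬ (S.q b c ∧ R.q b c) ∧
      ¬ (S.q a b ∧ S.q a c) ∧ ¬ (R.q a b ∧ R.q a c)) = _ := fun a b c =>
    D1_G (S.q a b) (S.q a c) (S.q b c) (R.q a b) (R.q a c) (R.q b c)
      (fun h h' => S.q_trans _ _ _ (S.q_symm _ _ h) h')
      (fun h h' => S.q_trans _ _ _ h h')
      (fun h h' => S.q_trans _ _ _ h (S.q_symm _ _ h'))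
      (fun h h' => R.q_trans _ _ _ (R.q_symm _ _ h) h')
      (fun h h' => R.q_trans _ _ _ h h')
      (fun h h' => R.q_trans _ _ _ h (R.q_symm _ _ h'))
  have hm : 6 * mk z S R k = J3 y (fun a b c => ch (¬ (S.q a b ∧ R.q a b) ∧ ¬ (S.q a c ∧ R.q a c) ∧
      ¬ (S.q b c ∧ R.q b c) ∧ ¬ (S.q a b ∧ S.q a c) ∧ ¬ (R.q a b ∧ R.q a c))) := by
    unfold mk
    rw [hy, ← D1_J3, ← mul_assoc]
    norm_num
    exact J3_congr fun a b c => by rw [ch_and, ch_and, ch_and]
  have t0 : J3 y (fun _ _ _ => 1) = Zk z pl k ^ 3 := by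
    have h1 : J3 y (fun _ _ _ => 1) = (∑ a, y a) * J2 y (fun _ _ => 1) := by
      unfold J3 I
      rw [← Finset.sum_mul]
    have h2 : ∑ a, y a = Zk z pl k := rfl
    rw [h1, hone, h2]
    ring
  have t1 : J3 y (fun a b _ => ch (S.q a b) * ch (R.q a b)) =
      J2 y (fun a b => ch (S.q a b) * ch (R.q a b)) * Zk z pl k := by
    have h1 := hJ3 (fun a b => ch (S.q a b) * ch (R.q a b)) (fun _ _ => 1)
    simp only [mul_one] at h1
    have h2 : ∑ a, y a = Zk z pl k := rfl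
    rw [h1, h2, hJ2, Finset.sum_mul]
    exact Finset.sum_congr rfl fun a _ => by ring
  have t2 : J3 y (fun a _ c => ch (S.q a c) * ch (R.q a c)) =
      J2 y (fun a b => ch (S.q a b) * ch (R.q a b)) * Zk z pl k := by
    rw [← t1]
    exact J3_swap23 (z := y) (fun a b _ => ch (S.q a b) * ch (R.q a b))
  have t3 : J3 y (fun _ b c => ch (S.q b c) * ch (R.q b c)) =
      J2 y (fun a b => ch (S.q a b) * ch (R.q a b)) * Zk z pl k := by
    rw [← t2]
    exact J3_swap12 (z := y) (fun a _ c => ch (S.q a c) * ch (R.q a c))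
  have u2 : J3 y (fun a b c => ch (S.q a b) * ch (S.q a c) * ch (R.q a c)) =
      J3 y (fun a b c => ch (S.q a b) * (ch (S.q a c) * ch (R.q a c))) :=
    J3_congr fun a b c => by ring
  have u1 : J3 y (fun a b c => ch (S.q a b) * ch (S.q a c) * ch (R.q a b)) =
      J3 y (fun a b c => ch (S.q a b) * (ch (S.q a c) * ch (R.q a c))) := by
    rw [← u2, ← J3_swap23 (z := y) (fun a b c => ch (S.q a b) * ch (S.q a c) * ch (R.q a c))]
    exact J3_congr fun a b c => by ring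
  have u3 : J3 y (fun a b c => ch (S.q a b) * ch (S.q a c) * ch (R.q b c)) =
      J3 y (fun a b c => ch (S.q a b) * (ch (S.q a c) * ch (R.q a c))) := by
    rw [← u2, ← J3_swap12 (z := y) (fun a b c => ch (S.q a b) * ch (S.q a c) * ch (R.q a c))]
    refine J3_congr fun a b c => ?_
    rw [← ch_and, ← ch_and (S.q b a)]
    congr 1
    exact ch_congr ⟨fun h => ⟨S.q_symm _ _ h.1, S.q_trans _ _ _ (S.q_symm _ _ h.1) h.2⟩,
      fun h => ⟨S.q_symm _ _ h.1, S.q_trans _ _ _ (S.q_symm _ _ h.1) h.2⟩⟩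
  have v2 : J3 y (fun a b c => ch (R.q a b) * ch (R.q a c) * ch (S.q a c)) =
      J3 y (fun a b c => ch (R.q a b) * (ch (S.q a c) * ch (R.q a c))) :=
    J3_congr fun a b c => by ring
  have v1 : J3 y (fun a b c => ch (R.q a b) * ch (R.q a c) * ch (S.q a b)) =
      J3 y (fun a b c => ch (R.q a b) * (ch (S.q a c) * ch (R.q a c))) := by
    rw [← v2, ← J3_swap23 (z := y) (fun a b c => ch (R.q a b) * ch (R.q a c) * ch (S.q a c))]
    exact J3_congr fun a b c => by ring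
  have v3 : J3 y (fun a b c => ch (R.q a b) * ch (R.q a c) * ch (S.q b c)) =
      J3 y (fun a b c => ch (R.q a b) * (ch (S.q a c) * ch (R.q a c))) := by
    rw [← v2, ← J3_swap12 (z := y) (fun a b c => ch (R.q a b) * ch (R.q a c) * ch (S.q a c))]
    refine J3_congr fun a b c => ?_
    rw [← ch_and, ← ch_and (R.q b a)]
    congr 1
    exact ch_congr ⟨fun h => ⟨R.q_symm _ _ h.1, R.q_trans _ _ _ (R.q_symm _ _ h.1) h.2⟩,
      fun h => ⟨R.q_symm _ _ h.1, R.q_trans _ _ _ (R.q_symm _ _ h.1) h.2⟩⟩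
  rw [J3_congr hG] at hm
  simp only [hsub3, J3_add, ← mul_J3] at hm
  rw [t0, t1, t2, t3, u1, u2, u3, v1, v2, v3] at hm
  rw [vxS, vxR]
  have h9 := congrArg (fun t => Zk z pl k * t) hm
  beta_reduce at h9
  linarith [hq, h9]

theorem phi_le (hz : ∀ a, 0 ≤ z a) (k : K) : Zk z pl k * tk z M k ≤ xk z S k * xk z R k := by
  have h1 : 0 ≤ Zk z pl k := I_nonneg hz fun a => ch_nonneg _
  exact (mul_le_mul_of_nonneg_left (tk_le_mk M hz k) h1).trans (phi_mk hz k)

/-- PROOF. The triples `a, b, c` with `i3` are: in three planes (`i3_three`); two in one plane and the third in another plane (three positions,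
`i3_two`, equal sums by `J3_swap12`, `J3_swap23` and the symmetry of `i3`); in one plane. -/
theorem D3s_eq : D3s z M = ds z S R + Us z S R + ts z M := by
  have key : ∀ a b c : V, ch (M.i3 a b c) = ch (Tr pl a b c ∧ ¬ (S.q3 a b c ∧ R.q3 a b c)) +
      ch (pl a = pl b ∧ pl a ≠ pl c ∧ ¬ (S.q a b ∧ R.q a b)) +
      ch (pl a = pl c ∧ pl a ≠ pl b ∧ ¬ (S.q a c ∧ R.q a c)) +
      ch (pl b = pl c ∧ pl b ≠ pl a ∧ ¬ (S.q b c ∧ R.q b c)) +
      ch (pl a = pl b ∧ pl a = pl c ∧ M.i3 a b c) := by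
    intro a b c
    by_cases h1 : pl a = pl b
    · have n1 : ¬ (Tr pl a b c ∧ ¬ (S.q3 a b c ∧ R.q3 a b c)) := fun h => h.1.1 h1
      have n3 : ¬ (pl a = pl c ∧ pl a ≠ pl b ∧ ¬ (S.q a c ∧ R.q a c)) := fun h => h.2.1 h1
      have n4 : ¬ (pl b = pl c ∧ pl b ≠ pl a ∧ ¬ (S.q b c ∧ R.q b c)) := fun h => h.2.1 h1.symm
      rw [ch_false n1, ch_false n3, ch_false n4]
      by_cases h2 : pl a = pl c
      · have n2 : ¬ (pl a = pl b ∧ pl a ≠ pl c ∧ ¬ (S.q a b ∧ R.q a b)) := fun h => h.2.1 h2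
        rw [ch_false n2, ch_congr (p := pl a = pl b ∧ pl a = pl c ∧ M.i3 a b c)
          (q := M.i3 a b c) ⟨fun h => h.2.2, fun h => ⟨h1, h2, h⟩⟩]
        ring
      · have n5 : ¬ (pl a = pl b ∧ pl a = pl c ∧ M.i3 a b c) := fun h => h2 h.2.1
        rw [ch_false n5, ch_congr (M.i3_two a b c h1 h2),
          ch_congr (p := pl a = pl b ∧ pl a ≠ pl c ∧ ¬ (S.q a b ∧ R.q a b))
            (q := ¬ (S.q a b ∧ R.q a b)) ⟨fun h => h.2.2, fun h => ⟨h1, h2, h⟩⟩]
        ring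
    · have n2 : ¬ (pl a = pl b ∧ pl a ≠ pl c ∧ ¬ (S.q a b ∧ R.q a b)) := fun h => h1 h.1
      have n5 : ¬ (pl a = pl b ∧ pl a = pl c ∧ M.i3 a b c) := fun h => h1 h.1
      rw [ch_false n2, ch_false n5]
      by_cases h2 : pl a = pl c
      · have n1 : ¬ (Tr pl a b c ∧ ¬ (S.q3 a b c ∧ R.q3 a b c)) := fun h => h.1.2.1 h2
        have n4 : ¬ (pl b = pl c ∧ pl b ≠ pl a ∧ ¬ (S.q b c ∧ R.q b c)) :=
          fun h => h1 (h2.trans h.1.symm)
        have e : M.i3 a b c ↔ M.i3 a c b := ⟨M.i3_23 a b c, M.i3_23 a c b⟩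
        rw [ch_false n1, ch_false n4, ch_congr (e.trans (M.i3_two a c b h2 h1)),
          ch_congr (p := pl a = pl c ∧ pl a ≠ pl b ∧ ¬ (S.q a c ∧ R.q a c))
            (q := ¬ (S.q a c ∧ R.q a c)) ⟨fun h => h.2.2, fun h => ⟨h2, h1, h⟩⟩]
        ring
      · have n3 : ¬ (pl a = pl c ∧ pl a ≠ pl b ∧ ¬ (S.q a c ∧ R.q a c)) := fun h => h2 h.1
        rw [ch_false n3]
        by_cases h3 : pl b = pl c
        · have n1 : ¬ (Tr pl a b c ∧ ¬ (S.q3 a b c ∧ R.q3 a b c)) := fun h => h.1.2.2 h3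
          have e : M.i3 a b c ↔ M.i3 b c a :=
            ⟨fun h => M.i3_23 b a c (M.i3_12 a b c h), fun h => M.i3_12 b a c (M.i3_23 b c a h)⟩
          have h1' : pl b ≠ pl a := fun h => h1 h.symm
          rw [ch_false n1, ch_congr (e.trans (M.i3_two b c a h3 h1')),
            ch_congr (p := pl b = pl c ∧ pl b ≠ pl a ∧ ¬ (S.q b c ∧ R.q b c))
              (q := ¬ (S.q b c ∧ R.q b c)) ⟨fun h => h.2.2, fun h => ⟨h3, h1', h⟩⟩]
          ring
        · have n4 : ¬ (pl b = pl c ∧ pl b ≠ pl a ∧ ¬ (S.q b c ∧ R.q b c)) := fun h => h3 h.1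
          have hTr : Tr pl a b c := ⟨h1, h2, h3⟩
          rw [ch_false n4, ch_congr (M.i3_three a b c hTr),
            ch_congr (p := Tr pl a b c ∧ ¬ (S.q3 a b c ∧ R.q3 a b c))
              (q := ¬ (S.q3 a b c ∧ R.q3 a b c)) ⟨fun h => h.2, fun h => ⟨hTr, h⟩⟩]
          ring
  have h0 : J3 z (fun a b c => ch (M.i3 a b c)) =
      J3 z (fun a b c => ch (Tr pl a b c ∧ ¬ (S.q3 a b c ∧ R.q3 a b c))) +
      J3 z (fun a b c => ch (pl a = pl b ∧ pl a ≠ pl c ∧ ¬ (S.q a b ∧ R.q a b))) +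
      J3 z (fun a b c => ch (pl a = pl c ∧ pl a ≠ pl b ∧ ¬ (S.q a c ∧ R.q a c))) +
      J3 z (fun a b c => ch (pl b = pl c ∧ pl b ≠ pl a ∧ ¬ (S.q b c ∧ R.q b c))) +
      J3 z (fun a b c => ch (pl a = pl b ∧ pl a = pl c ∧ M.i3 a b c)) := by
    rw [← J3_add, ← J3_add, ← J3_add, ← J3_add]
    exact J3_congr key
  have e2 : J3 z (fun a b c => ch (pl a = pl c ∧ pl a ≠ pl b ∧ ¬ (S.q a c ∧ R.q a c))) =
      J3 z (fun a b c => ch (pl a = pl b ∧ pl a ≠ pl c ∧ ¬ (S.q a b ∧ R.q a b))) :=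
    J3_swap23 (fun a b c => ch (pl a = pl b ∧ pl a ≠ pl c ∧ ¬ (S.q a b ∧ R.q a b)))
  have e3 : J3 z (fun a b c => ch (pl b = pl c ∧ pl b ≠ pl a ∧ ¬ (S.q b c ∧ R.q b c))) =
      J3 z (fun a b c => ch (pl a = pl c ∧ pl a ≠ pl b ∧ ¬ (S.q a c ∧ R.q a c))) :=
    J3_swap12 (fun a b c => ch (pl a = pl c ∧ pl a ≠ pl b ∧ ¬ (S.q a c ∧ R.q a c)))
  rw [e3, e2] at h0
  unfold D3s ds Us ts
  rw [h0]
  ring

end Pool.Agent.Lib.MP_16c009_coR
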