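import Pool.Agent.Lib.MP_16c009_coR.D1

/-!
# The terms of degree four
-/

set_option autoImplicit false

namespace Pool.Agent.Lib.MP_16c009_coR

variable {V K Λ Λ' : Type*} [Fintype V] {pl : V → K} {z : V → ℝ} {S : Side pl Λ} {R : Side pl Λ'} (M : Mat4 S R)

/-- the independent quadruples of the four kinds, in a fixed order -/
noncomputable def Q31 (z : V → ℝ) (M : Mat4 S R) : ℝ :=
  (1 / 6) * J4 z fun a b c d => ch (pl a = pl b ∧ pl a = pl c ∧ pl a ≠ pl d ∧ M.i4 a b c d)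

noncomputable def Q22 (z : V → ℝ) (M : Mat4 S R) : ℝ :=
  (1 / 8) * J4 z fun a b c d => ch (pl a = pl b ∧ pl c = pl d ∧ pl a ≠ pl c ∧ M.i4 a b c d)

noncomputable def Q211 (z : V → ℝ) (M : Mat4 S R) : ℝ :=
  (1 / 4) * J4 z fun a b c d => ch (pl a = pl b ∧ Tr pl a c d ∧ M.i4 a b c d)

noncomputable def Q1111 (z : V → ℝ) (M : Mat4 S R) : ℝ :=
  (1 / 24) * J4 z fun a b c d => ch (Tr pl a b c ∧ Tr pl a b d ∧ pl c ≠ pl d ∧ M.i4 a b c d)

section D2aux

theorem D2_J4_sum {ι : Type*} (s : Finset ι) (F : ι → V → V → V → V → ℝ) :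
    ∑ k ∈ s, J4 z (F k) = J4 z (fun a b c d => ∑ k ∈ s, F k a b c d) := by
  unfold J4 J3 J2
  rw [← I_sum s (fun k a => I z fun b => I z fun c => I z fun d => F k a b c d)]
  refine I_congr fun a => ?_
  rw [← I_sum s (fun k b => I z fun c => I z fun d => F k a b c d)]
  refine I_congr fun b => ?_
  rw [← I_sum s (fun k c => I z fun d => F k a b c d)]
  refine I_congr fun c => ?_
  rw [← I_sum s (fun k d => F k a b c d)]

theorem D2_J3I (F : V → V → V → ℝ) (G : V → ℝ) :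
    J3 z F * I z G = J4 z (fun a b c d => F a b c * G d) := by
  unfold J4 J3 J2
  rw [I_mul]
  refine I_congr fun a => ?_
  rw [I_mul]
  refine I_congr fun b => ?_
  rw [I_mul]
  refine I_congr fun c => ?_
  rw [mul_I]

theorem D2_J2J2 (F G : V → V → ℝ) :
    J2 z F * J2 z G = J4 z (fun a b c d => F a b * G c d) := by
  unfold J4 J3 J2
  rw [I_mul]
  refine I_congr fun a => ?_
  rw [I_mul]
  refine I_congr fun b => ?_
  rw [mul_I]
  refine I_congr fun c => ?_
  rw [mul_I]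

theorem D2_IJ3 (F : V → ℝ) (G : V → V → V → ℝ) :
    I z F * J3 z G = J4 z (fun a b c d => F a * G b c d) := by
  unfold J4 J3 J2
  rw [I_mul]
  refine I_congr fun a => ?_
  rw [mul_I]
  refine I_congr fun b => ?_
  rw [mul_I]
  refine I_congr fun c => ?_
  rw [mul_I]

variable (F : V → V → V → V → ℝ)

theorem D2_p0132 : J4 z (fun a b c d => F a b d c) = J4 z F := J4_swap34 F
theorem D2_p0213 : J4 z (fun a b c d => F a c b d) = J4 z F := J4_swap23 F
theorem D2_p1023 : J4 z (fun a b c d => F b a c d) = J4 z F := J4_swap12 F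
theorem D2_p0312 : J4 z (fun a b c d => F a d b c) = J4 z F :=
  (J4_swap34 (fun a b c d => F a c b d)).trans (D2_p0213 F)
theorem D2_p0231 : J4 z (fun a b c d => F a c d b) = J4 z F :=
  (J4_swap23 (fun a b c d => F a b d c)).trans (D2_p0132 F)
theorem D2_p1230 : J4 z (fun a b c d => F b c d a) = J4 z F :=
  (J4_swap12 (fun a b c d => F a c d b)).trans (D2_p0231 F)
theorem D2_p1203 : J4 z (fun a b c d => F b c a d) = J4 z F :=
  (J4_swap12 (fun a b c d => F a c b d)).trans (D2_p0213 F)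
theorem D2_p1302 : J4 z (fun a b c d => F b d a c) = J4 z F :=
  (J4_swap12 (fun a b c d => F a d b c)).trans (D2_p0312 F)
theorem D2_p2301 : J4 z (fun a b c d => F c d a b) = J4 z F :=
  (J4_swap23 (fun a b c d => F b d a c)).trans (D2_p1302 F)
theorem D2_p2013 : J4 z (fun a b c d => F c a b d) = J4 z F :=
  (J4_swap23 (fun a b c d => F b a c d)).trans (D2_p1023 F)
theorem D2_p3012 : J4 z (fun a b c d => F d a b c) = J4 z F :=
  (J4_swap34 (fun a b c d => F c a b d)).trans (D2_p2013 F)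

/-- the partitions of four elements of `K` -/
theorem D2_part (x y u w : K) (P : Prop) (hP : P → ¬ (x = y ∧ x = u ∧ x = w)) :
    ch P = (ch (x = y ∧ x = u ∧ x ≠ w ∧ P) + ch (x = y ∧ x = w ∧ x ≠ u ∧ P) + ch (x = u ∧ x = w ∧ x ≠ y ∧ P) +
        ch (y = u ∧ y = w ∧ y ≠ x ∧ P)) +
      (ch (x = y ∧ u = w ∧ x ≠ u ∧ P) + ch (x = u ∧ y = w ∧ x ≠ y ∧ P) + ch (x = w ∧ y = u ∧ x ≠ y ∧ P)) +
      (ch (x = y ∧ (x ≠ u ∧ x ≠ w ∧ u ≠ w) ∧ P) + ch (x = u ∧ (x ≠ y ∧ x ≠ w ∧ y ≠ w) ∧ P) +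
        ch (x = w ∧ (x ≠ y ∧ x ≠ u ∧ y ≠ u) ∧ P) + ch (y = u ∧ (y ≠ x ∧ y ≠ w ∧ x ≠ w) ∧ P) +
        ch (y = w ∧ (y ≠ x ∧ y ≠ u ∧ x ≠ u) ∧ P) + ch (u = w ∧ (u ≠ x ∧ u ≠ y ∧ x ≠ y) ∧ P)) +
      ch ((x ≠ y ∧ x ≠ u ∧ y ≠ u) ∧ (x ≠ y ∧ x ≠ w ∧ y ≠ w) ∧ u ≠ w ∧ P) := by
  by_cases h : P
  · have h' := hP h
    by_cases h1 : x = y
    · subst h1
      by_cases h2 : x = u
      · subst h2
        have h3 : x ≠ w := fun e => h' ⟨rfl, rfl, e⟩
        simp [ch, h, h3]
      · have h2' : u ≠ x := fun e => h2 e.symm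
        by_cases h3 : x = w
        · subst h3
          simp [ch, h, h2, h2']
        · by_cases h4 : u = w
          · subst h4
            simp [ch, h, h2]
          · simp [ch, h, h2, h3, h4]
    · have h1' : y ≠ x := fun e => h1 e.symm
      by_cases h2 : x = u
      · subst h2
        by_cases h3 : x = w
        · subst h3
          simp [ch, h, h1, h1']
        · by_cases h4 : y = w
          · subst h4
            simp [ch, h, h1, h1']
          · simp [ch, h, h1, h1', h3, h4]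
      · have h2' : u ≠ x := fun e => h2 e.symm
        by_cases h3 : x = w
        · subst h3
          by_cases h4 : y = u
          · subst h4
            simp [ch, h, h1, h1']
          · have h4' : u ≠ y := fun e => h4 e.symm
            simp [ch, h, h1, h1', h2, h2', h4, h4']
        · have h3' : w ≠ x := fun e => h3 e.symm
          by_cases h4 : y = u
          · subst h4
            by_cases h5 : y = w
            · subst h5
              simp [ch, h, h1, h1']
            · simp [ch, h, h1, h1', h3, h5]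
          · have h4' : u ≠ y := fun e => h4 e.symm
            by_cases h5 : y = w
            · subst h5
              simp [ch, h, h1, h1', h2, h2', h4, h4']
            · by_cases h6 : u = w
              · subst h6
                simp [ch, h, h1, h1', h2, h2', h4, h4']
              · simp [ch, h, h1, h1', h2, h2', h3, h4, h4', h5, h6]
  · simp [ch, h]

end D2aux

/-- PROOF. Pointwise, `ch (i4 a b c d)` is the sum of `4 + 3 + 6 + 1` terms. -/
theorem D4s_eq : D4s z M = Q31 z M + Q22 z M + Q211 z M + Q1111 z M := by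
  have s12 : ∀ a b c d, M.i4 b a c d ↔ M.i4 a b c d := fun a b c d => ⟨M.i4_12 b a c d, M.i4_12 a b c d⟩
  have s23 : ∀ a b c d, M.i4 a c b d ↔ M.i4 a b c d := fun a b c d => ⟨M.i4_23 a c b d, M.i4_23 a b c d⟩
  have s34 : ∀ a b c d, M.i4 a b d c ↔ M.i4 a b c d := fun a b c d => ⟨M.i4_34 a b d c, M.i4_34 a b c d⟩
  -- the symmetric forms
  have t0231 : ∀ a b c d, M.i4 a c d b ↔ M.i4 a b c d := fun a b c d => by rw [s34 a c b d, s23 a b c d]
  have t1230 : ∀ a b c d, M.i4 b c d a ↔ M.i4 a b c d := fun a b c d => by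
    rw [s34 b c a d, s23 b a c d, s12 a b c d]
  have t0312 : ∀ a b c d, M.i4 a d b c ↔ M.i4 a b c d := fun a b c d => by rw [s23 a b d c, s34 a b c d]
  have t1203 : ∀ a b c d, M.i4 b c a d ↔ M.i4 a b c d := fun a b c d => by rw [s23 b a c d, s12 a b c d]
  have t1302 : ∀ a b c d, M.i4 b d a c ↔ M.i4 a b c d := fun a b c d => by
    rw [s23 b a d c, s34 b a c d, s12 a b c d]
  have t2301 : ∀ a b c d, M.i4 c d a b ↔ M.i4 a b c d := fun a b c d => by
    rw [s23 c a d b, s34 c a b d, s12 a c b d, s23 a b c d]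
  set P31 : V → V → V → V → ℝ := fun a b c d => ch (pl a = pl b ∧ pl a = pl c ∧ pl a ≠ pl d ∧ M.i4 a b c d) with hP31
  set P22 : V → V → V → V → ℝ := fun a b c d => ch (pl a = pl b ∧ pl c = pl d ∧ pl a ≠ pl c ∧ M.i4 a b c d) with hP22
  set P211 : V → V → V → V → ℝ := fun a b c d => ch (pl a = pl b ∧ Tr pl a c d ∧ M.i4 a b c d) with hP211
  set P1 : V → V → V → V → ℝ := fun a b c d => ch (Tr pl a b c ∧ Tr pl a b d ∧ pl c ≠ pl d ∧ M.i4 a b c d) with hP1
  have key : ∀ a b c d, ch (M.i4 a b c d) =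
      ((P31 a b c d + P31 a b d c + P31 a c d b + P31 b c d a) +
      (P22 a b c d + P22 a c b d + P22 a d b c)) +
      ((P211 a b c d + P211 a c b d + P211 a d b c + P211 b c a d + P211 b d a c + P211 c d a b) +
      P1 a b c d) := by
    intro a b c d
    rw [D2_part (pl a) (pl b) (pl c) (pl d) (M.i4 a b c d) (fun h => M.i4_one a b c d h)]
    simp only [hP31, hP22, hP211, hP1, s34 a b c d, t0231 a b c d, t1230 a b c d, s23 a b c d, t0312 a b c d,
      t1203 a b c d, t1302 a b c d, t2301 a b c d, Tr]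
    ring
  have h31 : J4 z (fun a b c d => P31 a b c d + P31 a b d c + P31 a c d b + P31 b c d a) = 4 * J4 z P31 := by
    rw [J4_add (fun a b c d => P31 a b c d + P31 a b d c + P31 a c d b) (fun a b c d => P31 b c d a),
      J4_add (fun a b c d => P31 a b c d + P31 a b d c) (fun a b c d => P31 a c d b),
      J4_add (fun a b c d => P31 a b c d) (fun a b c d => P31 a b d c), D2_p0132 P31, D2_p0231 P31, D2_p1230 P31]
    ring
  have h22 : J4 z (fun a b c d => P22 a b c d + P22 a c b d + P22 a d b c) = 3 * J4 z P22 := by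
    rw [J4_add (fun a b c d => P22 a b c d + P22 a c b d) (fun a b c d => P22 a d b c),
      J4_add (fun a b c d => P22 a b c d) (fun a b c d => P22 a c b d), D2_p0213 P22, D2_p0312 P22]
    ring
  have h211 : J4 z (fun a b c d => P211 a b c d + P211 a c b d + P211 a d b c + P211 b c a d + P211 b d a c +
      P211 c d a b) = 6 * J4 z P211 := by
    rw [J4_add (fun a b c d => P211 a b c d + P211 a c b d + P211 a d b c + P211 b c a d + P211 b d a c)
        (fun a b c d => P211 c d a b),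
      J4_add (fun a b c d => P211 a b c d + P211 a c b d + P211 a d b c + P211 b c a d) (fun a b c d => P211 b d a c),
      J4_add (fun a b c d => P211 a b c d + P211 a c b d + P211 a d b c) (fun a b c d => P211 b c a d),
      J4_add (fun a b c d => P211 a b c d + P211 a c b d) (fun a b c d => P211 a d b c),
      J4_add (fun a b c d => P211 a b c d) (fun a b c d => P211 a c b d),
      D2_p0213 P211, D2_p0312 P211, D2_p1203 P211, D2_p1302 P211, D2_p2301 P211]
    ring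
  have e : D4s z M = (1 / 24) * J4 z (fun a b c d =>
      ((P31 a b c d + P31 a b d c + P31 a c d b + P31 b c d a) +
      (P22 a b c d + P22 a c b d + P22 a d b c)) +
      ((P211 a b c d + P211 a c b d + P211 a d b c + P211 b c a d + P211 b d a c + P211 c d a b) +
      P1 a b c d)) := by
    unfold D4s
    rw [J4_congr key]
  rw [e, J4_add (fun a b c d => (P31 a b c d + P31 a b d c + P31 a c d b + P31 b c d a) +
      (P22 a b c d + P22 a c b d + P22 a d b c)) (fun a b c d =>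
      (P211 a b c d + P211 a c b d + P211 a d b c + P211 b c a d + P211 b d a c + P211 c d a b) +
      P1 a b c d),
    J4_add (fun a b c d => P31 a b c d + P31 a b d c + P31 a c d b + P31 b c d a)
      (fun a b c d => P22 a b c d + P22 a c b d + P22 a d b c),
    J4_add (fun a b c d => P211 a b c d + P211 a c b d + P211 a d b c + P211 b c a d + P211 b d a c + P211 c d a b)
      (fun a b c d => P1 a b c d), h31, h22, h211]
  unfold Q31 Q22 Q211 Q1111
  rw [← hP31, ← hP22, ← hP211, ← hP1]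
  ring

theorem D2_sumk [Fintype K] (x : K) (P : K → Prop) :
    ∑ k, ch (x = k ∧ P k) = ch (P x) := by
  rw [Finset.sum_eq_single x]
  · exact ch_congr ⟨fun h => h.2, fun h => ⟨rfl, h⟩⟩
  · intro k _ hk
    exact ch_false fun h => hk h.1.symm
  · intro h
    exact absurd (Finset.mem_univ x) h

/-- PROOF. `i4_31`; the sum over the fourth element is `sk`. -/
theorem Q31_eq [Fintype K] : Q31 z M = ∑ k, tk z M k * sk z pl k := by
  have h1 : ∀ k, tk z M k * sk z pl k = (1 / 6) * J4 z (fun a b c d =>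
      ch (pl a = k ∧ pl b = k ∧ pl c = k ∧ M.i3 a b c) * ch (pl d ≠ k)) := by
    intro k
    unfold tk sk
    rw [mul_assoc, D2_J3I]
  rw [Finset.sum_congr rfl fun k _ => h1 k, ← Finset.mul_sum, D2_J4_sum]
  unfold Q31
  refine congrArg _ (J4_congr fun a b c d => ?_)
  have h2 : ∀ k, ch (pl a = k ∧ pl b = k ∧ pl c = k ∧ M.i3 a b c) * ch (pl d ≠ k) =
      ch (pl a = k ∧ (pl b = k ∧ pl c = k ∧ M.i3 a b c ∧ pl d ≠ k)) := by
    intro k
    rw [← ch_and]
    apply ch_congr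
    tauto
  rw [Finset.sum_congr rfl fun k _ => h2 k, D2_sumk (pl a) (fun k => pl b = k ∧ pl c = k ∧ M.i3 a b c ∧ pl d ≠ k)]
  apply ch_congr
  constructor
  · rintro ⟨e1, e2, e3, e4⟩
    exact ⟨e1.symm, e2.symm, (M.i4_31 a b c d e1 e2 e3).1 e4, fun e => e3 e.symm⟩
  · rintro ⟨e1, e2, e3, e4⟩
    exact ⟨e1.symm, e2.symm, fun e => e4 e.symm, (M.i4_31 a b c d e1.symm e2.symm fun e => e4 e.symm).2 e3⟩

/-- PROOF. -/
theorem Q22_le [Fintype K] (hz : ∀ a, 0 ≤ z a) :
    Q22 z M ≤ xs z S * xs z R - ∑ k, xk z S k * xk z R k := by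
  set W : V → V → V → V → ℝ := fun a b c d =>
    ch (pl a = pl b ∧ pl c = pl d ∧ pl a ≠ pl c ∧ ¬ S.q a b ∧ ¬ R.q c d) with hW
  set U : V → V → V → V → ℝ := fun a b c d =>
    ch (pl a = pl b ∧ pl a = pl c ∧ pl a = pl d ∧ ¬ S.q a b ∧ ¬ R.q c d) with hU
  have h1 : xs z S * xs z R = (1 / 4) * J4 z (fun a b c d =>
      ch (pl a = pl b ∧ ¬ S.q a b) * ch (pl c = pl d ∧ ¬ R.q c d)) := by
    rw [← D2_J2J2]
    unfold xs
    ring
  have h2 : ∀ k, xk z S k * xk z R k = (1 / 4) * J4 z (fun a b c d =>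
      ch (pl a = k ∧ pl b = k ∧ ¬ S.q a b) * ch (pl c = k ∧ pl d = k ∧ ¬ R.q c d)) := by
    intro k
    rw [← D2_J2J2]
    unfold xk
    ring
  have h3 : ∑ k, xk z S k * xk z R k = (1 / 4) * J4 z U := by
    rw [Finset.sum_congr rfl fun k _ => h2 k, ← Finset.mul_sum, D2_J4_sum]
    refine congrArg _ (J4_congr fun a b c d => ?_)
    have h4 : ∀ k, ch (pl a = k ∧ pl b = k ∧ ¬ S.q a b) * ch (pl c = k ∧ pl d = k ∧ ¬ R.q c d) =
        ch (pl a = k ∧ (pl b = k ∧ pl c = k ∧ pl d = k ∧ ¬ S.q a b ∧ ¬ R.q c d)) := by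
      intro k
      rw [← ch_and]
      apply ch_congr
      tauto
    rw [Finset.sum_congr rfl fun k _ => h4 k,
      D2_sumk (pl a) (fun k => pl b = k ∧ pl c = k ∧ pl d = k ∧ ¬ S.q a b ∧ ¬ R.q c d)]
    apply ch_congr
    constructor
    · rintro ⟨e1, e2, e3, e4⟩
      exact ⟨e1.symm, e2.symm, e3.symm, e4⟩
    · rintro ⟨e1, e2, e3, e4⟩
      exact ⟨e1.symm, e2.symm, e3.symm, e4⟩
  have h5 : J4 z (fun a b c d => ch (pl a = pl b ∧ ¬ S.q a b) * ch (pl c = pl d ∧ ¬ R.q c d)) = J4 z W + J4 z U := by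
    rw [← J4_add]
    refine J4_congr fun a b c d => ?_
    rw [← ch_and]
    by_cases e : pl a = pl c
    · rw [hW, hU]
      simp only [e]
      rw [ch_false (p := pl c = pl b ∧ pl c = pl d ∧ pl c ≠ pl c ∧ ¬ S.q a b ∧ ¬ R.q c d) (fun h => h.2.2.1 rfl), zero_add]
      apply ch_congr
      tauto
    · rw [hW, hU]
      simp only
      rw [ch_false (p := pl a = pl b ∧ pl a = pl c ∧ pl a = pl d ∧ ¬ S.q a b ∧ ¬ R.q c d) (fun h => e h.2.1), add_zero]
      apply ch_congr
      tauto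
  have h6 : J4 z W = (1 / 2) * J4 z (fun a b c d => W a b c d + W c d a b) := by
    rw [J4_add (fun a b c d => W a b c d) (fun a b c d => W c d a b), D2_p2301 W]
    ring
  have h7 : xs z S * xs z R - ∑ k, xk z S k * xk z R k = (1 / 8) * J4 z (fun a b c d => W a b c d + W c d a b) := by
    rw [h1, h3, h5, h6]
    ring
  rw [h7]
  unfold Q22
  refine mul_le_mul_of_nonneg_left (J4_mono hz fun a b c d => ?_) (by norm_num)
  by_cases h8 : pl a = pl b ∧ pl c = pl d ∧ pl a ≠ pl c ∧ M.i4 a b c d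
  · obtain ⟨e1, e2, e3, e4⟩ := h8
    rw [ch_true ⟨e1, e2, e3, e4⟩]
    have h9 : M.i4 c d a b := by
      have i1 := M.i4_23 _ _ _ _ e4
      have i2 := M.i4_12 _ _ _ _ i1
      have i3 := M.i4_34 _ _ _ _ i2
      exact M.i4_23 _ _ _ _ i3
    have h10 : W a b c d = 1 ∨ W c d a b = 1 := by
      by_cases q1 : S.q a b
      · by_cases q2 : S.q c d
        · exact absurd ⟨q1, q2⟩ (M.i4_row a b c d e4)
        · refine Or.inr (ch_true ⟨e2, e1, fun e => e3 e.symm, q2, fun q3 => ?_⟩)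
          exact M.i4_par a b c d e4 ⟨q1, q3⟩
      · by_cases q3 : R.q c d
        · refine Or.inr (ch_true ⟨e2, e1, fun e => e3 e.symm, fun q2 => ?_, fun q4 => ?_⟩)
          · exact M.i4_par c d a b h9 ⟨q2, q3⟩
          · exact M.i4_col a b c d e4 ⟨q4, q3⟩
        · exact Or.inl (ch_true ⟨e1, e2, e3, q1, q3⟩)
    have w1 : 0 ≤ W a b c d := ch_nonneg _
    have w2 : 0 ≤ W c d a b := ch_nonneg _
    rcases h10 with h10 | h10
    · rw [h10]
      linarith
    · rw [h10]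
      linarith
  · rw [ch_false h8]
    exact add_nonneg (ch_nonneg _) (ch_nonneg _)

/-- the part of `Zt * gg` with the first element in the plane of the second -/
noncomputable def G1 (z : V → ℝ) (S : Side pl Λ) (R : Side pl Λ') : ℝ :=
  (1 / 4) * J4 z fun a b c d => ch (pl a = pl b ∧ Tr pl a c d ∧
    ((¬ S.q3 a c d ∧ ¬ R.q3 a c d) ∨ (¬ S.q3 b c d ∧ ¬ R.q3 b c d)))

/-- the part of `Zt * gg` with four planes -/
noncomputable def G2 (z : V → ℝ) (S : Side pl Λ) (R : Side pl Λ') : ℝ :=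
  (1 / 24) * J4 z fun a b c d => ch (Tr pl a b c ∧ Tr pl a b d ∧ pl c ≠ pl d ∧
    ((¬ S.q3 a b c ∧ ¬ R.q3 a b c) ∨ (¬ S.q3 a b d ∧ ¬ R.q3 a b d) ∨ (¬ S.q3 a c d ∧ ¬ R.q3 a c d) ∨
      (¬ S.q3 b c d ∧ ¬ R.q3 b c d)))

theorem D2_or2 {p q r : Prop} (h : p → q ∨ r) : ch p ≤ ch q + ch r := by
  by_cases hp : p
  · rw [ch_true hp]
    rcases h hp with h | h
    · rw [ch_true h]
      have := ch_nonneg r
      linarith
    · rw [ch_true h]
      have := ch_nonneg q
      linarith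
  · rw [ch_false hp]
    exact add_nonneg (ch_nonneg _) (ch_nonneg _)

theorem D2_or4 {p q r s t : Prop} (h : p → q ∨ r ∨ s ∨ t) : ch p ≤ ch q + ch r + ch s + ch t := by
  have n1 := ch_nonneg q
  have n2 := ch_nonneg r
  have n3 := ch_nonneg s
  have n4 := ch_nonneg t
  by_cases hp : p
  · rw [ch_true hp]
    rcases h hp with h | h | h | h
    · rw [ch_true h]
      linarith
    · rw [ch_true h]
      linarith
    · rw [ch_true h]
      linarith
    · rw [ch_true h]
      linarith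
  · rw [ch_false hp]
    linarith

/-- PROOF. -/
theorem G_le (hz : ∀ a, 0 ≤ z a) : G1 z S R + G2 z S R ≤ Zt z * gg z S R := by
  set T : V → V → V → Prop := fun b c d => Tr pl b c d ∧ ¬ S.q3 b c d ∧ ¬ R.q3 b c d with hT
  have T12 : ∀ b c d, T b c d → T c b d := fun b c d h =>
    ⟨Tr_swap12 h.1, fun e => h.2.1 (q3_12 S e), fun e => h.2.2 (q3_12 R e)⟩
  have T23 : ∀ b c d, T b c d → T b d c := fun b c d h =>
    ⟨Tr_swap23 h.1, fun e => h.2.1 (q3_23 S e), fun e => h.2.2 (q3_23 R e)⟩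
  set X : V → V → V → V → ℝ := fun a b c d => ch (pl a = pl b ∧ T b c d) with hX
  set Y : V → V → V → V → ℝ := fun a b c d => ch (pl a ≠ pl b ∧ pl a ≠ pl c ∧ pl a ≠ pl d ∧ T b c d) with hY
  have h1 : Zt z * gg z S R = (1 / 6) * J4 z (fun a b c d => ch (T b c d)) := by
    unfold Zt gg
    rw [← mul_assoc, mul_comm _ (1 / 6 : ℝ), mul_assoc, D2_IJ3]
    refine congrArg _ (J4_congr fun a b c d => ?_)
    rw [one_mul]
  have h2 : ∀ a b c d, ch (T b c d) = (X a b c d + X a c b d + X a d b c) + Y a b c d := by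
    intro a b c d
    by_cases t : T b c d
    · have t1 : T c b d := T12 _ _ _ t
      have t2 : T d b c := T12 _ _ _ (T23 _ _ _ t)
      have t' := t
      obtain ⟨⟨n1, n2, n3⟩, -⟩ := t'
      have n1' : pl c ≠ pl b := fun e => n1 e.symm
      have n2' : pl d ≠ pl b := fun e => n2 e.symm
      have n3' : pl d ≠ pl c := fun e => n3 e.symm
      simp only [hX, hY]
      by_cases e1 : pl a = pl b
      · rw [ch_true t, ch_true ⟨e1, t⟩, ch_false (p := pl a = pl c ∧ T c b d) (fun h => n1 (e1.symm.trans h.1)),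
          ch_false (p := pl a = pl d ∧ T d b c) (fun h => n2 (e1.symm.trans h.1)),
          ch_false (p := pl a ≠ pl b ∧ pl a ≠ pl c ∧ pl a ≠ pl d ∧ T b c d) (fun h => h.1 e1)]
        norm_num
      · rw [ch_false (p := pl a = pl b ∧ T b c d) (fun h => e1 h.1)]
        by_cases e2 : pl a = pl c
        · rw [ch_true t, ch_true ⟨e2, t1⟩,
            ch_false (p := pl a = pl d ∧ T d b c) (fun h => n3 (e2.symm.trans h.1)),
            ch_false (p := pl a ≠ pl b ∧ pl a ≠ pl c ∧ pl a ≠ pl d ∧ T b c d) (fun h => h.2.1 e2)]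
          norm_num
        · rw [ch_false (p := pl a = pl c ∧ T c b d) (fun h => e2 h.1)]
          by_cases e3 : pl a = pl d
          · rw [ch_true t, ch_true ⟨e3, t2⟩,
              ch_false (p := pl a ≠ pl b ∧ pl a ≠ pl c ∧ pl a ≠ pl d ∧ T b c d) (fun h => h.2.2.1 e3)]
            norm_num
          · rw [ch_true t, ch_false (p := pl a = pl d ∧ T d b c) (fun h => e3 h.1), ch_true ⟨e1, e2, e3, t⟩]
            norm_num
    · have t1 : ¬ T c b d := fun h => t (T12 _ _ _ h)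
      have t2 : ¬ T d b c := fun h => t (T23 _ _ _ (T12 _ _ _ h))
      simp only [hX, hY]
      rw [ch_false t, ch_false (p := pl a = pl b ∧ T b c d) (fun h => t h.2),
        ch_false (p := pl a = pl c ∧ T c b d) (fun h => t1 h.2), ch_false (p := pl a = pl d ∧ T d b c) (fun h => t2 h.2),
        ch_false (p := pl a ≠ pl b ∧ pl a ≠ pl c ∧ pl a ≠ pl d ∧ T b c d) (fun h => t h.2.2.2)]
      norm_num
  have h3 : J4 z (fun a b c d => ch (T b c d)) = 3 * J4 z X + J4 z Y := by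
    rw [J4_congr h2, J4_add (fun a b c d => X a b c d + X a c b d + X a d b c) (fun a b c d => Y a b c d),
      J4_add (fun a b c d => X a b c d + X a c b d) (fun a b c d => X a d b c),
      J4_add (fun a b c d => X a b c d) (fun a b c d => X a c b d), D2_p0213 X, D2_p0312 X]
    ring
  have h4 : 2 * J4 z X = J4 z (fun a b c d => X a b c d + X b a c d) := by
    rw [J4_add (fun a b c d => X a b c d) (fun a b c d => X b a c d), D2_p1023 X]
    ring
  have h5 : 4 * J4 z Y = J4 z (fun a b c d => Y a b c d + Y b a c d + Y c a b d + Y d a b c) := by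
    rw [J4_add (fun a b c d => Y a b c d + Y b a c d + Y c a b d) (fun a b c d => Y d a b c),
      J4_add (fun a b c d => Y a b c d + Y b a c d) (fun a b c d => Y c a b d),
      J4_add (fun a b c d => Y a b c d) (fun a b c d => Y b a c d), D2_p1023 Y, D2_p2013 Y, D2_p3012 Y]
    ring
  have h6 : G1 z S R ≤ (1 / 4) * J4 z (fun a b c d => X a b c d + X b a c d) := by
    unfold G1
    refine mul_le_mul_of_nonneg_left (J4_mono hz fun a b c d => D2_or2 ?_) (by norm_num)
    rintro ⟨e1, ⟨n1, n2, n3⟩, h | h⟩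
    · exact Or.inr ⟨e1.symm, ⟨n1, n2, n3⟩, h⟩
    · exact Or.inl ⟨e1, ⟨fun e => n1 (e1.trans e), fun e => n2 (e1.trans e), n3⟩, h⟩
  have h7 : G2 z S R ≤ (1 / 24) * J4 z (fun a b c d => Y a b c d + Y b a c d + Y c a b d + Y d a b c) := by
    unfold G2
    refine mul_le_mul_of_nonneg_left (J4_mono hz fun a b c d => D2_or4 ?_) (by norm_num)
    rintro ⟨⟨n1, n2, n3⟩, ⟨_, n4, n5⟩, n6, h | h | h | h⟩
    · exact Or.inr (Or.inr (Or.inr ⟨fun e => n4 e.symm, fun e => n5 e.symm, fun e => n6 e.symm, ⟨n1, n2, n3⟩, h⟩))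
    · exact Or.inr (Or.inr (Or.inl ⟨fun e => n2 e.symm, fun e => n3 e.symm, n6, ⟨n1, n4, n5⟩, h⟩))
    · exact Or.inr (Or.inl ⟨fun e => n1 e.symm, n3, n5, ⟨n2, n4, n6⟩, h⟩)
    · exact Or.inl ⟨n1, n2, n4, ⟨n3, n5, n6⟩, h⟩
  rw [h1, h3]
  linarith

/-- PROOF. -/
theorem Q211_le [Fintype K] (hz : ∀ a, 0 ≤ z a) : Q211 z M ≤ G1 z S R + ∑ k, dk z S R k * ek z pl k := by
  have h1 : ∀ k, dk z S R k * ek z pl k = (1 / 4) * J4 z (fun a b c d =>
      ch (pl a = k ∧ pl b = k ∧ ¬ S.q a b ∧ ¬ R.q a b) * ch (pl c ≠ k ∧ pl d ≠ k ∧ pl c ≠ pl d)) := by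
    intro k
    rw [← D2_J2J2]
    unfold dk ek
    ring
  have h2 : ∑ k, dk z S R k * ek z pl k = (1 / 4) * J4 z (fun a b c d =>
      ch (pl a = pl b ∧ Tr pl a c d ∧ ¬ S.q a b ∧ ¬ R.q a b)) := by
    rw [Finset.sum_congr rfl fun k _ => h1 k, ← Finset.mul_sum, D2_J4_sum]
    refine congrArg _ (J4_congr fun a b c d => ?_)
    have h4 : ∀ k, ch (pl a = k ∧ pl b = k ∧ ¬ S.q a b ∧ ¬ R.q a b) * ch (pl c ≠ k ∧ pl d ≠ k ∧ pl c ≠ pl d) =
        ch (pl a = k ∧ (pl b = k ∧ (¬ S.q a b ∧ ¬ R.q a b) ∧ pl c ≠ k ∧ pl d ≠ k ∧ pl c ≠ pl d)) := by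
      intro k
      rw [← ch_and]
      apply ch_congr
      tauto
    rw [Finset.sum_congr rfl fun k _ => h4 k,
      D2_sumk (pl a) (fun k => pl b = k ∧ (¬ S.q a b ∧ ¬ R.q a b) ∧ pl c ≠ k ∧ pl d ≠ k ∧ pl c ≠ pl d)]
    apply ch_congr
    constructor
    · rintro ⟨e1, e2, e3, e4, e5⟩
      exact ⟨e1.symm, ⟨fun e => e3 e.symm, fun e => e4 e.symm, e5⟩, e2⟩
    · rintro ⟨e1, ⟨e2, e3, e4⟩, e5⟩
      exact ⟨e1.symm, e5, fun e => e2 e.symm, fun e => e3 e.symm, e4⟩
  rw [h2]
  unfold Q211 G1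
  rw [← mul_add, ← J4_add]
  refine mul_le_mul_of_nonneg_left (J4_mono hz fun a b c d => D2_or2 ?_) (by norm_num)
  rintro ⟨e1, e2, e3⟩
  by_cases h5 : S.q a b ∨ R.q a b
  · exact Or.inl ⟨e1, e2, M.i4_211 a b c d e1 e2 e3 h5⟩
  · exact Or.inr ⟨e1, e2, fun e => h5 (Or.inl e), fun e => h5 (Or.inr e)⟩

theorem Q1111_le (hz : ∀ a, 0 ≤ z a) : Q1111 z M ≤ G2 z S R := by
  unfold Q1111 G2
  refine mul_le_mul_of_nonneg_left (J4_mono hz fun a b c d => ch_mono ?_) (by norm_num)
  rintro ⟨e1, e2, e3, e4⟩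
  exact ⟨e1, e2, e3, M.i4_1111 a b c d e1 e2 e3 e4⟩

end Pool.Agent.Lib.MP_16c009_coR
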