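import Pool.Agent.Lib.MP_16c009_coR.C5
import Pool.Agent.Lib.MP_16c009_coR.D2

/-!
# The inequality for the independent sets without elements on the line of `e`, `f`
-/

set_option autoImplicit false
set_option linter.unusedSectionVars false

namespace Pool.Agent.Lib.MP_16c009_coR

variable {V K Λ Λ' : Type*} [Fintype V] [Fintype K] {pl : V → K} {z : V → ℝ} {S : Side pl Λ} {R : Side pl Λ'}
  (M : Mat4 S R)

/-- PROOF. `gg ≥ 0`, `Del ≥ 0` and `ts = ∑ tk ≤ ∑ Zk * dk ≤ ∑ Zt * dk = Zt * del` (`tk_le`, `sum_tk`, `sum_dk`, `Zk ≤ Zt`). -/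
theorem lev3 (hz : ∀ a, 0 ≤ z a) : 0 ≤ gg z S R + Del z S R + Zt z * del z S R - ts z M := by
  have h1 : 0 ≤ gg z S R := by
    unfold gg
    exact mul_nonneg (by norm_num) (J3_nonneg hz fun a b c => ch_nonneg _)
  have h2 : 0 ≤ Del z S R := by
    unfold Del
    exact mul_nonneg (by norm_num) (J3_nonneg hz fun a b c => ch_nonneg _)
  have h3 : ts z M ≤ Zt z * del z S R := by
    rw [← sum_tk M, ← sum_dk S R, Finset.mul_sum]
    refine Finset.sum_le_sum fun k _ => ?_
    refine (tk_le M hz k).trans ?_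
    refine mul_le_mul_of_nonneg_right ?_ (dk_nonneg S R hz k)
    have h4 := Zk_add_sk (z := z) (pl := pl) k
    have h5 := sk_nonneg (z := z) (pl := pl) hz k
    linarith
  linarith

/-- PROOF. `D4s_eq`, `Q31_eq`, `Q22_le`, `Q211_le`, `Q1111_le`, `G_le`. With `x_k = xk z S k`, `y_k = xk z R k`, `t_k`, `d_k`, `s_k`, `e_k`, `Z_k`:
`Zt * Del = ∑ (Z_k + s_k) d_k s_k`, `Et * del = ∑ d_k (Z_k s_k + e_k)`, `Zt * ts = ∑ (Z_k + s_k) t_k` (`sum_dk_sk`, `sum_dk`, `sum_tk`, `Et_eq`,
`Zk_add_sk`). The claim follows from `∑ (x_k y_k - Z_k t_k) ≥ 0` (`phi_le`), `t_k ≤ Z_k d_k` (`tk_le`; used with the factor `2 s_k`), `d_k s_k ^ 2 ≥ 0`. -/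
theorem lev4 (hz : ∀ a, 0 ≤ z a) :
    0 ≤ Zt z * (gg z S R + Del z S R - ts z M) + Et z pl * del z S R + xs z S * xs z R - D4s z M := by
  have a1 := D4s_eq (z := z) M
  have a2 := Q31_eq (z := z) M
  have a3 := Q22_le (z := z) M hz
  have a4 := Q211_le (z := z) M hz
  have a5 := Q1111_le (z := z) M hz
  have a6 := G_le (z := z) (S := S) (R := R) hz
  have b1 : Zt z * Del z S R = ∑ k, (Zk z pl k + sk z pl k) * (dk z S R k * sk z pl k) := by
    rw [← sum_dk_sk S R, Finset.mul_sum]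
    exact Finset.sum_congr rfl fun k _ => by rw [Zk_add_sk]
  have b2 : Et z pl * del z S R = ∑ k, (Zk z pl k * sk z pl k + ek z pl k) * dk z S R k := by
    rw [← sum_dk S R, Finset.mul_sum]
    exact Finset.sum_congr rfl fun k _ => by rw [← Et_eq]
  have b3 : Zt z * ts z M = ∑ k, (Zk z pl k + sk z pl k) * tk z M k := by
    rw [← sum_tk M, Finset.mul_sum]
    exact Finset.sum_congr rfl fun k _ => by rw [Zk_add_sk]
  have key : 0 ≤ (∑ k, (Zk z pl k + sk z pl k) * (dk z S R k * sk z pl k)) +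
      (∑ k, (Zk z pl k * sk z pl k + ek z pl k) * dk z S R k) -
      (∑ k, (Zk z pl k + sk z pl k) * tk z M k) + (∑ k, xk z S k * xk z R k) -
      (∑ k, tk z M k * sk z pl k) - ∑ k, dk z S R k * ek z pl k := by
    rw [← Finset.sum_add_distrib, ← Finset.sum_sub_distrib, ← Finset.sum_add_distrib,
      ← Finset.sum_sub_distrib, ← Finset.sum_sub_distrib]
    refine Finset.sum_nonneg fun k _ => ?_
    have c1 := phi_le M hz k
    have c2 := tk_le M hz k
    have c3 := sk_nonneg (z := z) (pl := pl) hz k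
    have c4 := dk_nonneg S R hz k
    have c5 : 0 ≤ sk z pl k * (Zk z pl k * dk z S R k - tk z M k) := mul_nonneg c3 (by linarith)
    have c6 : 0 ≤ dk z S R k * sk z pl k ^ 2 := mul_nonneg c4 (sq_nonneg _)
    have e : (Zk z pl k + sk z pl k) * (dk z S R k * sk z pl k) +
        (Zk z pl k * sk z pl k + ek z pl k) * dk z S R k - (Zk z pl k + sk z pl k) * tk z M k +
        xk z S k * xk z R k - tk z M k * sk z pl k - dk z S R k * ek z pl k =
        (xk z S k * xk z R k - Zk z pl k * tk z M k) + dk z S R k * sk z pl k ^ 2 +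
        2 * (sk z pl k * (Zk z pl k * dk z S R k - tk z M k)) := by ring
    rw [e]
    linarith
  have e2 : Zt z * (gg z S R + Del z S R - ts z M) = Zt z * gg z S R + Zt z * Del z S R - Zt z * ts z M := by
    ring
  rw [e2]
  linarith

/-- PROOF. `E ^ 2 * t_k = (Z_k ^ 2 s_k ^ 2 + 2 Z_k s_k e_k + e_k ^ 2) t_k ≤ (Z_k s_k ^ 2 + 2 s_k e_k) x_k y_k + e_k ^ 2 (Z_k d_k)` by `Et_eq`, `phi_le`, `tk_le`;
sum over `k` (`sum_tk`) and `star2`. -/
theorem star [Finite Λ] [Finite Λ'] (hz : ∀ a, 0 ≤ z a) :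
    Zt z * (as z S + Xs z S) * (as z R + Xs z R) + Et z pl ^ 2 * ts z M ≤
    Et z pl ^ 2 * gg z S R + Et z pl ^ 2 * Del z S R +
      Et z pl * ((as z S + Xs z S) * xs z R + xs z S * (as z R + Xs z R)) := by
  have h := star2 S R hz
  have h1 : Et z pl ^ 2 * ts z M ≤
      ∑ k, (Zk z pl k * sk z pl k ^ 2 + 2 * sk z pl k * ek z pl k) * (xk z S k * xk z R k) +
      ∑ k, ek z pl k ^ 2 * (Zk z pl k * dk z S R k) := by
    rw [← sum_tk M, Finset.mul_sum, ← Finset.sum_add_distrib]
    refine Finset.sum_le_sum fun k _ => ?_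
    have c0 := Et_eq (z := z) (pl := pl) k
    have c1 := phi_le M hz k
    have c2 := tk_le M hz k
    have c3 := sk_nonneg (z := z) (pl := pl) hz k
    have c4 := Zk_nonneg (z := z) (pl := pl) hz k
    have c5 := ek_nonneg (z := z) (pl := pl) hz k
    have d1 := mul_le_mul_of_nonneg_left c1
      (show 0 ≤ Zk z pl k * sk z pl k ^ 2 + 2 * sk z pl k * ek z pl k by positivity)
    have d2 := mul_le_mul_of_nonneg_left c2 (sq_nonneg (ek z pl k))
    have e : Et z pl ^ 2 * tk z M k =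
        (Zk z pl k * sk z pl k ^ 2 + 2 * sk z pl k * ek z pl k) * (Zk z pl k * tk z M k) +
        ek z pl k ^ 2 * tk z M k := by
      rw [c0]
      ring
    rw [e]
    linarith
  linarith

/-- The inequality. PROOF. Let `Z, E` be `Zt`, `Et`, `A2 = E + xs S`, `B2 = E + xs R`, `A3 = as S + Xs S`, `B3 = as R + Xs R`, `D2 = E + us`,
`D3 = D3s = ds + Us + ts` (`D3s_eq`), `D4 = D4s`. The difference is the sum of its homogeneous parts: `del` (degree two; `xs_add`), `gg + Del + Z * del - ts` (degree three, `lev3`;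
`as_add`, `Xs_add`), degree four (`lev4`), degree five `A2 * B3 + A3 * B2 - Z * D4 - E * D3`, degree six `A3 * B3 - E * D4` (the hypothesis `hR`). For degree five:
`E * (A2 * B3 + A3 * B2 - Z * D4 - E * D3) = (right side - left side of star) + Z * (A3 * B3 - E * D4) ≥ 0`, and `E > 0`. -/
theorem main0 [Finite Λ] [Finite Λ'] (hz : ∀ a, 0 ≤ z a) (hE : 0 < Et z pl)
    (hR : Et z pl * D4s z M ≤ (as z S + Xs z S) * (as z R + Xs z R)) :
    (1 + Zt z + Et z pl) * (1 + Zt z + (Et z pl + us z S R) + D3s z M + D4s z M) ≤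
    (1 + Zt z + (Et z pl + xs z S) + (as z S + Xs z S)) *
      (1 + Zt z + (Et z pl + xs z R) + (as z R + Xs z R)) := by
  have a1 := xs_add (z := z) S R
  have a2 := Xs_add (z := z) S R
  have a3 := as_add (z := z) S R
  have a4 := D3s_eq (z := z) M
  have l3 := lev3 M hz
  have l4 := lev4 M hz
  have st := star M hz
  have hdel : 0 ≤ del z S R := by
    unfold del
    exact mul_nonneg (by norm_num) (J2_nonneg hz fun a b => ch_nonneg _)
  have hZ : 0 ≤ Zt z := by
    unfold Zt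
    exact I_nonneg hz fun _ => zero_le_one
  have e3 : D3s z M = (as z S + Xs z S) + (as z R + Xs z R) - gg z S R - Del z S R + ts z M := by linarith
  have e1 : us z S R = xs z S + xs z R - del z S R := by linarith
  rw [e3, e1]
  clear a1 a2 a3 a4 e3 e1
  generalize Zt z = Z at *
  generalize Et z pl = E at *
  generalize xs z S = xS at *
  generalize xs z R = xR at *
  generalize as z S + Xs z S = A3 at *
  generalize as z R + Xs z R = B3 at *
  generalize del z S R = dl at *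
  generalize D4s z M = D4 at *
  generalize ts z M = t at *
  generalize Del z S R = Dl at *
  generalize gg z S R = g at *
  have h6 : 0 ≤ A3 * B3 - E * D4 := by linarith
  have h5 : 0 ≤ (E + xS) * B3 + A3 * (E + xR) - Z * D4 - E * (A3 + B3 - g - Dl + t) := by
    refine (mul_nonneg_iff_of_pos_left hE).1 ?_
    have h7 := mul_nonneg hZ h6
    have e : E * ((E + xS) * B3 + A3 * (E + xR) - Z * D4 - E * (A3 + B3 - g - Dl + t)) =
        (E ^ 2 * g + E ^ 2 * Dl + E * (A3 * xR + xS * B3) - (Z * A3 * B3 + E ^ 2 * t)) +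
          Z * (A3 * B3 - E * D4) := by ring
    rw [e]
    linarith
  have e : (1 + Z + (E + xS) + A3) * (1 + Z + (E + xR) + B3) -
      (1 + Z + E) * (1 + Z + (E + (xS + xR - dl)) + (A3 + B3 - g - Dl + t) + D4) =
      dl + (g + Dl + Z * dl - t) + (Z * (g + Dl - t) + E * dl + xS * xR - D4) +
      ((E + xS) * B3 + A3 * (E + xR) - Z * D4 - E * (A3 + B3 - g - Dl + t)) + (A3 * B3 - E * D4) := by ring
  linarith

end Pool.Agent.Lib.MP_16c009_coR
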