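import Pool.Agent.Lib.MP_16c009_coR.Da13

/-!
# The lists of plane code 13
-/

set_option autoImplicit false
set_option maxRecDepth 100000

namespace Pool.Agent.Lib.MP_16c009_coR

theorem raw_13 : raw pl13 = K13 := by decide +kernel

theorem kok_13 : K13.all (kOk (phi pl13)) = true := by decide +kernel

theorem chkR_13 : chkR pl13 C13 O13 Q13 = true := by decide +kernel

end Pool.Agent.Lib.MP_16c009_coR
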