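import Pool.Agent.Lib.MP_16c009_coR.Da7

/-!
# The check of plane code 7, part 2
-/

set_option autoImplicit false
set_option maxRecDepth 100000

namespace Pool.Agent.Lib.MP_16c009_coR

theorem okq_7_4 : Q7_4.all (fun q => okQ K7 q C7 O7) = true := by decide +kernel

end Pool.Agent.Lib.MP_16c009_coR
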