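import Pool.Agent.Lib.MP_16c009_coR.A2

/-!
# The two sides of a matroid of rank four
-/

set_option autoImplicit false

open Set

namespace Pool.Agent.Lib.MP_16c009_coR

variable {E : Type*} {M : Matroid E}

/-- exchange. PROOF. `Matroid.closure_insert_congr`. -/
theorem cl_ex {X : Set E} {x t : E} (h1 : x ∈ M.closure (insert t X)) (h2 : x ∉ M.closure X) :
    M.closure (insert x X) = M.closure (insert t X) :=
  M.closure_insert_congr ⟨h1, h2⟩

theorem cl_mem (hE : M.E = Set.univ) {X : Set E} {x : E} (h : x ∈ X) : x ∈ M.closure X :=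
  M.mem_closure_of_mem h (by rw [hE]; exact Set.subset_univ _)

/-- PROOF. `M.closure (insert b X) = M.closure (insert b (M.closure X))` (`Matroid.closure_insert_closure_eq_closure_insert`). -/
theorem cl_insert_congr {X Y : Set E} (b : E) (h : M.closure X = M.closure Y) :
    M.closure (insert b X) = M.closure (insert b Y) :=
  Matroid.closure_insert_congr_right h

theorem cl_sub (hE : M.E = Set.univ) {X Y : Set E} (h : X ⊆ M.closure Y) : M.closure X ⊆ M.closure Y :=
  M.closure_subset_closure_of_subset_closure h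

theorem F1_set1 (a b x : E) : ({a, b, x} : Set E) = insert x {a, b} := by
  rw [Set.insert_comm x a, Set.pair_comm b x]

theorem F1_set2 (a b x : E) : ({a, b, x} : Set E) = insert b {a, x} := Set.insert_comm a b {x}

/-- An element outside `cl {a, b}` in the plane of another one spans the same plane. PROOF. `cl_ex` with `X = {a, b}`; `{a, b, x}` and
`insert x {a, b}` are equal sets. -/
theorem plane_eq {a b x y : E} (hx : x ∈ M.closure {a, b, y}) (h : x ∉ M.closure {a, b}) :
    M.closure {a, b, x} = M.closure {a, b, y} := by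
  rw [F1_set1 a b x, F1_set1 a b y]
  rw [F1_set1 a b y] at hx
  exact cl_ex hx h

/-- the side of `a`, for the elements outside the line through `a`, `b` -/
def mkSide (hE : M.E = Set.univ) {V : Type*} (ι : V → E) (a b : E) (hV : ∀ x, ι x ∉ M.closure {a, b})
    (pl : V → Set E) (hpl : ∀ x, pl x = M.closure {a, b, ι x}) : Side pl (Set E) where
  ln x y := M.closure {a, ι x, ι y}
  q x y := M.closure {a, ι x} = M.closure {a, ι y}
  q_refl _ := rfl
  q_symm _ _ h := h.symm
  q_trans _ _ _ h h' := h.trans h'
  q_pl := by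
    -- `cl_insert_congr` with `b`; `insert b {a, x} = {a, b, x}`
    intro x y h
    rw [hpl, hpl, F1_set2 a b (ι x), F1_set2 a b (ι y)]
    exact cl_insert_congr b h
  ln_symm := by
    intro x y
    show M.closure {a, ι x, ι y} = M.closure {a, ι y, ι x}
    rw [Set.pair_comm (ι x) (ι y)]
  ln_row := by
    -- `cl_insert_congr` with `t`
    intro x y t _ h
    show M.closure {a, ι x, ι t} = M.closure {a, ι y, ι t}
    rw [F1_set1 a (ι x) (ι t), F1_set1 a (ι y) (ι t)]
    exact cl_insert_congr (ι t) h
  row_ln := by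
    -- Put `s' ∈ cl {a, s, t}` and `s' ∈ cl {a, b, s}`. If `s' ∉ cl {a, s}`, exchange gives `t ∈ cl {a, s, s'} ⊆ cl {a, b, s}`, so `pl t = pl s` by `plane_eq`.
    -- So `s' ∈ cl {a, s}`; `s' ∉ cl {a}` (because `s' ∉ cl {a, b}`), exchange: `cl {a, s'} = cl {a, s}`.
    intro s t s' t' h1 _ h3 h4
    have e1 : ι s' ∈ M.closure {a, ι s, ι t} := by
      have h5 : M.closure {a, ι s, ι t} = M.closure {a, ι s', ι t'} := h3
      rw [h5]
      exact cl_mem hE (by simp)
    have e2 : ι s' ∈ M.closure {a, b, ι s} := by
      rw [← hpl, h4, hpl]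
      exact cl_mem hE (by simp)
    have e3 : ι s' ∈ M.closure {a, ι s} := by
      by_contra h6
      rw [F1_set1 a (ι s) (ι t)] at e1
      have h7 := cl_ex e1 h6
      have h8 : ι t ∈ M.closure (insert (ι s') {a, ι s}) := by
        rw [h7]
        exact cl_mem hE (by simp)
      have h9 : ι t ∈ M.closure {a, b, ι s} := by
        refine cl_sub hE ?_ h8
        intro w hw
        rcases hw with hw | hw | hw
        · rw [hw]; exact e2
        · rw [hw]; exact cl_mem hE (by simp)
        · rw [hw]; exact cl_mem hE (by simp)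
      apply h1
      rw [hpl, hpl]
      exact (plane_eq h9 (hV t)).symm
    have e4 : ι s' ∉ M.closure {a} := fun h5 =>
      hV s' (M.closure_subset_closure (by simp) h5)
    have e5 : M.closure {a, ι s'} = M.closure {a, ι s} := by
      rw [Set.pair_comm a (ι s'), Set.pair_comm a (ι s)]
      rw [Set.pair_comm a (ι s)] at e3
      exact cl_ex e3 e4
    exact e5.symm
  ln_ln := by
    -- `s' ∈ cl {a, s, t}`, and `s' ∉ cl {a, s}` (otherwise `s' ∈ cl {a, b, s}` and `pl s' = pl s`): exchange.
    intro s t s' t' _ _ h3 h4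
    have e1 : ι s' ∈ M.closure {a, ι s, ι t} := by
      have h5 : M.closure {a, ι s, ι t} = M.closure {a, ι s', ι t'} := h3
      rw [h5]
      exact cl_mem hE (by simp)
    have e2 : ι s' ∉ M.closure {a, ι s} := by
      intro h5
      apply h4
      rw [hpl, hpl]
      refine (plane_eq (M.closure_subset_closure ?_ h5) (hV s')).symm
      intro w hw
      rcases hw with hw | hw
      · rw [hw]; simp
      · rw [hw]; simp
    show M.closure {a, ι s, ι s'} = M.closure {a, ι s, ι t}
    rw [F1_set1 a (ι s) (ι t)] at e1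
    rw [F1_set1 a (ι s) (ι s'), F1_set1 a (ι s) (ι t)]
    exact cl_ex e1 e2

end Pool.Agent.Lib.MP_16c009_coR
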