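import Pool.Agent.Lib.MP_16c009_coR.F1
import Pool.Agent.Lib.MP_16c009_coR.D1

/-!
# Independent sets of three and four elements in a matroid of rank four
-/

set_option autoImplicit false

open Set

namespace Pool.Agent.Lib.MP_16c009_coR

variable {E : Type*} {M : Matroid E}

/-- three elements -/
def In3 (M : Matroid E) (a b c : E) : Prop := a ≠ b ∧ a ≠ c ∧ b ≠ c ∧ M.Indep {a, b, c}

/-- four elements -/
def In4 (M : Matroid E) (a b c d : E) : Prop :=
  a ≠ b ∧ a ≠ c ∧ a ≠ d ∧ b ≠ c ∧ b ≠ d ∧ c ≠ d ∧ M.Indep {a, b, c, d}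

theorem F2_ins (hE : M.E = Set.univ) {x : E} {X : Set E} :
    (x ∉ X ∧ M.Indep (insert x X)) ↔ (M.Indep X ∧ x ∉ M.closure X) := by
  constructor
  · rintro ⟨h1, h2⟩
    have h3 : M.Indep X := h2.subset (Set.subset_insert x X)
    exact ⟨h3, (h3.notMem_closure_iff_of_notMem h1 (by rw [hE]; exact Set.mem_univ x)).2 h2⟩
  · rintro ⟨h1, h2⟩
    have h3 : x ∉ X := fun h => h2 (cl_mem hE h)
    exact ⟨h3, (h1.notMem_closure_iff_of_notMem h3 (by rw [hE]; exact Set.mem_univ x)).1 h2⟩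

theorem F2_two (hE : M.E = Set.univ) {a b : E} :
    (a ≠ b ∧ M.Indep {a, b}) ↔ a ∉ M.closure ∅ ∧ b ∉ M.closure {a} := by
  have h1 := F2_ins hE (x := b) (X := {a})
  have h2 := F2_ins hE (x := a) (X := (∅ : Set E))
  have e1 : insert b ({a} : Set E) = {a, b} := Set.pair_comm b a
  have e2 : insert a (∅ : Set E) = {a} := by
    ext t; simp only [Set.mem_insert_iff, Set.mem_singleton_iff, Set.mem_empty_iff_false, or_false]
  rw [e1] at h1
  rw [e2] at h2
  have e3 : b ∉ ({a} : Set E) ↔ a ≠ b := by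
    rw [Set.mem_singleton_iff]
    exact ⟨fun h h' => h h'.symm, fun h h' => h h'.symm⟩
  rw [e3] at h1
  have e4 : a ∉ (∅ : Set E) := Set.notMem_empty a
  have e5 : M.Indep (∅ : Set E) := M.empty_indep
  constructor
  · intro h
    have h3 := h1.1 h
    exact ⟨(h2.1 ⟨e4, h3.1⟩).2, h3.2⟩
  · rintro ⟨h, h'⟩
    exact h1.2 ⟨(h2.2 ⟨e5, h⟩).2, h'⟩

/-- PROOF. `M.Indep (insert x X) ↔ x ∉ M.closure X` for `M.Indep X`, `x ∉ X` (`Matroid.Indep.notMem_closure_iff` or
`Matroid.Indep.insert_indep_iff`), applied from the right: `{c}`, `{b, c}`, …. -/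
theorem In3_iff (hE : M.E = Set.univ) {a b c : E} :
    In3 M a b c ↔ a ∉ M.closure ∅ ∧ b ∉ M.closure {a} ∧ c ∉ M.closure {a, b} := by
  have h1 := F2_ins hE (x := c) (X := {a, b})
  have e1 : insert c ({a, b} : Set E) = {a, b, c} := by
    ext x
    simp only [Set.mem_insert_iff, Set.mem_singleton_iff]
    tauto
  rw [e1] at h1
  have e3 : c ∉ ({a, b} : Set E) ↔ a ≠ c ∧ b ≠ c := by
    simp only [Set.mem_insert_iff, Set.mem_singleton_iff, not_or]
    exact ⟨fun h => ⟨fun h' => h.1 h'.symm, fun h' => h.2 h'.symm⟩, fun h => ⟨fun h' => h.1 h'.symm, fun h' => h.2 h'.symm⟩⟩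
  rw [e3] at h1
  have h2 := F2_two hE (a := a) (b := b)
  unfold In3
  tauto

theorem In4_iff (hE : M.E = Set.univ) {a b c d : E} :
    In4 M a b c d ↔ a ∉ M.closure ∅ ∧ b ∉ M.closure {a} ∧ c ∉ M.closure {a, b} ∧ d ∉ M.closure {a, b, c} := by
  have h1 := F2_ins hE (x := d) (X := {a, b, c})
  have e1 : insert d ({a, b, c} : Set E) = {a, b, c, d} := by
    ext x
    simp only [Set.mem_insert_iff, Set.mem_singleton_iff]
    tauto
  rw [e1] at h1
  have e3 : d ∉ ({a, b, c} : Set E) ↔ a ≠ d ∧ b ≠ d ∧ c ≠ d := by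
    simp only [Set.mem_insert_iff, Set.mem_singleton_iff, not_or]
    exact ⟨fun h => ⟨fun h' => h.1 h'.symm, fun h' => h.2.1 h'.symm, fun h' => h.2.2 h'.symm⟩,
      fun h => ⟨fun h' => h.1 h'.symm, fun h' => h.2.1 h'.symm, fun h' => h.2.2 h'.symm⟩⟩
  rw [e3] at h1
  have h2 := In3_iff hE (M := M) (a := a) (b := b) (c := c)
  unfold In3 at h2
  unfold In4
  tauto

/-- A set of four independent elements is not contained in the closure of three elements, a set of three not in the closure of two.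
PROOF. Rank: `M.eRk_le_encard`, `M.eRk_closure_eq`, `Matroid.Indep.eRk_eq_encard`, `Set.encard_insert_of_notMem`. -/
theorem not_In4 {a b c d x y w : E} (h : In4 M a b c d) (h' : ({a, b, c, d} : Set E) ⊆ M.closure {x, y, w}) : False := by
  obtain ⟨h1, h2, h3, h4, h5, h6, h7⟩ := h
  have e1 : ({a, b, c, d} : Set E).encard = 4 := by
    rw [Set.encard_insert_of_notMem (by simp only [Set.mem_insert_iff, Set.mem_singleton_iff, not_or]; exact ⟨h1, h2, h3⟩),
      Set.encard_insert_of_notMem (by simp only [Set.mem_insert_iff, Set.mem_singleton_iff, not_or]; exact ⟨h4, h5⟩),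
      Set.encard_pair h6]
    norm_num
  have e2 : M.eRk {a, b, c, d} = 4 := by rw [h7.eRk_eq_encard, e1]
  have e3 : M.eRk {a, b, c, d} ≤ 3 := by
    refine (M.eRk_mono h').trans ?_
    rw [M.eRk_closure_eq]
    refine (M.eRk_le_encard _).trans ?_
    refine (Set.encard_insert_le _ _).trans ?_
    have := Set.encard_insert_le ({w} : Set E) y
    rw [Set.encard_singleton] at this
    calc ({y, w} : Set E).encard + 1 ≤ (1 + 1) + 1 := by gcongr
      _ = 3 := by norm_num
  rw [e2] at e3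
  exact absurd e3 (by norm_num)

theorem not_In3 {a b c x y : E} (h : In3 M a b c) (h' : ({a, b, c} : Set E) ⊆ M.closure {x, y}) : False := by
  obtain ⟨h1, h2, h4, h7⟩ := h
  have e1 : ({a, b, c} : Set E).encard = 3 := by
    rw [Set.encard_insert_of_notMem (by simp only [Set.mem_insert_iff, Set.mem_singleton_iff, not_or]; exact ⟨h1, h2⟩),
      Set.encard_pair h4]
    norm_num
  have e2 : M.eRk {a, b, c} = 3 := by rw [h7.eRk_eq_encard, e1]
  have e3 : M.eRk {a, b, c} ≤ 2 := by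
    refine (M.eRk_mono h').trans ?_
    rw [M.eRk_closure_eq]
    refine (M.eRk_le_encard _).trans ?_
    have := Set.encard_insert_le ({y} : Set E) x
    rw [Set.encard_singleton] at this
    calc ({x, y} : Set E).encard ≤ 1 + 1 := this
      _ = 2 := by norm_num
  rw [e2] at e3
  exact absurd e3 (by norm_num)

/-- Two elements outside `cl {e, f}` with `cl {e, a} = cl {e, b}` and `cl {f, a} = cl {f, b}` are parallel.
PROOF. `b ∈ cl {e, a}`, `b ∈ cl {f, a}`. If `b ∉ cl {a}`: exchange gives `e ∈ cl {a, b}` and `f ∈ cl {a, b}`, so `{e, f, a} ⊆ cl {a, b}`, but `{e, f, a}` is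
independent (`In3_iff`), contradiction to `not_In3`. Compare `cell_par` in `MP_16c009_co/Facts.lean`. -/
theorem par_of (hE : M.E = Set.univ) {e f a b : E} (hef : M.Indep {e, f}) (hne : e ≠ f) (ha : a ∉ M.closure {e, f})
    (h1 : M.closure {e, a} = M.closure {e, b}) (h2 : M.closure {f, a} = M.closure {f, b}) :
    b ∈ M.closure {a} := by
  by_contra hb
  have hb1 : b ∈ M.closure {e, a} := by rw [h1]; exact cl_mem hE (by simp)
  have hb2 : b ∈ M.closure {f, a} := by rw [h2]; exact cl_mem hE (by simp)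
  have he : e ∈ M.closure {b, a} := M.mem_closure_insert hb hb1
  have hf : f ∈ M.closure {b, a} := M.mem_closure_insert hb hb2
  have h3 := (F2_two hE).1 ⟨hne, hef⟩
  have h4 : In3 M e f a := (In3_iff hE).2 ⟨h3.1, h3.2, ha⟩
  refine not_In3 h4 (x := b) (y := a) ?_
  rintro x (rfl | rfl | rfl)
  · exact he
  · exact hf
  · exact cl_mem hE (by simp)

/-- the two closures of a pair -/
theorem F2_q {M : Matroid E} (hE : M.E = Set.univ) {e x y : E} (h : M.closure {e, x} = M.closure {e, y}) :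
    y ∈ M.closure {e, x} ∧ x ∈ M.closure {e, y} :=
  ⟨by rw [h]; exact cl_mem hE (by simp), by rw [← h]; exact cl_mem hE (by simp)⟩

theorem F2_sub {M : Matroid E} {X Y : Set E} {x : E} (h : x ∈ M.closure X) (h' : X ⊆ Y) : x ∈ M.closure Y :=
  M.closure_subset_closure h' h

/-- the three elements on one line -/
theorem F2_q3 {M : Matroid E} (hE : M.E = Set.univ) {e x y w : E}
    (h : M.closure {e, x, y} = M.closure {e, x, w} ∧ M.closure {e, x, y} = M.closure {e, y, w}) :
    w ∈ M.closure {e, x, y} ∧ y ∈ M.closure {e, x, w} ∧ x ∈ M.closure {e, y, w} :=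
  ⟨by rw [h.1]; exact cl_mem hE (by simp), by rw [← h.1]; exact cl_mem hE (by simp),
    by rw [← h.2]; exact cl_mem hE (by simp)⟩

theorem F2_pl {M : Matroid E} (hE : M.E = Set.univ) {e f x y : E} (hx : x ∉ M.closure {e, f})
    (h : M.closure {e, f, x} ≠ M.closure {e, f, y}) : x ∉ M.closure {e, f, y} := fun h' => h (plane_eq h' hx)

theorem F2_pl' {M : Matroid E} (hE : M.E = Set.univ) {e f x y : E}
    (h : M.closure {e, f, x} = M.closure {e, f, y}) : x ∈ M.closure {e, f, y} := by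
  rw [← h]
  exact cl_mem hE (by simp)

theorem F2_row {M : Matroid E} (hE : M.E = Set.univ) {e a b c : E} (h1 : M.closure {e, a} = M.closure {e, b})
    (h2 : M.closure {e, a} = M.closure {e, c}) (h : In3 M a b c) : False := by
  refine not_In3 h (x := e) (y := a) ?_
  rintro x (rfl | rfl | rfl)
  · exact cl_mem hE (by simp)
  · exact (F2_q hE h1).1
  · exact (F2_q hE h2).1

theorem F2_row4 {M : Matroid E} (hE : M.E = Set.univ) {e a b c d : E} (h1 : M.closure {e, a} = M.closure {e, b})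
    (h2 : M.closure {e, c} = M.closure {e, d}) (h : In4 M a b c d) : False := by
  refine not_In4 h (x := e) (y := a) (w := c) ?_
  rintro x (rfl | rfl | rfl | rfl)
  · exact cl_mem hE (by simp)
  · exact F2_sub (F2_q hE h1).1 (by intro t ht; simp only [Set.mem_insert_iff, Set.mem_singleton_iff] at ht ⊢; tauto)
  · exact cl_mem hE (by simp)
  · exact F2_sub (F2_q hE h2).1 (by intro t ht; simp only [Set.mem_insert_iff, Set.mem_singleton_iff] at ht ⊢; tauto)

/-- four elements, the third and the fourth in the closure of `e` and the first two -/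
theorem F2_four {M : Matroid E} (hE : M.E = Set.univ) {e a b c d x y : E}
    (h : In4 M a b c d) (ha : a ∈ M.closure {e, x, y}) (hb : b ∈ M.closure {e, x, y}) (hc : c ∈ M.closure {e, x, y})
    (hd : d ∈ M.closure {e, x, y}) : False := by
  refine not_In4 h (x := e) (y := x) (w := y) ?_
  rintro x (rfl | rfl | rfl | rfl)
  · exact ha
  · exact hb
  · exact hc
  · exact hd

theorem F2_211 {M : Matroid E} (hE : M.E = Set.univ) {e a b c d : E} (h1 : M.closure {e, a} = M.closure {e, b})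
    (h : In4 M a b c d) :
    ¬ (M.closure {e, a, c} = M.closure {e, a, d} ∧ M.closure {e, a, c} = M.closure {e, c, d}) ∧
    ¬ (M.closure {e, b, c} = M.closure {e, b, d} ∧ M.closure {e, b, c} = M.closure {e, c, d}) := by
  constructor
  · intro h2
    refine F2_four hE h (x := a) (y := c) (e := e) (cl_mem hE (by simp)) ?_ (cl_mem hE (by simp)) (F2_q3 hE h2).1
    exact F2_sub (F2_q hE h1).1 (by intro t ht; simp only [Set.mem_insert_iff, Set.mem_singleton_iff] at ht ⊢; tauto)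
  · intro h2
    refine F2_four hE h (x := b) (y := c) (e := e) ?_ (cl_mem hE (by simp)) (cl_mem hE (by simp)) (F2_q3 hE h2).1
    exact F2_sub (F2_q hE h1).2 (by intro t ht; simp only [Set.mem_insert_iff, Set.mem_singleton_iff] at ht ⊢; tauto)

/-- the three lines of three elements of which the third is in the closure of the first two -/
theorem F2_three {M : Matroid E} (hE : M.E = Set.univ) {e a b c : E} (h : c ∈ M.closure {a, b}) (h1 : c ∉ M.closure {e, a})
    (h2 : c ∉ M.closure {e, b}) :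
    M.closure {e, a, b} = M.closure {e, a, c} ∧ M.closure {e, a, b} = M.closure {e, b, c} := by
  have s1 : ({e, a, b} : Set E) = insert b {e, a} := by
    ext t; simp only [Set.mem_insert_iff, Set.mem_singleton_iff]; tauto
  have s2 : ({e, a, c} : Set E) = insert c {e, a} := by
    ext t; simp only [Set.mem_insert_iff, Set.mem_singleton_iff]; tauto
  have s3 : ({e, a, b} : Set E) = insert a {e, b} := by
    ext t; simp only [Set.mem_insert_iff, Set.mem_singleton_iff]; tauto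
  have s4 : ({e, b, c} : Set E) = insert c {e, b} := by
    ext t; simp only [Set.mem_insert_iff, Set.mem_singleton_iff]; tauto
  have h3 : c ∈ M.closure {e, a, b} := F2_sub h (by intro t ht; simp only [Set.mem_insert_iff, Set.mem_singleton_iff] at ht ⊢; tauto)
  constructor
  · rw [s1, s2]
    rw [s1] at h3
    exact (cl_ex h3 h1).symm
  · rw [s3, s4]
    rw [s3] at h3
    exact (cl_ex h3 h2).symm

theorem F2_par2 {M : Matroid E} {e a b : E} (h : b ∈ M.closure {a}) (h1 : b ∉ M.closure {e}) :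
    M.closure {e, a} = M.closure {e, b} := by
  have s1 : ({e, a} : Set E) = insert a {e} := Set.pair_comm e a
  have s2 : ({e, b} : Set E) = insert b {e} := Set.pair_comm e b
  have h3 : b ∈ M.closure {e, a} := F2_sub h (by intro t ht; simp only [Set.mem_insert_iff, Set.mem_singleton_iff] at ht ⊢; tauto)
  rw [s1, s2]
  rw [s1] at h3
  exact (cl_ex h3 h1).symm

/-- the core of `i3_three`, `→` -/
theorem F2_tr {M : Matroid E} (hE : M.E = Set.univ) {e f a b c : E} (hef : M.Indep {e, f}) (hne : e ≠ f)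
    (ha : a ∉ M.closure {e, f}) (hb : b ∉ M.closure {e, f, a}) (h : In3 M a b c)
    (h1 : c ∈ M.closure {e, a, b}) (h2 : c ∈ M.closure {f, a, b}) : False := by
  have h3 := (In3_iff hE).1 h
  have he : e ∈ M.closure {c, a, b} := M.mem_closure_insert h3.2.2 h1
  have hf : f ∈ M.closure {c, a, b} := M.mem_closure_insert h3.2.2 h2
  have h4 := (F2_two hE).1 ⟨hne, hef⟩
  have h5 : In4 M e f a b := (In4_iff hE).2 ⟨h4.1, h4.2, ha, hb⟩
  exact F2_four hE h5 he hf (cl_mem hE (by simp)) (cl_mem hE (by simp))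

/-- two of the four triples are not both on a line -/
theorem F2_1111 {M : Matroid E} (hE : M.E = Set.univ) {e a b c d : E} (h : In4 M a b c d) :
    (¬ ((M.closure {e, a, b} = M.closure {e, a, c} ∧ M.closure {e, a, b} = M.closure {e, b, c}) ∧
      (M.closure {e, a, b} = M.closure {e, a, d} ∧ M.closure {e, a, b} = M.closure {e, b, d}))) ∧
    (¬ ((M.closure {e, a, b} = M.closure {e, a, c} ∧ M.closure {e, a, b} = M.closure {e, b, c}) ∧
      (M.closure {e, a, c} = M.closure {e, a, d} ∧ M.closure {e, a, c} = M.closure {e, c, d}))) ∧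
    (¬ ((M.closure {e, a, b} = M.closure {e, a, c} ∧ M.closure {e, a, b} = M.closure {e, b, c}) ∧
      (M.closure {e, b, c} = M.closure {e, b, d} ∧ M.closure {e, b, c} = M.closure {e, c, d}))) ∧
    (¬ ((M.closure {e, a, b} = M.closure {e, a, d} ∧ M.closure {e, a, b} = M.closure {e, b, d}) ∧
      (M.closure {e, a, c} = M.closure {e, a, d} ∧ M.closure {e, a, c} = M.closure {e, c, d}))) ∧
    (¬ ((M.closure {e, a, b} = M.closure {e, a, d} ∧ M.closure {e, a, b} = M.closure {e, b, d}) ∧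
      (M.closure {e, b, c} = M.closure {e, b, d} ∧ M.closure {e, b, c} = M.closure {e, c, d}))) ∧
    (¬ ((M.closure {e, a, c} = M.closure {e, a, d} ∧ M.closure {e, a, c} = M.closure {e, c, d}) ∧
      (M.closure {e, b, c} = M.closure {e, b, d} ∧ M.closure {e, b, c} = M.closure {e, c, d}))) := by
  refine ⟨?_, ?_, ?_, ?_, ?_, ?_⟩
  · rintro ⟨h1, h2⟩
    exact F2_four hE h (e := e) (x := a) (y := b) (cl_mem hE (by simp)) (cl_mem hE (by simp)) (F2_q3 hE h1).1 (F2_q3 hE h2).1
  · rintro ⟨h1, h2⟩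
    exact F2_four hE h (e := e) (x := a) (y := c) (cl_mem hE (by simp)) (F2_q3 hE h1).2.1 (cl_mem hE (by simp)) (F2_q3 hE h2).1
  · rintro ⟨h1, h2⟩
    exact F2_four hE h (e := e) (x := b) (y := c) (F2_q3 hE h1).2.2 (cl_mem hE (by simp)) (cl_mem hE (by simp)) (F2_q3 hE h2).1
  · rintro ⟨h1, h2⟩
    exact F2_four hE h (e := e) (x := a) (y := d) (cl_mem hE (by simp)) (F2_q3 hE h1).2.1 (F2_q3 hE h2).2.1 (cl_mem hE (by simp))
  · rintro ⟨h1, h2⟩
    exact F2_four hE h (e := e) (x := b) (y := d) (F2_q3 hE h1).2.2 (cl_mem hE (by simp)) (F2_q3 hE h2).2.1 (cl_mem hE (by simp))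
  · rintro ⟨h1, h2⟩
    exact F2_four hE h (e := e) (x := c) (y := d) (F2_q3 hE h1).2.2 (F2_q3 hE h2).2.2 (cl_mem hE (by simp)) (cl_mem hE (by simp))

theorem F2_k {p1 p2 p3 p4 r1 r2 r3 r4 : Prop}
    (h1 : ¬ (p1 ∧ p2) ∧ ¬ (p1 ∧ p3) ∧ ¬ (p1 ∧ p4) ∧ ¬ (p2 ∧ p3) ∧ ¬ (p2 ∧ p4) ∧ ¬ (p3 ∧ p4))
    (h2 : ¬ (r1 ∧ r2) ∧ ¬ (r1 ∧ r3) ∧ ¬ (r1 ∧ r4) ∧ ¬ (r2 ∧ r3) ∧ ¬ (r2 ∧ r4) ∧ ¬ (r3 ∧ r4)) :
    (¬ p1 ∧ ¬ r1) ∨ (¬ p2 ∧ ¬ r2) ∨ (¬ p3 ∧ ¬ r3) ∨ (¬ p4 ∧ ¬ r4) := by
  by_contra h
  simp only [not_or, not_and_or, not_not] at h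
  obtain ⟨a, b, c, d⟩ := h
  obtain ⟨x1, x2, x3, x4, x5, x6⟩ := h1
  obtain ⟨y1, y2, y3, y4, y5, y6⟩ := h2
  rcases a with a | a <;> rcases b with b | b <;> rcases c with c | c <;> rcases d with d | d <;>
    first
      | exact x1 ⟨a, b⟩ | exact x2 ⟨a, c⟩ | exact x3 ⟨a, d⟩ | exact x4 ⟨b, c⟩ | exact x5 ⟨b, d⟩ | exact x6 ⟨c, d⟩
      | exact y1 ⟨a, b⟩ | exact y2 ⟨a, c⟩ | exact y3 ⟨a, d⟩ | exact y4 ⟨b, c⟩ | exact y5 ⟨b, d⟩ | exact y6 ⟨c, d⟩

variable {V : Type*} (hE : M.E = Set.univ) (ι : V → E) {e f : E}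

/-- The facts. PROOFS (write `a` for `ι a`, `cl` for `M.closure`; `S`, `R` are the sides of `e` and `f`; `S.q a b` is `cl {e, a} = cl {e, b}`, `S.ln a b` is `cl {e, a, b}`):
* `i3_12`, …, `i4_34`: the sets are the same.
* `i3_row`: if `cl {e, a} = cl {e, b} = cl {e, c}` then `{a, b, c} ⊆ cl {e, a}`, `not_In3`. `i3_col`: the same with `f`.
* `i3_par`: `par_of` and `In3_iff` (`b ∉ cl {a}`).
* `i3_two`: `→` is `i3_par`. `←`: if `a = b` or `b ∈ cl {a}` then `cl {e, b} = cl {e, a}` (exchange, `b ∉ cl {e}`) and the same for `f`, contradiction. `c ∉ cl {a, b}` since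
  `cl {a, b} ⊆ pl a` and `c ∉ pl a` (otherwise `pl c = pl a` by `plane_eq`). Then `In3_iff`.
* `i3_three`: `→`: if `c ∈ cl {e, a, b}` and `c ∈ cl {f, a, b}` and `c ∉ cl {a, b}`, exchange gives `e, f ∈ cl {a, b, c}`, so `{e, f, a, b} ⊆ cl {a, b, c}`, but `{e, f, a, b}` is independent
  (`In4_iff`: `b ∉ cl {e, f, a}`), `not_In4`. `←`: if `a, b, c` are not independent then (`b ∉ cl {a}`) `c ∈ cl {a, b}`, so `c ∈ cl {e, a, b}`, `c ∉ cl {e, a}`: `cl {e, a, c} = cl {e, a, b}`; in the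
  same way `cl {e, b, c} = cl {e, a, b}` and the same for `f`: both `q3` hold.
* `i4_one`: `{a, b, c, d} ⊆ cl {e, f, a}`, `not_In4`. `i4_31`: `→`: `In4_iff`, `In3_iff`; `←`: `d ∉ cl {a, b, c}` as `cl {a, b, c} ⊆ pl a`.
* `i4_par`: `par_of`, `In4_iff`. `i4_row`: `{a, b, c, d} ⊆ cl {e, a, c}`, `not_In4`. `i4_col`: the same with `f`.
* `i4_211`: let `S.q a b`. `S.q3 a c d` would give `{a, b, c, d} ⊆ cl {e, a, c}`, and `S.q3 b c d` gives `{a, b, c, d} ⊆ cl {e, b, c}`: impossible. If both `R.q3 a c d` and `R.q3 b c d`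
  then `R.q a b` (`row_q3`), contradiction to `i4_par`. The case `R.q a b` is the same with `e`, `f` exchanged.
* `i4_1111`: two of the four triples cannot both be `S.q3`: by `q3_four` and the symmetries all four would be, and `{a, b, c, d} ⊆ cl {e, a, b}`; the same for `R`. So at most
  two of the four triples are `S.q3` or `R.q3`. -/
def mkMat4 (hef : M.Indep {e, f}) (hne : e ≠ f)
  (hV : ∀ x, ι x ∉ M.closure {e, f}) (hV' : ∀ x, ι x ∉ M.closure {f, e})
  (hpl' : ∀ x, M.closure {e, f, ι x} = M.closure {f, e, ι x}) : Mat4 (mkSide hE ι e f hV (fun x => M.closure {e, f, ι x}) (fun _ => rfl))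
    (mkSide hE ι f e hV' (fun x => M.closure {e, f, ι x}) hpl') where
  i3 a b c := In3 M (ι a) (ι b) (ι c)
  i4 a b c d := In4 M (ι a) (ι b) (ι c) (ι d)
  i3_12 := by
    rintro a b c ⟨h1, h2, h3, h4⟩
    exact ⟨fun h => h1 h.symm, h3, h2, by rw [Set.insert_comm]; exact h4⟩
  i3_23 := by
    rintro a b c ⟨h1, h2, h3, h4⟩
    exact ⟨h2, h1, fun h => h3 h.symm, by rw [Set.pair_comm]; exact h4⟩
  i4_12 := by
    rintro a b c d ⟨h1, h2, h3, h4, h5, h6, h7⟩
    exact ⟨fun h => h1 h.symm, h4, h5, h2, h3, h6, by rw [Set.insert_comm]; exact h7⟩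
  i4_23 := by
    rintro a b c d ⟨h1, h2, h3, h4, h5, h6, h7⟩
    exact ⟨h2, h1, h3, fun h => h4 h.symm, h6, h5, by rw [Set.insert_comm (ι c) (ι b)]; exact h7⟩
  i4_34 := by
    rintro a b c d ⟨h1, h2, h3, h4, h5, h6, h7⟩
    exact ⟨h1, h3, h2, h5, h4, fun h => h6 h.symm, by rw [Set.pair_comm (ι d) (ι c)]; exact h7⟩
  i3_row := by
    rintro a b c - - h ⟨h1, h2⟩
    exact F2_row hE h1 h2 h
  i3_col := by
    rintro a b c - - h ⟨h1, h2⟩
    exact F2_row hE h1 h2 h
  i3_par := by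
    rintro a b c h ⟨h1, h2⟩
    exact ((In3_iff hE).1 h).2.1 (par_of hE hef hne (hV a) h1 h2)
  i3_two := by
    intro a b c hab hac
    have hac' : M.closure {e, f, ι c} ≠ M.closure {e, f, ι a} := fun h => hac h.symm
    have hab' : M.closure {e, f, ι b} = M.closure {e, f, ι a} := hab.symm
    constructor
    · rintro h ⟨h1, h2⟩
      exact ((In3_iff hE).1 h).2.1 (par_of hE hef hne (hV a) h1 h2)
    · intro h
      refine (In3_iff hE).2 ⟨fun h' => hV a (F2_sub h' (by simp)), fun h' => h ⟨?_, ?_⟩, fun h' => ?_⟩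
      · exact F2_par2 h' (fun h2 => hV b (F2_sub h2 (by simp)))
      · exact F2_par2 h' (fun h2 => hV b (F2_sub h2 (by simp)))
      · refine F2_pl hE (hV c) hac' (cl_sub hE ?_ h')
        rintro x (rfl | rfl)
        · exact cl_mem hE (by simp)
        · exact F2_pl' hE hab'
  i3_three := by
    rintro a b c ⟨hab, hac, hbc⟩
    have hba' : ι b ∉ M.closure {e, f, ι a} := F2_pl hE (hV b) (fun h => hab h.symm)
    have hca' : ι c ∉ M.closure {e, f, ι a} := F2_pl hE (hV c) (fun h => hac h.symm)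
    have hcb' : ι c ∉ M.closure {e, f, ι b} := F2_pl hE (hV c) (fun h => hbc h.symm)
    constructor
    · rintro h ⟨h1, h2⟩
      exact F2_tr hE hef hne (hV a) hba' h (F2_q3 hE h1).1 (F2_q3 hE h2).1
    · intro h
      refine (In3_iff hE).2 ⟨fun h' => hV a (F2_sub h' (by simp)), fun h' => hba' (F2_sub h' (by simp)), fun h' => h ⟨?_, ?_⟩⟩
      · exact F2_three hE h' (fun h2 => hca' (F2_sub h2 (by intro t ht; simp only [Set.mem_insert_iff, Set.mem_singleton_iff] at ht ⊢; tauto)))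
          (fun h2 => hcb' (F2_sub h2 (by intro t ht; simp only [Set.mem_insert_iff, Set.mem_singleton_iff] at ht ⊢; tauto)))
      · exact F2_three hE h' (fun h2 => hca' (F2_sub h2 (by intro t ht; simp only [Set.mem_insert_iff, Set.mem_singleton_iff] at ht ⊢; tauto)))
          (fun h2 => hcb' (F2_sub h2 (by intro t ht; simp only [Set.mem_insert_iff, Set.mem_singleton_iff] at ht ⊢; tauto)))
  i4_one := by
    rintro a b c d h ⟨h1, h2, h3⟩
    exact F2_four hE h (e := e) (x := f) (y := ι a) (cl_mem hE (by simp)) (F2_pl' hE h1.symm) (F2_pl' hE h2.symm) (F2_pl' hE h3.symm)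
  i4_31 := by
    intro a b c d hab hac had
    have hd : ι d ∉ M.closure {e, f, ι a} := F2_pl hE (hV d) (fun h => had h.symm)
    constructor
    · intro h
      have h1 := (In4_iff hE).1 h
      exact (In3_iff hE).2 ⟨h1.1, h1.2.1, h1.2.2.1⟩
    · intro h
      have h1 := (In3_iff hE).1 h
      refine (In4_iff hE).2 ⟨h1.1, h1.2.1, h1.2.2, fun h' => hd (cl_sub hE ?_ h')⟩
      rintro x (rfl | rfl | rfl)
      · exact cl_mem hE (by simp)
      · exact F2_pl' hE hab.symm
      · exact F2_pl' hE hac.symm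
  i4_par := by
    rintro a b c d h ⟨h1, h2⟩
    exact ((In4_iff hE).1 h).2.1 (par_of hE hef hne (hV a) h1 h2)
  i4_row := by
    rintro a b c d h ⟨h1, h2⟩
    exact F2_row4 hE h1 h2 h
  i4_col := by
    rintro a b c d h ⟨h1, h2⟩
    exact F2_row4 hE h1 h2 h
  i4_211 := by
    intro a b c d hab hT h hq
    have hp : ¬ (M.closure {e, ι a} = M.closure {e, ι b} ∧ M.closure {f, ι a} = M.closure {f, ι b}) :=
      fun h' => ((In4_iff hE).1 h).2.1 (par_of hE hef hne (hV a) h'.1 h'.2)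
    rcases hq with h1 | h1
    · have h2 := F2_211 hE h1 h
      by_cases h3 : (mkSide hE ι f e hV' (fun x => M.closure {e, f, ι x}) hpl').q3 a c d
      · by_cases h4 : (mkSide hE ι f e hV' (fun x => M.closure {e, f, ι x}) hpl').q3 b c d
        · exact absurd ⟨h1, row_q3 _ hT hab h3 h4⟩ hp
        · exact Or.inr ⟨h2.2, h4⟩
      · exact Or.inl ⟨h2.1, h3⟩
    · have h2 := F2_211 hE h1 h
      by_cases h3 : (mkSide hE ι e f hV (fun x => M.closure {e, f, ι x}) (fun _ => rfl)).q3 a c d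
      · by_cases h4 : (mkSide hE ι e f hV (fun x => M.closure {e, f, ι x}) (fun _ => rfl)).q3 b c d
        · exact absurd ⟨row_q3 _ hT hab h3 h4, h1⟩ hp
        · exact Or.inr ⟨h4, h2.2⟩
      · exact Or.inl ⟨h3, h2.1⟩
  i4_1111 := by
    intro a b c d _ _ _ h
    have h1 := F2_1111 (e := e) hE h
    have h2 := F2_1111 (e := f) hE h
    exact F2_k h1 h2

end Pool.Agent.Lib.MP_16c009_coR
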