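import Pool.Agent.Lib.MP_16c009_coR.A1
import Pool.Agent.Lib.MP_16c009_co.PavIneq

/-!
# Sums over the subsets of given cardinality as multiple sums
-/

set_option autoImplicit false
set_option linter.unusedSectionVars false

open Finset

namespace Pool.Agent.Lib.MP_16c009_coR

open Pool.Agent.Lib.MP_16c009_co (wt sp)

variable {E : Type*} [DecidableEq E] (z : E → ℝ) (U : Finset E) (P : Finset E → Prop)

/-- the sum over the subsets with `k` elements -/
noncomputable def sc (k : ℕ) : ℝ := ∑ A ∈ U.powersetCard k, wt z A * ch (P A)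

/-- PROOF. `Finset.powerset_card_disjiUnion` or the lemma `lev` of `MP_16c009_co/PavCore.lean`. -/
theorem sp_eq_sc (m : ℕ) (h : ∀ A ⊆ U, m < A.card → ¬ P A) : sp z U P = ∑ k ∈ range (m + 1), sc z U P k := by
  have h1 : sp z U P = ∑ k ∈ range (U.card + 1), sc z U P k := by
    unfold sp
    rw [Finset.sum_powerset]
    rfl
  have h2 : ∀ k, k ∉ range (m + 1) → sc z U P k = 0 := by
    intro k hk
    unfold sc
    refine Finset.sum_eq_zero fun A hA => ?_
    obtain ⟨h3, h4⟩ := Finset.mem_powersetCard.mp hA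
    rw [Finset.mem_range, not_lt] at hk
    rw [ch_false (h A h3 (by omega)), mul_zero]
  have h3 : ∀ k, k ∉ range (U.card + 1) → sc z U P k = 0 := by
    intro k hk
    unfold sc
    rw [Finset.mem_range, not_lt] at hk
    rw [Finset.powersetCard_eq_empty.mpr (by omega), Finset.sum_empty]
  rw [h1]
  have h4 : ∑ k ∈ range (U.card + 1), sc z U P k =
      ∑ k ∈ range (U.card + 1) ∪ range (m + 1), sc z U P k :=
    Finset.sum_subset Finset.subset_union_left fun k _ hk => h3 k hk
  have h5 : ∑ k ∈ range (m + 1), sc z U P k =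
      ∑ k ∈ range (U.card + 1) ∪ range (m + 1), sc z U P k :=
    Finset.sum_subset Finset.subset_union_right fun k _ hk => h2 k hk
  rw [h4, h5]

/-- PROOF. Double counting: both sides are the sum over the pairs `(B, x)` with `B ⊆ U`, `B.card = k + 1`, `x ∈ B` (`A = B.erase x`). -/
theorem sc_succ (k : ℕ) :
    ((k : ℝ) + 1) * sc z U P (k + 1) = ∑ x ∈ U, z x * ∑ A ∈ U.powersetCard k, wt z A * ch (x ∉ A ∧ P (insert x A)) := by
  have h1 : ((k : ℝ) + 1) * sc z U P (k + 1) =
      ∑ B ∈ U.powersetCard (k + 1), ∑ x ∈ B, wt z B * ch (P B) := by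
    unfold sc
    rw [Finset.mul_sum]
    refine Finset.sum_congr rfl fun B hB => ?_
    rw [Finset.sum_const, (Finset.mem_powersetCard.mp hB).2, nsmul_eq_mul]
    push_cast
    ring
  have h2 : ∑ x ∈ U, z x * ∑ A ∈ U.powersetCard k, wt z A * ch (x ∉ A ∧ P (insert x A)) =
      ∑ x ∈ U, ∑ A ∈ (U.powersetCard k).filter (fun A => x ∉ A),
        wt z (insert x A) * ch (P (insert x A)) := by
    refine Finset.sum_congr rfl fun x _ => ?_
    rw [Finset.mul_sum, Finset.sum_filter]
    refine Finset.sum_congr rfl fun A _ => ?_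
    by_cases hx : x ∉ A
    · rw [if_pos hx, ch_congr (and_iff_right hx)]
      have h3 : wt z (insert x A) = z x * wt z A := by
        unfold Pool.Agent.Lib.MP_16c009_co.wt
        rw [Finset.prod_insert hx]
      rw [h3]
      ring
    · rw [if_neg hx, ch_false fun hh => hx hh.1, mul_zero, mul_zero]
  rw [h1, h2, Finset.sum_sigma', Finset.sum_sigma']
  refine Finset.sum_nbij' (fun p => ⟨p.2, p.1.erase p.2⟩) (fun p => ⟨insert p.1 p.2, p.1⟩) ?_ ?_ ?_ ?_ ?_
  · rintro ⟨B, x⟩ hp
    obtain ⟨hB, hx⟩ := Finset.mem_sigma.mp hp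
    obtain ⟨hBU, hBc⟩ := Finset.mem_powersetCard.mp hB
    refine Finset.mem_sigma.mpr ⟨hBU hx, Finset.mem_filter.mpr ⟨Finset.mem_powersetCard.mpr
      ⟨(Finset.erase_subset _ _).trans hBU, ?_⟩, Finset.notMem_erase _ _⟩⟩
    have h3 : (B.erase x).card = B.card - 1 := Finset.card_erase_of_mem hx
    have h4 : B.card = k + 1 := hBc
    show (B.erase x).card = k
    omega
  · rintro ⟨x, A⟩ hp
    obtain ⟨hx, hA⟩ := Finset.mem_sigma.mp hp
    obtain ⟨hA1, hxA⟩ := Finset.mem_filter.mp hA
    obtain ⟨hAU, hAc⟩ := Finset.mem_powersetCard.mp hA1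
    refine Finset.mem_sigma.mpr ⟨Finset.mem_powersetCard.mpr
      ⟨Finset.insert_subset_iff.mpr ⟨hx, hAU⟩, ?_⟩, Finset.mem_insert_self _ _⟩
    have h3 : (insert x A).card = A.card + 1 := Finset.card_insert_of_notMem hxA
    have h4 : A.card = k := hAc
    show (insert x A).card = k + 1
    omega
  · rintro ⟨B, x⟩ hp
    obtain ⟨_, hx⟩ := Finset.mem_sigma.mp hp
    have h3 : insert x (B.erase x) = B := Finset.insert_erase hx
    simp only [h3]
  · rintro ⟨x, A⟩ hp
    obtain ⟨_, hA⟩ := Finset.mem_sigma.mp hp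
    have hxA := (Finset.mem_filter.mp hA).2
    have h3 : (insert x A).erase x = A := Finset.erase_insert hxA
    simp only [h3]
  · rintro ⟨B, x⟩ hp
    obtain ⟨_, hx⟩ := Finset.mem_sigma.mp hp
    have h3 : insert x (B.erase x) = B := Finset.insert_erase hx
    simp only [h3]

theorem sc_zero : sc z U P 0 = ch (P ∅) := by
  unfold sc
  rw [Finset.powersetCard_zero, Finset.sum_singleton]
  unfold Pool.Agent.Lib.MP_16c009_co.wt
  rw [Finset.prod_empty, one_mul]

private theorem F3_step (k : ℕ) : ((k : ℝ) + 1) * sc z U P (k + 1) =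
    I (V := {x // x ∈ U}) (fun x => z x)
      (fun a => sc z U (fun A => (a : E) ∉ A ∧ P (insert (a : E) A)) k) := by
  rw [sc_succ]
  unfold I
  exact (Finset.sum_coe_sort U
    (fun x => z x * sc z U (fun A => x ∉ A ∧ P (insert x A)) k)).symm

/-- PROOF (of the four theorems). `sc_succ`, applied to `P`, to `fun A => x ∉ A ∧ P (insert x A)`, …; `Finset.sum_coe_sort`. -/
theorem sc_one : sc z U P 1 = I (V := {x // x ∈ U}) (fun x => z x) (fun a => ch (P {(a : E)})) := by
  have h1 := F3_step z U P 0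
  rw [Nat.cast_zero, zero_add, one_mul, zero_add] at h1
  rw [h1]
  refine I_congr fun a => ?_
  rw [sc_zero]
  refine ch_congr ?_
  exact and_iff_right (Finset.notMem_empty _)

theorem sc_two : sc z U P 2 = (1 / 2) * J2 (V := {x // x ∈ U}) (fun x => z x)
    (fun a b => ch ((a : E) ≠ b ∧ P {(a : E), (b : E)})) := by
  have h1 := F3_step z U P 1
  have h2 : I (V := {x // x ∈ U}) (fun x => z x)
      (fun a => sc z U (fun A => (a : E) ∉ A ∧ P (insert (a : E) A)) 1) =
      J2 (V := {x // x ∈ U}) (fun x => z x)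
        (fun a b => ch ((a : E) ≠ b ∧ P {(a : E), (b : E)})) := by
    refine I_congr fun a => ?_
    rw [sc_one]
    refine I_congr fun b => ch_congr ?_
    rw [Finset.mem_singleton]
  rw [h2] at h1
  rw [← h1]
  push_cast
  ring

theorem sc_three : sc z U P 3 = (1 / 6) * J3 (V := {x // x ∈ U}) (fun x => z x)
    (fun a b c => ch (((a : E) ≠ b ∧ (a : E) ≠ c ∧ (b : E) ≠ c) ∧ P {(a : E), (b : E), (c : E)})) := by
  have h1 := F3_step z U P 2
  have h2 : I (V := {x // x ∈ U}) (fun x => z x)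
      (fun a => sc z U (fun A => (a : E) ∉ A ∧ P (insert (a : E) A)) 2) =
      (1 / 2) * J3 (V := {x // x ∈ U}) (fun x => z x)
        (fun a b c => ch (((a : E) ≠ b ∧ (a : E) ≠ c ∧ (b : E) ≠ c) ∧
          P {(a : E), (b : E), (c : E)})) := by
    unfold J3
    rw [mul_I]
    refine I_congr fun a => ?_
    rw [sc_two]
    congr 1
    refine J2_congr fun b c => ch_congr ?_
    rw [Finset.mem_insert, Finset.mem_singleton]
    tauto
  rw [h2] at h1
  have h3 : (((2 : ℕ) : ℝ) + 1) * sc z U P (2 + 1) = 3 * sc z U P 3 := by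
    push_cast
    norm_num
  rw [h3] at h1
  linarith

theorem sc_four : sc z U P 4 = (1 / 24) * J4 (V := {x // x ∈ U}) (fun x => z x)
    (fun a b c d => ch (((a : E) ≠ b ∧ (a : E) ≠ c ∧ (a : E) ≠ d ∧ (b : E) ≠ c ∧ (b : E) ≠ d ∧ (c : E) ≠ d) ∧
      P {(a : E), (b : E), (c : E), (d : E)})) := by
  have h1 := F3_step z U P 3
  have h2 : I (V := {x // x ∈ U}) (fun x => z x)
      (fun a => sc z U (fun A => (a : E) ∉ A ∧ P (insert (a : E) A)) 3) =
      (1 / 6) * J4 (V := {x // x ∈ U}) (fun x => z x)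
        (fun a b c d => ch (((a : E) ≠ b ∧ (a : E) ≠ c ∧ (a : E) ≠ d ∧ (b : E) ≠ c ∧ (b : E) ≠ d ∧
          (c : E) ≠ d) ∧ P {(a : E), (b : E), (c : E), (d : E)})) := by
    unfold J4
    rw [mul_I]
    refine I_congr fun a => ?_
    rw [sc_three]
    congr 1
    refine J3_congr fun b c d => ch_congr ?_
    rw [Finset.mem_insert, Finset.mem_insert, Finset.mem_singleton]
    tauto
  rw [h2] at h1
  have h3 : (((3 : ℕ) : ℝ) + 1) * sc z U P (3 + 1) = 4 * sc z U P 4 := by
    push_cast
    norm_num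
  rw [h3] at h1
  linarith

end Pool.Agent.Lib.MP_16c009_coR
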