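import Pool.Agent.Lib.MP_16c009_coR.D3
import Pool.Agent.Lib.MP_16c009_coR.F2
import Pool.Agent.Lib.MP_16c009_coR.F3

/-!
# The independent sets without elements on the line of `e`, `f`
-/

set_option autoImplicit false
set_option linter.unusedSectionVars false

open Finset

namespace Pool.Agent.Lib.MP_16c009_coR

open Pool.Agent.Lib.MP_16c009_co (wt)

variable {E : Type*} [Fintype E] [DecidableEq E] {M : Matroid E} {e f : E} {z : E → ℝ}

open Classical in
/-- the elements outside the line of `e`, `f` -/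
noncomputable def VF (M : Matroid E) (e f : E) : Finset E := Finset.univ.filter fun x => x ∉ M.closure {e, f}

theorem mem_VF {x : E} : x ∈ VF M e f ↔ x ∉ M.closure {e, f} := by
  unfold VF
  simp

theorem VF_comm : VF M e f = VF M f e := by
  unfold VF
  rw [Set.pair_comm]

variable (hE : M.E = Set.univ) (hr : M.eRank = 4) (hef : M.Indep {e, f}) (hne : e ≠ f)

/-- the side of `e` and the side of `f`, for the elements of `VF M e f` -/
noncomputable def sideE (hE : M.E = Set.univ) (e f : E) :
    Side (fun x : {x // x ∈ VF M e f} => M.closure {e, f, (x : E)}) (Set E) :=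
  mkSide hE (fun x : {x // x ∈ VF M e f} => (x : E)) e f (fun x => mem_VF.1 x.2) _ (fun _ => rfl)

noncomputable def sideF (hE : M.E = Set.univ) (e f : E) :
    Side (fun x : {x // x ∈ VF M e f} => M.closure {e, f, (x : E)}) (Set E) :=
  mkSide hE (fun x : {x // x ∈ VF M e f} => (x : E)) f e (fun x => by rw [Set.pair_comm]; exact mem_VF.1 x.2) _
    (fun _ => by rw [Set.insert_comm])

noncomputable def matEF : Mat4 (sideE hE e f) (sideF hE e f) :=
  mkMat4 hE (fun x : {x // x ∈ VF M e f} => (x : E)) hef hne (fun x => mem_VF.1 x.2)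
    (fun x => by rw [Set.pair_comm]; exact mem_VF.1 x.2) (fun _ => by rw [Set.insert_comm])

/-- the weights -/
def zV (z : E → ℝ) (M : Matroid E) (e f : E) : {x // x ∈ VF M e f} → ℝ := fun x => z x

/-- PROOF. `M.eRk_le_eRank`, `Matroid.Indep.eRk_eq_encard`. -/
theorem indep_card (hr : M.eRank = 4) {A : Finset E} (hA : M.Indep (A : Set E)) : A.card ≤ 4 := by
  have h1 := M.eRk_le_eRank (A : Set E)
  rw [hA.eRk_eq_encard, hr, Set.encard_coe_eq_coe_finsetCard] at h1
  exact_mod_cast h1

theorem F4_sub1 {a b x : E} (hx : x ∉ M.closure {a, b}) : x ∉ M.closure {a} :=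
  fun h => hx (M.closure_subset_closure (by intro t ht; exact Or.inl ht) h)

theorem F4_a0 {a b : E} (hab : M.Indep {a, b}) : a ∉ M.closure ∅ := by
  have h1 : M.Indep {a} := hab.subset (by intro t ht; exact Or.inl ht)
  have h2 := h1.notMem_closure_sdiff_of_mem (Set.mem_singleton a)
  rwa [Set.sdiff_self] at h2

theorem F4_b1 {a b : E} (hab : M.Indep {a, b}) (hne : a ≠ b) : b ∉ M.closure {a} := by
  have h2 := hab.notMem_closure_sdiff_of_mem (show b ∈ ({a, b} : Set E) from Or.inr rfl)
  have h3 : ({a, b} : Set E) \ {b} = {a} := by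
    ext t
    constructor
    · rintro ⟨h4 | h4, h5⟩
      · exact h4
      · exact absurd h4 h5
    · intro h4
      have h5 : t = a := h4
      subst h5
      exact ⟨Or.inl rfl, fun h6 => hne h6⟩
  rwa [h3] at h2

/-- two elements and one point `a` -/
theorem F4_q {a b x y : E} (hE : M.E = Set.univ) (hy : y ∉ M.closure {a, b}) :
    y ∈ M.closure {a, x} ↔ M.closure {a, x} = M.closure {a, y} := by
  constructor
  · intro h
    have h1 : y ∈ M.closure (insert x {a}) := by rwa [Set.pair_comm] at h
    have h2 := cl_ex h1 (F4_sub1 hy)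
    rw [Set.pair_comm a x, Set.pair_comm a y]
    exact h2.symm
  · intro h
    rw [h]
    exact cl_mem hE (Or.inr rfl)

theorem F4_pl {a b x y : E} (hx : x ∉ M.closure {a, b}) (hxy : x ∈ M.closure {a, y}) :
    M.closure {a, b, x} = M.closure {a, b, y} := by
  refine plane_eq (M.closure_subset_closure ?_ hxy) hx
  rintro t (h | h)
  · exact Or.inl h
  · exact Or.inr (Or.inr h)

/-- three elements and `a` : the elements in one plane -/
theorem F4_c1 {a b x y w : E} (hE : M.E = Set.univ) (h : In4 M a x y w)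
    (h1 : M.closure {a, b, x} = M.closure {a, b, y}) (h2 : M.closure {a, b, x} = M.closure {a, b, w}) : False := by
  refine not_In4 h (x := a) (y := b) (w := x) ?_
  rintro t (ht | ht | ht | ht)
  · rw [ht]
    exact cl_mem hE (Or.inl rfl)
  · rw [ht]
    exact cl_mem hE (Or.inr (Or.inr rfl))
  · rw [ht, h1]
    exact cl_mem hE (Or.inr (Or.inr rfl))
  · rw [ht, h2]
    exact cl_mem hE (Or.inr (Or.inr rfl))

theorem F4_c2 {a b x y w : E} (hE : M.E = Set.univ) (h0 : a ∉ M.closure ∅) (hx : x ∉ M.closure {a, b})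
    (hy : y ∉ M.closure {a, b}) (hw : w ∉ M.closure {a, b})
    (h1 : M.closure {a, b, x} = M.closure {a, b, y}) (h2 : M.closure {a, b, x} ≠ M.closure {a, b, w}) :
    In4 M a x y w ↔ ¬ (M.closure {a, x} = M.closure {a, y}) := by
  rw [In4_iff hE]
  constructor
  · rintro ⟨-, -, h3, -⟩ h4
    exact h3 ((F4_q hE hy).2 h4)
  · intro h3
    refine ⟨h0, F4_sub1 hx, fun h4 => h3 ((F4_q hE hy).1 h4), fun h4 => h2 ?_⟩
    have h5 : M.closure {a, x, y} ⊆ M.closure {a, b, x} := by
      refine cl_sub hE ?_
      rintro t (ht | ht | ht)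
      · rw [ht]
        exact cl_mem hE (Or.inl rfl)
      · rw [ht]
        exact cl_mem hE (Or.inr (Or.inr rfl))
      · rw [ht, h1]
        exact cl_mem hE (Or.inr (Or.inr rfl))
    exact (plane_eq (h5 h4) hw).symm

theorem F4_c3 {a b x y w : E} (hE : M.E = Set.univ) (h0 : a ∉ M.closure ∅) (hx : x ∉ M.closure {a, b})
    (hy : y ∉ M.closure {a, b}) (hw : w ∉ M.closure {a, b})
    (h1 : M.closure {a, b, x} ≠ M.closure {a, b, y}) (h2 : M.closure {a, b, x} ≠ M.closure {a, b, w}) :
    In4 M a x y w ↔ ¬ (M.closure {a, x, y} = M.closure {a, x, w}) := by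
  have h3 : y ∉ M.closure {a, x} := fun h => h1 (F4_pl hy h).symm
  have h4 : w ∉ M.closure {a, x} := fun h => h2 (F4_pl hw h).symm
  rw [In4_iff hE]
  constructor
  · rintro ⟨-, -, -, h5⟩ h6
    refine h5 ?_
    rw [h6]
    exact cl_mem hE (Or.inr (Or.inr rfl))
  · intro h5
    refine ⟨h0, F4_sub1 hx, h3, fun h6 => h5 ?_⟩
    have e1 : ∀ t : E, ({a, x, t} : Set E) = insert t {a, x} := by
      intro t
      rw [Set.pair_comm x t, Set.insert_comm]
    rw [e1 y, e1 w]
    rw [e1 y] at h6
    exact (cl_ex h6 h4).symm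

/-- the three symmetries of `In4` in the last three elements -/
theorem F4_s1 {a x y w : E} : In4 M a x y w ↔ In4 M a x w y := by
  unfold In4
  rw [Set.pair_comm y w]
  constructor
  · rintro ⟨h1, h2, h3, h4, h5, h6, h7⟩
    exact ⟨h1, h3, h2, h5, h4, fun e => h6 e.symm, h7⟩
  · rintro ⟨h1, h2, h3, h4, h5, h6, h7⟩
    exact ⟨h1, h3, h2, h5, h4, fun e => h6 e.symm, h7⟩

theorem F4_s2 {a x y w : E} : In4 M a x y w ↔ In4 M a y x w := by
  unfold In4
  rw [Set.insert_comm x y]
  constructor
  · rintro ⟨h1, h2, h3, h4, h5, h6, h7⟩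
    exact ⟨h2, h1, h3, fun e => h4 e.symm, h6, h5, h7⟩
  · rintro ⟨h1, h2, h3, h4, h5, h6, h7⟩
    exact ⟨h2, h1, h3, fun e => h4 e.symm, h6, h5, h7⟩

/-- The general form of `A_eq` and `B_eq`. -/
theorem F4_gen {a b : E} (hE : M.E = Set.univ) (hr : M.eRank = 4) (hab : M.Indep {a, b})
    (U : Finset E) (hU : ∀ x : {x // x ∈ U}, (x : E) ∉ M.closure {a, b}) (pl : {x // x ∈ U} → Set E)
    (hpl : ∀ x, pl x = M.closure {a, b, (x : E)}) :
    MP_16c009_co.sp z U (fun A => M.Indep ((insert a A : Finset E) : Set E)) =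
    1 + Zt (fun x : {x // x ∈ U} => z x) + (Et (fun x : {x // x ∈ U} => z x) pl +
      xs (fun x : {x // x ∈ U} => z x) (mkSide hE (fun x : {x // x ∈ U} => (x : E)) a b hU pl hpl)) +
      (as (fun x : {x // x ∈ U} => z x) (mkSide hE (fun x : {x // x ∈ U} => (x : E)) a b hU pl hpl) +
        Xs (fun x : {x // x ∈ U} => z x) (mkSide hE (fun x : {x // x ∈ U} => (x : E)) a b hU pl hpl)) := by
  have h0 : a ∉ M.closure ∅ := F4_a0 hab
  have haU : a ∉ U := fun h => hU ⟨a, h⟩ (cl_mem hE (Or.inl rfl))
  have hane : ∀ x : {x // x ∈ U}, a ≠ (x : E) := fun x h => haU (h ▸ x.2)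
  rw [sp_eq_sc z U _ 3]
  · rw [Finset.sum_range_succ, Finset.sum_range_succ, Finset.sum_range_succ, Finset.sum_range_succ,
      Finset.sum_range_zero, zero_add, sc_zero, sc_one, sc_two, sc_three]
    have t0 : ch (M.Indep ((insert a (∅ : Finset E) : Finset E) : Set E)) = 1 := by
      refine ch_true ?_
      rw [Finset.coe_insert, Finset.coe_empty]
      refine hab.subset ?_
      rintro t (ht | ht)
      · exact Or.inl ht
      · exact absurd ht (Set.notMem_empty t)
    have t1 : I (V := {x // x ∈ U}) (fun x => z x)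
        (fun x => ch (M.Indep ((insert a ({(x : E)} : Finset E) : Finset E) : Set E))) =
        Zt (fun x : {x // x ∈ U} => z x) := by
      unfold Zt
      refine I_congr fun x => ch_true ?_
      rw [Finset.coe_insert, Finset.coe_singleton, Set.pair_comm]
      have h1 : M.Indep {a} := hab.subset (by intro t ht; exact Or.inl ht)
      refine h1.insert_indep_iff.2 (Or.inl ⟨by rw [hE]; exact Set.mem_univ _, F4_sub1 (hU x)⟩)
    have t2 : J2 (V := {x // x ∈ U}) (fun x => z x)
        (fun x y => ch ((x : E) ≠ y ∧ M.Indep ((insert a ({(x : E), (y : E)} : Finset E) : Finset E) : Set E))) =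
        J2 (V := {x // x ∈ U}) (fun x => z x) (fun x y => ch (pl x ≠ pl y)) +
        J2 (V := {x // x ∈ U}) (fun x => z x) (fun x y => ch (pl x = pl y ∧
          ¬ (mkSide hE (fun x : {x // x ∈ U} => (x : E)) a b hU pl hpl).q x y)) := by
      rw [← J2_add]
      refine J2_congr fun x y => ?_
      have e1 : ((x : E) ≠ y ∧ M.Indep ((insert a ({(x : E), (y : E)} : Finset E) : Finset E) : Set E)) ↔
          ¬ (M.closure {a, (x : E)} = M.closure {a, (y : E)}) := by
        rw [← F4_q hE (hU y)]
        have e2 := In3_iff (M := M) hE (a := a) (b := (x : E)) (c := (y : E))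
        constructor
        · rintro ⟨h1, h2⟩
          have h3 : In3 M a (x : E) (y : E) := by
            refine ⟨hane x, hane y, h1, ?_⟩
            rw [Finset.coe_insert, Finset.coe_insert, Finset.coe_singleton] at h2
            exact h2
          exact (e2.1 h3).2.2
        · intro h1
          have h3 := e2.2 ⟨h0, F4_sub1 (hU x), h1⟩
          refine ⟨h3.2.2.1, ?_⟩
          rw [Finset.coe_insert, Finset.coe_insert, Finset.coe_singleton]
          exact h3.2.2.2
      rw [ch_congr e1]
      have e3 : (mkSide hE (fun x : {x // x ∈ U} => (x : E)) a b hU pl hpl).q x y ↔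
          M.closure {a, (x : E)} = M.closure {a, (y : E)} := Iff.rfl
      have e4 := (mkSide hE (fun x : {x // x ∈ U} => (x : E)) a b hU pl hpl).q_pl x y
      by_cases hp : pl x = pl y
      · rw [ch_false (p := pl x ≠ pl y) (fun h => h hp), zero_add]
        exact ch_congr ⟨fun h => ⟨hp, h⟩, fun h => h.2⟩
      · rw [ch_true (p := pl x ≠ pl y) hp, ch_false (p := pl x = pl y ∧ _) (fun h => hp h.1), add_zero]
        exact ch_true fun h => hp (e4 h)
    have t3 : J3 (V := {x // x ∈ U}) (fun x => z x)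
        (fun x y w => ch (((x : E) ≠ y ∧ (x : E) ≠ w ∧ (y : E) ≠ w) ∧
          M.Indep ((insert a ({(x : E), (y : E), (w : E)} : Finset E) : Finset E) : Set E))) =
        J3 (V := {x // x ∈ U}) (fun x => z x) (fun x y w => ch (Tr pl x y w ∧
          ¬ (mkSide hE (fun x : {x // x ∈ U} => (x : E)) a b hU pl hpl).q3 x y w)) +
        3 * J3 (V := {x // x ∈ U}) (fun x => z x) (fun x y w => ch (pl x = pl y ∧ pl x ≠ pl w ∧
          ¬ (mkSide hE (fun x : {x // x ∈ U} => (x : E)) a b hU pl hpl).q x y)) := by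
      generalize hS : mkSide hE (fun x : {x // x ∈ U} => (x : E)) a b hU pl hpl = S
      have e3 : ∀ x y, S.q x y ↔ M.closure {a, (x : E)} = M.closure {a, (y : E)} := by
        intro x y
        rw [← hS]
        exact Iff.rfl
      have e4 : ∀ x y, S.ln x y = M.closure {a, (x : E), (y : E)} := by
        intro x y
        rw [← hS]
        rfl
      have key : ∀ x y w : {x // x ∈ U}, ch (((x : E) ≠ y ∧ (x : E) ≠ w ∧ (y : E) ≠ w) ∧
          M.Indep ((insert a ({(x : E), (y : E), (w : E)} : Finset E) : Finset E) : Set E)) =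
          ch (Tr pl x y w ∧ ¬ S.q3 x y w) + ch (pl x = pl y ∧ pl x ≠ pl w ∧ ¬ S.q x y) +
          ch (pl x = pl w ∧ pl x ≠ pl y ∧ ¬ S.q x w) + ch (pl y = pl w ∧ pl y ≠ pl x ∧ ¬ S.q y w) := by
        intro x y w
        have e5 : (((x : E) ≠ y ∧ (x : E) ≠ w ∧ (y : E) ≠ w) ∧
            M.Indep ((insert a ({(x : E), (y : E), (w : E)} : Finset E) : Finset E) : Set E)) ↔
            In4 M a (x : E) (y : E) (w : E) := by
          rw [Finset.coe_insert, Finset.coe_insert, Finset.coe_insert, Finset.coe_singleton]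
          constructor
          · rintro ⟨⟨h1, h2, h3⟩, h4⟩
            exact ⟨hane x, hane y, hane w, h1, h2, h3, h4⟩
          · rintro ⟨-, -, -, h1, h2, h3, h4⟩
            exact ⟨⟨h1, h2, h3⟩, h4⟩
        rw [ch_congr e5]
        have dx := hU x
        have dy := hU y
        have dw := hU w
        by_cases h1 : pl x = pl y
        · have n1 : ¬ (Tr pl x y w ∧ ¬ S.q3 x y w) := fun h => h.1.1 h1
          have n3 : ¬ (pl x = pl w ∧ pl x ≠ pl y ∧ ¬ S.q x w) := fun h => h.2.1 h1
          have n4 : ¬ (pl y = pl w ∧ pl y ≠ pl x ∧ ¬ S.q y w) := fun h => h.2.1 h1.symm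
          rw [ch_false n1, ch_false n3, ch_false n4]
          have h1' := h1
          rw [hpl x, hpl y] at h1'
          by_cases h2 : pl x = pl w
          · have n2 : ¬ (pl x = pl y ∧ pl x ≠ pl w ∧ ¬ S.q x y) := fun h => h.2.1 h2
            have h2' := h2
            rw [hpl x, hpl w] at h2'
            rw [ch_false n2, ch_false (fun h => F4_c1 hE h h1' h2')]
            ring
          · have h2' := h2
            rw [hpl x, hpl w] at h2'
            rw [ch_congr (F4_c2 hE h0 dx dy dw h1' h2'), ← e3 x y,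
              ch_congr (p := pl x = pl y ∧ pl x ≠ pl w ∧ ¬ S.q x y) (q := ¬ S.q x y)
                ⟨fun h => h.2.2, fun h => ⟨h1, h2, h⟩⟩]
            ring
        · have n2 : ¬ (pl x = pl y ∧ pl x ≠ pl w ∧ ¬ S.q x y) := fun h => h1 h.1
          rw [ch_false n2]
          have h1' := h1
          rw [hpl x, hpl y] at h1'
          by_cases h2 : pl x = pl w
          · have n1 : ¬ (Tr pl x y w ∧ ¬ S.q3 x y w) := fun h => h.1.2.1 h2
            have n4 : ¬ (pl y = pl w ∧ pl y ≠ pl x ∧ ¬ S.q y w) := fun h => h1 (h2.trans h.1.symm)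
            have h2' := h2
            rw [hpl x, hpl w] at h2'
            rw [ch_false n1, ch_false n4, ch_congr (F4_s1.trans (F4_c2 hE h0 dx dw dy h2' h1')), ← e3 x w,
              ch_congr (p := pl x = pl w ∧ pl x ≠ pl y ∧ ¬ S.q x w) (q := ¬ S.q x w)
                ⟨fun h => h.2.2, fun h => ⟨h2, h1, h⟩⟩]
            ring
          · have n3 : ¬ (pl x = pl w ∧ pl x ≠ pl y ∧ ¬ S.q x w) := fun h => h2 h.1
            rw [ch_false n3]
            have h2' := h2
            rw [hpl x, hpl w] at h2'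
            by_cases h3 : pl y = pl w
            · have n1 : ¬ (Tr pl x y w ∧ ¬ S.q3 x y w) := fun h => h.1.2.2 h3
              have h3' := h3
              rw [hpl y, hpl w] at h3'
              rw [ch_false n1, ch_congr ((F4_s2.trans F4_s1).trans
                (F4_c2 hE h0 dy dw dx h3' (fun h => h1' h.symm))), ← e3 y w,
                ch_congr (p := pl y = pl w ∧ pl y ≠ pl x ∧ ¬ S.q y w) (q := ¬ S.q y w)
                  ⟨fun h => h.2.2, fun h => ⟨h3, fun h' => h1 h'.symm, h⟩⟩]
              ring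
            · have n4 : ¬ (pl y = pl w ∧ pl y ≠ pl x ∧ ¬ S.q y w) := fun h => h3 h.1
              have hT : Tr pl x y w := ⟨h1, h2, h3⟩
              rw [ch_false n4, ch_congr (F4_c3 hE h0 dx dy dw h1' h2'), ← e4 x y, ← e4 x w,
                ← q3_iff S hT, ch_congr (p := Tr pl x y w ∧ ¬ S.q3 x y w) (q := ¬ S.q3 x y w)
                  ⟨fun h => h.2, fun h => ⟨hT, h⟩⟩]
              ring
      rw [J3_congr key, J3_add, J3_add, J3_add]
      have e6 : J3 (V := {x // x ∈ U}) (fun x => z x)
          (fun x y w => ch (pl x = pl w ∧ pl x ≠ pl y ∧ ¬ S.q x w)) =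
          J3 (V := {x // x ∈ U}) (fun x => z x)
          (fun x y w => ch (pl x = pl y ∧ pl x ≠ pl w ∧ ¬ S.q x y)) :=
        J3_swap23 (fun x y w => ch (pl x = pl y ∧ pl x ≠ pl w ∧ ¬ S.q x y))
      have e7 : J3 (V := {x // x ∈ U}) (fun x => z x)
          (fun x y w => ch (pl y = pl w ∧ pl y ≠ pl x ∧ ¬ S.q y w)) =
          J3 (V := {x // x ∈ U}) (fun x => z x)
          (fun x y w => ch (pl x = pl w ∧ pl x ≠ pl y ∧ ¬ S.q x w)) :=
        J3_swap12 (fun x y w => ch (pl x = pl w ∧ pl x ≠ pl y ∧ ¬ S.q x w))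
      rw [e7, e6]
      ring
    rw [t0, t1, t2, t3]
    unfold Et xs as Xs
    ring
  · intro A hA hc h
    have h1 := indep_card hr h
    rw [Finset.card_insert_of_notMem (fun h2 => haU (hA h2))] at h1
    omega

include hE hr hef hne

/-- PROOF. `sp_eq_sc` with `m = 2`; `sc_zero` (`{e, f}` is independent), `sc_one` (`x ∉ cl {e, f}`), `sc_two`: for two different elements of `VF`, `M.Indep {e, f, a, b}` iff
`b ∉ cl {e, f, a}` iff `pl a ≠ pl b` (`plane_eq`, `cl_mem`; `In4_iff`). -/
theorem C_eq : MP_16c009_co.sp z (VF M e f) (fun A => M.Indep ((insert e (insert f A) : Finset E) : Set E)) =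
    1 + Zt (zV z M e f) + Et (zV z M e f) (fun x => M.closure {e, f, (x : E)}) := by
  have h0 : e ∉ M.closure ∅ := F4_a0 hef
  have h1 : f ∉ M.closure {e} := F4_b1 hef hne
  have heU : e ∉ VF M e f := fun h => mem_VF.1 h (cl_mem hE (Or.inl rfl))
  have hfU : f ∉ VF M e f := fun h => mem_VF.1 h (cl_mem hE (Or.inr rfl))
  rw [sp_eq_sc z (VF M e f) _ 2]
  · rw [Finset.sum_range_succ, Finset.sum_range_succ, Finset.sum_range_succ,
      Finset.sum_range_zero, zero_add, sc_zero, sc_one, sc_two]
    have t0 : ch (M.Indep ((insert e (insert f (∅ : Finset E)) : Finset E) : Set E)) = 1 := by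
      refine ch_true ?_
      rw [Finset.coe_insert, Finset.coe_insert, Finset.coe_empty]
      refine hef.subset ?_
      rintro t (ht | ht | ht)
      · exact Or.inl ht
      · exact Or.inr ht
      · exact absurd ht (Set.notMem_empty t)
    have t1 : I (V := {x // x ∈ VF M e f}) (fun x => z x)
        (fun x => ch (M.Indep ((insert e (insert f ({(x : E)} : Finset E)) : Finset E) : Set E))) =
        Zt (zV z M e f) := by
      unfold Zt
      refine I_congr fun x => ch_true ?_
      rw [Finset.coe_insert, Finset.coe_insert, Finset.coe_singleton]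
      exact ((In3_iff hE).2 ⟨h0, h1, mem_VF.1 x.2⟩).2.2.2
    have t2 : J2 (V := {x // x ∈ VF M e f}) (fun x => z x)
        (fun x y => ch ((x : E) ≠ y ∧
          M.Indep ((insert e (insert f ({(x : E), (y : E)} : Finset E)) : Finset E) : Set E))) =
        J2 (zV z M e f) (fun x y => ch (M.closure {e, f, (x : E)} ≠ M.closure {e, f, (y : E)})) := by
      refine J2_congr fun x y => ch_congr ?_
      have hx := mem_VF.1 x.2
      have hy := mem_VF.1 y.2
      have hex : e ≠ (x : E) := fun h => hx (by rw [← h]; exact cl_mem hE (Or.inl rfl))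
      have hey : e ≠ (y : E) := fun h => hy (by rw [← h]; exact cl_mem hE (Or.inl rfl))
      have hfx : f ≠ (x : E) := fun h => hx (by rw [← h]; exact cl_mem hE (Or.inr rfl))
      have hfy : f ≠ (y : E) := fun h => hy (by rw [← h]; exact cl_mem hE (Or.inr rfl))
      rw [Finset.coe_insert, Finset.coe_insert, Finset.coe_insert, Finset.coe_singleton]
      constructor
      · rintro ⟨h2, h3⟩ h4
        have h5 : In4 M e f (x : E) (y : E) := ⟨hne, hex, hey, hfx, hfy, h2, h3⟩
        refine ((In4_iff hE).1 h5).2.2.2 ?_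
        rw [h4]
        exact cl_mem hE (Or.inr (Or.inr rfl))
      · intro h2
        have h5 : In4 M e f (x : E) (y : E) :=
          (In4_iff hE).2 ⟨h0, h1, hx, fun h3 => h2 (plane_eq h3 hy).symm⟩
        exact ⟨h5.2.2.2.2.2.1, h5.2.2.2.2.2.2⟩
    rw [t0, t1, t2]
    rfl
  · intro A hA hc h
    have h2 := indep_card hr h
    have h3 : f ∉ A := fun h3 => hfU (hA h3)
    have h4 : e ∉ insert f A := by
      intro h4
      rcases Finset.mem_insert.1 h4 with h5 | h5
      · exact hne h5
      · exact heU (hA h5)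
    rw [Finset.card_insert_of_notMem h4, Finset.card_insert_of_notMem h3] at h2
    omega

/-- PROOF. `sp_eq_sc` with `m = 3`. `sc_two`: for two different elements of `VF`, `M.Indep {e, a, b}` iff `b ∉ cl {e, a}` iff not `cl {e, a} = cl {e, b}`; the pairs in two planes and the pairs in one plane.
`sc_three`: for three different elements `M.Indep {e, a, b, c}`: in three planes iff not `q3` (`cl {e, a, b} = cl {e, a, c}` iff `c ∈ cl {e, a, b}`, and then `= cl {e, b, c}`); two in one
plane, `c` in another one: iff not `q a b` (`c ∉ cl {e, a, b} ⊆ pl a`); in one plane: never (rank). Symmetric sums: `J3_swap12`, `J3_swap23`; compare `D3s_eq` in `D1.lean`.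
The lemmas `indep3_iff`, `indep4_iff` (`In3_iff`, `In4_iff`) translate independence into closures. -/
theorem A_eq :
    MP_16c009_co.sp z (VF M e f) (fun A => M.Indep ((insert e A : Finset E) : Set E)) =
    1 + Zt (zV z M e f) + (Et (zV z M e f) (fun x => M.closure {e, f, (x : E)}) + xs (zV z M e f) (sideE hE e f)) +
      (as (zV z M e f) (sideE hE e f) + Xs (zV z M e f) (sideE hE e f)) := by
  exact F4_gen hE hr hef (VF M e f) (fun x => mem_VF.1 x.2) _ (fun _ => rfl)

/-- PROOF. `A_eq` with `e`, `f` exchanged, or the same proof. -/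
theorem B_eq :
    MP_16c009_co.sp z (VF M e f) (fun A => M.Indep ((insert f A : Finset E) : Set E)) =
    1 + Zt (zV z M e f) + (Et (zV z M e f) (fun x => M.closure {e, f, (x : E)}) + xs (zV z M e f) (sideF hE e f)) +
      (as (zV z M e f) (sideF hE e f) + Xs (zV z M e f) (sideF hE e f)) := by
  exact F4_gen hE hr (by rw [Set.pair_comm]; exact hef) (VF M e f)
    (fun x => by rw [Set.pair_comm]; exact mem_VF.1 x.2) (fun x => M.closure {e, f, (x : E)})
    (fun _ => by rw [Set.insert_comm])

end Pool.Agent.Lib.MP_16c009_coR
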