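import Pool.Agent.Lib.MP_16c009_coR.F4

/-!
# Independent sets and bases outside the line
-/

set_option autoImplicit false

open Finset

namespace Pool.Agent.Lib.MP_16c009_coR

open Pool.Agent.Lib.MP_16c009_co (wt)

variable {E : Type*} [Fintype E] [DecidableEq E] {M : Matroid E} {e f : E} {z : E → ℝ}

section aux

omit [Fintype E] [DecidableEq E] in
theorem F4b_pair (hE : M.E = Set.univ) {a b : E} :
    (a ≠ b ∧ M.Indep {a, b}) ↔ a ∉ M.closure ∅ ∧ b ∉ M.closure {a} := by
  have h0 : M.Indep ({a} : Set E) ↔ a ∉ M.closure ∅ := by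
    have h1 := Matroid.insert_indep_iff (M := M) (e := a) (I := ∅)
    rw [insert_empty_eq] at h1
    rw [h1]
    constructor
    · intro h
      exact (h.2 (Set.notMem_empty a)).2
    · intro h
      exact ⟨M.empty_indep, fun _ => ⟨by rw [hE]; exact Set.mem_univ _, h⟩⟩
  constructor
  · rintro ⟨hn, hi⟩
    rw [Set.pair_comm, Matroid.insert_indep_iff] at hi
    exact ⟨h0.1 hi.1, (hi.2 fun h => hn (Set.mem_singleton_iff.1 h).symm).2⟩
  · rintro ⟨h1, h2⟩
    have hn : a ≠ b := by
      rintro rfl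
      exact h2 (cl_mem hE (Set.mem_singleton a))
    refine ⟨hn, ?_⟩
    rw [Set.pair_comm, Matroid.insert_indep_iff]
    exact ⟨h0.2 h1, fun _ => ⟨by rw [hE]; exact Set.mem_univ _, h2⟩⟩

omit [Fintype E] [DecidableEq E] in
theorem F4b_single (hE : M.E = Set.univ) {a : E} : M.Indep ({a} : Set E) ↔ a ∉ M.closure ∅ := by
  have h1 := Matroid.insert_indep_iff (M := M) (e := a) (I := ∅)
  rw [insert_empty_eq] at h1
  rw [h1]
  constructor
  · intro h
    exact (h.2 (Set.notMem_empty a)).2
  · intro h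
    exact ⟨M.empty_indep, fun _ => ⟨by rw [hE]; exact Set.mem_univ _, h⟩⟩

omit [Fintype E] [DecidableEq E] in
/-- two elements outside the line are in one plane iff one is in the plane of the other -/
theorem F4b_plane (hE : M.E = Set.univ) {g h x y : E} (hy : y ∉ M.closure {g, h}) :
    y ∈ M.closure {g, h, x} ↔ M.closure {g, h, x} = M.closure {g, h, y} := by
  constructor
  · intro h1
    exact (plane_eq h1 hy).symm
  · intro h1
    rw [h1]
    exact cl_mem hE (by simp)

omit [Fintype E] [DecidableEq E] in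
theorem F4b_row (hE : M.E = Set.univ) {g h x y : E} (hy : y ∉ M.closure {g, h}) :
    y ∈ M.closure {g, x} ↔ M.closure {g, x} = M.closure {g, y} := by
  constructor
  · intro h1
    have h2 : y ∉ M.closure {g} := fun h3 => hy (M.closure_subset_closure (by simp) h3)
    rw [Set.pair_comm g x] at h1 ⊢
    rw [Set.pair_comm g y]
    exact (cl_ex h1 h2).symm
  · intro h1
    rw [h1]
    exact cl_mem hE (by simp)

omit [Fintype E] [DecidableEq E] in
theorem F4b_base (hr : M.eRank = 4) (B : Finset E) :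
    M.IsBase (B : Set E) ↔ M.Indep (B : Set E) ∧ B.card = 4 := by
  constructor
  · intro h
    refine ⟨h.indep, ?_⟩
    have h1 := h.encard_eq_eRank
    rw [hr, Set.encard_coe_eq_coe_finsetCard] at h1
    exact_mod_cast h1
  · rintro ⟨h1, h2⟩
    obtain ⟨B', hB', hsub⟩ := h1.exists_isBase_superset
    have h3 := hB'.encard_eq_eRank
    rw [hr] at h3
    have h4 : (B : Set E).encard = 4 := by
      rw [Set.encard_coe_eq_coe_finsetCard, h2]
      rfl
    have h5 : (B : Set E) = B' := by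
      refine Set.Finite.eq_of_subset_of_encard_le B.finite_toSet hsub ?_
      rw [h3, h4]
    rw [h5]
    exact hB'

omit [Fintype E] [DecidableEq E] in
theorem F4b_In4_12 {a b c d : E} (h : In4 M a b c d) : In4 M a c b d := by
  obtain ⟨h1, h2, h3, h4, h5, h6, h7⟩ := h
  refine ⟨h2, h1, h3, h4.symm, h6, h5, ?_⟩
  rwa [Set.insert_comm c b]

omit [Fintype E] [DecidableEq E] in
theorem F4b_In4_23 {a b c d : E} (h : In4 M a b c d) : In4 M a b d c := by
  obtain ⟨h1, h2, h3, h4, h5, h6, h7⟩ := h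
  refine ⟨h1, h3, h2, h5, h4, h6.symm, ?_⟩
  rwa [Set.pair_comm d c]

omit [Fintype E] [DecidableEq E] in
/-- three elements in three planes -/
theorem F4b_three (hE : M.E = Set.univ) {g h x y w : E} (hg : g ∉ M.closure ∅)
    (hx : x ∉ M.closure {g, h}) (hy : y ∉ M.closure {g, h}) (hw : w ∉ M.closure {g, h})
    (h1 : M.closure {g, h, x} ≠ M.closure {g, h, y}) (h2 : M.closure {g, h, x} ≠ M.closure {g, h, w}) :
    In4 M g x y w ↔ ¬ (M.closure {g, x, y} = M.closure {g, x, w}) := by
  have s1 : M.closure {g, x} ⊆ M.closure {g, h, x} := M.closure_subset_closure (by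
    intro t ht
    rcases ht with ht | ht
    · rw [ht]; simp
    · rw [ht]; simp)
  have a1 : x ∉ M.closure {g} := fun h3 => hx (M.closure_subset_closure (by simp) h3)
  have a2 : y ∉ M.closure {g, x} := fun h3 => h1 ((F4b_plane hE hy).1 (s1 h3))
  have a3 : w ∉ M.closure {g, x} := fun h3 => h2 ((F4b_plane hE hw).1 (s1 h3))
  rw [In4_iff hE]
  constructor
  · rintro ⟨-, -, -, h3⟩ h4
    apply h3
    rw [h4]
    exact cl_mem hE (by simp)
  · intro h3
    refine ⟨hg, a1, a2, fun h4 => h3 ?_⟩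
    exact (plane_eq h4 a3).symm

omit [Fintype E] [DecidableEq E] in
/-- two elements in one plane, the third in another -/
theorem F4b_two (hE : M.E = Set.univ) {g h x y w : E} (hg : g ∉ M.closure ∅)
    (hx : x ∉ M.closure {g, h}) (hy : y ∉ M.closure {g, h}) (hw : w ∉ M.closure {g, h})
    (h1 : M.closure {g, h, x} = M.closure {g, h, y}) (h2 : M.closure {g, h, x} ≠ M.closure {g, h, w}) :
    In4 M g x y w ↔ ¬ (M.closure {g, x} = M.closure {g, y}) := by
  have a1 : x ∉ M.closure {g} := fun h3 => hx (M.closure_subset_closure (by simp) h3)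
  have s1 : M.closure {g, x, y} ⊆ M.closure {g, h, x} := by
    refine cl_sub hE ?_
    intro t ht
    rcases ht with ht | ht | ht
    · rw [ht]; exact cl_mem hE (by simp)
    · rw [ht]; exact cl_mem hE (by simp)
    · rw [ht, h1]; exact cl_mem hE (by simp)
  have a3 : w ∉ M.closure {g, x, y} := fun h3 => h2 ((F4b_plane hE hw).1 (s1 h3))
  rw [In4_iff hE, ← F4b_row hE hy]
  exact ⟨fun h3 => h3.2.2.1, fun h3 => ⟨hg, a1, h3, a3⟩⟩

omit [Fintype E] [DecidableEq E] in
/-- three elements in one plane -/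
theorem F4b_one (hE : M.E = Set.univ) {g h x y w : E}
    (h1 : M.closure {g, h, x} = M.closure {g, h, y}) (h2 : M.closure {g, h, x} = M.closure {g, h, w}) :
    ¬ In4 M g x y w := by
  intro h3
  refine not_In4 h3 (x := g) (y := h) (w := x) ?_
  intro t ht
  rcases ht with ht | ht | ht | ht
  · rw [ht]; exact cl_mem hE (by simp)
  · rw [ht]; exact cl_mem hE (by simp)
  · rw [ht, h1]; exact cl_mem hE (by simp)
  · rw [ht, h2]; exact cl_mem hE (by simp)

/-- the general form of the sum over the triples -/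
theorem F4b_trip {V K Λ : Type*} [Fintype V] {pl : V → K} {z : V → ℝ} (S : Side pl Λ) (i : V → V → V → Prop)
    (i12 : ∀ a b c, i a b c → i b a c) (i23 : ∀ a b c, i a b c → i a c b)
    (i3 : ∀ a b c, Tr pl a b c → (i a b c ↔ ¬ S.q3 a b c))
    (i2 : ∀ a b c, pl a = pl b → pl a ≠ pl c → (i a b c ↔ ¬ S.q a b))
    (i1 : ∀ a b c, pl a = pl b → pl a = pl c → ¬ i a b c) :
    (1 / 6) * J3 z (fun a b c => ch (i a b c)) = as z S + Xs z S := by
  have key : ∀ a b c : V, ch (i a b c) = ch (Tr pl a b c ∧ ¬ S.q3 a b c) +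
      ch (pl a = pl b ∧ pl a ≠ pl c ∧ ¬ S.q a b) +
      ch (pl a = pl c ∧ pl a ≠ pl b ∧ ¬ S.q a c) +
      ch (pl b = pl c ∧ pl b ≠ pl a ∧ ¬ S.q b c) := by
    intro a b c
    by_cases h1 : pl a = pl b
    · have n1 : ¬ (Tr pl a b c ∧ ¬ S.q3 a b c) := fun h => h.1.1 h1
      have n3 : ¬ (pl a = pl c ∧ pl a ≠ pl b ∧ ¬ S.q a c) := fun h => h.2.1 h1
      have n4 : ¬ (pl b = pl c ∧ pl b ≠ pl a ∧ ¬ S.q b c) := fun h => h.2.1 h1.symm
      rw [ch_false n1, ch_false n3, ch_false n4]
      by_cases h2 : pl a = pl c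
      · have n2 : ¬ (pl a = pl b ∧ pl a ≠ pl c ∧ ¬ S.q a b) := fun h => h.2.1 h2
        rw [ch_false n2, ch_false (i1 a b c h1 h2)]
        ring
      · rw [ch_congr (i2 a b c h1 h2),
          ch_congr (p := pl a = pl b ∧ pl a ≠ pl c ∧ ¬ S.q a b)
            (q := ¬ S.q a b) ⟨fun h => h.2.2, fun h => ⟨h1, h2, h⟩⟩]
        ring
    · have n2 : ¬ (pl a = pl b ∧ pl a ≠ pl c ∧ ¬ S.q a b) := fun h => h1 h.1
      rw [ch_false n2]
      by_cases h2 : pl a = pl c
      · have n1 : ¬ (Tr pl a b c ∧ ¬ S.q3 a b c) := fun h => h.1.2.1 h2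
        have n4 : ¬ (pl b = pl c ∧ pl b ≠ pl a ∧ ¬ S.q b c) :=
          fun h => h1 (h2.trans h.1.symm)
        have e : i a b c ↔ i a c b := ⟨i23 a b c, i23 a c b⟩
        rw [ch_false n1, ch_false n4, ch_congr (e.trans (i2 a c b h2 h1)),
          ch_congr (p := pl a = pl c ∧ pl a ≠ pl b ∧ ¬ S.q a c)
            (q := ¬ S.q a c) ⟨fun h => h.2.2, fun h => ⟨h2, h1, h⟩⟩]
        ring
      · have n3 : ¬ (pl a = pl c ∧ pl a ≠ pl b ∧ ¬ S.q a c) := fun h => h2 h.1
        rw [ch_false n3]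
        by_cases h3 : pl b = pl c
        · have n1 : ¬ (Tr pl a b c ∧ ¬ S.q3 a b c) := fun h => h.1.2.2 h3
          have e : i a b c ↔ i b c a :=
            ⟨fun h => i23 b a c (i12 a b c h), fun h => i12 b a c (i23 b c a h)⟩
          have h1' : pl b ≠ pl a := fun h => h1 h.symm
          rw [ch_false n1, ch_congr (e.trans (i2 b c a h3 h1')),
            ch_congr (p := pl b = pl c ∧ pl b ≠ pl a ∧ ¬ S.q b c)
              (q := ¬ S.q b c) ⟨fun h => h.2.2, fun h => ⟨h3, h1', h⟩⟩]
          ring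
        · have n4 : ¬ (pl b = pl c ∧ pl b ≠ pl a ∧ ¬ S.q b c) := fun h => h3 h.1
          have ht : Tr pl a b c := ⟨h1, h2, h3⟩
          rw [ch_false n4, ch_congr (i3 a b c ht),
            ch_congr (p := Tr pl a b c ∧ ¬ S.q3 a b c) (q := ¬ S.q3 a b c)
              ⟨fun h => h.2, fun h => ⟨ht, h⟩⟩]
          ring
  rw [J3_congr key, J3_add, J3_add, J3_add]
  have e2 : J3 z (fun a b c => ch (pl a = pl c ∧ pl a ≠ pl b ∧ ¬ S.q a c)) =
      J3 z (fun a b c => ch (pl a = pl b ∧ pl a ≠ pl c ∧ ¬ S.q a b)) :=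
    J3_swap23 (fun a b c => ch (pl a = pl b ∧ pl a ≠ pl c ∧ ¬ S.q a b))
  have e3 : J3 z (fun a b c => ch (pl b = pl c ∧ pl b ≠ pl a ∧ ¬ S.q b c)) =
      J3 z (fun a b c => ch (pl a = pl b ∧ pl a ≠ pl c ∧ ¬ S.q a b)) := by
    rw [← e2]
    exact J3_swap12 (fun a b c => ch (pl a = pl c ∧ pl a ≠ pl b ∧ ¬ S.q a c))
  rw [e2, e3]
  unfold as Xs
  ring

omit [Fintype E] in
/-- a sum over bases is a sum over sets with a fixed number of elements -/
theorem F4b_sp (z : E → ℝ) (U : Finset E) (P : Finset E → Prop) (k : ℕ) (hk : k ≤ 4)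
    (h : ∀ A ⊆ U, P A → A.card = k) :
    MP_16c009_co.sp z U P = sc z U P k := by
  rw [sp_eq_sc z U P 4 (fun A hA hc hP => by have := h A hA hP; omega)]
  rw [Finset.sum_eq_single k]
  · intro j _ hj
    unfold sc
    refine Finset.sum_eq_zero fun A hA => ?_
    rw [Finset.mem_powersetCard] at hA
    rw [ch_false fun hP => hj (hA.2.symm.trans (h A hA.1 hP)), mul_zero]
  · intro h1
    exact absurd (Finset.mem_range.2 (Nat.lt_succ_of_le hk)) h1

omit [Fintype E] in
theorem F4b_ind4 (hr : M.eRank = 4) {g a b c : E} (ha : g ≠ a) (hb : g ≠ b) (hc : g ≠ c) :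
    ((a ≠ b ∧ a ≠ c ∧ b ≠ c) ∧ M.IsBase ((insert g ({a, b, c} : Finset E) : Finset E) : Set E)) ↔
      In4 M g a b c := by
  have e1 : ((insert g ({a, b, c} : Finset E) : Finset E) : Set E) = {g, a, b, c} := by
    simp
  rw [F4b_base hr, e1]
  constructor
  · rintro ⟨⟨h1, h2, h3⟩, h4, -⟩
    exact ⟨ha, hb, hc, h1, h2, h3, h4⟩
  · rintro ⟨-, -, -, h1, h2, h3, h4⟩
    refine ⟨⟨h1, h2, h3⟩, h4, ?_⟩
    rw [Finset.card_insert_of_notMem (by simp [ha, hb, hc]), Finset.card_insert_of_notMem (by simp [h1, h2]),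
      Finset.card_insert_of_notMem (by simp [h3]), Finset.card_singleton]

/-- the bases which contain one of the two elements -/
theorem F4b_Bgen (z : E → ℝ) (hE : M.E = Set.univ) (hr : M.eRank = 4) {g h : E}
    (hg : g ∉ M.closure ∅) (pl : {x // x ∈ VF M e f} → Set E)
    (hV : ∀ x : {x // x ∈ VF M e f}, (x : E) ∉ M.closure {g, h})
    (hpl : ∀ x : {x // x ∈ VF M e f}, pl x = M.closure {g, h, (x : E)}) :
    MP_16c009_co.sp z (VF M e f) (fun A => M.IsBase ((insert g A : Finset E) : Set E)) =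
      as (zV z M e f) (mkSide hE (fun x : {x // x ∈ VF M e f} => (x : E)) g h hV pl hpl) +
        Xs (zV z M e f) (mkSide hE (fun x : {x // x ∈ VF M e f} => (x : E)) g h hV pl hpl) := by
  have hgU : g ∉ VF M e f := fun h1 => hV ⟨g, h1⟩ (cl_mem hE (by simp))
  have hne : ∀ x : {x // x ∈ VF M e f}, g ≠ (x : E) := by
    intro x h1
    exact hgU (h1 ▸ x.2)
  rw [F4b_sp z (VF M e f) _ 3 (by norm_num) ?_, sc_three]
  · rw [← F4b_trip (z := zV z M e f) (mkSide hE (fun x : {x // x ∈ VF M e f} => (x : E)) g h hV pl hpl)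
      (fun a b c => In4 M g a b c) (fun a b c h1 => F4b_In4_12 h1) (fun a b c h1 => F4b_In4_23 h1) ?_ ?_ ?_]
    · congr 1
      exact J3_congr fun a b c => ch_congr (F4b_ind4 hr (hne a) (hne b) (hne c))
    · intro a b c h1
      rw [q3_iff _ h1]
      refine F4b_three hE hg (hV a) (hV b) (hV c) ?_ ?_
      · rw [← hpl, ← hpl]
        exact h1.1
      · rw [← hpl, ← hpl]
        exact h1.2.1
    · intro a b c h1 h2
      refine F4b_two hE hg (hV a) (hV b) (hV c) ?_ ?_
      · rw [← hpl, ← hpl]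
        exact h1
      · rw [← hpl, ← hpl]
        exact h2
    · intro a b c h1 h2
      refine F4b_one hE (h := h) ?_ ?_
      · rw [← hpl, ← hpl]
        exact h1
      · rw [← hpl, ← hpl]
        exact h2
  · intro A hA hB
    have h1 := ((F4b_base hr _).1 hB).2
    rw [Finset.card_insert_of_notMem fun h2 => hgU (hA h2)] at h1
    omega

end aux

variable (hE : M.E = Set.univ) (hr : M.eRank = 4) (hef : M.Indep {e, f}) (hne : e ≠ f)

include hE hr hef hne

omit hr [Fintype E] [DecidableEq E] in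
theorem F4b_e0 : e ∉ M.closure ∅ := ((F4b_pair hE).1 ⟨hne, hef⟩).1

omit hr [Fintype E] [DecidableEq E] in
theorem F4b_f0 : f ∉ M.closure ∅ :=
  ((F4b_pair hE).1 ⟨hne.symm, by rwa [Set.pair_comm]⟩).1

omit hr [Fintype E] [DecidableEq E] in
/-- two elements outside the line, independence of the pair -/
theorem F4b_two2 {a b : E} (ha : a ∉ M.closure {e, f}) (hb : b ∉ M.closure {e, f}) :
    ch (a ≠ b ∧ M.Indep {a, b}) = ch (M.closure {e, f, a} ≠ M.closure {e, f, b}) +
      ch (M.closure {e, f, a} = M.closure {e, f, b} ∧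
        ¬ (M.closure {e, a} = M.closure {e, b} ∧ M.closure {f, a} = M.closure {f, b})) := by
  have hb' : b ∉ M.closure {f, e} := by rwa [Set.pair_comm]
  have a0 : a ∉ M.closure ∅ := fun h => ha (M.closure_subset_closure (Set.empty_subset _) h)
  rw [ch_congr (F4b_pair hE)]
  by_cases h1 : M.closure {e, f, a} = M.closure {e, f, b}
  · rw [ch_false (p := M.closure {e, f, a} ≠ M.closure {e, f, b}) (fun h => h h1), zero_add]
    refine ch_congr ?_
    constructor
    · rintro ⟨-, h2⟩
      exact ⟨h1, fun h3 => h2 (par_of hE hef hne ha h3.1 h3.2)⟩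
    · rintro ⟨-, h2⟩
      refine ⟨a0, fun h3 => h2 ⟨?_, ?_⟩⟩
      · exact (F4b_row hE hb).1 (M.closure_subset_closure (by simp) h3)
      · exact (F4b_row hE hb').1 (M.closure_subset_closure (by simp) h3)
  · rw [ch_true (p := M.closure {e, f, a} ≠ M.closure {e, f, b}) h1,
      ch_false (p := M.closure {e, f, a} = M.closure {e, f, b} ∧
        ¬ (M.closure {e, a} = M.closure {e, b} ∧ M.closure {f, a} = M.closure {f, b})) (fun h => h1 h.1), add_zero]
    refine ch_true ⟨a0, fun h3 => h1 ?_⟩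
    exact (F4b_plane hE hb).1 (M.closure_subset_closure (by simp) h3)

/-- PROOF. `sp_eq_sc` with `m = 4` (`indep_card`), `sc_one`, …, `sc_four`; pairs: in two planes always independent, in one plane iff not `S.q ∧ R.q` (`par_of`). `D3s`, `D4s` by definition
(`In3`, `In4`). -/
theorem D_eq :
    MP_16c009_co.sp z (VF M e f) (fun A => M.Indep (A : Set E)) =
    1 + Zt (zV z M e f) + (Et (zV z M e f) (fun x => M.closure {e, f, (x : E)}) +
      us (zV z M e f) (sideE hE e f) (sideF hE e f)) +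
      D3s (zV z M e f) (matEF hE hef hne) + D4s (zV z M e f) (matEF hE hef hne) := by
  rw [sp_eq_sc z (VF M e f) _ 4 (fun A _ hc hi => by have := indep_card hr hi; omega)]
  rw [Finset.sum_range_succ, Finset.sum_range_succ, Finset.sum_range_succ, Finset.sum_range_succ,
    Finset.sum_range_one, sc_zero, sc_one, sc_two, sc_three, sc_four]
  have e0 : ch (M.Indep ((∅ : Finset E) : Set E)) = 1 := by
    refine ch_true ?_
    rw [Finset.coe_empty]
    exact M.empty_indep
  have e1 : I (V := {x // x ∈ VF M e f}) (fun x => z x) (fun a => ch (M.Indep (({(a : E)} : Finset E) : Set E))) =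
      Zt (zV z M e f) := by
    refine I_congr fun a => ch_true ?_
    rw [Finset.coe_singleton, F4b_single hE]
    exact fun h => mem_VF.1 a.2 (M.closure_subset_closure (Set.empty_subset _) h)
  have e2 : (1 / 2) * J2 (V := {x // x ∈ VF M e f}) (fun x => z x)
      (fun a b => ch ((a : E) ≠ b ∧ M.Indep (({(a : E), (b : E)} : Finset E) : Set E))) =
      Et (zV z M e f) (fun x => M.closure {e, f, (x : E)}) + us (zV z M e f) (sideE hE e f) (sideF hE e f) := by
    unfold Et us
    rw [← mul_add, ← J2_add]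
    congr 1
    refine J2_congr fun a b => ?_
    rw [Finset.coe_pair]
    exact F4b_two2 hE hef hne (mem_VF.1 a.2) (mem_VF.1 b.2)
  have e3 : (1 / 6) * J3 (V := {x // x ∈ VF M e f}) (fun x => z x)
      (fun a b c => ch (((a : E) ≠ b ∧ (a : E) ≠ c ∧ (b : E) ≠ c) ∧
        M.Indep (({(a : E), (b : E), (c : E)} : Finset E) : Set E))) =
      D3s (zV z M e f) (matEF hE hef hne) := by
    unfold D3s
    congr 1
    refine J3_congr fun a b c => ch_congr ?_
    have h1 : (({(a : E), (b : E), (c : E)} : Finset E) : Set E) = {(a : E), (b : E), (c : E)} := by simp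
    rw [h1]
    show _ ↔ In3 M a b c
    unfold In3
    tauto
  have e4 : (1 / 24) * J4 (V := {x // x ∈ VF M e f}) (fun x => z x)
      (fun a b c d => ch (((a : E) ≠ b ∧ (a : E) ≠ c ∧ (a : E) ≠ d ∧ (b : E) ≠ c ∧ (b : E) ≠ d ∧ (c : E) ≠ d) ∧
        M.Indep (({(a : E), (b : E), (c : E), (d : E)} : Finset E) : Set E))) =
      D4s (zV z M e f) (matEF hE hef hne) := by
    unfold D4s
    congr 1
    refine J4_congr fun a b c d => ch_congr ?_
    have h1 : (({(a : E), (b : E), (c : E), (d : E)} : Finset E) : Set E) = {(a : E), (b : E), (c : E), (d : E)} := by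
      simp
    rw [h1]
    show _ ↔ In4 M a b c d
    unfold In4
    tauto
  rw [e0, e1, e2, e3, e4]

/-- The four basis sums. PROOF. The sets `A ⊆ VF` for which `insert e (insert f A)` is a basis are the sets with two elements for which it is independent (`M.IsBase` iff independent with four elements): the
sum is `sc z U P 2`, see the proof of `C_eq`. In the same way for the other three. -/
theorem Cb_eq :
    MP_16c009_co.sp z (VF M e f) (fun A => M.IsBase ((insert e (insert f A) : Finset E) : Set E)) =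
    Et (zV z M e f) (fun x => M.closure {e, f, (x : E)}) := by
  have heU : e ∉ VF M e f := fun h1 => mem_VF.1 h1 (cl_mem hE (by simp))
  have hfU : f ∉ VF M e f := fun h1 => mem_VF.1 h1 (cl_mem hE (by simp))
  rw [F4b_sp z (VF M e f) _ 2 (by norm_num) ?_, sc_two]
  · unfold Et
    congr 1
    refine J2_congr fun a b => ch_congr ?_
    have ha := mem_VF.1 a.2
    have hb := mem_VF.1 b.2
    have n1 : e ≠ a := fun h => ha (by rw [← h]; exact cl_mem hE (by simp))
    have n2 : e ≠ b := fun h => hb (by rw [← h]; exact cl_mem hE (by simp))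
    have n3 : f ≠ a := fun h => ha (by rw [← h]; exact cl_mem hE (by simp))
    have n4 : f ≠ b := fun h => hb (by rw [← h]; exact cl_mem hE (by simp))
    have h0 := F4b_ind4 (g := e) (a := f) (b := a) (c := b) hr hne n1 n2
    have h1 : ((a : E) ≠ b ∧ M.IsBase ((insert e (insert f ({(a : E), (b : E)} : Finset E)) : Finset E) : Set E)) ↔
        In4 M e f a b := by
      rw [← h0]
      constructor
      · rintro ⟨h2, h3⟩
        exact ⟨⟨n3, n4, h2⟩, h3⟩
      · rintro ⟨⟨-, -, h2⟩, h3⟩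
        exact ⟨h2, h3⟩
    rw [h1, In4_iff hE]
    have h5 := F4b_plane (x := (a : E)) hE hb
    have h6 := (F4b_pair hE).1 ⟨hne, hef⟩
    constructor
    · rintro ⟨-, -, -, h7⟩ h8
      exact h7 (h5.2 h8)
    · intro h7
      exact ⟨h6.1, h6.2, ha, fun h8 => h7 (h5.1 h8)⟩
  · intro A hA hB
    have h1 := ((F4b_base hr _).1 hB).2
    rw [Finset.card_insert_of_notMem, Finset.card_insert_of_notMem fun h2 => hfU (hA h2)] at h1
    · omega
    · intro h2
      rcases Finset.mem_insert.1 h2 with h3 | h3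
      · exact hne h3
      · exact heU (hA h3)

theorem Ab_eq :
    MP_16c009_co.sp z (VF M e f) (fun A => M.IsBase ((insert e A : Finset E) : Set E)) =
    as (zV z M e f) (sideE hE e f) + Xs (zV z M e f) (sideE hE e f) :=
  F4b_Bgen z hE hr (F4b_e0 hE hef hne) _ _ _

theorem Bb_eq :
    MP_16c009_co.sp z (VF M e f) (fun A => M.IsBase ((insert f A : Finset E) : Set E)) =
    as (zV z M e f) (sideF hE e f) + Xs (zV z M e f) (sideF hE e f) :=
  F4b_Bgen z hE hr (F4b_f0 hE hef hne) _ _ _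

theorem Db_eq :
    MP_16c009_co.sp z (VF M e f) (fun A => M.IsBase (A : Set E)) = D4s (zV z M e f) (matEF hE hef hne) := by
  rw [F4b_sp z (VF M e f) _ 4 le_rfl (fun A _ hB => ((F4b_base hr _).1 hB).2), sc_four]
  unfold D4s
  congr 1
  refine J4_congr fun a b c d => ch_congr ?_
  rw [F4b_base hr]
  have h1 : (({(a : E), (b : E), (c : E), (d : E)} : Finset E) : Set E) = {(a : E), (b : E), (c : E), (d : E)} := by
    simp
  rw [h1]
  show _ ↔ In4 M a b c d
  unfold In4
  constructor
  · rintro ⟨⟨h2, h3, h4, h5, h6, h7⟩, h8, -⟩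
    exact ⟨h2, h3, h4, h5, h6, h7, h8⟩
  · rintro ⟨h2, h3, h4, h5, h6, h7, h8⟩
    refine ⟨⟨h2, h3, h4, h5, h6, h7⟩, h8, ?_⟩
    rw [Finset.card_insert_of_notMem (by simp [h2, h3, h4]), Finset.card_insert_of_notMem (by simp [h5, h6]),
      Finset.card_insert_of_notMem (by simp [h7]), Finset.card_singleton]

end Pool.Agent.Lib.MP_16c009_coR
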