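import Pool.Agent.Lib.MP_16c009_coR.F4b

/-!
# The inequality outside the line
-/

set_option autoImplicit false

open Finset

namespace Pool.Agent.Lib.MP_16c009_coR

open Pool.Agent.Lib.MP_16c009_co (wt)

variable {E : Type*} [Fintype E] [DecidableEq E] {M : Matroid E} {e f : E} {z : E → ℝ}

variable (hE : M.E = Set.univ) (hr : M.eRank = 4) (hef : M.Indep {e, f}) (hne : e ≠ f)

include hE hr hef hne

/-- There are two elements of `VF` in different planes. PROOF. Extend `{e, f}` to a basis (four elements `e, f, x, y`); then `Et ≥ z x * z y > 0`. -/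
theorem Et_pos (hz : ∀ a, 0 < z a) : 0 < Et (zV z M e f) (fun x => M.closure {e, f, (x : E)}) := by
  obtain ⟨B, hB, hsub⟩ := hef.exists_isBase_superset
  have h1 : (B \ {e, f}).encard + ({e, f} : Set E).encard = B.encard :=
    Set.encard_sdiff_add_encard_of_subset hsub
  rw [Set.encard_pair hne, hB.encard_eq_eRank, hr] at h1
  have h2 : (B \ {e, f}).encard = 2 := by
    obtain ⟨n, hn⟩ := ENat.ne_top_iff_exists.1 (Set.encard_ne_top_iff.2 (Set.toFinite (B \ {e, f})))
    rw [← hn] at h1 ⊢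
    norm_cast at h1 ⊢
    omega
  obtain ⟨x, y, hxy, hBxy⟩ := Set.encard_eq_two.1 h2
  have hx : x ∈ B \ {e, f} := by rw [hBxy]; simp
  have hy : y ∈ B \ {e, f} := by rw [hBxy]; simp
  have hclx : x ∉ M.closure {e, f} := fun h =>
    (hB.indep.notMem_closure_sdiff_of_mem hx.1) (M.closure_subset_closure
      (show ({e, f} : Set E) ⊆ B \ {x} from fun t ht => ⟨hsub ht, fun h' => hx.2 (h' ▸ ht)⟩) h)
  have hcly : y ∉ M.closure {e, f} := fun h =>
    (hB.indep.notMem_closure_sdiff_of_mem hy.1) (M.closure_subset_closure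
      (show ({e, f} : Set E) ⊆ B \ {y} from fun t ht => ⟨hsub ht, fun h' => hy.2 (h' ▸ ht)⟩) h)
  have hcl : M.closure {e, f, x} ≠ M.closure {e, f, y} := by
    intro h
    have h4 : y ∈ M.closure {e, f, x} := by
      rw [h]
      exact cl_mem hE (by simp)
    refine (hB.indep.notMem_closure_sdiff_of_mem hy.1) (M.closure_subset_closure (fun t ht => ?_) h4)
    rcases ht with rfl | rfl | rfl
    · exact ⟨hsub (by simp), fun h' => hy.2 (by rw [← h']; simp)⟩
    · exact ⟨hsub (by simp), fun h' => hy.2 (by rw [← h']; simp)⟩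
    · exact ⟨hx.1, hxy⟩
  unfold Et
  refine mul_pos (by norm_num) ?_
  unfold J2 I
  have hnn : ∀ a : {x // x ∈ VF M e f}, 0 ≤ zV z M e f a := fun a => (hz a).le
  refine Finset.sum_pos' (fun a _ => mul_nonneg (hnn a) (Finset.sum_nonneg fun b _ =>
    mul_nonneg (hnn b) (ch_nonneg _))) ⟨⟨x, mem_VF.2 hclx⟩, Finset.mem_univ _, mul_pos (hz x) ?_⟩
  refine Finset.sum_pos' (fun b _ => mul_nonneg (hnn b) (ch_nonneg _))
    ⟨⟨y, mem_VF.2 hcly⟩, Finset.mem_univ _, mul_pos (hz y) ?_⟩
  show (0 : ℝ) < ch (M.closure {e, f, x} ≠ M.closure {e, f, y})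
  rw [ch_true hcl]
  exact zero_lt_one

/-- The inequality without the elements of the line. PROOF. `main0` with `C_eq`, `A_eq`, `B_eq`, `D_eq`, `Et_pos` and the hypothesis by `Cb_eq`, …. (`Fintype (Set E)`, `Finite (Set E)` are
instances.) -/
theorem line0 (hz : ∀ a, 0 < z a)
    (hR : MP_16c009_co.sp z (VF M e f) (fun A => M.IsBase ((insert e (insert f A) : Finset E) : Set E)) *
        MP_16c009_co.sp z (VF M e f) (fun A => M.IsBase (A : Set E)) ≤
      MP_16c009_co.sp z (VF M e f) (fun A => M.IsBase ((insert e A : Finset E) : Set E)) *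
        MP_16c009_co.sp z (VF M e f) (fun A => M.IsBase ((insert f A : Finset E) : Set E))) :
    MP_16c009_co.sp z (VF M e f) (fun A => M.Indep ((insert e (insert f A) : Finset E) : Set E)) *
        MP_16c009_co.sp z (VF M e f) (fun A => M.Indep (A : Set E)) ≤
      MP_16c009_co.sp z (VF M e f) (fun A => M.Indep ((insert e A : Finset E) : Set E)) *
        MP_16c009_co.sp z (VF M e f) (fun A => M.Indep ((insert f A : Finset E) : Set E)) := by
  rw [Cb_eq hE hr hef hne, Ab_eq hE hr hef hne, Bb_eq hE hr hef hne, Db_eq hE hr hef hne] at hR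
  rw [C_eq hE hr hef hne, A_eq hE hr hef hne, B_eq hE hr hef hne, D_eq hE hr hef hne]
  exact main0 (matEF hE hef hne) (fun a => (hz a).le)
    (Et_pos hE hr hef hne hz) hR

end Pool.Agent.Lib.MP_16c009_coR
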