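import Pool.Agent.Lib.MP_16c009_coR.F4c
import Pool.Agent.Lib.MP_16c009_co.PavFinal

/-!
# The elements on the line of `e`, `f`; the Rayleigh inequality for the other elements
-/

set_option autoImplicit false

open Finset

namespace Pool.Agent.Lib.MP_16c009_coR

open Pool.Agent.Lib.MP_16c009_co (wt)

variable {E : Type*} [Fintype E] [DecidableEq E] {M : Matroid E} {e f : E} {z : E → ℝ}

/-- two independent sets with the same closure may be exchanged -/
theorem F5_swap {M : Matroid E} {I J A : Set E} (hI : M.Indep I) (hJ : M.Indep J)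
    (h : M.closure I = M.closure J) (hA : Disjoint (M.closure J) A) :
    M.Indep (A ∪ I) ↔ M.Indep (A ∪ J) := by
  have b1 := hI.isBasis_closure
  have b2 := hJ.isBasis_closure
  rw [h] at b1
  rw [← b1.contract_indep_iff_of_disjoint hA, ← b2.contract_indep_iff_of_disjoint hA]

theorem F5_two {M : Matroid E} {x y : E} : M.eRk {x, y} ≤ 2 := by
  refine (M.eRk_le_encard _).trans ?_
  have := Set.encard_insert_le ({y} : Set E) x
  rw [Set.encard_singleton] at this
  exact this.trans (by norm_num)

/-- an independent pair of the line spans the line -/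
theorem F5_line {M : Matroid E} {e f x y : E} (hxy : M.Indep {x, y}) (hne : x ≠ y)
    (hx : x ∈ M.closure {e, f}) (hy : y ∈ M.closure {e, f}) :
    M.closure {x, y} = M.closure {e, f} := by
  have h := (hxy.isBasis_self.isRkFinite_of_finite (Set.toFinite _)).closure_eq_closure_of_subset_of_eRk_ge_eRk
    (Y := M.closure {e, f}) (by
      intro w hw
      rcases hw with rfl | hw
      · exact hx
      · rw [Set.mem_singleton_iff] at hw
        rw [hw]
        exact hy) (by
      rw [M.eRk_closure_eq, hxy.eRk_eq_encard, Set.encard_pair hne]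
      exact F5_two)
  rw [h, M.closure_closure]

/-- no three elements of the line in an independent set -/
theorem F5_three {M : Matroid E} {e f x y w : E} {X : Set E} (hX : M.Indep X) (h1 : x ∈ X)
    (h2 : y ∈ X) (h3 : w ∈ X) (n1 : x ≠ y) (n2 : x ≠ w) (n3 : y ≠ w)
    (hx : x ∈ M.closure {e, f}) (hy : y ∈ M.closure {e, f}) (hw : w ∈ M.closure {e, f}) :
    False := by
  have hI : M.Indep {x, y, w} := hX.subset (by
    intro u hu
    simp only [Set.mem_insert_iff, Set.mem_singleton_iff] at hu
    rcases hu with rfl | rfl | rfl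
    · exact h1
    · exact h2
    · exact h3)
  have hs : ({x, y, w} : Set E) ⊆ M.closure {e, f} := by
    intro u hu
    simp only [Set.mem_insert_iff, Set.mem_singleton_iff] at hu
    rcases hu with rfl | rfl | rfl
    · exact hx
    · exact hy
    · exact hw
  have h := hI.encard_le_eRk_of_subset hs
  rw [M.eRk_closure_eq, Set.encard_insert_of_notMem, Set.encard_pair n3] at h
  · have := h.trans F5_two
    exact absurd this (by decide)
  · simp only [Set.mem_insert_iff, Set.mem_singleton_iff, not_or]
    exact ⟨n1, n2⟩

/-- Sums over the subsets of a disjoint union. PROOF. `Finset.sum_powerset_…` : the subsets of `U ∪ L` are the sets `A ∪ S` with `A ⊆ U`, `S ⊆ L`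
(bijection `B ↦ (B ∩ U, B ∩ L)`, `Finset.sum_bij'` or `Finset.sum_nbij'`), and `wt z (A ∪ S) = wt z A * wt z S`. -/
theorem sp_union (z : E → ℝ) {U L : Finset E} (h : Disjoint U L) (P : Finset E → Prop) :
    MP_16c009_co.sp z (U ∪ L) P = ∑ S ∈ L.powerset, wt z S * MP_16c009_co.sp z U (fun A => P (A ∪ S)) := by
  unfold MP_16c009_co.sp
  simp only [Finset.mul_sum]
  rw [← Finset.sum_product']
  symm
  apply Finset.sum_nbij' (fun q : Finset E × Finset E => q.2 ∪ q.1) (fun B => (B ∩ L, B ∩ U))
  · intro q hq
    rw [Finset.mem_product, Finset.mem_powerset, Finset.mem_powerset] at hq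
    rw [Finset.mem_powerset]
    exact Finset.union_subset_union hq.2 hq.1
  · intro B hB
    rw [Finset.mem_product, Finset.mem_powerset, Finset.mem_powerset]
    exact ⟨Finset.inter_subset_right, Finset.inter_subset_right⟩
  · intro q hq
    rw [Finset.mem_product, Finset.mem_powerset, Finset.mem_powerset] at hq
    have h1 : q.2 ∩ L = ∅ := Finset.disjoint_iff_inter_eq_empty.1 (h.mono_left hq.2)
    have h2 : q.1 ∩ U = ∅ := Finset.disjoint_iff_inter_eq_empty.1 (h.symm.mono_left hq.1)
    apply Prod.ext
    · show (q.2 ∪ q.1) ∩ L = q.1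
      rw [Finset.union_inter_distrib_right, h1, Finset.empty_union, Finset.inter_eq_left]
      exact hq.1
    · show (q.2 ∪ q.1) ∩ U = q.2
      rw [Finset.union_inter_distrib_right, h2, Finset.union_empty, Finset.inter_eq_left]
      exact hq.2
  · intro B hB
    rw [Finset.mem_powerset] at hB
    show B ∩ U ∪ B ∩ L = B
    rw [← Finset.inter_union_distrib_left, Finset.inter_eq_left]
    exact hB
  · intro q hq
    rw [Finset.mem_product, Finset.mem_powerset, Finset.mem_powerset] at hq
    have hd : Disjoint q.2 q.1 := (h.mono_left hq.2).mono_right hq.1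
    have hw : wt z (q.2 ∪ q.1) = wt z q.2 * wt z q.1 := Finset.prod_union hd
    show wt z q.1 * (wt z q.2 * _) = wt z (q.2 ∪ q.1) * _
    rw [hw]
    ring

/-- the other elements of the line -/
noncomputable def LF (M : Matroid E) (e f : E) : Finset E := ((Finset.univ.erase e).erase f) \ VF M e f

variable (hE : M.E = Set.univ) (hr : M.eRank = 4) (hef : M.Indep {e, f}) (hne : e ≠ f)

include hE hr hef hne

theorem U_eq : (Finset.univ.erase e).erase f = VF M e f ∪ LF M e f := by
  unfold LF
  symm
  apply Finset.union_sdiff_of_subset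
  intro x hx
  rw [mem_VF] at hx
  have h1 : x ≠ f := by
    rintro rfl
    exact hx (cl_mem hE (by simp))
  have h2 : x ≠ e := by
    rintro rfl
    exact hx (cl_mem hE (by simp))
  exact Finset.mem_erase.2 ⟨h1, Finset.mem_erase.2 ⟨h2, Finset.mem_univ _⟩⟩

omit hE hr hef hne in
theorem F5_memLF {x : E} (hx : x ∈ LF M e f) : x ∈ M.closure {e, f} ∧ x ≠ e ∧ x ≠ f := by
  unfold LF at hx
  rw [Finset.mem_sdiff, Finset.mem_erase, Finset.mem_erase, mem_VF, not_not] at hx
  exact ⟨hx.2, hx.1.2.1, hx.1.1⟩

omit hr hef hne in
theorem F5_ef : e ∈ M.closure {e, f} ∧ f ∈ M.closure {e, f} :=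
  ⟨cl_mem hE (by simp), cl_mem hE (by simp)⟩

omit hE hr hef hne in
theorem F5_disj : Disjoint (VF M e f) (LF M e f) := by
  unfold LF
  exact Finset.disjoint_sdiff

omit hE hr hef hne in
theorem F5_disjA {A : Finset E} (hA : A ⊆ VF M e f) : Disjoint (M.closure {e, f}) (A : Set E) := by
  rw [Set.disjoint_left]
  intro x hx hx'
  exact mem_VF.1 (hA (Finset.mem_coe.1 hx')) hx

omit hE hr hef hne in
theorem F5_wt_one (z : E → ℝ) (x : E) : wt z {x} = z x := by
  unfold MP_16c009_co.wt
  simp

omit hE hr hef hne in
theorem F5_wt_zero (z : E → ℝ) : wt z ∅ = 1 := by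
  unfold MP_16c009_co.wt
  simp

omit [Fintype E] hE hr hef hne in
theorem F5_congr (z : E → ℝ) (U : Finset E) {P Q : Finset E → Prop} {c : Prop}
    (h : ∀ A ⊆ U, P A ↔ c ∧ Q A) :
    MP_16c009_co.sp z U P = ch c * MP_16c009_co.sp z U Q := by
  unfold MP_16c009_co.sp
  rw [Finset.mul_sum]
  apply Finset.sum_congr rfl
  intro A hA
  rw [Finset.mem_powerset] at hA
  have := h A hA
  by_cases hc : c
  · rw [ch_true hc, one_mul]
    by_cases hQ : Q A
    · rw [if_pos (this.2 ⟨hc, hQ⟩), if_pos hQ]
    · rw [if_neg (fun hP => hQ (this.1 hP).2), if_neg hQ]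
  · rw [ch_false hc, zero_mul, if_neg (fun hP => hc (this.1 hP).1), mul_zero]

/-- PROOF. `U_eq`, `sp_union`. A set `A ∪ S ∪ {e, f}` with `x ∈ S ⊆ LF` is dependent (`x ∈ cl {e, f}`, `x ≠ e, f`). -/
theorem C_line : MP_16c009_co.sp z ((Finset.univ.erase e).erase f) (fun A => M.Indep ((insert e (insert f A) : Finset E) : Set E)) =
    MP_16c009_co.sp z (VF M e f) (fun A => M.Indep ((insert e (insert f A) : Finset E) : Set E)) := by
  rw [U_eq hE hr hef hne, sp_union z F5_disj, Finset.sum_eq_single ∅]
  · rw [F5_wt_zero, one_mul]
    simp only [Finset.union_empty]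
  · intro S hS hS0
    obtain ⟨x, hx⟩ := Finset.nonempty_iff_ne_empty.2 hS0
    have hxL := F5_memLF (Finset.mem_powerset.1 hS hx)
    rw [MP_16c009_co.sp_zero, mul_zero]
    intro A _ hI
    exact F5_three hI (x := e) (y := f) (w := x) (by simp) (by simp) (by simp [hx]) hne
      hxL.2.1.symm hxL.2.2.symm (F5_ef hE).1 (F5_ef hE).2 hxL.1
  · intro h
    exact absurd (Finset.empty_mem_powerset _) h

/-- at most one element of the line, `e` in the set -/
theorem F5_line_e {g : E} (hg : g ∈ M.closure {e, f}) (hgn : ∀ x ∈ LF M e f, x ≠ g)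
    (hgi : M.Indep {g}) :
    MP_16c009_co.sp z ((Finset.univ.erase e).erase f) (fun A => M.Indep ((insert g A : Finset E) : Set E)) =
    MP_16c009_co.sp z (VF M e f) (fun A => M.Indep ((insert g A : Finset E) : Set E)) +
      (∑ x ∈ LF M e f, z x * ch (x ∉ M.closure {g})) *
        MP_16c009_co.sp z (VF M e f) (fun A => M.Indep ((insert e (insert f A) : Finset E) : Set E)) := by
  rw [U_eq hE hr hef hne, sp_union z F5_disj, MP_16c009_co.lev _ _ 1, Finset.sum_range_succ,
    Finset.sum_range_one, Finset.powersetCard_zero, Finset.sum_singleton, Finset.powersetCard_one,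
    Finset.sum_map, Finset.sum_mul]
  · congr 1
    · rw [F5_wt_zero, one_mul]
      simp only [Finset.union_empty]
    · apply Finset.sum_congr rfl
      intro x hx
      have hxL := F5_memLF hx
      have hxg := hgn x hx
      show wt z {x} * _ = _
      rw [F5_wt_one, mul_assoc]
      congr 1
      apply F5_congr
      intro A hA
      show M.Indep ((insert g (A ∪ {x}) : Finset E) : Set E) ↔ _
      constructor
      · intro h
        have h1 : M.Indep (insert x {g} : Set E) := h.subset (by
          intro u hu
          simp only [Set.mem_insert_iff, Set.mem_singleton_iff] at hu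
          rcases hu with rfl | rfl
          · simp
          · simp)
        have h2 : x ∉ M.closure {g} := by
          intro h3
          have h4 := (hgi.insert_indep_iff_of_notMem (e := x) (by simpa using hxg)).1 h1
          exact h4.2 h3
        refine ⟨h2, ?_⟩
        have h5 := F5_line (e := e) (f := f) h1 hxg hxL.1 hg
        have h6 := (F5_swap h1 hef h5 (F5_disjA hA)).1 (by
          apply h.subset
          intro u hu
          simp only [Set.mem_union, Set.mem_insert_iff, Set.mem_singleton_iff, Finset.mem_coe] at hu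
          simp only [Finset.coe_insert, Finset.coe_union, Finset.coe_singleton,
            Set.mem_insert_iff, Set.mem_union, Set.mem_singleton_iff, Finset.mem_coe]
          tauto)
        apply h6.subset
        intro u hu
        simp only [Finset.coe_insert, Set.mem_insert_iff, Finset.mem_coe] at hu
        simp only [Set.mem_union, Set.mem_insert_iff, Set.mem_singleton_iff, Finset.mem_coe]
        tauto
      · rintro ⟨h2, h⟩
        have h1 : M.Indep (insert x {g} : Set E) :=
          (hgi.insert_indep_iff_of_notMem (e := x) (by simpa using hxg)).2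
            ⟨by rw [hE]; exact Set.mem_univ _, h2⟩
        have h5 := F5_line (e := e) (f := f) h1 hxg hxL.1 hg
        have h6 := (F5_swap h1 hef h5 (F5_disjA hA)).2 (by
          apply h.subset
          intro u hu
          simp only [Set.mem_union, Set.mem_insert_iff, Set.mem_singleton_iff, Finset.mem_coe] at hu
          simp only [Finset.coe_insert, Set.mem_insert_iff, Finset.mem_coe]
          tauto)
        apply h6.subset
        intro u hu
        simp only [Finset.coe_insert, Finset.coe_union, Finset.coe_singleton,
          Set.mem_insert_iff, Set.mem_union, Set.mem_singleton_iff, Finset.mem_coe] at hu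
        simp only [Set.mem_union, Set.mem_insert_iff, Set.mem_singleton_iff, Finset.mem_coe]
        tauto
  · intro S hS hc
    obtain ⟨x, hx, y, hy, hxy⟩ := Finset.one_lt_card.1 hc
    have hxL := F5_memLF (hS hx)
    have hyL := F5_memLF (hS hy)
    rw [MP_16c009_co.sp_zero, mul_zero]
    intro A _ hI
    exact F5_three hI (x := g) (y := x) (w := y) (by simp) (by simp [hx]) (by simp [hy])
      (hgn x (hS hx)).symm (hgn y (hS hy)).symm hxy hg hxL.1 hyL.1

/-- PROOF. `U_eq`, `sp_union`. `A ∪ S ∪ {e}` is dependent if `S` has two elements (three elements in `cl {e, f}`, rank two). For `S = {x}`: if `x ∈ cl {e}` it is dependent, otherwise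
`cl {e, x} = cl {e, f}` and `A ∪ {x, e}` is independent iff `A ∪ {e, f}` is (for `A ⊆ VF`; `x, e, f ∉ A`): both are independent iff the rank of the set is its cardinality, and the closures are equal. -/
theorem A_line : MP_16c009_co.sp z ((Finset.univ.erase e).erase f) (fun A => M.Indep ((insert e A : Finset E) : Set E)) =
    MP_16c009_co.sp z (VF M e f) (fun A => M.Indep ((insert e A : Finset E) : Set E)) +
      (∑ x ∈ LF M e f, z x * ch (x ∉ M.closure {e})) *
        MP_16c009_co.sp z (VF M e f) (fun A => M.Indep ((insert e (insert f A) : Finset E) : Set E)) :=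
  F5_line_e hE hr hef hne (F5_ef hE).1 (fun _ hx => (F5_memLF hx).2.1) (hef.subset (by simp))

theorem B_line : MP_16c009_co.sp z ((Finset.univ.erase e).erase f) (fun A => M.Indep ((insert f A : Finset E) : Set E)) =
    MP_16c009_co.sp z (VF M e f) (fun A => M.Indep ((insert f A : Finset E) : Set E)) +
      (∑ x ∈ LF M e f, z x * ch (x ∉ M.closure {f})) *
        MP_16c009_co.sp z (VF M e f) (fun A => M.Indep ((insert e (insert f A) : Finset E) : Set E)) :=
  F5_line_e hE hr hef hne (F5_ef hE).2 (fun _ hx => (F5_memLF hx).2.2) (hef.subset (by simp))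

/-- PROOF. `U_eq`, `sp_union`; `S` with at least three elements: dependent. `S = {x, y}`: `A ∪ {x, y}` is independent iff `{x, y}` is independent and `A ∪ {e, f}` is (`cl {x, y} = cl {e, f}` if `{x, y}` is
independent). -/
theorem D_line : MP_16c009_co.sp z ((Finset.univ.erase e).erase f) (fun A => M.Indep (A : Set E)) =
    MP_16c009_co.sp z (VF M e f) (fun A => M.Indep (A : Set E)) +
      (∑ x ∈ LF M e f, z x * MP_16c009_co.sp z (VF M e f) (fun A => M.Indep ((insert x A : Finset E) : Set E))) +
      (∑ S ∈ (LF M e f).powersetCard 2, wt z S * ch (M.Indep (S : Set E))) *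
        MP_16c009_co.sp z (VF M e f) (fun A => M.Indep ((insert e (insert f A) : Finset E) : Set E)) := by
  rw [U_eq hE hr hef hne, sp_union z F5_disj, MP_16c009_co.lev _ _ 2, Finset.sum_range_succ,
    Finset.sum_range_succ, Finset.sum_range_one, Finset.powersetCard_zero, Finset.sum_singleton,
    Finset.powersetCard_one, Finset.sum_map, Finset.sum_mul]
  · congr 1
    · congr 1
      · rw [F5_wt_zero, one_mul]
        simp only [Finset.union_empty]
      · apply Finset.sum_congr rfl
        intro x hx
        show wt z {x} * MP_16c009_co.sp z (VF M e f) (fun A => M.Indep ((A ∪ {x} : Finset E) : Set E)) = _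
        rw [F5_wt_one]
        simp only [Finset.union_comm _ ({x} : Finset E), ← Finset.insert_eq]
    · apply Finset.sum_congr rfl
      intro S hS
      rw [Finset.mem_powersetCard] at hS
      rw [mul_assoc]
      congr 1
      apply F5_congr
      intro A hA
      obtain ⟨x, y, hxy, rfl⟩ := Finset.card_eq_two.1 hS.2
      have hxL := F5_memLF (hS.1 (show x ∈ ({x, y} : Finset E) by simp))
      have hyL := F5_memLF (hS.1 (show y ∈ ({x, y} : Finset E) by simp))
      have hco : (({x, y} : Finset E) : Set E) = {x, y} := by simp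
      rw [hco]
      constructor
      · intro h
        have h1 : M.Indep ({x, y} : Set E) := h.subset (by
          intro u hu
          simp only [Set.mem_insert_iff, Set.mem_singleton_iff] at hu
          rcases hu with rfl | rfl
          · simp
          · simp)
        refine ⟨h1, ?_⟩
        have h5 := F5_line (e := e) (f := f) h1 hxy hxL.1 hyL.1
        have h6 := (F5_swap h1 hef h5 (F5_disjA hA)).1 (by
          rw [Finset.coe_union, hco] at h
          exact h)
        apply h6.subset
        intro u hu
        simp only [Finset.coe_insert, Set.mem_insert_iff, Finset.mem_coe] at hu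
        simp only [Set.mem_union, Set.mem_insert_iff, Set.mem_singleton_iff, Finset.mem_coe]
        tauto
      · rintro ⟨h1, h⟩
        have h5 := F5_line (e := e) (f := f) h1 hxy hxL.1 hyL.1
        have h6 := (F5_swap h1 hef h5 (F5_disjA hA)).2 (by
          apply h.subset
          intro u hu
          simp only [Set.mem_union, Set.mem_insert_iff, Set.mem_singleton_iff, Finset.mem_coe] at hu
          simp only [Finset.coe_insert, Set.mem_insert_iff, Finset.mem_coe]
          tauto)
        rw [Finset.coe_union, hco]
        exact h6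
  · intro S hS hc
    obtain ⟨x, y, w, hx, hy, hw, hxy, hxw, hyw⟩ := Finset.two_lt_card_iff.1 hc
    have hxL := F5_memLF (hS hx)
    have hyL := F5_memLF (hS hy)
    have hwL := F5_memLF (hS hw)
    rw [MP_16c009_co.sp_zero, mul_zero]
    intro A _ hI
    exact F5_three hI (x := x) (y := y) (w := w) (by simp [hx]) (by simp [hy]) (by simp [hw])
      hxy hxw hyw hxL.1 hyL.1 hwL.1

end Pool.Agent.Lib.MP_16c009_coR
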