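import Pool.Agent.Lib.MP_16c009_coR.F5
import Pool.Agent.Lib.MP_16c009_co.PavFinal

/-!
# The elements on the line of `e`, `f`, part two
-/

set_option autoImplicit false

open Finset

namespace Pool.Agent.Lib.MP_16c009_coR

open Pool.Agent.Lib.MP_16c009_co (wt)

variable {E : Type*} [Fintype E] [DecidableEq E] {M : Matroid E} {e f : E} {z : E → ℝ}

theorem F5b_ins (hE : M.E = Set.univ) {X : Set E} {x : E} (hx : x ∉ X) :
    M.Indep (insert x X) ↔ M.Indep X ∧ x ∉ M.closure X := by
  constructor
  · intro h
    have h1 : M.Indep X := h.subset (Set.subset_insert _ _)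
    exact ⟨h1, (h1.notMem_closure_iff_of_notMem hx (by rw [hE]; trivial)).2 h⟩
  · rintro ⟨h1, h2⟩
    exact (h1.notMem_closure_iff_of_notMem hx (by rw [hE]; trivial)).1 h2

theorem F5b_sp (z : E → ℝ) (U : Finset E) (Q : Finset E → Prop) :
    MP_16c009_co.sp z U Q = ∑ A ∈ U.powerset, wt z A * ch (Q A) := by
  unfold MP_16c009_co.sp ch
  rfl

theorem F5b_lim (z : E → ℝ) (V U : Finset E) (hVU : V ⊆ U) (Q : Finset E → Prop) :
    Filter.Tendsto (fun t : ℝ => MP_16c009_co.sp (fun a => if a ∈ V then z a else t) U Q) (nhdsWithin 0 (Set.Ioi 0))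
      (nhds (MP_16c009_co.sp z V Q)) := by
  have h0 : MP_16c009_co.sp (fun a => if a ∈ V then z a else (0 : ℝ)) U Q = MP_16c009_co.sp z V Q := by
    rw [F5b_sp, F5b_sp]
    have hsub : V.powerset ⊆ U.powerset := Finset.powerset_mono.2 hVU
    rw [← Finset.sum_subset hsub]
    · refine Finset.sum_congr rfl fun A hA => ?_
      rw [Finset.mem_powerset] at hA
      congr 1
      unfold MP_16c009_co.wt
      exact Finset.prod_congr rfl fun x hx => if_pos (hA hx)
    · intro A _ hA
      rw [Finset.mem_powerset, Finset.not_subset] at hA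
      obtain ⟨x, hx, hxV⟩ := hA
      unfold MP_16c009_co.wt
      rw [Finset.prod_eq_zero hx (if_neg hxV), zero_mul]
  have hc : Continuous (fun t : ℝ => MP_16c009_co.sp (fun a => if a ∈ V then z a else t) U Q) := by
    simp only [F5b_sp]
    refine continuous_finsetSum _ fun A _ => Continuous.mul ?_ continuous_const
    unfold MP_16c009_co.wt
    refine continuous_finsetProd _ fun x _ => ?_
    by_cases hx : x ∈ V
    · simp only [if_pos hx]
      exact continuous_const
    · simp only [if_neg hx]
      exact continuous_id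
  have h1 := (hc.tendsto 0).mono_left (nhdsWithin_le_nhds (s := Set.Ioi (0 : ℝ)))
  rw [h0] at h1
  exact h1

theorem F5b_both (hE : M.E = Set.univ) (hef : M.Indep {e, f}) (hne : e ≠ f) {x : E}
    (h1 : x ∈ M.closure {e}) (h2 : x ∈ M.closure {f}) : x ∈ M.closure ∅ := by
  by_contra hx
  have h3 : e ∈ M.closure (insert x ∅) := Matroid.mem_closure_insert hx (by rw [insert_empty_eq]; exact h1)
  have h4 : M.closure (insert x ∅) ⊆ M.closure {f} := by
    apply M.closure_subset_closure_of_subset_closure
    rw [insert_empty_eq]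
    exact Set.singleton_subset_iff.2 h2
  have h5 := ((F5b_ins hE (X := {f}) (x := e) (by rw [Set.mem_singleton_iff]; exact hne)).1 hef).2
  exact h5 (h4 h3)

theorem F5b_LF {x : E} (hx : x ∈ LF M e f) : x ≠ e ∧ x ≠ f ∧ x ∈ M.closure {e, f} := by
  unfold LF at hx
  rw [Finset.mem_sdiff, Finset.mem_erase, Finset.mem_erase, mem_VF, not_not] at hx
  exact ⟨hx.1.2.1, hx.1.1, hx.2⟩

variable (hE : M.E = Set.univ) (hr : M.eRank = 4) (hef : M.Indep {e, f}) (hne : e ≠ f)

include hE hr hef hne

/-- One element of the line. PROOF. If `x ∈ cl ∅`: the left side is zero. If `x ∈ cl {e}`, not a loop: then `x ∉ cl {f}`, and `A ∪ {x}` is independent iff `A ∪ {e}` is. In the same way if `x ∈ cl {f}`.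
Otherwise pointwise for `A ⊆ VF`: if `A ∪ {x}` is independent then `A ∪ {e}` or `A ∪ {f}` is independent, because otherwise `e, f ∈ cl A`, so `x ∈ cl A`. -/
theorem Dx_le (hz : ∀ a, 0 < z a) {x : E} (hx : x ∈ LF M e f) :
    MP_16c009_co.sp z (VF M e f) (fun A => M.Indep ((insert x A : Finset E) : Set E)) ≤
      ch (x ∉ M.closure {f}) * MP_16c009_co.sp z (VF M e f) (fun A => M.Indep ((insert e A : Finset E) : Set E)) +
      ch (x ∉ M.closure {e}) * MP_16c009_co.sp z (VF M e f) (fun A => M.Indep ((insert f A : Finset E) : Set E)) := by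
  have hx' := F5b_LF hx
  rw [F5b_sp, F5b_sp, F5b_sp, Finset.mul_sum, Finset.mul_sum, ← Finset.sum_add_distrib]
  refine Finset.sum_le_sum fun A hA => ?_
  rw [Finset.mem_powerset] at hA
  have hw : 0 ≤ wt z A := MP_16c009_co.wt_nonneg (fun a => (hz a).le) A
  have key : ch (M.Indep ((insert x A : Finset E) : Set E)) ≤
      ch (x ∉ M.closure {f}) * ch (M.Indep ((insert e A : Finset E) : Set E)) +
      ch (x ∉ M.closure {e}) * ch (M.Indep ((insert f A : Finset E) : Set E)) := by
    have n1 := mul_nonneg (ch_nonneg (x ∉ M.closure {f})) (ch_nonneg (M.Indep ((insert e A : Finset E) : Set E)))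
    have n2 := mul_nonneg (ch_nonneg (x ∉ M.closure {e})) (ch_nonneg (M.Indep ((insert f A : Finset E) : Set E)))
    by_cases h : M.Indep ((insert x A : Finset E) : Set E)
    · rw [ch_true h]
      have hxA : x ∉ (A : Set E) := fun h1 => mem_VF.1 (hA (Finset.mem_coe.1 h1)) hx'.2.2
      have heA : e ∉ (A : Set E) := fun h1 => mem_VF.1 (hA (Finset.mem_coe.1 h1)) (cl_mem hE (by simp))
      have hfA : f ∉ (A : Set E) := fun h1 => mem_VF.1 (hA (Finset.mem_coe.1 h1)) (cl_mem hE (by simp))
      rw [Finset.coe_insert, F5b_ins hE hxA] at h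
      have hxcl := h.2
      have hor : e ∉ M.closure (A : Set E) ∨ f ∉ M.closure (A : Set E) := by
        by_contra hc
        push Not at hc
        refine hxcl (M.closure_subset_closure_of_subset_closure ?_ hx'.2.2)
        intro y hy
        rcases hy with rfl | hy
        · exact hc.1
        · rw [Set.mem_singleton_iff] at hy
          rw [hy]
          exact hc.2
      have hnl : x ∉ M.closure ∅ := fun h1 => hxcl (M.closure_subset_closure (Set.empty_subset _) h1)
      have sE : x ∈ M.closure {e} → e ∉ M.closure (A : Set E) := fun h1 h2 =>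
        hxcl (M.closure_subset_closure_of_subset_closure (Set.singleton_subset_iff.2 h2) h1)
      have sF : x ∈ M.closure {f} → f ∉ M.closure (A : Set E) := fun h1 h2 =>
        hxcl (M.closure_subset_closure_of_subset_closure (Set.singleton_subset_iff.2 h2) h1)
      have tE : e ∉ M.closure (A : Set E) → ch (M.Indep ((insert e A : Finset E) : Set E)) = 1 := by
        intro h1
        apply ch_true
        rw [Finset.coe_insert, F5b_ins hE heA]
        exact ⟨h.1, h1⟩
      have tF : f ∉ M.closure (A : Set E) → ch (M.Indep ((insert f A : Finset E) : Set E)) = 1 := by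
        intro h1
        apply ch_true
        rw [Finset.coe_insert, F5b_ins hE hfA]
        exact ⟨h.1, h1⟩
      by_cases h1 : x ∈ M.closure {e}
      · have h2 : x ∉ M.closure {f} := fun h2 => hnl (F5b_both hE hef hne h1 h2)
        rw [ch_true h2, tE (sE h1)]
        rw [ch_true h2, tE (sE h1)] at n1
        linarith
      · by_cases h2 : x ∈ M.closure {f}
        · rw [ch_true h1, tF (sF h2)]
          linarith
        · rcases hor with h3 | h3
          · rw [ch_true h2, tE h3]
            linarith
          · rw [ch_true h1, tF h3]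
            linarith
    · rw [ch_false h]
      linarith
  calc wt z A * ch (M.Indep ((insert x A : Finset E) : Set E))
      ≤ wt z A * (ch (x ∉ M.closure {f}) * ch (M.Indep ((insert e A : Finset E) : Set E)) +
      ch (x ∉ M.closure {e}) * ch (M.Indep ((insert f A : Finset E) : Set E))) := mul_le_mul_of_nonneg_left key hw
    _ = _ := by ring

/-- PROOF. The product of the two sums is the sum over all `(x, y)`; the two orders of the elements of an independent pair `S = {x, y}`: one of
`ch (x ∉ cl {e}) * ch (y ∉ cl {f})`, `ch (y ∉ cl {e}) * ch (x ∉ cl {f})` is one, since not both `x, y ∈ cl {e}`, not both in `cl {f}`, and `x` is not in both. -/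
theorem pair_le (hz : ∀ a, 0 < z a) :
    (∑ S ∈ (LF M e f).powersetCard 2, wt z S * ch (M.Indep (S : Set E))) ≤
      (∑ x ∈ LF M e f, z x * ch (x ∉ M.closure {e})) * (∑ x ∈ LF M e f, z x * ch (x ∉ M.closure {f})) := by
  have e1 : (∑ S ∈ (LF M e f).powersetCard 2, wt z S * ch (M.Indep (S : Set E))) =
      (1 / 2) * J2 (V := {x // x ∈ LF M e f}) (fun x => z x)
        (fun a b => ch ((a : E) ≠ b ∧ M.Indep (({(a : E), (b : E)} : Finset E) : Set E))) :=
    sc_two z (LF M e f) (fun S => M.Indep (S : Set E))
  have e2 : ∀ g : E → ℝ, (∑ x ∈ LF M e f, z x * g x) = I (V := {x // x ∈ LF M e f}) (fun x => z x) (fun a => g a) := by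
    intro g
    unfold I
    exact (Finset.sum_coe_sort (LF M e f) (fun x => z x * g x)).symm
  rw [e1, e2 (fun x => ch (x ∉ M.closure {e})), e2 (fun x => ch (x ∉ M.closure {f}))]
  have hzz : ∀ a : {x // x ∈ LF M e f}, 0 ≤ (fun x : {x // x ∈ LF M e f} => z x) a := fun a => (hz a).le
  have h1 : J2 (V := {x // x ∈ LF M e f}) (fun x => z x)
        (fun a b => ch ((a : E) ≠ b ∧ M.Indep (({(a : E), (b : E)} : Finset E) : Set E))) ≤
      J2 (V := {x // x ∈ LF M e f}) (fun x => z x)
        (fun a b => ch ((a : E) ∉ M.closure {e}) * ch ((b : E) ∉ M.closure {f}) +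
          ch ((b : E) ∉ M.closure {e}) * ch ((a : E) ∉ M.closure {f})) := by
    apply J2_mono hzz
    intro a b
    have n1 := mul_nonneg (ch_nonneg ((a : E) ∉ M.closure {e})) (ch_nonneg ((b : E) ∉ M.closure {f}))
    have n2 := mul_nonneg (ch_nonneg ((b : E) ∉ M.closure {e})) (ch_nonneg ((a : E) ∉ M.closure {f}))
    by_cases h : (a : E) ≠ b ∧ M.Indep (({(a : E), (b : E)} : Finset E) : Set E)
    · rw [ch_true h]
      obtain ⟨hab, hi⟩ := h
      rw [Finset.coe_insert, Finset.coe_singleton] at hi
      have hba : M.Indep {(b : E), (a : E)} := by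
        rw [Set.pair_comm]
        exact hi
      have i1 := (F5b_ins hE (X := {(b : E)}) (x := (a : E)) (by rw [Set.mem_singleton_iff]; exact hab)).1 hi
      have i2 := (F5b_ins hE (X := {(a : E)}) (x := (b : E)) (by rw [Set.mem_singleton_iff]; exact fun h => hab h.symm)).1 hba
      have la : (a : E) ∉ M.closure ∅ := fun h => i1.2 (M.closure_subset_closure (Set.empty_subset _) h)
      have lb : (b : E) ∉ M.closure ∅ := fun h => i2.2 (M.closure_subset_closure (Set.empty_subset _) h)
      have two : ∀ y : E, (a : E) ∈ M.closure {y} → (b : E) ∈ M.closure {y} → False := by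
        intro y ha hb
        have h3 : y ∈ M.closure (insert (a : E) ∅) :=
          Matroid.mem_closure_insert la (by rw [insert_empty_eq]; exact ha)
        rw [insert_empty_eq] at h3
        exact i2.2 (M.closure_subset_closure_of_subset_closure (Set.singleton_subset_iff.2 h3) hb)
      have ba : ¬ ((a : E) ∈ M.closure {e} ∧ (a : E) ∈ M.closure {f}) := fun h => la (F5b_both hE hef hne h.1 h.2)
      have bb : ¬ ((b : E) ∈ M.closure {e} ∧ (b : E) ∈ M.closure {f}) := fun h => lb (F5b_both hE hef hne h.1 h.2)
      by_cases h1 : (a : E) ∈ M.closure {e}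
      · have h2 : (b : E) ∉ M.closure {e} := fun h => two e h1 h
        have h3 : (a : E) ∉ M.closure {f} := fun h => ba ⟨h1, h⟩
        rw [ch_true h2, ch_true h3]
        linarith
      · by_cases h2 : (b : E) ∈ M.closure {f}
        · have h3 : (a : E) ∉ M.closure {f} := fun h => two f h h2
          have h4 : (b : E) ∉ M.closure {e} := fun h => bb ⟨h, h2⟩
          rw [ch_true h3, ch_true h4]
          linarith
        · rw [ch_true h1, ch_true h2]
          linarith
    · rw [ch_false h]
      linarith
  have h2 : J2 (V := {x // x ∈ LF M e f}) (fun x => z x)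
        (fun a b => ch ((a : E) ∉ M.closure {e}) * ch ((b : E) ∉ M.closure {f})) =
      I (V := {x // x ∈ LF M e f}) (fun x => z x) (fun a => ch ((a : E) ∉ M.closure {e})) *
      I (V := {x // x ∈ LF M e f}) (fun x => z x) (fun a => ch ((a : E) ∉ M.closure {f})) := by
    unfold J2
    rw [I_mul]
    refine I_congr fun a => ?_
    rw [← mul_I]
  have h3 : J2 (V := {x // x ∈ LF M e f}) (fun x => z x)
        (fun a b => ch ((b : E) ∉ M.closure {e}) * ch ((a : E) ∉ M.closure {f})) =
      I (V := {x // x ∈ LF M e f}) (fun x => z x) (fun a => ch ((a : E) ∉ M.closure {e})) *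
      I (V := {x // x ∈ LF M e f}) (fun x => z x) (fun a => ch ((a : E) ∉ M.closure {f})) := by
    unfold J2
    rw [mul_I]
    refine I_congr fun a => ?_
    rw [← I_mul]
  rw [J2_add, h2, h3] at h1
  linarith

/-- The Rayleigh inequality for the elements outside the line. PROOF. For `t > 0` apply `hR` to the weights `w t a = z a` for `a ∈ VF M e f`, `w t a = t` otherwise. The four sums `MP_16c009_co.sp (w t) U Q` with
`U = (univ.erase e).erase f` are continuous in `t` (polynomials: finite sums of products), and at `t = 0` they are `MP_16c009_co.sp z (VF M e f) Q` (the sets which contain an element outside `VF` have weight zero). Let `t → 0+`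
(`ge_of_tendsto`, `nhdsWithin`). -/
theorem ray_line (hz : ∀ a, 0 < z a)
    (hR : ∀ w : E → ℝ, (∀ a, 0 < w a) →
      MP_16c009_co.sp w ((Finset.univ.erase e).erase f) (fun A => M.IsBase ((insert e (insert f A) : Finset E) : Set E)) *
        MP_16c009_co.sp w ((Finset.univ.erase e).erase f) (fun A => M.IsBase (A : Set E)) ≤
      MP_16c009_co.sp w ((Finset.univ.erase e).erase f) (fun A => M.IsBase ((insert e A : Finset E) : Set E)) *
        MP_16c009_co.sp w ((Finset.univ.erase e).erase f) (fun A => M.IsBase ((insert f A : Finset E) : Set E))) :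
    MP_16c009_co.sp z (VF M e f) (fun A => M.IsBase ((insert e (insert f A) : Finset E) : Set E)) *
        MP_16c009_co.sp z (VF M e f) (fun A => M.IsBase (A : Set E)) ≤
      MP_16c009_co.sp z (VF M e f) (fun A => M.IsBase ((insert e A : Finset E) : Set E)) *
        MP_16c009_co.sp z (VF M e f) (fun A => M.IsBase ((insert f A : Finset E) : Set E)) := by
  classical
  have hsub : VF M e f ⊆ (Finset.univ.erase e).erase f := by
    intro x hx
    rw [mem_VF] at hx
    rw [Finset.mem_erase, Finset.mem_erase]
    refine ⟨?_, ?_, Finset.mem_univ _⟩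
    · rintro rfl
      exact hx (cl_mem hE (by simp))
    · rintro rfl
      exact hx (cl_mem hE (by simp))
  have hlim := F5b_lim z (VF M e f) ((Finset.univ.erase e).erase f) hsub
  have h1 := ((hlim (fun A => M.IsBase ((insert e (insert f A) : Finset E) : Set E))).mul
    (hlim (fun A => M.IsBase (A : Set E))))
  have h2 := ((hlim (fun A => M.IsBase ((insert e A : Finset E) : Set E))).mul
    (hlim (fun A => M.IsBase ((insert f A : Finset E) : Set E))))
  refine le_of_tendsto_of_tendsto h1 h2 ?_
  filter_upwards [self_mem_nhdsWithin] with t ht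
  refine hR _ fun a => ?_
  by_cases ha : a ∈ VF M e f
  · rw [if_pos ha]
    exact hz a
  · rw [if_neg ha]
    exact ht

/-- PROOF. `C_line`, `A_line`, `B_line`, `D_line`; with `A, B, C, D` the sums over the subsets of `VF`, `a, b, p` the sums over the line:
`(A + a C) (B + b C) - C (D + ∑ z x * D x + p C) = (A B - C D) + C * ∑ z x * (ch (x ∉ cl {f}) * A + ch (x ∉ cl {e}) * B - D x) + C ^ 2 * (a b - p)`, `line0` (with `ray_line`), `Dx_le`, `pair_le`. -/
theorem line_all (hz : ∀ a, 0 < z a)
    (hR : ∀ w : E → ℝ, (∀ a, 0 < w a) →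
      MP_16c009_co.sp w ((Finset.univ.erase e).erase f) (fun A => M.IsBase ((insert e (insert f A) : Finset E) : Set E)) *
        MP_16c009_co.sp w ((Finset.univ.erase e).erase f) (fun A => M.IsBase (A : Set E)) ≤
      MP_16c009_co.sp w ((Finset.univ.erase e).erase f) (fun A => M.IsBase ((insert e A : Finset E) : Set E)) *
        MP_16c009_co.sp w ((Finset.univ.erase e).erase f) (fun A => M.IsBase ((insert f A : Finset E) : Set E))) :
    MP_16c009_co.sp z ((Finset.univ.erase e).erase f) (fun A => M.Indep ((insert e (insert f A) : Finset E) : Set E)) *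
        MP_16c009_co.sp z ((Finset.univ.erase e).erase f) (fun A => M.Indep (A : Set E)) ≤
      MP_16c009_co.sp z ((Finset.univ.erase e).erase f) (fun A => M.Indep ((insert e A : Finset E) : Set E)) *
        MP_16c009_co.sp z ((Finset.univ.erase e).erase f) (fun A => M.Indep ((insert f A : Finset E) : Set E)) := by
  have h0 := line0 hE hr hef hne hz (ray_line hE hr hef hne hz hR)
  have hp := pair_le hE hr hef hne hz
  have hC : 0 ≤ MP_16c009_co.sp z (VF M e f) (fun A => M.Indep ((insert e (insert f A) : Finset E) : Set E)) :=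
    MP_16c009_co.sp_nonneg (fun a => (hz a).le) _ _
  have hS : (∑ x ∈ LF M e f, z x * MP_16c009_co.sp z (VF M e f) (fun A => M.Indep ((insert x A : Finset E) : Set E))) ≤
      (∑ x ∈ LF M e f, z x * ch (x ∉ M.closure {f})) *
        MP_16c009_co.sp z (VF M e f) (fun A => M.Indep ((insert e A : Finset E) : Set E)) +
      (∑ x ∈ LF M e f, z x * ch (x ∉ M.closure {e})) *
        MP_16c009_co.sp z (VF M e f) (fun A => M.Indep ((insert f A : Finset E) : Set E)) := by
    rw [Finset.sum_mul, Finset.sum_mul, ← Finset.sum_add_distrib]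
    refine Finset.sum_le_sum fun x hx => ?_
    have h1 := mul_le_mul_of_nonneg_left (Dx_le hE hr hef hne hz hx) (hz x).le
    linarith
  rw [C_line hE hr hef hne, A_line hE hr hef hne, B_line hE hr hef hne, D_line hE hr hef hne]
  generalize MP_16c009_co.sp z (VF M e f) (fun A => M.Indep ((insert e (insert f A) : Finset E) : Set E)) = C at *
  generalize MP_16c009_co.sp z (VF M e f) (fun A => M.Indep ((insert e A : Finset E) : Set E)) = A at *
  generalize MP_16c009_co.sp z (VF M e f) (fun A => M.Indep ((insert f A : Finset E) : Set E)) = B at *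
  generalize MP_16c009_co.sp z (VF M e f) (fun A => M.Indep (A : Set E)) = D at *
  generalize (∑ x ∈ LF M e f, z x * MP_16c009_co.sp z (VF M e f) (fun A => M.Indep ((insert x A : Finset E) : Set E))) = S at *
  generalize (∑ x ∈ LF M e f, z x * ch (x ∉ M.closure {e})) = a at *
  generalize (∑ x ∈ LF M e f, z x * ch (x ∉ M.closure {f})) = b at *
  generalize (∑ S ∈ (LF M e f).powersetCard 2, wt z S * ch (M.Indep (S : Set E))) = p at *
  have k1 := mul_nonneg hC (sub_nonneg.2 hS)
  have k2 := mul_nonneg (mul_nonneg hC hC) (sub_nonneg.2 hp)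
  nlinarith [k1, k2, h0]

end Pool.Agent.Lib.MP_16c009_coR
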