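import Pool.Agent.Lib.MP_16c009_coR.F5b

/-!
# Rayleigh matroids of rank four are independence-correlated
-/

set_option autoImplicit false

open Classical

namespace Pool.Agent.Lib.MP_16c009_coR

open Pool.Agent.Lib.MP_16c009_co (wt corr base_nonneg)

variable {E : Type*} [Fintype E] [DecidableEq E] {M : Matroid E}

/-- PROOF. If `{e, f}` is dependent then no independent set contains `e` and `f`: the right factor is zero, the left side is nonnegative. Otherwise `corr` (of
`MP_16c009_co/PavHPP.lean`) for `Q A = M.Indep A` and for `Q A = M.IsBase A` (all weights `w`; `z e * z f > 0`), and `line_all`. -/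
theorem rank_four_rayleigh (hE : M.E = Set.univ) (hr : M.eRank = 4) {e f : E} (hef : e ≠ f)
    (hM : ∀ z : E → ℝ, (∀ a, 0 < z a) →
      (∑ A ∈ (Finset.univ : Finset (Finset E)).filter (fun A : Finset E => M.IsBase (A : Set E) ∧ e ∈ A), ∏ a ∈ A, z a) *
        (∑ A ∈ (Finset.univ : Finset (Finset E)).filter (fun A : Finset E => M.IsBase (A : Set E) ∧ f ∈ A), ∏ a ∈ A, z a) ≥
      (∑ A ∈ (Finset.univ : Finset (Finset E)).filter (fun A : Finset E => M.IsBase (A : Set E) ∧ e ∈ A ∧ f ∈ A),
          ∏ a ∈ A, z a) *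
        (∑ A ∈ (Finset.univ : Finset (Finset E)).filter (fun A : Finset E => M.IsBase (A : Set E)), ∏ a ∈ A, z a))
    (z : E → ℝ) (hz : ∀ a, 0 < z a) :
    (∑ A ∈ (Finset.univ : Finset (Finset E)).filter (fun A : Finset E => M.Indep (A : Set E) ∧ e ∈ A), ∏ a ∈ A, z a) *
      (∑ A ∈ (Finset.univ : Finset (Finset E)).filter (fun A : Finset E => M.Indep (A : Set E) ∧ f ∈ A), ∏ a ∈ A, z a) ≥
    (∑ A ∈ (Finset.univ : Finset (Finset E)).filter (fun A : Finset E => M.Indep (A : Set E) ∧ e ∈ A ∧ f ∈ A),
        ∏ a ∈ A, z a) *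
      (∑ A ∈ (Finset.univ : Finset (Finset E)).filter (fun A : Finset E => M.Indep (A : Set E)), ∏ a ∈ A, z a) := by
  by_cases hef2 : M.Indep ({e, f} : Set E)
  · have hR : ∀ w : E → ℝ, (∀ a, 0 < w a) →
        MP_16c009_co.sp w ((Finset.univ.erase e).erase f) (fun A => M.IsBase ((insert e (insert f A) : Finset E) : Set E)) *
          MP_16c009_co.sp w ((Finset.univ.erase e).erase f) (fun A => M.IsBase (A : Set E)) ≤
        MP_16c009_co.sp w ((Finset.univ.erase e).erase f) (fun A => M.IsBase ((insert e A : Finset E) : Set E)) *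
          MP_16c009_co.sp w ((Finset.univ.erase e).erase f) (fun A => M.IsBase ((insert f A : Finset E) : Set E)) := by
      intro w hw
      have h1 := hM w hw
      have h2 := corr hef w (fun A : Finset E => M.IsBase (A : Set E))
      have h3 : 0 < w e * w f := mul_pos (hw e) (hw f)
      by_contra hcon
      push Not at hcon
      have h4 : w e * w f *
          (MP_16c009_co.sp w ((Finset.univ.erase e).erase f) (fun A => M.IsBase ((insert e A : Finset E) : Set E)) *
            MP_16c009_co.sp w ((Finset.univ.erase e).erase f) (fun A => M.IsBase ((insert f A : Finset E) : Set E)) -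
          MP_16c009_co.sp w ((Finset.univ.erase e).erase f) (fun A => M.IsBase ((insert e (insert f A) : Finset E) : Set E)) *
            MP_16c009_co.sp w ((Finset.univ.erase e).erase f) (fun A => M.IsBase (A : Set E))) < 0 :=
        mul_neg_of_pos_of_neg h3 (by linarith)
      rw [← h2] at h4
      linarith
    have h5 := line_all hE hr hef2 hef hz hR
    have h6 := corr hef z (fun A : Finset E => M.Indep (A : Set E))
    have h7 : 0 < z e * z f := mul_pos (hz e) (hz f)
    have h8 : 0 ≤ z e * z f *
        (MP_16c009_co.sp z ((Finset.univ.erase e).erase f) (fun A => M.Indep ((insert e A : Finset E) : Set E)) *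
          MP_16c009_co.sp z ((Finset.univ.erase e).erase f) (fun A => M.Indep ((insert f A : Finset E) : Set E)) -
        MP_16c009_co.sp z ((Finset.univ.erase e).erase f) (fun A => M.Indep ((insert e (insert f A) : Finset E) : Set E)) *
          MP_16c009_co.sp z ((Finset.univ.erase e).erase f) (fun A => M.Indep (A : Set E))) :=
      mul_nonneg h7.le (by linarith)
    rw [← h6] at h8
    linarith
  · have h0 : (Finset.univ : Finset (Finset E)).filter
        (fun A : Finset E => M.Indep (A : Set E) ∧ e ∈ A ∧ f ∈ A) = ∅ := by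
      apply Finset.filter_eq_empty_iff.mpr
      rintro A - ⟨hA, heA, hfA⟩
      apply hef2
      apply hA.subset
      intro x hx
      rcases hx with hx | hx
      · rw [hx]; exact heA
      · rw [hx]; exact hfA
    rw [h0, Finset.sum_empty, zero_mul]
    apply mul_nonneg
    · exact Finset.sum_nonneg fun A _ => Finset.prod_nonneg fun a _ => (hz a).le
    · exact Finset.sum_nonneg fun A _ => Finset.prod_nonneg fun a _ => (hz a).le

/-- PROOF. `base_nonneg` (of `MP_16c009_co/PavFinal.lean`, unfold `cd`) and `rank_four_rayleigh`. -/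
theorem rank_four_hpp (hE : M.E = Set.univ) (hr : M.eRank = 4)
    (hpp : ∀ x : E → ℂ, (∀ a, 0 < (x a).re) →
      (∑ S ∈ (Finset.univ : Finset (Finset E)).filter (fun S : Finset E => M.IsBase (S : Set E)), ∏ a ∈ S, x a) ≠ 0)
    {e f : E} (hef : e ≠ f) (z : E → ℝ) (hz : ∀ a, 0 < z a) :
    (∑ A ∈ (Finset.univ : Finset (Finset E)).filter (fun A : Finset E => M.Indep (A : Set E) ∧ e ∈ A), ∏ a ∈ A, z a) *
      (∑ A ∈ (Finset.univ : Finset (Finset E)).filter (fun A : Finset E => M.Indep (A : Set E) ∧ f ∈ A), ∏ a ∈ A, z a) ≥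
    (∑ A ∈ (Finset.univ : Finset (Finset E)).filter (fun A : Finset E => M.Indep (A : Set E) ∧ e ∈ A ∧ f ∈ A),
        ∏ a ∈ A, z a) *
      (∑ A ∈ (Finset.univ : Finset (Finset E)).filter (fun A : Finset E => M.Indep (A : Set E)), ∏ a ∈ A, z a) := by
  apply rank_four_rayleigh hE hr hef _ z hz
  intro w hw
  have h := base_nonneg hpp w hw hef
  unfold MP_16c009_co.cd at h
  linarith

end Pool.Agent.Lib.MP_16c009_coR
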