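import Mathlib

/-!
# Kernel functions for the finite check (rank four)

Seven slots `0, …, 6`.  A structure on the slots is a number whose bit number `2^i + 2^j` (`2^i + 2^j + 2^k`)
says that the pair (the triple) of slots is in the relation.
-/

set_option autoImplicit false

namespace Pool.Agent.Lib.MP_16c009_coR

/-- bit number `m` of `c` -/
def tb (c m : ℕ) : Bool := Nat.beq (Nat.land (Nat.shiftRight c m) 1) 1

/-- the code of the set of the slots `i, j` -/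
def m2 (i j : ℕ) : ℕ := Nat.add (Nat.pow 2 i) (Nat.pow 2 j)

/-- the code of the set of the slots `i, j, k` -/
def m3 (i j k : ℕ) : ℕ := Nat.add (Nat.add (Nat.pow 2 i) (Nat.pow 2 j)) (Nat.pow 2 k)

def f2 (i j : ℕ) : ℕ := Nat.pow 2 (m2 i j)

def f3 (i j k : ℕ) : ℕ := Nat.pow 2 (m3 i j k)

/-- all the bits of `m` are bits of `c` -/
def sub (c m : ℕ) : Bool := Nat.beq (Nat.land c m) m

/-- same plane -/
def sp (pl i j : ℕ) : Bool := tb pl (m2 i j)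

/-- three different planes -/
def tr (pl a b c : ℕ) : Bool := !(sp pl a b) && !(sp pl a c) && !(sp pl b c)

/-- the feature: `s` and `u` are on one line with `y` -/
def sqf (pl y s u : ℕ) : ℕ := cond (sp pl s u) (f2 s u) (f3 y s u)

/-- the feature: `x` is on the line through `a`, `b` -/
def onf (pl a b x : ℕ) : ℕ := cond (sp pl a x) (f2 a x) (cond (sp pl b x) (f2 b x) (f3 a b x))

/-- the bits: `a, u, v` are on the line `s t` -/
def lnf (pl s t a u v : ℕ) : ℕ := Nat.lor (onf pl s t a) (Nat.lor (onf pl s t u) (onf pl s t v))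

/-- a term for `r`: positive part, negative part of the coefficient, and the bits which must be present -/
abbrev Mo := ℕ × ℕ × ℕ

/-- the terms; `qM` is `1` if the bits `M` are in `q`, otherwise `0`; the same for `rM` -/
inductive Kt
  /-- `(p - n) (1 - qA) (1 - rB)` -/
  | n (p n A B : ℕ) : Kt
  /-- `-4 ok(M1) ok(M2) (q1 - q2 - q3 + q4) (r1 - r2 - r3 + r4)`, `ok(M) = qM + rM - qM rM` -/
  | s (S1 S2 S3 S4 M1 M2 : ℕ) : Kt
  /-- `-(1 - qP) qL (1 - qO) (q1 - q2 - q3 + q4) (r1 - r2 - r3 + r4)` -/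
  | x (S1 S2 S3 S4 P L O : ℕ) : Kt
  /-- `-(1 - rP) rL (1 - rO) (q1 - q2 - q3 + q4) (r1 - r2 - r3 + r4)` -/
  | y (S1 S2 S3 S4 P L O : ℕ) : Kt
  deriving DecidableEq

/-- `-c (q1 - q2 - q3 + q4) (r1 - r2 - r3 + r4) rM` -/
def quad (q c S1 S2 S3 S4 M : ℕ) : List Mo :=
  let u := Nat.add (cond (sub q S1) c 0) (cond (sub q S4) c 0)
  let v := Nat.add (cond (sub q S2) c 0) (cond (sub q S3) c 0)
  cond (Nat.beq u v) []
    [(v, u, Nat.lor M S1), (u, v, Nat.lor M S2), (u, v, Nat.lor M S3), (v, u, Nat.lor M S4)]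

/-- the negative of a list of terms -/
def ngt (l : List Mo) : List Mo := l.map fun m => (m.2.1, m.1, m.2.2)

/-- the value of a term for given `q`, as a list of terms for `r` -/
def mo (q : ℕ) : Kt → List Mo
  | Kt.n p n A B => cond (sub q A) [] [(p, n, 0), (n, p, B)]
  | Kt.s S1 S2 S3 S4 M1 M2 => quad q 4 S1 S2 S3 S4 (Nat.lor (cond (sub q M1) 0 M1) (cond (sub q M2) 0 M2))
  | Kt.x S1 S2 S3 S4 P L O => cond (!(sub q P) && sub q L && !(sub q O)) (quad q 1 S1 S2 S3 S4 0) []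
  | Kt.y S1 S2 S3 S4 P L O =>
      quad q 1 S1 S2 S3 S4 L ++ (ngt (quad q 1 S1 S2 S3 S4 (Nat.lor P L)) ++
        (ngt (quad q 1 S1 S2 S3 S4 (Nat.lor O L)) ++ quad q 1 S1 S2 S3 S4 (Nat.lor P (Nat.lor O L))))

/-- the templates; `x0, …, x6` are seven different slots -/
def tm (pl j x0 x1 x2 x3 x4 x5 x6 : ℕ) : List Kt :=
  match j with
  | 0 => cond (tr pl x0 x1 x2 && !(sp pl x3 x4) && !(sp pl x5 x6)) [Kt.n 16 0 (f3 x0 x1 x2) (f3 x0 x1 x2)] []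
  | 1 => cond (sp pl x0 x1 && !(sp pl x0 x2) && !(sp pl x3 x4) && !(sp pl x5 x6))
      [Kt.n 16 0 (f2 x0 x1) (f2 x0 x1)] []
  | 2 => cond (tr pl x0 x1 x2 && !(sp pl x3 x4) && sp pl x5 x6)
      [Kt.n 16 0 (f3 x0 x1 x2) (f2 x5 x6), Kt.n 16 0 (f2 x5 x6) (f3 x0 x1 x2)] []
  | 3 => cond (sp pl x0 x1 && !(sp pl x0 x2) && !(sp pl x3 x4) && sp pl x5 x6)
      [Kt.n 16 0 (f2 x0 x1) (f2 x5 x6), Kt.n 16 0 (f2 x5 x6) (f2 x0 x1)] []
  | 4 => cond (tr pl x0 x1 x2 && tr pl x3 x4 x5) [Kt.n 0 16 (f3 x0 x1 x2) (f3 x3 x4 x5)] []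
  | 5 => cond (tr pl x0 x1 x2 && sp pl x3 x4 && !(sp pl x3 x5))
      [Kt.n 0 16 (f3 x0 x1 x2) (f2 x3 x4), Kt.n 0 16 (f2 x3 x4) (f3 x0 x1 x2)] []
  | 6 => cond (sp pl x0 x1 && !(sp pl x0 x2) && sp pl x3 x4 && !(sp pl x3 x5))
      [Kt.n 0 16 (f2 x0 x1) (f2 x3 x4)] []
  | 7 => cond (sp pl x0 x1 && sp pl x0 x2 && sp pl x0 x3 && sp pl x0 x4 && !(sp pl x0 x5) && !(sp pl x0 x6))
      [Kt.n 0 32 (f2 x0 x1) (f2 x2 x3)] []
  | 8 => cond (sp pl x0 x1 && sp pl x0 x2 && sp pl x0 x3 && !(sp pl x0 x4) && !(sp pl x0 x5) && !(sp pl x0 x6) &&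
      !(sp pl x5 x6)) [Kt.n 0 32 (f2 x0 x1) (f2 x2 x3)] []
  | 9 => cond (sp pl x0 x1 && sp pl x0 x2 && !(sp pl x0 x3) && !(sp pl x0 x4) && !(sp pl x3 x4) &&
      !(sp pl x0 x5) && !(sp pl x0 x6) && !(sp pl x5 x6)) [Kt.n 0 16 (f2 x0 x1) (f2 x0 x1)] []
  | 10 => cond (!(sp pl x1 x2) && !(sp pl x0 x3) && !(sp pl x0 x4) && !(sp pl x0 x5) && !(sp pl x0 x6) && !(sp pl x3 x4) &&
      !(sp pl x5 x6))
      [Kt.s (sqf pl x0 x3 x5) (sqf pl x0 x3 x6) (sqf pl x0 x4 x5) (sqf pl x0 x4 x6)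
        (Nat.lor (onf pl x1 x2 x3) (onf pl x1 x2 x4)) (Nat.lor (onf pl x1 x2 x5) (onf pl x1 x2 x6))] []
  | 11 => cond (sp pl x0 x1 && !(sp pl x0 x2) && !(sp pl x0 x3) && !(sp pl x0 x4) && !(sp pl x0 x5) && !(sp pl x0 x6) &&
      !(sp pl x3 x4) && !(sp pl x5 x6))
      [Kt.x (sqf pl x0 x3 x5) (sqf pl x0 x3 x6) (sqf pl x0 x4 x5) (sqf pl x0 x4 x6) (f2 x0 x1)
        (lnf pl x3 x4 x2 x5 x6) (f3 x3 x4 x1),
       Kt.y (sqf pl x0 x3 x5) (sqf pl x0 x3 x6) (sqf pl x0 x4 x5) (sqf pl x0 x4 x6) (f2 x0 x1)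
        (lnf pl x3 x4 x2 x5 x6) (f3 x3 x4 x1)] []
  | _ => []

/-- the choices of `k` elements of `l`, with the remaining elements -/
def cs : ℕ → List ℕ → List (List ℕ × List ℕ)
  | 0, l => [([], l)]
  | _ + 1, [] => []
  | k + 1, a :: l => ((cs k l).map fun p => (a :: p.1, p.2)) ++ ((cs (k + 1) l).map fun p => (p.1, a :: p.2))

/-- the colorings with the given block sizes -/
def cols : List ℕ → List ℕ → List (List ℕ)
  | [], _ => [[]]
  | k :: ks, l => (cs k l).flatMap fun p => (cols ks p.2).map fun t => p.1 ++ t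

def L7 : List ℕ := [0, 1, 2, 3, 4, 5, 6]

/-- the sizes of the blocks of template `j` -/
def bls : ℕ → List ℕ
  | 0 => [3, 2, 2]
  | 1 => [2, 1, 2, 2]
  | 2 => [3, 2, 2]
  | 3 => [2, 1, 2, 2]
  | 4 => [3, 3, 1]
  | 5 => [3, 2, 1, 1]
  | 6 => [2, 1, 2, 1, 1]
  | 7 => [2, 2, 1, 2]
  | 8 => [2, 2, 1, 2]
  | 9 => [2, 1, 2, 2]
  | 10 => [1, 2, 2, 2]
  | 11 => [1, 1, 1, 2, 2]
  | _ => []

/-- template `j` at a list of seven slots -/
def tml (pl j : ℕ) : List ℕ → List Kt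
  | [a, b, c, d, e, f, g] => tm pl j a b c d e f g
  | _ => []

/-- all the terms for a plane code -/
def raw (pl : ℕ) : List Kt :=
  [0, 1, 2, 3, 4, 5, 6, 7, 8, 9, 10, 11].flatMap fun j => (cols (bls j) L7).flatMap (tml pl j)

end Pool.Agent.Lib.MP_16c009_coR
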