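import Pool.Agent.Lib.MP_16c009_coR.KA

/-!
# Enumeration of the structures
-/

set_option autoImplicit false

namespace Pool.Agent.Lib.MP_16c009_coR

/-- the bits of `c` in `M`: none, one, or all -/
def okc (c M : ℕ) : Bool :=
  Nat.beq (Nat.land (Nat.land c M) (Nat.sub (Nat.land c M) 1)) 0 || Nat.beq (Nat.land c M) M

/-- all codes satisfying the constraints -/
def dfs : List (ℕ × List ℕ) → ℕ → List ℕ → List ℕ
  | [], c, acc => c :: acc
  | (f, l) :: rest, c, acc =>
    cond (l.all (okc c))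
      (dfs rest c (cond (l.all (okc (Nat.lor c f))) (dfs rest (Nat.lor c f) acc) acc))
      (cond (l.all (okc (Nat.lor c f))) (dfs rest (Nat.lor c f) acc) acc)

/-- distribute the constraints: each one at its last feature -/
def plan (cons : List ℕ) : ℕ → List ℕ → List (ℕ × List ℕ)
  | _, [] => []
  | done, f :: rest =>
    (f, cons.filter fun M => sub (Nat.lor done f) M && !(sub done M)) :: plan cons (Nat.lor done f) rest

/-- pairs `i < j`, triples and quadruples of slots -/
def prs : List (ℕ × ℕ) := L7.flatMap fun j => (L7.filter (· < j)).map fun i => (i, j)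
def trs : List (ℕ × ℕ × ℕ) := L7.flatMap fun k => (L7.filter (· < k)).flatMap fun j => (L7.filter (· < j)).map fun i => (i, j, k)
def qds : List (ℕ × ℕ × ℕ × ℕ) :=
  L7.flatMap fun l => (L7.filter (· < l)).flatMap fun k => (L7.filter (· < k)).flatMap fun j => (L7.filter (· < j)).map fun i => (i, j, k, l)

/-- the features of a plane code (as bits) -/
def feats (pl : ℕ) : List ℕ :=
  ((prs.filter fun p => sp pl p.1 p.2).map fun p => f2 p.1 p.2) ++
    ((trs.filter fun t => tr pl t.1 t.2.1 t.2.2).map fun t => f3 t.1 t.2.1 t.2.2)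

/-- the constraints of a plane code -/
def cons (pl : ℕ) : List ℕ :=
  ((trs.filter fun t => sp pl t.1 t.2.1 && sp pl t.1 t.2.2).map fun t =>
    Nat.lor (f2 t.1 t.2.1) (Nat.lor (f2 t.1 t.2.2) (f2 t.2.1 t.2.2))) ++
  ((prs.filter fun p => sp pl p.1 p.2).flatMap fun p =>
    (prs.filter fun r => tr pl p.1 r.1 r.2).map fun r =>
      Nat.lor (f2 p.1 p.2) (Nat.lor (f3 p.1 r.1 r.2) (f3 p.2 r.1 r.2))) ++
  ((qds.filter fun t => tr pl t.1 t.2.1 t.2.2.1 && !(sp pl t.1 t.2.2.2) && !(sp pl t.2.1 t.2.2.2) && !(sp pl t.2.2.1 t.2.2.2)).map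
    fun t => Nat.lor (Nat.lor (f3 t.1 t.2.1 t.2.2.1) (f3 t.1 t.2.1 t.2.2.2)) (Nat.lor (f3 t.1 t.2.2.1 t.2.2.2) (f3 t.2.1 t.2.2.1 t.2.2.2)))

/-- all the structures on a plane code -/
def RL (pl : ℕ) : List ℕ := dfs (plan (cons pl) 0 (feats pl)) 0 []

/-- exchange of two slots; `d.2` = the sets which contain the first and not the second, `d.1` the difference -/
def sw (d : ℕ × ℕ) (c : ℕ) : ℕ :=
  Nat.xor c (Nat.xor (Nat.land (Nat.xor (Nat.shiftRight c d.1) c) d.2)
    (Nat.shiftLeft (Nat.land (Nat.xor (Nat.shiftRight c d.1) c) d.2) d.1))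

def mskA (a b : ℕ) : ℕ :=
  (List.range 128).foldl (fun s m => cond (tb m a && !(tb m b)) (Nat.add s (Nat.pow 2 m)) s) 0

/-- the exchanges -/
def sws : List (ℕ × ℕ) := prs.map fun p => (Nat.sub (Nat.pow 2 p.2) (Nat.pow 2 p.1), mskA p.1 p.2)

/-- all the plane codes -/
def PA : List ℕ :=
  dfs (plan (trs.map fun t => Nat.lor (f2 t.1 t.2.1) (Nat.lor (f2 t.1 t.2.2) (f2 t.2.1 t.2.2))) 0
    (prs.map fun p => f2 p.1 p.2)) 0 []

/-- maximal under the products of two exchanges -/
def lmp (pl : ℕ) : Bool := sws.all fun s => Nat.ble (sw s pl) pl && sws.all fun t => Nat.ble (sw t (sw s pl)) pl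

/-- the plane codes which are to be considered -/
def PL : List ℕ := PA.filter lmp

/-- `q` is maximal under the exchanges, and the products of two exchanges, which fix `pl` -/
def lmx (pl q : ℕ) : Bool :=
  (sws.all fun s => !(Nat.beq (sw s pl) pl) || Nat.ble (sw s q) q) &&
    sws.all fun s => sws.all fun t => !(Nat.beq (sw t (sw s pl)) pl) || Nat.ble (sw t (sw s q)) q

def QL (pl : ℕ) : List ℕ := (RL pl).filter (lmx pl)

end Pool.Agent.Lib.MP_16c009_coR
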