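import Pool.Agent.Lib.MP_16c009_coR.KA

/-!
# The values of the terms
-/

set_option autoImplicit false

namespace Pool.Agent.Lib.MP_16c009_coR

/-- one if all the bits of `m` are in `c`, otherwise zero -/
def bi (c m : ℕ) : ℤ := cond (sub c m) 1 0

theorem bi_true {c m : ℕ} (h : sub c m = true) : bi c m = 1 := by
  unfold bi
  rw [h]
  rfl

theorem bi_false {c m : ℕ} (h : sub c m = false) : bi c m = 0 := by
  unfold bi
  rw [h]
  rfl

/-- `q1 - q2 - q3 + q4` -/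
def qd (c S1 S2 S3 S4 : ℕ) : ℤ := bi c S1 - bi c S2 - bi c S3 + bi c S4

/-- `qM + rM - qM rM` -/
def okM (q r M : ℕ) : ℤ := bi q M + bi r M - bi q M * bi r M

/-- the value of a term -/
def evK (q r : ℕ) : Kt → ℤ
  | Kt.n p n A B => ((p : ℤ) - n) * (1 - bi q A) * (1 - bi r B)
  | Kt.s S1 S2 S3 S4 M1 M2 => -4 * okM q r M1 * okM q r M2 * qd q S1 S2 S3 S4 * qd r S1 S2 S3 S4
  | Kt.x S1 S2 S3 S4 P L O => -((1 - bi q P) * bi q L * (1 - bi q O)) * qd q S1 S2 S3 S4 * qd r S1 S2 S3 S4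
  | Kt.y S1 S2 S3 S4 P L O => -((1 - bi r P) * bi r L * (1 - bi r O)) * qd q S1 S2 S3 S4 * qd r S1 S2 S3 S4

/-- the value of a term for `r` -/
def evM (r : ℕ) (m : Mo) : ℤ := ((m.1 : ℤ) - m.2.1) * bi r m.2.2

end Pool.Agent.Lib.MP_16c009_coR
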