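import Pool.Agent.Lib.MP_16c009_coR.KC
import Pool.Agent.Lib.MP_16c009_coR.KD

/-!
# Packed numbers
-/

set_option autoImplicit false

namespace Pool.Agent.Lib.MP_16c009_coR

theorem KE_bi_zero (r : ℕ) : bi r 0 = 1 := by
  unfold bi sub
  have : Nat.land r 0 = 0 := Nat.and_zero r
  rw [this]
  rfl

theorem KE_bi_lor (r A B : ℕ) : bi r (Nat.lor A B) = bi r A * bi r B := by
  have h : sub r (Nat.lor A B) = (sub r A && sub r B) := by
    rw [Bool.eq_iff_iff, Bool.and_eq_true]
    unfold sub
    rw [Nat.beq_eq, Nat.beq_eq, Nat.beq_eq]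
    show r &&& (A ||| B) = A ||| B ↔ r &&& A = A ∧ r &&& B = B
    constructor
    · intro h
      constructor
      · refine Nat.eq_of_testBit_eq fun i => ?_
        have h1 := congrArg (fun x => x.testBit i) h
        simp only [Nat.testBit_and, Nat.testBit_or] at h1 ⊢
        cases hr : r.testBit i <;> cases ha : A.testBit i <;> simp_all
      · refine Nat.eq_of_testBit_eq fun i => ?_
        have h1 := congrArg (fun x => x.testBit i) h
        simp only [Nat.testBit_and, Nat.testBit_or] at h1 ⊢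
        cases hr : r.testBit i <;> cases ha : B.testBit i <;> simp_all
    · rintro ⟨h1, h2⟩
      rw [Nat.and_or_distrib_left, h1, h2]
  unfold bi
  rw [h]
  cases sub r A <;> cases sub r B <;> rfl

theorem KE_quad (q r c S1 S2 S3 S4 M : ℕ) : ((quad q c S1 S2 S3 S4 M).map (evM r)).sum =
    -(c : ℤ) * qd q S1 S2 S3 S4 * qd r S1 S2 S3 S4 * bi r M := by
  have key : ∀ u v : ℕ, (u : ℤ) - v = (c : ℤ) * qd q S1 S2 S3 S4 →
      ((cond (Nat.beq u v) [] [(v, u, Nat.lor M S1), (u, v, Nat.lor M S2), (u, v, Nat.lor M S3),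
        (v, u, Nat.lor M S4)] : List Mo).map (evM r)).sum =
      -(c : ℤ) * qd q S1 S2 S3 S4 * qd r S1 S2 S3 S4 * bi r M := by
    intro u v huv
    cases h : Nat.beq u v with
    | true =>
      rw [Nat.beq_eq] at h
      rw [h, sub_self] at huv
      rw [cond_true, neg_mul, ← huv]
      simp
    | false =>
      rw [cond_false]
      simp only [List.map_cons, List.map_nil, List.sum_cons, List.sum_nil, evM, KE_bi_lor]
      rw [neg_mul, ← huv]
      unfold qd
      ring
  unfold quad
  refine key _ _ ?_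
  unfold qd bi
  show ((cond (sub q S1) c 0 + cond (sub q S4) c 0 : ℕ) : ℤ) - ((cond (sub q S2) c 0 + cond (sub q S3) c 0 : ℕ) : ℤ) = _
  cases sub q S1 <;> cases sub q S2 <;> cases sub q S3 <;> cases sub q S4 <;> simp <;> ring

theorem KE_ngt (r : ℕ) (l : List Mo) : ((ngt l).map (evM r)).sum = -(l.map (evM r)).sum := by
  unfold ngt
  induction l with
  | nil => simp
  | cons a l ih =>
    simp only [List.map_cons, List.sum_cons] at ih ⊢
    rw [ih]
    unfold evM
    ring

/-- PROOF. Cases for `t`; in every case unfold `mo`, `evK`, `quad`, `ngt`, `evM`, `qd`, `okM`, and use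
`bi r (Nat.lor A B) = bi r A * bi r B` (KE_bi_lor below), `bi r 0 = 1`. For `quad q c S1 S2 S3 S4 M`: its sum is
`-(c : ℤ) * qd q S1 S2 S3 S4 * qd r S1 S2 S3 S4 * bi r M` (also if `u = v`, then `qd q … = 0` or `c = 0`): split
on the values of `sub q Si`. For `Kt.s`: `okM q r M1 = bi r (cond (sub q M1) 0 M1)` in both cases. -/
theorem mo_sound (q r : ℕ) (t : Kt) : ((mo q t).map (evM r)).sum = evK q r t := by
  cases t with
  | n p n A B =>
    simp only [mo, evK]
    cases h : sub q A with
    | true =>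
      rw [cond_true, bi_true h]
      simp
    | false =>
      rw [cond_false, bi_false h]
      simp only [List.map_cons, List.map_nil, List.sum_cons, List.sum_nil, evM, KE_bi_zero]
      push_cast
      ring
  | s S1 S2 S3 S4 M1 M2 =>
    simp only [mo, evK]
    rw [KE_quad, KE_bi_lor]
    have h1 : ∀ M, bi r (cond (sub q M) 0 M) = okM q r M := by
      intro M
      unfold okM
      cases h : sub q M with
      | true => rw [cond_true, bi_true h, KE_bi_zero]; ring
      | false => rw [cond_false, bi_false h]; ring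
    rw [h1, h1]
    push_cast
    ring
  | x S1 S2 S3 S4 P L O =>
    simp only [mo, evK]
    have e0 := KE_bi_zero r
    have e1 : bi q P = cond (sub q P) 1 0 := rfl
    have e2 : bi q L = cond (sub q L) 1 0 := rfl
    have e3 : bi q O = cond (sub q O) 1 0 := rfl
    rw [e1, e2, e3]
    cases sub q P <;> cases sub q L <;> cases sub q O <;> simp [KE_quad, e0]
  | y S1 S2 S3 S4 P L O =>
    simp only [mo, evK]
    simp only [List.map_append, List.sum_append, KE_ngt, KE_quad, KE_bi_lor]
    push_cast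
    ring

/-- packing of a list of numbers -/
def pkl : List ℕ → ℕ
  | [] => 0
  | a :: l => a + 2 ^ 64 * pkl l

/-- packing of the values of a function -/
def pkf (f : ℕ → ℕ) (l : List ℕ) : ℕ := pkl (l.map f)

variable {f g : ℕ → ℕ} {l : List ℕ}

theorem KE_shl (a : ℕ) : Nat.shiftLeft a 64 = 2 ^ 64 * a := by
  have : Nat.shiftLeft a 64 = a * 2 ^ 64 := Nat.shiftLeft_eq a 64
  rw [this, mul_comm]

theorem pk_eq (l : List ℕ) : pk l = pkf fo l := by
  induction l with
  | nil => rfl
  | cons a l ih =>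
    show fo a + Nat.shiftLeft (pk l) 64 = fo a + 2 ^ 64 * pkl (l.map fo)
    rw [KE_shl, ih]
    rfl

theorem pk1_eq (l : List ℕ) : pk1 l = pkf (fun _ => 1) l := by
  induction l with
  | nil => rfl
  | cons a l ih =>
    show 1 + Nat.shiftLeft (pk1 l) 64 = 1 + 2 ^ 64 * pkl (l.map fun _ => 1)
    rw [KE_shl, ih]
    rfl

theorem pkf_cons (f : ℕ → ℕ) (a : ℕ) (l : List ℕ) : pkf f (a :: l) = f a + 2 ^ 64 * pkf f l := rfl

theorem pkf_add : pkf f l + pkf g l = pkf (fun r => f r + g r) l := by
  induction l with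
  | nil => rfl
  | cons a l ih =>
    rw [pkf_cons, pkf_cons, pkf_cons, ← ih]
    ring

theorem pkf_mul (c : ℕ) : c * pkf f l = pkf (fun r => c * f r) l := by
  induction l with
  | nil => rfl
  | cons a l ih =>
    rw [pkf_cons, pkf_cons, ← ih]
    ring

/-- PROOF. Induction on `l`; bits: `Nat.testBit_two_pow_mul_add` (for `a < 2 ^ 64`, bit `i` of `2 ^ 64 * b + a` is
bit `i` of `a` for `i < 64` and bit `i - 64` of `b` otherwise). -/
theorem pkf_land (hf : ∀ r ∈ l, f r < 2 ^ 64) (hg : ∀ r ∈ l, g r < 2 ^ 64) :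
    Nat.land (pkf f l) (pkf g l) = pkf (fun r => Nat.land (f r) (g r)) l := by
  induction l with
  | nil => show (0 &&& 0 : ℕ) = 0; rfl
  | cons a l ih =>
    have h1 := ih (fun r hr => hf r (List.mem_cons_of_mem _ hr)) (fun r hr => hg r (List.mem_cons_of_mem _ hr))
    have ha : f a < 2 ^ 64 := hf a List.mem_cons_self
    have hb : g a < 2 ^ 64 := hg a List.mem_cons_self
    have hc : f a &&& g a < 2 ^ 64 := lt_of_le_of_lt Nat.and_le_left ha
    rw [pkf_cons, pkf_cons, pkf_cons, ← h1, add_comm (f a), add_comm (g a), add_comm (Nat.land (f a) (g a))]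
    show (2 ^ 64 * pkf f l + f a) &&& (2 ^ 64 * pkf g l + g a) = 2 ^ 64 * (pkf f l &&& pkf g l) + (f a &&& g a)
    refine Nat.eq_of_testBit_eq fun i => ?_
    rw [Nat.testBit_and, Nat.testBit_two_pow_mul_add _ ha, Nat.testBit_two_pow_mul_add _ hb,
      Nat.testBit_two_pow_mul_add _ hc]
    split_ifs
    · rw [Nat.testBit_and]
    · rw [Nat.testBit_and]

theorem pkf_le (h : ∀ r ∈ l, g r ≤ f r) : pkf g l ≤ pkf f l := by
  induction l with
  | nil => exact le_refl _
  | cons a l ih =>
    have h1 := ih (fun r hr => h r (List.mem_cons_of_mem _ hr))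
    have h2 := h a List.mem_cons_self
    rw [pkf_cons, pkf_cons]
    omega

theorem pkf_sub (h : ∀ r ∈ l, g r ≤ f r) : pkf f l - pkf g l = pkf (fun r => f r - g r) l := by
  induction l with
  | nil => rfl
  | cons a l ih =>
    have h0 : ∀ r ∈ l, g r ≤ f r := fun r hr => h r (List.mem_cons_of_mem _ hr)
    have h1 := ih h0
    have h2 := h a List.mem_cons_self
    have h3 := pkf_le h0
    rw [pkf_cons, pkf_cons, pkf_cons, ← h1]
    omega

/-- The top bits. PROOF. Induction on `l`: for `a < 2 ^ 64`, `(a + 2 ^ 64 b) >>> 63 = (a >>> 63) + 2 b`, with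
`a >>> 63 < 2`; bits: bit `0` of the left side is bit `63` of `a`; bit `64 + i` of the left side is the bit
`63 + 64 + i` of `a + 2 ^ 64 b` and bit `64 + i` of `1 + 2 ^ 64 …`; the bits `1, …, 63` are zero. -/
theorem pkf_top (hf : ∀ r ∈ l, f r < 2 ^ 64) :
    Nat.land (Nat.shiftRight (pkf f l) 63) (pkf (fun _ => 1) l) = pkf (fun r => Nat.shiftRight (f r) 63) l := by
  induction l with
  | nil => show ((0 >>> 63) &&& 0 : ℕ) = 0; rfl
  | cons a l ih =>
    have h1 := ih (fun r hr => hf r (List.mem_cons_of_mem _ hr))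
    have ha : f a < 2 ^ 64 := hf a List.mem_cons_self
    have hone : (1 : ℕ) < 2 ^ 64 := by norm_num
    have hc : f a >>> 63 < 2 := by
      rw [Nat.shiftRight_eq_div_pow]
      omega
    have hc' : f a >>> 63 < 2 ^ 64 := lt_trans hc (by norm_num)
    rw [pkf_cons, pkf_cons, pkf_cons, ← h1, add_comm (f a), add_comm 1, add_comm (Nat.shiftRight (f a) 63)]
    show ((2 ^ 64 * pkf f l + f a) >>> 63) &&& (2 ^ 64 * pkf (fun _ => 1) l + 1) =
      2 ^ 64 * ((pkf f l >>> 63) &&& pkf (fun _ => 1) l) + (f a >>> 63)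
    refine Nat.eq_of_testBit_eq fun i => ?_
    rw [Nat.testBit_and, Nat.testBit_shiftRight, Nat.testBit_two_pow_mul_add _ ha,
      Nat.testBit_two_pow_mul_add _ hone, Nat.testBit_two_pow_mul_add _ hc']
    by_cases hi : i < 64
    · rw [if_pos hi, if_pos hi]
      by_cases hi0 : i = 0
      · subst hi0
        rw [if_pos (by norm_num), Nat.testBit_shiftRight]
        simp
      · have e1 : Nat.testBit 1 i = false := by
          rw [Nat.testBit_eq_decide_div_mod_eq, Nat.div_eq_of_lt (Nat.one_lt_two_pow hi0)]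
          rfl
        rw [e1, Bool.and_false, Nat.testBit_shiftRight]
        symm
        exact Nat.testBit_lt_two_pow (lt_of_lt_of_le ha (Nat.pow_le_pow_right (by norm_num) (by omega)))
    · rw [if_neg hi, if_neg (by omega), if_neg hi, Nat.testBit_and, Nat.testBit_shiftRight]
      have : 63 + i - 64 = 63 + (i - 64) := by omega
      rw [this]

theorem pkf_inj (hf : ∀ r ∈ l, f r < 2 ^ 64) (hg : ∀ r ∈ l, g r < 2 ^ 64) (h : pkf f l = pkf g l) :
    ∀ r ∈ l, f r = g r := by
  induction l with
  | nil => intro r hr; exact absurd hr List.not_mem_nil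
  | cons a l ih =>
    have ha : f a < 2 ^ 64 := hf a List.mem_cons_self
    have hb : g a < 2 ^ 64 := hg a List.mem_cons_self
    rw [pkf_cons, pkf_cons] at h
    have h1 : f a = g a := by omega
    have h2 : pkf f l = pkf g l := by omega
    intro r hr
    rcases List.mem_cons.1 hr with rfl | hr
    · exact h1
    · exact ih (fun r hr => hf r (List.mem_cons_of_mem _ hr)) (fun r hr => hg r (List.mem_cons_of_mem _ hr)) h2 r hr

theorem pkf_congr (h : ∀ r ∈ l, f r = g r) : pkf f l = pkf g l := by
  unfold pkf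
  rw [List.map_congr_left h]

end Pool.Agent.Lib.MP_16c009_coR
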