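import Pool.Agent.Lib.MP_16c009_coR.KE
import Pool.Agent.Lib.MP_16c009_coR.A3

/-!
# The packed check is sound
-/

set_option autoImplicit false

namespace Pool.Agent.Lib.MP_16c009_coR

variable {l : List ℕ}

/-- PROOF. Bits: `(fo c).testBit i = (i < 64 && c.testBit i) || c.testBit (i + 64)` (`Nat.testBit_or`,
`Nat.testBit_and`, `Nat.testBit_shiftRight`, the bits of `2 ^ 64 - 1`: `Nat.testBit_two_pow_sub_one`). -/
theorem fo_testBit (c i : ℕ) : (fo c).testBit i = ((decide (i < 64) && c.testBit i) || c.testBit (i + 64)) := by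
  show ((c &&& 18446744073709551615) ||| (c >>> 64)).testBit i = _
  have h : (18446744073709551615 : ℕ) = 2 ^ 64 - 1 := by norm_num
  rw [h, Nat.testBit_or, Nat.testBit_and, Nat.testBit_shiftRight, Nat.testBit_two_pow_sub_one,
    Bool.and_comm, Nat.add_comm 64 i]

theorem KF_phi {F : ℕ} (hF : phiOk F = true) : fo F < 2 ^ 63 ∧ F < 2 ^ 128 ∧
    ∀ i, i < 64 → F.testBit i = true → F.testBit (i + 64) = true → False := by
  unfold phiOk at hF
  rw [Bool.and_eq_true, Bool.and_eq_true, Nat.blt_eq, Nat.blt_eq, Nat.beq_eq] at hF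
  obtain ⟨h1, h2, h3⟩ := hF
  refine ⟨h1, h2, fun i hi h4 h5 => ?_⟩
  have h6 : ((F &&& 18446744073709551615) &&& (F >>> 64)).testBit i = false := by
    have h7 : (F &&& 18446744073709551615) &&& (F >>> 64) = 0 := h3
    rw [h7, Nat.zero_testBit]
  have h : (18446744073709551615 : ℕ) = 2 ^ 64 - 1 := by norm_num
  rw [h, Nat.testBit_and, Nat.testBit_and, Nat.testBit_shiftRight, Nat.testBit_two_pow_sub_one, h4,
    Nat.add_comm 64 i, h5, decide_eq_true hi] at h6
  exact absurd h6 (by decide)

/-- PROOF. `sub_iff`, `fo_testBit`; `F`, `r`, `m` have no bits from `128` on (`F < 2 ^ 128`, `r ⊆ F`), and no bit `i < 64`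
of `F` has the bit `i + 64` in `F`. Direction from the folded statement: let `m` have the bit `i`, so `F` has it,
`i < 128`. If `i < 64`: `fo m` has the bit `i`, so `fo r` has it, so `r` has the bit `i` or the bit `i + 64`; the
second gives the bit `i + 64` of `F`, impossible. If `64 ≤ i`: `fo m` has the bit `i - 64`, so `r` has the bit
`i - 64` or the bit `i`; the first is impossible. -/
theorem sub_fo {F r m : ℕ} (hF : phiOk F = true) (hr : sub F r = true) (hm : sub F m = true) :
    sub (fo r) (fo m) = sub r m := by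
  obtain ⟨-, hF2, hF3⟩ := KF_phi hF
  rw [sub_iff] at hr hm
  rw [Bool.eq_iff_iff, sub_iff, sub_iff]
  constructor
  · intro h i hi
    have hFi := hm i hi
    have hi128 : i < 128 := by
      by_contra hcon
      have h1 : F < 2 ^ i := lt_of_lt_of_le hF2 (Nat.pow_le_pow_right (by norm_num) (not_lt.1 hcon))
      rw [Nat.testBit_lt_two_pow h1] at hFi
      exact absurd hFi (by decide)
    by_cases h64 : i < 64
    · have h1 : (fo m).testBit i = true := by
        rw [fo_testBit, hi, decide_eq_true h64]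
        rfl
      have h2 := h i h1
      rw [fo_testBit, Bool.or_eq_true, Bool.and_eq_true] at h2
      rcases h2 with h2 | h2
      · exact h2.2
      · exact absurd (hr _ h2) (fun h3 => hF3 i h64 hFi h3)
    · obtain ⟨j, rfl⟩ : ∃ j, i = j + 64 := ⟨i - 64, by omega⟩
      have hj : j < 64 := by omega
      have h1 : (fo m).testBit j = true := by
        rw [fo_testBit, hi, Bool.or_true]
      have h2 := h j h1
      rw [fo_testBit, Bool.or_eq_true, Bool.and_eq_true] at h2
      rcases h2 with h2 | h2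
      · exact absurd (hr _ h2.2) (fun h3 => hF3 j hj h3 hFi)
      · exact h2
  · intro h i hi
    rw [fo_testBit, Bool.or_eq_true, Bool.and_eq_true] at hi
    rw [fo_testBit, Bool.or_eq_true, Bool.and_eq_true]
    rcases hi with hi | hi
    · exact Or.inl ⟨hi.1, h i hi.2⟩
    · exact Or.inr (h _ hi)

theorem fo_lt {F m : ℕ} (hF : phiOk F = true) (hm : sub F m = true) : fo m < 2 ^ 63 := by
  obtain ⟨h1, -, -⟩ := KF_phi hF
  have h2 : sub (fo F) (fo m) = true := by
    rw [sub_iff] at hm ⊢
    intro i hi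
    rw [fo_testBit, Bool.or_eq_true, Bool.and_eq_true] at hi
    rw [fo_testBit, Bool.or_eq_true, Bool.and_eq_true]
    rcases hi with hi | hi
    · exact Or.inl ⟨hi.1, hm i hi.2⟩
    · exact Or.inr (hm _ hi)
  have h3 : (fo F) &&& (fo m) = fo m := by
    unfold sub at h2
    rw [Nat.beq_eq] at h2
    exact h2
  rw [← h3]
  exact lt_of_le_of_lt Nat.and_le_left h1

theorem KF_field {x y : ℕ} (hy : y < 2 ^ 63) :
    Nat.shiftRight (Nat.land x y + (9223372036854775808 - y)) 63 = cond (sub x y) 1 0 := by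
  have e : (9223372036854775808 : ℕ) = 2 ^ 63 := by norm_num
  have h1 : Nat.land x y ≤ y := Nat.and_le_right
  have e2 : Nat.shiftRight (Nat.land x y + (9223372036854775808 - y)) 63 =
      (Nat.land x y + (2 ^ 63 - y)) / 2 ^ 63 := by
    rw [e]
    exact Nat.shiftRight_eq_div_pow _ _
  rw [e2]
  by_cases h : Nat.land x y = y
  · have h2 : sub x y = true := by
      unfold sub
      rw [Nat.beq_eq]
      exact h
    rw [h2, h]
    have h3 : y + (2 ^ 63 - y) = 2 ^ 63 := by omega
    rw [h3]
    norm_num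
  · have h2 : sub x y = false := by
      rw [← Bool.not_eq_true]
      unfold sub
      rw [Nat.beq_eq]
      exact h
    rw [h2]
    have h3 : Nat.land x y + (2 ^ 63 - y) < 2 ^ 63 := by omega
    rw [Nat.div_eq_of_lt h3]
    rfl

/-- PROOF. For `m = 0` this is `sub _ 0 = true` (`fo 0 = 0`). Otherwise `pkf_mul`, `pkf_land`, `pkf_add`, `pkf_top`; for one field `x = fo r < 2 ^ 63`,
`y = fo m < 2 ^ 63`: `x &&& y ≤ y`, so `(x &&& y) + (2 ^ 63 - y) ≤ 2 ^ 63 < 2 ^ 64`, and its bit `63` is set iff
`x &&& y = y`, that is `sub x y = true`. -/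
theorem vec_eq {F m : ℕ} (hF : phiOk F = true) (hl : ∀ r ∈ l, sub F r = true) (hm : sub F m = true) :
    vec (pkf fo l) (pkf (fun _ => 1) l) m = pkf (fun r => cond (sub r m) 1 0) l := by
  unfold vec
  by_cases h0 : m = 0
  · subst h0
    have h1 : Nat.beq 0 0 = true := rfl
    rw [h1, cond_true]
    refine pkf_congr fun r _ => ?_
    rw [sub_zero]
    rfl
  · have h1 : Nat.beq m 0 = false := by
      rw [← Bool.not_eq_true, Nat.beq_eq]
      exact h0
    rw [h1, cond_false]
    have hy := fo_lt hF hm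
    have e1 : Nat.mul (fo m) (pkf (fun _ => 1) l) = pkf (fun _ => fo m * 1) l := pkf_mul (fo m)
    have e2 : Nat.mul (Nat.sub 9223372036854775808 (fo m)) (pkf (fun _ => 1) l) =
        pkf (fun _ => (9223372036854775808 - fo m) * 1) l := pkf_mul _
    have e3 : Nat.land (pkf fo l) (pkf (fun _ => fo m * 1) l) =
        pkf (fun r => Nat.land (fo r) (fo m * 1)) l := by
      refine pkf_land (fun r hr => ?_) (fun r _ => ?_)
      · exact lt_trans (fo_lt hF (hl r hr)) (by norm_num)
      · rw [mul_one]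
        exact lt_trans hy (by norm_num)
    have e4 : Nat.add (pkf (fun r => Nat.land (fo r) (fo m * 1)) l)
        (pkf (fun _ => (9223372036854775808 - fo m) * 1) l) =
        pkf (fun r => Nat.land (fo r) (fo m * 1) + (9223372036854775808 - fo m) * 1) l := pkf_add
    rw [e1, e2, e3, e4, pkf_top]
    · refine pkf_congr fun r hr => ?_
      rw [mul_one, mul_one, KF_field hy, sub_fo hF (hl r hr) hm]
    · intro r _
      have h2 : Nat.land (fo r) (fo m * 1) ≤ fo m * 1 := Nat.and_le_right
      rw [mul_one] at h2 ⊢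
      rw [mul_one]
      have h3 : (9223372036854775808 : ℕ) = 2 ^ 63 := by norm_num
      have h4 : (2 : ℕ) ^ 64 = 2 ^ 63 + 2 ^ 63 := by norm_num
      omega

/-- PROOF. `pkf_mul`, `pkf_add`, `pkf_sub`, `pkf_land`, `pkf_inj`: for every field
`(P + 2 ^ 63 - N) &&& 2 ^ 63 = 2 ^ 63` with `P, N < 2 ^ 63`, so `P + 2 ^ 63 - N ≥ 2 ^ 63`. -/
theorem fin_sound {P N : ℕ → ℕ} (hP : ∀ r ∈ l, P r < 2 ^ 63) (hN : ∀ r ∈ l, N r < 2 ^ 63)
    (h : fin (pkf (fun _ => 1) l) (pkf P l) (pkf N l) = true) : ∀ r ∈ l, N r ≤ P r := by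
  unfold fin at h
  rw [Nat.beq_eq] at h
  have e0 : (9223372036854775808 : ℕ) = 2 ^ 63 := by norm_num
  have e1 : Nat.mul 9223372036854775808 (pkf (fun _ => 1) l) =
      pkf (fun _ => 9223372036854775808 * 1) l := pkf_mul _
  have e2 : Nat.add (pkf P l) (pkf (fun _ => 9223372036854775808 * 1) l) =
      pkf (fun r => P r + 9223372036854775808 * 1) l := pkf_add
  have e3 : Nat.sub (pkf (fun r => P r + 9223372036854775808 * 1) l) (pkf N l) =
      pkf (fun r => P r + 9223372036854775808 * 1 - N r) l := by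
    refine pkf_sub fun r hr => ?_
    have := hN r hr
    omega
  have e4 : Nat.land (pkf (fun r => P r + 9223372036854775808 * 1 - N r) l)
      (pkf (fun _ => 9223372036854775808 * 1) l) =
      pkf (fun r => Nat.land (P r + 9223372036854775808 * 1 - N r) (9223372036854775808 * 1)) l := by
    refine pkf_land (fun r hr => ?_) (fun r _ => ?_)
    · have := hP r hr
      omega
    · norm_num
  rw [e1, e2, e3, e4] at h
  have h1 := pkf_inj (fun r hr => ?_) (fun r _ => ?_) h
  · intro r hr
    have h2 := h1 r hr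
    have h3 : Nat.land (P r + 9223372036854775808 * 1 - N r) (9223372036854775808 * 1) ≤
        P r + 9223372036854775808 * 1 - N r := Nat.and_le_left
    omega
  · have h3 : Nat.land (P r + 9223372036854775808 * 1 - N r) (9223372036854775808 * 1) ≤
        9223372036854775808 * 1 := Nat.and_le_right
    omega
  · norm_num

theorem KF_upd {F : ℕ} (hF : phiOk F = true) (hl : ∀ r ∈ l, sub F r = true) {m : ℕ}
    (hm : sub F m = true) (P : ℕ → ℕ) (c : ℕ) :
    cond (Nat.beq c 0) (pkf P l) (Nat.add (pkf P l) (Nat.mul c (vec (pkf fo l) (pkf (fun _ => 1) l) m))) =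
      pkf (fun r => P r + c * cond (sub r m) 1 0) l := by
  by_cases hc : c = 0
  · subst hc
    have h1 : Nat.beq 0 0 = true := rfl
    rw [h1, cond_true]
    refine pkf_congr fun r _ => ?_
    rw [zero_mul, add_zero]
  · have h1 : Nat.beq c 0 = false := by
      rw [← Bool.not_eq_true, Nat.beq_eq]
      exact hc
    rw [h1, cond_false, vec_eq hF hl hm]
    have e1 : Nat.mul c (pkf (fun r => cond (sub r m) 1 0) l) =
        pkf (fun r => c * cond (sub r m) 1 0) l := pkf_mul c
    rw [e1]
    exact pkf_add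

theorem KF_bi (r m c : ℕ) : ((c * cond (sub r m) 1 0 : ℕ) : ℤ) = c * bi r m := by
  unfold bi
  cases sub r m <;> simp

/-- PROOF. Induction on `L`, with `vec_eq`, `pkf_mul`, `pkf_add`: the new functions are
`fun r => P r + m.1 * cond (sub r m.2.2) 1 0` (also if `m.1 = 0`), bounded by `a + m.1`. At the end `fin_sound`. -/
theorem run_sound {F : ℕ} (hF : phiOk F = true) (hl : ∀ r ∈ l, sub F r = true) (L : List Mo)
    (hL : ∀ m ∈ L, sub F m.2.2 = true) (P N : ℕ → ℕ) (a b : ℕ) (hP : ∀ r ∈ l, P r ≤ a) (hN : ∀ r ∈ l, N r ≤ b)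
    (h : run (pkf fo l) (pkf (fun _ => 1) l) L (pkf P l) (pkf N l) a b = true) :
    ∀ r ∈ l, 0 ≤ (P r : ℤ) - N r + (L.map (evM r)).sum := by
  induction L generalizing P N a b with
  | nil =>
    unfold run at h
    rw [Bool.and_eq_true, Bool.and_eq_true, Nat.blt_eq, Nat.blt_eq] at h
    obtain ⟨h1, h2, h3⟩ := h
    have e0 : (9223372036854775808 : ℕ) = 2 ^ 63 := by norm_num
    have h4 := fin_sound (fun r hr => lt_of_le_of_lt (hP r hr) (by omega))
      (fun r hr => lt_of_le_of_lt (hN r hr) (by omega)) h3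
    intro r hr
    have h5 := h4 r hr
    simp only [List.map_nil, List.sum_nil]
    omega
  | cons m L ih =>
    have hm := hL m (by simp)
    unfold run at h
    rw [KF_upd hF hl hm P m.1, KF_upd hF hl hm N m.2.1] at h
    have hle : ∀ (c r : ℕ), c * cond (sub r m.2.2) 1 0 ≤ c := by
      intro c r
      cases sub r m.2.2 <;> simp
    have h1 := ih (fun m' hm' => hL m' (List.mem_cons_of_mem _ hm')) _ _ _ _
      (fun r hr => Nat.add_le_add (hP r hr) (hle m.1 r))
      (fun r hr => Nat.add_le_add (hN r hr) (hle m.2.1 r)) h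
    intro r hr
    have h2 := h1 r hr
    rw [List.map_cons, List.sum_cons]
    have e1 := KF_bi r m.2.2 m.1
    have e2 := KF_bi r m.2.2 m.2.1
    unfold evM at h2 ⊢
    rw [Nat.cast_add, Nat.cast_add, e1, e2] at h2
    linarith

theorem KF_quad {F q c S1 S2 S3 S4 M : ℕ} (h1 : sub F S1 = true) (h2 : sub F S2 = true)
    (h3 : sub F S3 = true) (h4 : sub F S4 = true) (hM : sub F M = true) {m : Mo}
    (hm : m ∈ quad q c S1 S2 S3 S4 M) : sub F m.2.2 = true := by
  unfold quad at hm
  simp only at hm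
  have key : m ∈ ([(Nat.add (cond (sub q S2) c 0) (cond (sub q S3) c 0),
      Nat.add (cond (sub q S1) c 0) (cond (sub q S4) c 0), Nat.lor M S1),
      (Nat.add (cond (sub q S1) c 0) (cond (sub q S4) c 0),
      Nat.add (cond (sub q S2) c 0) (cond (sub q S3) c 0), Nat.lor M S2),
      (Nat.add (cond (sub q S1) c 0) (cond (sub q S4) c 0),
      Nat.add (cond (sub q S2) c 0) (cond (sub q S3) c 0), Nat.lor M S3),
      (Nat.add (cond (sub q S2) c 0) (cond (sub q S3) c 0),
      Nat.add (cond (sub q S1) c 0) (cond (sub q S4) c 0), Nat.lor M S4)] : List Mo) := by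
    revert hm
    cases Nat.beq (Nat.add (cond (sub q S1) c 0) (cond (sub q S4) c 0))
      (Nat.add (cond (sub q S2) c 0) (cond (sub q S3) c 0)) with
    | true => intro hm; exact absurd hm List.not_mem_nil
    | false => intro hm; exact hm
  simp only [List.mem_cons, List.not_mem_nil, or_false] at key
  rcases key with rfl | rfl | rfl | rfl
  · show sub F (Nat.lor M S1) = true
    rw [sub_lor, hM, h1]; rfl
  · show sub F (Nat.lor M S2) = true
    rw [sub_lor, hM, h2]; rfl
  · show sub F (Nat.lor M S3) = true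
    rw [sub_lor, hM, h3]; rfl
  · show sub F (Nat.lor M S4) = true
    rw [sub_lor, hM, h4]; rfl

theorem KF_ngt {F : ℕ} {L : List Mo} (h : ∀ m ∈ L, sub F m.2.2 = true) {m : Mo} (hm : m ∈ ngt L) :
    sub F m.2.2 = true := by
  unfold ngt at hm
  obtain ⟨m', h1, rfl⟩ := List.mem_map.1 hm
  exact h m' h1

theorem KF_cond {F : ℕ} {b : Bool} {M M' : ℕ} (h : sub F M = true) (h' : sub F M' = true) :
    sub F (cond b M M') = true := by
  cases b
  · exact h'
  · exact h

/-- All the masks are sets of features. PROOF. Unfold `mo`, `quad`, `ngt`; `sub_lor`, `sub_zero`. -/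
theorem mo_sub {F q : ℕ} {t : Kt} (ht : kOk F t = true) {m : Mo} (hm : m ∈ mo q t) : sub F m.2.2 = true := by
  cases t with
  | n p n A B =>
    have hB : sub F B = true := ht
    have hm0 : m ∈ (cond (sub q A) [] [(p, n, 0), (n, p, B)] : List Mo) := hm
    clear hm
    revert hm0
    cases sub q A with
    | true => intro hm; exact absurd hm List.not_mem_nil
    | false =>
      intro hm
      have hm2 : m ∈ ([(p, n, 0), (n, p, B)] : List Mo) := hm
      simp only [List.mem_cons, List.not_mem_nil, or_false] at hm2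
      rcases hm2 with rfl | rfl
      · exact sub_zero F
      · exact hB
  | s S1 S2 S3 S4 M1 M2 =>
    unfold kOk at ht
    simp only [Bool.and_eq_true] at ht
    obtain ⟨h1, h2, h3, h4, h5, h6⟩ := ht
    unfold mo at hm
    refine KF_quad h1 h2 h3 h4 ?_ hm
    rw [sub_lor, KF_cond (sub_zero F) h5, KF_cond (sub_zero F) h6]
    rfl
  | x S1 S2 S3 S4 P L O =>
    unfold kOk at ht
    simp only [Bool.and_eq_true] at ht
    obtain ⟨h1, h2, h3, h4⟩ := ht
    have hm0 : m ∈ (cond (!(sub q P) && sub q L && !(sub q O)) (quad q 1 S1 S2 S3 S4 0) [] : List Mo) := hm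
    clear hm
    revert hm0
    cases (!(sub q P) && sub q L && !(sub q O)) with
    | true => intro hm; exact KF_quad h1 h2 h3 h4 (sub_zero F) hm
    | false => intro hm; exact absurd hm List.not_mem_nil
  | y S1 S2 S3 S4 P L O =>
    unfold kOk at ht
    simp only [Bool.and_eq_true] at ht
    obtain ⟨h1, h2, h3, h4, hP, hL, hO⟩ := ht
    unfold mo at hm
    rw [List.mem_append, List.mem_append, List.mem_append] at hm
    rcases hm with hm | hm | hm | hm
    · exact KF_quad h1 h2 h3 h4 hL hm
    · refine KF_ngt (fun m' hm' => KF_quad h1 h2 h3 h4 ?_ hm') hm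
      rw [sub_lor, hP, hL]; rfl
    · refine KF_ngt (fun m' hm' => KF_quad h1 h2 h3 h4 ?_ hm') hm
      rw [sub_lor, hO, hL]; rfl
    · refine KF_quad h1 h2 h3 h4 ?_ hm
      rw [sub_lor, sub_lor, hP, hO, hL]; rfl

theorem KF_sum (K : List Kt) (q r : ℕ) :
    ((K.flatMap (mo q)).map (evM r)).sum = (K.map (evK q r)).sum := by
  induction K with
  | nil => rfl
  | cons t K ih =>
    rw [List.flatMap_cons, List.map_append, List.sum_append, ih, mo_sound, List.map_cons, List.sum_cons]

theorem KF_zero (l : List ℕ) : pkf (fun _ => 0) l = 0 := by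
  induction l with
  | nil => rfl
  | cons a l ih =>
    have h : pkf (fun _ => 0) (a :: l) = 0 + 2 ^ 64 * pkf (fun _ => 0) l := rfl
    rw [h, ih, mul_zero, add_zero]

/-- PROOF. `run_sound` with `P = N = 0`, `pk_eq`, `pk1_eq`, `mo_sub`, `mo_sound` (`pkf (fun _ => 0) l = 0`; the sum
over `K.flatMap (mo q)` is the sum over `K` of the sums over `mo q t`). -/
theorem okQ_sound {F q : ℕ} {K : List Kt} (hF : phiOk F = true) (hl : l.all (sub F) = true)
    (hK : K.all (kOk F) = true) (h : okQ K q (pk l) (pk1 l) = true) : ∀ r ∈ l, 0 ≤ (K.map (evK q r)).sum := by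
  rw [List.all_eq_true] at hl hK
  unfold okQ at h
  rw [pk_eq, pk1_eq] at h
  have h1 : ∀ m ∈ K.flatMap (mo q), sub F m.2.2 = true := by
    intro m hm
    obtain ⟨t, ht, hmt⟩ := List.mem_flatMap.1 hm
    exact mo_sub (hK t ht) hmt
  have h2 := run_sound (P := fun _ => 0) (N := fun _ => 0) (a := 0) (b := 0) hF hl
    (K.flatMap (mo q)) h1 (fun _ _ => le_rfl) (fun _ _ => le_rfl) (by rw [KF_zero]; exact h)
  intro r hr
  have h3 := h2 r hr
  rw [KF_sum] at h3
  simpa using h3

end Pool.Agent.Lib.MP_16c009_coR
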