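import Pool.Agent.Lib.MP_16c009_coR.KF

/-!
# Assembly of the check of one plane code
-/

set_option autoImplicit false

namespace Pool.Agent.Lib.MP_16c009_coR

theorem eqL_eq : ∀ {l m : List ℕ}, eqL l m = true → l = m
  | [], [], _ => rfl
  | a :: l, b :: m, h => by
    unfold eqL at h
    rw [Bool.and_eq_true, Nat.beq_eq] at h
    rw [h.1, eqL_eq h.2]
  | [], _ :: _, h => by
    unfold eqL at h
    exact absurd h (by decide)
  | _ :: _, [], h => by
    unfold eqL at h
    exact absurd h (by decide)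

theorem check_of {P C O : ℕ} {Q : List ℕ} {K : List Kt} (h1 : chkR P C O Q = true) (h2 : raw P = K)
    (h3 : K.all (kOk (phi P)) = true) (h4 : ∀ q ∈ Q, okQ K q C O = true) :
    ∀ q ∈ QL P, ∀ r ∈ RL P, 0 ≤ ((raw P).map (evK q r)).sum := by
  intro q hq
  unfold chkR at h1
  rw [Bool.and_eq_true, Bool.and_eq_true, Bool.and_eq_true, Bool.and_eq_true, Nat.beq_eq, Nat.beq_eq] at h1
  obtain ⟨a1, a2, a3, a4, a5⟩ := h1
  have h5 := h4 q (eqL_eq a5 ▸ hq)
  rw [← a3, ← a4] at h5
  rw [h2]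
  exact okQ_sound a1 a2 h3 h5

end Pool.Agent.Lib.MP_16c009_coR
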